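import Pool.Agent.H75.STAT.CellM

/-!
# The wide cell

As `CellM`, with: a back extension by a factor `A`; the gap `θ` and the variation `τ` in the radius
as separate numbers; a bound `s` for the backward slopes of the diagonals at all scales; and, at
finitely many pairs of offsets `(c, k')` (`F`), bounds `V` for the slopes in the direction `(1, 1)`
(backwards at all scales, forwards up to `o`), also for the dynamic coordinates.
-/

set_option autoImplicit false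

namespace Pool.STAT

open Pool.LEV

/-- **The wide cell** of size `r` below the radius `a`. -/
structure CellW (L : ℕ → ℝ → ℝ → ℝ) (n : ℕ) (S : Finset ℕ) (σ : ℕ → ℝ) (s A R : ℕ) (k : ℕ → ℝ)
    (θ τ γ μ : ℝ) (F : Finset (ℚ × ℚ)) (V : ℚ × ℚ → ℕ) (o a r ε : ℝ) : Prop where
  lo : (A * k 0 + μ) * r ≤ a / 2
  hi : a + (γ + μ + o) * r ≤ 1
  one : 2 ≤ s * a
  stat : ∀ i, (i ∈ S ∨ i = n) → ∀ a' w', a - (A * k 0 + μ) * r ≤ w' → w' ≤ a' →
    a' ≤ a + (γ + μ) * r → |L i a' w' - L i a a - σ i * (a' - a)| ≤ ε * r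
  diag : ∀ i < n, i ∉ S → ∀ a', a - (A * k 0 + μ) * r ≤ a' → a' ≤ a + (γ + μ) * r →
    |L i a' a' - L i a a - σ i * (a' - a)| ≤ ε * r
  dyn : ∀ i < n, i ∉ S → ∀ j < R,
    L i (a + (γ + μ) * r) (a - (k j - μ) * r) + θ * r ≤
      L i (a - (γ + μ) * r) (a - (k (j + 1) + μ) * r)
  var : ∀ i < n, i ∉ S → ∀ j ≤ R,
    L i (a + (γ + μ) * r) (a - (k j - μ) * r) ≤
      L i (a - (γ + μ) * r) (a - (k j + μ) * r) + τ * r
  sl : ∀ i ≤ n, ∀ v, 0 ≤ v → v ≤ a → L i a a - L i (a - v) (a - v) ≤ s * v + ε * r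
  bk : ∀ i ≤ n, ∀ x ∈ F, ∀ v : ℝ, 0 ≤ v → (x.2 + v) * r ≤ a →
    L i (a - x.1 * r) (a - x.2 * r) - L i (a - (x.1 + v) * r) (a - (x.2 + v) * r) ≤
      (V x * v + ε) * r
  fw : ∀ i ≤ n, ∀ x ∈ F, ∀ v : ℝ, 0 ≤ v → v ≤ o →
    L i (a - (x.1 - v) * r) (a - (x.2 - v) * r) - L i (a - x.1 * r) (a - x.2 * r) ≤
      (V x * v + ε) * r

namespace CellW

variable {L : ℕ → ℝ → ℝ → ℝ} {n : ℕ} {S : Finset ℕ} {σ : ℕ → ℝ} {s A R : ℕ} {k : ℕ → ℝ}
  {θ τ γ μ : ℝ} {F : Finset (ℚ × ℚ)} {V : ℚ × ℚ → ℕ} {o a r ε : ℝ}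

/-- Larger errors, smaller gap, fewer pairs. -/
theorem weaken (H : CellW L n S σ s A R k θ τ γ μ F V o a r ε) (hr : 0 ≤ r)
    {θ' τ' o' ε' : ℝ} {F' : Finset (ℚ × ℚ)} {V' : ℚ × ℚ → ℕ} (hθ : θ' ≤ θ) (hτ : τ ≤ τ')
    (ho : o' ≤ o) (hε : ε ≤ ε') (hF : F' ⊆ F) (hV : ∀ x ∈ F', V x ≤ V' x) :
    CellW L n S σ s A R k θ' τ' γ μ F' V' o' a r ε' := by
  have he : ε * r ≤ ε' * r := mul_le_mul_of_nonneg_right hε hr
  refine ⟨H.lo, ?_, H.one, fun i hi a' w' h1 h2 h3 => (H.stat i hi a' w' h1 h2 h3).trans he,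
    fun i hi hiS a' h1 h2 => (H.diag i hi hiS a' h1 h2).trans he, fun i hi hiS j hj => ?_,
    fun i hi hiS j hj => ?_, fun i hi v h0 h1 => ?_, fun i hi x hx v h0 h1 => ?_,
    fun i hi x hx v h0 h1 => ?_⟩
  · have := H.hi
    have h1 : (γ + μ + o') * r ≤ (γ + μ + o) * r := mul_le_mul_of_nonneg_right (by linarith) hr
    linarith
  · have := H.dyn i hi hiS j hj
    have h1 : θ' * r ≤ θ * r := mul_le_mul_of_nonneg_right hθ hr
    linarith
  · have := H.var i hi hiS j hj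
    have h1 : τ * r ≤ τ' * r := mul_le_mul_of_nonneg_right hτ hr
    linarith
  · have := H.sl i hi v h0 h1
    linarith
  · refine (H.bk i hi x (hF hx) v h0 h1).trans (mul_le_mul_of_nonneg_right ?_ hr)
    have : (V x : ℝ) * v ≤ V' x * v :=
      mul_le_mul_of_nonneg_right (by exact_mod_cast hV x hx) h0
    linarith
  · refine (H.fw i hi x (hF hx) v h0 (h1.trans ho)).trans (mul_le_mul_of_nonneg_right ?_ hr)
    have : (V x : ℝ) * v ≤ V' x * v :=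
      mul_le_mul_of_nonneg_right (by exact_mod_cast hV x hx) h0
    linarith

end CellW

end Pool.STAT
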