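import Pool.Agent.H75.STAT.ProfM
import Pool.Agent.H75.STAT.CellW

/-!
# The profile of the levels: wide cells

As `profileM`, with the wide cell `CellW`. The gaps at the windows `k j`, `j ≤ R`, hold on an
interval of centres of the limit profile (nested intervals); the centre is a point of this interval
at which all the monotone functions `x ↦ Λ i (x - c) (x - k)`, `c ≤ k` rational, are
differentiable.
-/

set_option autoImplicit false

namespace Pool.STAT

open Set Filter Topology Pool.LEV MeasureTheory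

namespace PrM

/-! ### Slopes -/

/-- The backward slopes of a differentiable diagonal, at all scales. -/
theorem diag_slope {P : ℝ → ℝ → ℝ} {a s : ℝ} (h : Law P) (h0 : 0 < a) (h1 : a ≤ 1)
    (hd : HasDerivAt (fun x => P x x) s a) :
    ∃ K : ℝ, 0 ≤ K ∧ ∀ v : ℝ, 0 ≤ v → v ≤ a → P a a - P (a - v) (a - v) ≤ K * v := by
  obtain ⟨d, hd0, hdd⟩ := Metric.eventually_nhds_iff.1 ((hd.isLittleO).def one_pos)
  have hC : 0 ≤ P a a - P 0 0 := sub_nonneg.2 (h.mono le_rfl le_rfl h0.le h0.le le_rfl h1)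
  refine ⟨max (|s| + 1) ((P a a - P 0 0) / (d / 2)), le_max_of_le_left (by positivity),
    fun v v0 va => ?_⟩
  rcases lt_or_ge v (d / 2) with hv | hv
  · have e1 := hdd (show dist (a - v) a < d by
      rw [Real.dist_eq, abs_of_nonpos (by linarith only [v0])]
      linarith only [hd0, hv])
    rw [Real.norm_eq_abs, Real.norm_eq_abs, smul_eq_mul, sub_sub_cancel_left, abs_neg,
      abs_of_nonneg v0] at e1
    have e2 := (abs_le.1 e1).1
    have e3 : s * v ≤ |s| * v := mul_le_mul_of_nonneg_right (le_abs_self s) v0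
    have e4 : (|s| + 1) * v ≤ max (|s| + 1) ((P a a - P 0 0) / (d / 2)) * v :=
      mul_le_mul_of_nonneg_right (le_max_left _ _) v0
    nlinarith only [e2, e3, e4]
  · have e1 : P 0 0 ≤ P (a - v) (a - v) :=
      h.mono le_rfl le_rfl (by linarith) (by linarith) le_rfl (by linarith only [h1, hd0, hv])
    have e2 : (P a a - P 0 0) / (d / 2) * v ≤ max (|s| + 1) ((P a a - P 0 0) / (d / 2)) * v :=
      mul_le_mul_of_nonneg_right (le_max_right _ _) v0
    have e3 : P a a - P 0 0 ≤ (P a a - P 0 0) / (d / 2) * v := by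
      rw [div_mul_eq_mul_div, le_div_iff₀ (by positivity)]
      exact mul_le_mul_of_nonneg_left hv hC
    linarith only [e1, e2, e3]

/-- The slopes of a monotone function at a point where it is differentiable. -/
theorem slope_bd {g : ℝ → ℝ} {l h z : ℝ} (hl : l < z) (hm : MonotoneOn g (Icc l h)) (hh : z < h)
    (hd : DifferentiableAt ℝ g z) : ∃ (K o : ℝ), 0 < o ∧
      (∀ x, l ≤ x → x ≤ z → g z - g x ≤ K * (z - x)) ∧
      (∀ x, z ≤ x → x ≤ z + o → g x - g z ≤ K * (x - z)) := by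
  obtain ⟨d, hd0, hdd⟩ := Metric.eventually_nhds_iff.1 ((hd.hasDerivAt.isLittleO).def one_pos)
  obtain ⟨s, hs⟩ : ∃ s, s = deriv g z := ⟨_, rfl⟩
  rw [← hs] at hdd
  have hC : 0 ≤ g z - g l := sub_nonneg.2 (hm ⟨le_rfl, by linarith only [hl, hh]⟩ ⟨hl.le, hh.le⟩ hl.le)
  refine ⟨max (|s| + 1) ((g z - g l) / (d / 2)), d / 2, by positivity, fun x hlx hxz => ?_,
    fun x hzx hx => ?_⟩
  · rcases lt_or_ge (z - x) (d / 2) with hv | hv
    · have e1 := hdd (show dist x z < d by
        rw [Real.dist_eq, abs_of_nonpos (by linarith only [hxz])]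
        linarith only [hd0, hv])
      rw [Real.norm_eq_abs, Real.norm_eq_abs, smul_eq_mul, abs_of_nonpos (a := x - z)
        (by linarith)] at e1
      have e2 := (abs_le.1 e1).1
      have e3 : s * (z - x) ≤ |s| * (z - x) :=
        mul_le_mul_of_nonneg_right (le_abs_self s) (by linarith only [hxz])
      have e4 : (|s| + 1) * (z - x) ≤ max (|s| + 1) ((g z - g l) / (d / 2)) * (z - x) :=
        mul_le_mul_of_nonneg_right (le_max_left _ _) (by linarith)
      nlinarith only [e2, e3, e4]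
    · have e1 : g l ≤ g x := hm ⟨le_rfl, by linarith⟩ ⟨hlx, by linarith⟩ hlx
      have e2 : (g z - g l) / (d / 2) * (z - x) ≤
          max (|s| + 1) ((g z - g l) / (d / 2)) * (z - x) :=
        mul_le_mul_of_nonneg_right (le_max_right _ _) (by linarith)
      have e3 : g z - g l ≤ (g z - g l) / (d / 2) * (z - x) := by
        rw [div_mul_eq_mul_div, le_div_iff₀ (by positivity)]
        exact mul_le_mul_of_nonneg_left hv hC
      linarith only [e1, e2, e3]
  · have e1 := hdd (show dist x z < d by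
      rw [Real.dist_eq, abs_of_nonneg (by linarith)]
      linarith only [hd0, hx])
    rw [Real.norm_eq_abs, Real.norm_eq_abs, smul_eq_mul, abs_of_nonneg (a := x - z)
      (by linarith)] at e1
    have e2 := (abs_le.1 e1).2
    have e3 : s * (x - z) ≤ |s| * (x - z) :=
      mul_le_mul_of_nonneg_right (le_abs_self s) (by linarith only [hzx])
    have e4 : (|s| + 1) * (x - z) ≤ max (|s| + 1) ((g z - g l) / (d / 2)) * (x - z) :=
      mul_le_mul_of_nonneg_right (le_max_left _ _) (by linarith)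
    nlinarith only [e2, e3, e4]

/-- A positive number with finitely many monotone properties. -/
theorem fset_small {ι : Type*} (F : Finset ι) {Q : ι → ℝ → Prop}
    (h : ∀ i ∈ F, ∃ c : ℝ, 0 < c ∧ ∀ e, 0 < e → e ≤ c → Q i e) :
    ∃ c : ℝ, 0 < c ∧ ∀ e, 0 < e → e ≤ c → ∀ i ∈ F, Q i e := by
  classical
  induction F using Finset.induction_on with
  | empty => exact ⟨1, one_pos, fun _ _ _ i hi => absurd hi (Finset.notMem_empty i)⟩
  | insert x F hx ih =>
    obtain ⟨c, hc, h1⟩ := ih fun i hi => h i (Finset.mem_insert_of_mem hi)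
    obtain ⟨d, hd, h2⟩ := h x (Finset.mem_insert_self x F)
    refine ⟨min c d, lt_min hc hd, fun e he hec i hi => ?_⟩
    rcases Finset.mem_insert.1 hi with h3 | h3
    · subst h3
      exact h2 e he (hec.trans (min_le_right _ _))
    · exact h1 e he (hec.trans (min_le_left _ _)) i h3

/-! ### One coordinate at the scale `r t` -/

variable {P : ℝ → ℝ → ℝ} {a δ₀ σ : ℝ}

section
variable {U : Filter ℕ} {r : ℕ → ℝ}

theorem Lo.ev_mono_d (H : Lo P a δ₀ σ) (hpos : ∀ t, 0 < r t) (hr : Tendsto r U (𝓝 0)) :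
    ∀ᶠ t in U, ∀ x y β β', -1 ≤ β → β ≤ x → x ≤ y → β ≤ β' → β' ≤ y → y ≤ 1 →
      RL P a r x β t ≤ RL P a r y β' t := by
  filter_upwards [ev_le hr H.pos] with t ht x y β β' h1 h2 h3 h4 h5 h6
  have hrt := hpos t
  unfold RL
  refine div_le_div_of_nonneg_right (sub_le_sub_right ?_ _) hrt.le
  exact H.law.mono (by nlinarith only [ht, H, h1, hrt, H.lo]) (by nlinarith only [h2, hrt]) (by nlinarith only [h3, hrt]) (by nlinarith only [h4, hrt])
    (by nlinarith only [h5, hrt]) (by nlinarith only [ht, H, h6, hrt, H.hi])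

/-- A gap. -/
theorem Lo.ev_gap2 (H : Lo P a δ₀ σ) (hpos : ∀ t, 0 < r t) (hr : Tendsto r U (𝓝 0))
    {z e k k' γ μ θ l : ℝ} (hlim : Tendsto (fun t => RL P a r (z + e) (z - k / 2) t) U (𝓝 l))
    (hl : l + e ≤ σ * (z - k' - e)) (he : 0 < e) (hkk : k' ≤ k) (hγ : 0 ≤ γ) (hμ : 0 ≤ μ)
    (hγμ : γ + μ ≤ e) (hμk : μ ≤ k / 2) (hγk : γ ≤ k') (hθ : θ ≤ e / 2) (hz0 : 0 ≤ z)
    (hz : z + e ≤ 1) (hk1 : k ≤ 1 / 2) :
    ∀ᶠ t in U, RL P a r (z + (γ + μ)) (z - (k - μ)) t + θ ≤
      RL P a r (z - (γ + μ)) (z - (k' + μ)) t := by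
  have hσ := H.sig_nonneg
  have he4 : 0 < e / 4 := by positivity
  filter_upwards [(tendsto_order.1 hlim).2 (l + e / 4) (by linarith only [he]),
    H.ev_mono_d hpos hr, H.ev_diag2 hpos hr he4] with t h1 h2 h3
  have g1 := h2 (z + (γ + μ)) (z + e) (z - (k - μ)) (z - k / 2) (by linarith only [hμ, hz0, hk1]) (by linarith only [hγ, hμ, hμk])
    (by linarith only [hγμ]) (by linarith only [hμk]) (by linarith only [he, hμ, hμk]) hz
  have g2 := h2 (z - (k' + μ)) (z - (γ + μ)) (z - (k' + μ)) (z - (k' + μ)) (by linarith only [hkk, hμk, hz0, hk1])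
    le_rfl (by linarith only [hγk]) le_rfl (by linarith only [hγk]) (by linarith only [he, hγ, hμ, hz])
  have g3 := (abs_le.1 (h3 (z - (k' + μ)) (by linarith only [hkk, hμk, hz0, hk1]) (by linarith only [he, hγ, hμ, hγk, hz]))).1
  have g4 : σ * (z - k' - e) ≤ σ * (z - (k' + μ)) :=
    mul_le_mul_of_nonneg_left (by linarith only [hγ, hγμ]) hσ
  linarith only [hl, hθ, h1, g1, g2, g3, g4]

/-- The variation in the radius. -/
theorem Lo.ev_var (H : Lo P a δ₀ σ) (hpos : ∀ t, 0 < r t) (hr : Tendsto r U (𝓝 0))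
    {z k γ μ τ l l' : ℝ}
    (hlim : Tendsto (fun t => RL P a r (z + (γ + μ)) (z + (γ + μ) - k) t) U (𝓝 l))
    (hlim' : Tendsto (fun t => RL P a r (z - (γ + μ)) (z - (γ + μ) - k) t) U (𝓝 l'))
    (hl : l ≤ l' + τ / 2) (hτ : 0 < τ) (hγ : 0 ≤ γ) (hμ : 0 ≤ μ) (hγk : γ ≤ k)
    (hz0 : 0 ≤ z) (hz : z + (γ + μ) ≤ 1) (hk1 : k + (γ + μ) ≤ 1) :
    ∀ᶠ t in U, RL P a r (z + (γ + μ)) (z - (k - μ)) t ≤
      RL P a r (z - (γ + μ)) (z - (k + μ)) t + τ := by
  have hτ4 : 0 < τ / 4 := by positivity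
  filter_upwards [(tendsto_order.1 hlim).2 (l + τ / 4) (by linarith only [hτ]),
    (tendsto_order.1 hlim').1 (l' - τ / 4) (by linarith only [hτ]), H.ev_mono_d hpos hr] with t h1 h2 h3
  have g1 := h3 (z + (γ + μ)) (z + (γ + μ)) (z - (k - μ)) (z + (γ + μ) - k) (by linarith only [hγ, hμ, hz0, hk1])
    (by linarith only [hγ, hγk]) le_rfl (by linarith only [hγ]) (by linarith only [hγ, hγk]) hz
  have g2 := h3 (z - (γ + μ)) (z - (γ + μ)) (z - (γ + μ) - k) (z - (k + μ)) (by linarith only [hz0, hk1])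
    (by linarith only [hγ, hγk]) le_rfl (by linarith only [hγ]) (by linarith only [hγk]) (by linarith only [hγ, hμ, hz])
  linarith only [hl, h1, h2, g1, g2]

/-- Backward slopes in the direction `(1, 1)`. -/
theorem Lo.ev_bk (H : Lo P a δ₀ σ) (hpos : ∀ t, 0 < r t) (hr : Tendsto r U (𝓝 0))
    {z c k K : ℝ} {g : ℝ → ℝ} (hc : 0 ≤ c) (hck : c ≤ k) (hk : k ≤ 1 / 2) (hz0 : 0 ≤ z)
    (hz : z ≤ 1) (hK : 0 ≤ K)
    (hlim : ∀ x, -(1 / 2) ≤ x → x ≤ z → Tendsto (fun t => RL P a r (x - c) (x - k) t) U (𝓝 (g x)))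
    (hb : ∀ x, -(1 / 2) ≤ x → x ≤ z → g z - g x ≤ K * (z - x)) {η : ℝ} (hη : 0 < η) :
    ∀ᶠ t in U, ∀ x, -(1 / 2) ≤ x → x ≤ z →
      RL P a r (z - c) (z - k) t - RL P a r (x - c) (x - k) t ≤ K * (z - x) + η := by
  have g1 := grid_lo (U := U) (F := fun t x => RL P a r (x - c) (x - k) t) (f := g)
    (p := -(1 / 2)) (q := z) (k := K) (ρ := K * z - g z) (by linarith only [hz0]) hK
    ((H.ev_mono_d hpos hr).mono fun t ht x y h1 h2 h3 => ht (x - c) (y - c) (x - k) (y - k)
      (by linarith only [hk, h1]) (by linarith only [hck]) (by linarith only [h2]) (by linarith only [h2]) (by linarith only [hck]) (by linarith only [hc, hz, h3]))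
    hlim (fun x h1 h2 => by nlinarith only [hb, h1, h2, hb x h1 h2]) (half_pos hη)
  filter_upwards [g1, (tendsto_order.1 (hlim z (by linarith only [hz0]) le_rfl)).2 (g z + η / 2)
    (by linarith)] with t h1 h2 x h3 h4
  have := h1 x h3 h4
  nlinarith only [h2, this]

/-- Forward slopes in the direction `(1, 1)`. -/
theorem Lo.ev_fw (H : Lo P a δ₀ σ) (hpos : ∀ t, 0 < r t) (hr : Tendsto r U (𝓝 0))
    {z c k K o : ℝ} {g : ℝ → ℝ} (hc : 0 ≤ c) (hck : c ≤ k) (hk : k ≤ 1 / 2) (hz0 : 0 ≤ z)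
    (hz : z + o ≤ 1) (ho : 0 ≤ o) (hK : 0 ≤ K)
    (hlim : ∀ x, z ≤ x → x ≤ z + o → Tendsto (fun t => RL P a r (x - c) (x - k) t) U (𝓝 (g x)))
    (hb : ∀ x, z ≤ x → x ≤ z + o → g x - g z ≤ K * (x - z)) {η : ℝ} (hη : 0 < η) :
    ∀ᶠ t in U, ∀ x, z ≤ x → x ≤ z + o →
      RL P a r (x - c) (x - k) t - RL P a r (z - c) (z - k) t ≤ K * (x - z) + η := by
  have g1 := grid_hi (U := U) (F := fun t x => RL P a r (x - c) (x - k) t) (f := g)
    (p := z) (q := z + o) (k := K) (ρ := g z - K * z) (by linarith only [ho]) hK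
    ((H.ev_mono_d hpos hr).mono fun t ht x y h1 h2 h3 => ht (x - c) (y - c) (x - k) (y - k)
      (by linarith only [hk, hz0, h1]) (by linarith) (by linarith) (by linarith) (by linarith) (by linarith))
    hlim (fun x h1 h2 => by nlinarith only [hb, h1, h2, hb x h1 h2]) (half_pos hη)
  filter_upwards [g1, (tendsto_order.1 (hlim z le_rfl (by linarith only [ho]))).1 (g z - η / 2)
    (by linarith)] with t h1 h2 x h3 h4
  have := h1 x h3 h4
  nlinarith only [h2, this]

end

/-! ### The limit profile -/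

section
variable {U : Filter ℕ} [U.NeBot] {r : ℕ → ℝ} {n : ℕ} {L : ℕ → ℝ → ℝ → ℝ} {σ : ℕ → ℝ}
  {Λ : ℕ → ℝ → ℝ → ℝ}

theorem Pf.mono_d (H : Pf U r n L a δ₀ σ Λ) {i : ℕ} (hi : i ≤ n) {x y β β' : ℝ} (h1 : -1 ≤ β)
    (h2 : β ≤ x) (h3 : x ≤ y) (h4 : β ≤ β') (h5 : β' ≤ y) (h6 : y ≤ 1) :
    Λ i x β ≤ Λ i y β' :=
  (H.mono_a hi h1 h2 h3 h6).trans (H.mono_w hi h1 h4 h5 h6)

/-- A maximal set of static coordinates, on an interval of radii. -/
theorem Pf.max (H : Pf U r n L a δ₀ σ Λ) :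
    ∃ (S : Finset ℕ) (p q : ℝ) (M : ℕ), S ⊆ Finset.range n ∧ 0 < p ∧ p < q ∧ q < 1 ∧
      (∀ i ∈ S, ∀ x ∈ Ioo p q, σ i * x ≤ Λ i x (x - 1 / 2 ^ M)) ∧
      ∀ i < n, i ∉ S → ∀ (m : ℕ) (p' q' : ℝ), p ≤ p' → p' < q' → q' ≤ q →
        ¬ Ioo p' q' ⊆ closure {x | ∀ h, 0 < h → x + h ≤ 1 →
          σ i * x ≤ Λ i (x + h) (x - 1 / 2 ^ m)} := by
  classical
  have hpow : ∀ m : ℕ, (1 : ℝ) / 2 ^ m ≤ 1 := fun m => by
    rw [div_le_one (by positivity)]
    exact one_le_pow₀ (by norm_num)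
  have hpow0 : ∀ m : ℕ, (0 : ℝ) < 1 / 2 ^ m := fun m => by positivity
  have hanti : ∀ m m' : ℕ, m ≤ m' → (1 : ℝ) / 2 ^ m' ≤ 1 / 2 ^ m := fun m m' h =>
    one_div_le_one_div_of_le (by positivity) (pow_le_pow_right₀ (by norm_num) h)
  obtain ⟨adm, hadm⟩ : ∃ adm : Finset ℕ → Prop, adm = fun s => ∃ (p q : ℝ) (M : ℕ), 0 < p ∧
      p < q ∧ q < 1 ∧ ∀ i ∈ s, ∀ x ∈ Ioo p q, σ i * x ≤ Λ i x (x - 1 / 2 ^ M) := ⟨_, rfl⟩
  obtain ⟨S, hS, hmax⟩ := Finset.exists_max_image ((Finset.range n).powerset.filter adm)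
    Finset.card ⟨∅, by
      rw [Finset.mem_filter, hadm]
      exact ⟨Finset.empty_mem_powerset _, 1 / 4, 1 / 2, 0, by norm_num, by norm_num, by norm_num,
        fun i hi => absurd hi (Finset.notMem_empty i)⟩⟩
  rw [Finset.mem_filter, Finset.mem_powerset, hadm] at hS
  obtain ⟨hSn, p, q, M, hp, hpq, hq, hst⟩ := hS
  refine ⟨S, p, q, M, hSn, hp, hpq, hq, hst, fun i hi hiS m p' q' h1 h2 h3 h4 => ?_⟩
  have h5 := stat_of_dense (F := Λ i) (s := σ i) (κ := 1 / 2 ^ m) (H.lo i hi.le).sig_nonneg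
    (by linarith only [hp, h1] : 0 ≤ p') (by linarith only [hq, h3] : q' ≤ 1) (hpow0 m) (hpow m)
    (fun x β β' g1 g2 g3 g4 => H.mono_w hi.le g1 g2 g3 g4) h4
  have h6 : insert i S ∈ (Finset.range n).powerset.filter adm := by
    rw [Finset.mem_filter, Finset.mem_powerset, hadm]
    refine ⟨Finset.insert_subset (Finset.mem_range.2 hi) hSn, p', q', Max.max M m, by linarith,
      h2, by linarith, fun l hl x hx => ?_⟩
    have hx0 : 0 < x := by linarith [hx.1]
    have hx1 : x < 1 := by linarith [hx.2]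
    rcases Finset.mem_insert.1 hl with h | h
    · subst h
      refine (h5 x hx).trans (H.mono_w hi.le (by linarith only [hx0, hpow, hpow m])
        (by linarith only [hanti, hanti m (Max.max M m) (le_max_right _ _)])
        (by linarith only [hpow0, hpow0 (Max.max M m)]) hx1.le)
    · have hln : l < n := Finset.mem_range.1 (hSn h)
      refine (hst l h x ⟨by linarith [hx.1], by linarith [hx.2]⟩).trans
        (H.mono_w hln.le (by linarith only [hx0, hpow, hpow M])
          (by linarith only [hanti, hanti M (Max.max M m) (le_max_left _ _)])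
          (by linarith only [hpow0, hpow0 (Max.max M m)]) hx1.le)
  have h7 := hmax _ h6
  rw [Finset.card_insert_of_notMem hiS] at h7
  omega

/-- On some subinterval all the dynamic coordinates drop at the offset `1 / 2 ^ m`. -/
theorem Pf.step (H : Pf U r n L a δ₀ σ Λ) {S : Finset ℕ} {p q : ℝ} (hp : 0 < p) (hq : q < 1)
    (hno : ∀ i < n, i ∉ S → ∀ (m : ℕ) (p' q' : ℝ), p ≤ p' → p' < q' → q' ≤ q →
      ¬ Ioo p' q' ⊆ closure {x | ∀ h, 0 < h → x + h ≤ 1 →
        σ i * x ≤ Λ i (x + h) (x - 1 / 2 ^ m)}) (m l : ℕ) (hl : l ≤ n) :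
    ∀ p' q', p ≤ p' → p' < q' → q' ≤ q → ∃ p'' q'' e : ℝ, p' ≤ p'' ∧ p'' < q'' ∧ q'' ≤ q' ∧
      0 < e ∧ q'' + e ≤ 1 ∧ ∀ x, p'' ≤ x → x ≤ q'' → ∀ i < l, i ∉ S →
        Λ i (x + e) (x - 1 / 2 ^ m) ≤ σ i * x - e := by
  classical
  have hpow : ∀ m : ℕ, (1 : ℝ) / 2 ^ m ≤ 1 := fun m => by
    rw [div_le_one (by positivity)]
    exact one_le_pow₀ (by norm_num)
  have hpow0 : ∀ m : ℕ, (0 : ℝ) < 1 / 2 ^ m := fun m => by positivity
  have hhalf : ∀ m : ℕ, (1 : ℝ) / 2 ^ (m + 1) = 1 / 2 ^ m / 2 := fun m => by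
    rw [pow_succ]; field_simp
  intro p' q' h1 h2 h3
  induction l with
  | zero => exact ⟨p', q', 1 - q', le_rfl, h2, le_rfl, by linarith only [hq, h3], by linarith only,
      fun _ _ _ i hi => absurd hi (Nat.not_lt_zero i)⟩
  | succ l ih =>
    obtain ⟨p₁, q₁, e, h4, h5, h6, he, he1, h7⟩ := ih (by omega)
    by_cases hlS : l ∈ S
    · refine ⟨p₁, q₁, e, h4, h5, h6, he, he1, fun x hx hx' i hi hiS => ?_⟩
      rcases Nat.lt_succ_iff_lt_or_eq.1 hi with h | h
      · exact h7 x hx hx' i h hiS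
      · exact absurd (h ▸ hlS) hiS
    have h8 := hno l (by omega) hlS (m + 1) p₁ q₁ (by linarith only [h1, h4]) h5 (by linarith)
    rw [Set.not_subset] at h8
    obtain ⟨x₀, hx₀, h9⟩ := h8
    have h10 : ¬ ∀ h, 0 < h → x₀ + h ≤ 1 → σ l * x₀ ≤ Λ l (x₀ + h) (x₀ - 1 / 2 ^ (m + 1)) :=
      fun hc => h9 (subset_closure hc)
    push Not at h10
    obtain ⟨h, hh0, hh1, hh2⟩ := h10
    obtain ⟨δ, hδ⟩ : ∃ δ, δ = σ l * x₀ - Λ l (x₀ + h) (x₀ - 1 / 2 ^ (m + 1)) := ⟨_, rfl⟩
    have hδ0 : 0 < δ := by linarith only [hh2, hδ]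
    have hσ := (H.lo l (by omega)).sig_nonneg
    have hx1 := hx₀.1
    have hx2 := hx₀.2
    obtain ⟨η, hη0, hη1, hη2, hη3, hη4, hη5⟩ : ∃ η : ℝ, 0 < η ∧ η ≤ h / 2 ∧
        η ≤ 1 / 2 ^ (m + 1) ∧ η ≤ x₀ - p₁ ∧ η ≤ q₁ - x₀ ∧ σ l * η ≤ δ / 2 := by
      have e1 : 0 < δ / 2 / (σ l + 1) := by positivity
      have e2 : 0 < min (min (h / 2) (1 / 2 ^ (m + 1))) (min (min (x₀ - p₁) (q₁ - x₀))
          (δ / 2 / (σ l + 1))) :=
        lt_min (lt_min (by linarith only [hh0]) (hpow0 _)) (lt_min (lt_min (by linarith only [hx1]) (by linarith only [hx2])) e1)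
      refine ⟨_, e2, (min_le_left _ _).trans (min_le_left _ _),
        (min_le_left _ _).trans (min_le_right _ _),
        (min_le_right _ _).trans ((min_le_left _ _).trans (min_le_left _ _)),
        (min_le_right _ _).trans ((min_le_left _ _).trans (min_le_right _ _)), ?_⟩
      have e3 : min (min (h / 2) (1 / 2 ^ (m + 1))) (min (min (x₀ - p₁) (q₁ - x₀))
          (δ / 2 / (σ l + 1))) ≤ δ / 2 / (σ l + 1) :=
        (min_le_right _ _).trans (min_le_right _ _)
      have e4 := mul_le_mul_of_nonneg_left e3 hσ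
      have e5 : σ l * (δ / 2 / (σ l + 1)) ≤ δ / 2 := by
        rw [mul_div_assoc', div_le_iff₀ (by linarith only [hp, hq, h1, h3, h4, h6, hσ, hx1, hx2])]
        nlinarith only [hh2, hδ]
      linarith only [e4, e5]
    have hm : min e (min (h / 2) (δ / 2)) ≤ e := min_le_left _ _
    have hm1 : min e (min (h / 2) (δ / 2)) ≤ h / 2 := (min_le_right _ _).trans (min_le_left _ _)
    have hm2 : min e (min (h / 2) (δ / 2)) ≤ δ / 2 := (min_le_right _ _).trans (min_le_right _ _)
    have hm0 : 0 < min e (min (h / 2) (δ / 2)) := lt_min he (lt_min (by linarith only [hh0]) (by linarith only [hh2, hδ]))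
    obtain ⟨e', he'⟩ : ∃ e', e' = min e (min (h / 2) (δ / 2)) := ⟨_, rfl⟩
    rw [← he'] at hm hm1 hm2 hm0
    refine ⟨x₀ - η, x₀ + η, e', by linarith only [h4, hη3], by linarith only [hη0], by linarith only [h6, hη4], hm0, by linarith only [hh1, hη1, hm1],
      fun x hx hx' i hi hiS => ?_⟩
    have hw := hpow m
    have hw0 := hpow0 m
    rcases Nat.lt_succ_iff_lt_or_eq.1 hi with h11 | h11
    · have h12 := h7 x (by linarith only [hη3, hx]) (by linarith only [hη4, hx']) i h11 hiS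
      have h13 := H.mono_a (i := i) (by omega) (β := x - 1 / 2 ^ m) (x := x + e') (y := x + e)
        (by linarith only [hp, h1, h4, hη3, hx, hw]) (by linarith only [hm0, hw0]) (by linarith only [hm]) (by linarith only [he1, hη4, hx'])
      linarith only [hm, h12, h13]
    · subst h11
      have e1 := hhalf m
      have h12 := H.mono_d (i := i) (by omega) (x := x + e') (y := x₀ + h)
        (β := x - 1 / 2 ^ m) (β' := x₀ - 1 / 2 ^ (m + 1)) (by linarith only [hp, h1, h4, hη3, hx, hw]) (by linarith only [hm0, hw0])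
        (by linarith only [hη1, hm1, hx']) (by linarith only [hη2, hx', e1]) (by linarith only [hη0, hη1, hη2, hpow0 (m + 1)]) hh1
      have h13 : σ i * x₀ ≤ σ i * x + δ / 2 := by
        have : σ i * (x₀ - x) ≤ σ i * η := mul_le_mul_of_nonneg_left (by linarith only [hx]) hσ
        nlinarith only [hη5, this]
      linarith only [hm2, hδ, h12, h13]

/-- Nested intervals: the gaps at the windows `1 / 2 ^ m j`, `j ≤ R`. -/
theorem Pf.nest (H : Pf U r n L a δ₀ σ Λ) {S : Finset ℕ} {p q B : ℝ} (hp : 0 < p) (hq : q < 1)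
    (hno : ∀ i < n, i ∉ S → ∀ (m : ℕ) (p' q' : ℝ), p ≤ p' → p' < q' → q' ≤ q →
      ¬ Ioo p' q' ⊆ closure {x | ∀ h, 0 < h → x + h ≤ 1 →
        σ i * x ≤ Λ i (x + h) (x - 1 / 2 ^ m)}) (hB0 : 0 ≤ B) (hB : ∀ i < n, σ i ≤ B) (m₀ : ℕ)
    {p₀ q₀ : ℝ} (hp₀ : p ≤ p₀) (hpq₀ : p₀ < q₀) (hq₀ : q₀ ≤ q) (R : ℕ) :
    ∃ (m : ℕ → ℕ) (p' q' e : ℝ), m 0 = m₀ ∧ (∀ j, m j < m (j + 1)) ∧ p₀ ≤ p' ∧ p' < q' ∧
      q' ≤ q₀ ∧ 0 < e ∧ q' + e ≤ 1 ∧ ∀ j < R, ∀ x, p' ≤ x → x ≤ q' → ∀ i < n, i ∉ S →
        Λ i (x + e) (x - 1 / 2 ^ m j / 2) + e ≤ σ i * (x - 1 / 2 ^ m (j + 1) - e) := by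
  classical
  have hpow : ∀ m : ℕ, (1 : ℝ) / 2 ^ m ≤ 1 := fun m => by
    rw [div_le_one (by positivity)]
    exact one_le_pow₀ (by norm_num)
  have hpow0 : ∀ m : ℕ, (0 : ℝ) < 1 / 2 ^ m := fun m => by positivity
  have hhalf : ∀ m : ℕ, (1 : ℝ) / 2 ^ (m + 1) = 1 / 2 ^ m / 2 := fun m => by
    rw [pow_succ]; field_simp
  have htend : ∀ A : ℝ, Tendsto (fun m : ℕ => A * (1 / 2 ^ m)) atTop (𝓝 0) := by
    intro A
    have h1 : Tendsto (fun m : ℕ => ((1 : ℝ) / 2) ^ m) atTop (𝓝 0) :=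
      tendsto_pow_atTop_nhds_zero_of_lt_one (by norm_num) (by norm_num)
    have h2 := h1.const_mul A
    rw [mul_zero] at h2
    refine h2.congr fun m => ?_
    rw [one_div_pow]
  induction R with
  | zero => exact ⟨fun j => m₀ + j, p₀, q₀, 1 - q₀, rfl, fun j => Nat.lt_succ_self _, le_rfl,
      hpq₀, le_rfl, by linarith, by linarith, fun j hj => absurd hj (Nat.not_lt_zero j)⟩
  | succ R ih =>
    obtain ⟨m, p', q', e, hm0, hms, h1, h2, h3, he, he1, h4⟩ := ih
    obtain ⟨p'', q'', e', h5, h6, h7, he', he'1, h8⟩ := H.step hp hq hno (m R + 1) n le_rfl p' q'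
      (by linarith only [hp₀, h1]) h2 (by linarith)
    obtain ⟨N, hN1, hN2⟩ : ∃ N : ℕ, m R < N ∧ B * (1 / 2 ^ N) ≤ e' / 4 := by
      obtain ⟨N, g1, g2⟩ := (((tendsto_order.1 (htend B)).2 (e' / 4) (by linarith only [he'])).and
        (eventually_gt_atTop (m R))).exists
      exact ⟨N, g2, g1.le⟩
    have e1 : 0 < e' / 4 / (B + 1) := by positivity
    have hm : min e (e' / 4 / (B + 1)) ≤ e := min_le_left _ _
    have hm' : (B + 1) * min e (e' / 4 / (B + 1)) ≤ e' / 4 := by
      have g1 : min e (e' / 4 / (B + 1)) ≤ e' / 4 / (B + 1) := min_le_right _ _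
      rw [le_div_iff₀ (by linarith only [hp, hq, hB0, hp₀, hpq₀, hq₀])] at g1
      linarith only [g1]
    have hmp : 0 < min e (e' / 4 / (B + 1)) := lt_min he e1
    obtain ⟨c, hc⟩ : ∃ c, c = min e (e' / 4 / (B + 1)) := ⟨_, rfl⟩
    rw [← hc] at hm hm' hmp
    have hce' : c ≤ e' := by nlinarith only [he', hm', hB0, hmp]
    refine ⟨fun j => if j ≤ R then m j else N + (j - (R + 1)), p'', q'', c, ?_, fun j => ?_,
      by linarith only [h1, h5], h6, by linarith only [h3, h7], hmp, by linarith only [he1, h7, hm], fun j hj x hx hx' i hi hiS => ?_⟩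
    · simp only [Nat.zero_le, if_true]
      exact hm0
    · simp only []
      by_cases hj : j + 1 ≤ R
      · rw [if_pos (by omega), if_pos hj]
        exact hms j
      · by_cases hj' : j ≤ R
        · have : j = R := by omega
          subst this
          rw [if_pos le_rfl, if_neg (by omega)]
          omega
        · rw [if_neg hj', if_neg (by omega)]
          omega
    · have hw := hpow
      have hσ := (H.lo i hi.le).sig_nonneg
      have hσB := hB i hi
      rcases Nat.lt_succ_iff_lt_or_eq.1 hj with hj' | hj'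
      · simp only [show j ≤ R by omega, show j + 1 ≤ R by omega, if_true]
        have g1 := h4 j hj' x (by linarith only [h5, hx]) (by linarith only [h7, hx']) i hi hiS
        have g2 := H.mono_a hi.le (β := x - 1 / 2 ^ m j / 2) (x := x + c) (y := x + e)
          (by linarith only [hp, hq, hp₀, hpq₀, hq₀, h1, h5, hx, hw, hw (m j)]) (by linarith only [hmp, hpow0, hpow0 (m j)]) (by linarith only [hm]) (by linarith only [he1, h7, hx'])
        have g3 : σ i * (x - 1 / 2 ^ m (j + 1) - e) ≤ σ i * (x - 1 / 2 ^ m (j + 1) - c) :=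
          mul_le_mul_of_nonneg_left (by linarith only [hm]) hσ
        linarith only [hm, g1, g2, g3]
      · subst hj'
        simp only [le_refl, if_true, show ¬ (j + 1 ≤ j) by omega, if_false, Nat.sub_self,
          add_zero]
        have g1 := h8 x hx hx' i hi hiS
        rw [hhalf] at g1
        have g2 := H.mono_a hi.le (β := x - 1 / 2 ^ m j / 2) (x := x + c) (y := x + e')
          (by linarith only [hp, hq, hp₀, hpq₀, hq₀, h1, h5, hx, hw, hw (m j)]) (by linarith only [hmp, hpow0, hpow0 (m j)]) (by linarith only [hce']) (by linarith only [he'1, hx'])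
        have g3 : σ i * (1 / 2 ^ N) ≤ B * (1 / 2 ^ N) :=
          mul_le_mul_of_nonneg_right hσB (hpow0 N).le
        have g4 : (σ i + 1) * c ≤ (B + 1) * c := mul_le_mul_of_nonneg_right (by linarith only [hσB]) hmp.le
        have g5 : σ i * (x - 1 / 2 ^ N - c) = σ i * x - σ i * (1 / 2 ^ N) - σ i * c := by ring
        rw [g5]
        nlinarith only [he', hN2, hm', g1, g2, g3, g4]

/-- **A good centre of the limit profile.** -/
structure Gen (n : ℕ) (σ : ℕ → ℝ) (Λ : ℕ → ℝ → ℝ → ℝ) (S : Finset ℕ) (m : ℕ → ℕ) (A R : ℕ)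
    (z e : ℝ) (V : ℚ × ℚ → ℕ) (ω : ℚ × ℚ → ℝ) : Prop where
  z0 : 0 < z
  e0 : 0 < e
  z1 : z + e ≤ 1
  zA : (A + 1) * (1 / 2 ^ m 0) ≤ z
  st : ∀ i ∈ S, ∀ x β, z - (A * (1 / 2 ^ m 0) + e) ≤ β → β ≤ x → x ≤ z + e → σ i * x ≤ Λ i x β
  gp : ∀ j < R, ∀ i < n, i ∉ S →
    Λ i (z + e) (z - 1 / 2 ^ m j / 2) + e ≤ σ i * (z - 1 / 2 ^ m (j + 1) - e)
  ω0 : ∀ x, 0 < ω x
  ω1 : ∀ x, z + ω x ≤ 1
  bk : ∀ i ≤ n, ∀ x : ℚ × ℚ, 0 ≤ x.1 → x.1 ≤ x.2 → x.2 ≤ 1 / 2 → ∀ y : ℝ, -(1 / 2) ≤ y →
    y ≤ z → Λ i (z - x.1) (z - x.2) - Λ i (y - x.1) (y - x.2) ≤ V x * (z - y)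
  fw : ∀ i ≤ n, ∀ x : ℚ × ℚ, 0 ≤ x.1 → x.1 ≤ x.2 → x.2 ≤ 1 / 2 → ∀ y : ℝ, z ≤ y →
    y ≤ z + ω x → Λ i (y - x.1) (y - x.2) - Λ i (z - x.1) (z - x.2) ≤ V x * (y - z)

theorem Pf.gen2 (H : Pf U r n L a δ₀ σ Λ) (A R : ℕ) :
    ∃ (S : Finset ℕ) (m : ℕ → ℕ) (z e : ℝ) (V : ℚ × ℚ → ℕ) (ω : ℚ × ℚ → ℝ),
      S ⊆ Finset.range n ∧ 1 ≤ m 0 ∧ (∀ j, m j < m (j + 1)) ∧ Gen n σ Λ S m A R z e V ω := by
  classical
  obtain ⟨S, p, q, M, hSn, hp, hpq, hq, hst, hno⟩ := H.max
  have hpow : ∀ m : ℕ, (1 : ℝ) / 2 ^ m ≤ 1 := fun m => by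
    rw [div_le_one (by positivity)]
    exact one_le_pow₀ (by norm_num)
  have hpow0 : ∀ m : ℕ, (0 : ℝ) < 1 / 2 ^ m := fun m => by positivity
  have htend : ∀ A : ℝ, Tendsto (fun m : ℕ => A * (1 / 2 ^ m)) atTop (𝓝 0) := by
    intro A
    have h1 : Tendsto (fun m : ℕ => ((1 : ℝ) / 2) ^ m) atTop (𝓝 0) :=
      tendsto_pow_atTop_nhds_zero_of_lt_one (by norm_num) (by norm_num)
    have h2 := h1.const_mul A
    rw [mul_zero] at h2
    refine h2.congr fun m => ?_
    rw [one_div_pow]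
  obtain ⟨B, hB0, hB⟩ : ∃ B : ℝ, 0 ≤ B ∧ ∀ i < n, σ i ≤ B := by
    refine ⟨∑ i ∈ Finset.range n, |σ i|, Finset.sum_nonneg fun _ _ => abs_nonneg _,
      fun i hi => (le_abs_self _).trans ?_⟩
    exact Finset.single_le_sum (f := fun i => |σ i|) (fun _ _ => abs_nonneg _)
      (Finset.mem_range.2 hi)
  -- the first offset
  obtain ⟨m₀, hm₀, hm₁, hm₂, hm₃⟩ : ∃ m₀ : ℕ, 1 ≤ m₀ ∧ ((A : ℝ) + 2) * (1 / 2 ^ m₀) < p ∧
      ((A : ℝ) + 2) * (1 / 2 ^ m₀) < (q - p) / 3 ∧
      ((A : ℝ) + 2) * (1 / 2 ^ m₀) < 1 / 2 ^ M := by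
    have h1 := htend ((A : ℝ) + 2)
    obtain ⟨m₀, h2, h3, h4, h5⟩ := (((tendsto_order.1 h1).2 p hp).and
      (((tendsto_order.1 h1).2 ((q - p) / 3) (by linarith only [hpq])).and
      (((tendsto_order.1 h1).2 (1 / 2 ^ M) (hpow0 M)).and (eventually_ge_atTop 1)))).exists
    exact ⟨m₀, h5, h2, h3, h4⟩
  obtain ⟨m, p', q', e, hmz, hms, h1, h2, h3, he, he1, hgp⟩ := H.nest hp hq hno hB0 hB m₀
    (p₀ := p + (q - p) / 3) (q₀ := q - (q - p) / 3) (by linarith only [hpq]) (by linarith only [hpq]) (by linarith only [hpq]) R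
  -- the centre
  exact by
   have hmono : ∀ i ≤ n, ∀ x : ℚ × ℚ, 0 ≤ x.1 → x.1 ≤ x.2 → x.2 ≤ 1 / 2 →
       MonotoneOn (fun y : ℝ => Λ i (y - x.1) (y - x.2)) (Icc (-(1 / 2)) 1) := by
     intro i hi x h4 h5 h6 y hy y' hy' hyy
     have h4' : (0 : ℝ) ≤ x.1 := by exact_mod_cast h4
     have h5' : (x.1 : ℝ) ≤ x.2 := by exact_mod_cast h5
     have h6' : (x.2 : ℝ) ≤ 1 / 2 := by
       have : ((x.2 : ℚ) : ℝ) ≤ ((1 / 2 : ℚ) : ℝ) := by exact_mod_cast h6
       push_cast at this
       exact this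
     exact H.mono_d hi (by linarith only [h6', hy, hy.1]) (by linarith only [h5']) (by linarith only [hyy]) (by linarith only [hyy])
       (by linarith only [h5']) (by linarith only [h4', hy', hy'.2])
   have hae : ∀ᵐ z : ℝ, ∀ i : ℕ, ∀ x : ℚ × ℚ, i ≤ n → 0 ≤ x.1 → x.1 ≤ x.2 → x.2 ≤ 1 / 2 →
       z ∈ Icc (-(1 / 2) : ℝ) 1 → DifferentiableWithinAt ℝ
         (fun y : ℝ => Λ i (y - x.1) (y - x.2)) (Icc (-(1 / 2)) 1) z := by
     rw [ae_all_iff]
     intro i
     rw [ae_all_iff]
     intro x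
     by_cases hc : i ≤ n ∧ 0 ≤ x.1 ∧ x.1 ≤ x.2 ∧ x.2 ≤ 1 / 2
     · filter_upwards [(hmono i hc.1 x hc.2.1 hc.2.2.1
         hc.2.2.2).ae_differentiableWithinAt_of_mem] with z hz _ _ _ _ hz'
       exact hz hz'
     · exact Filter.Eventually.of_forall fun z g1 g2 g3 g4 => absurd ⟨g1, g2, g3, g4⟩ hc
   obtain ⟨z, hz1, hz2⟩ : ∃ z ∈ Ioo p' q', ∀ i : ℕ, ∀ x : ℚ × ℚ, i ≤ n → 0 ≤ x.1 → x.1 ≤ x.2 →
       x.2 ≤ 1 / 2 → z ∈ Icc (-(1 / 2) : ℝ) 1 → DifferentiableWithinAt ℝ
         (fun y : ℝ => Λ i (y - x.1) (y - x.2)) (Icc (-(1 / 2)) 1) z := by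
     by_contra hcon
     push Not at hcon
     have h4 : volume (Ioo p' q') = 0 := by
       refine measure_mono_null ?_ hae
       intro x hx hx'
       obtain ⟨i, y, g1, g2, g3, g4, g5, g6⟩ := hcon x hx
       exact g6 (hx' i y g1 g2 g3 g4 g5)
     rw [Real.volume_Ioo, ENNReal.ofReal_eq_zero] at h4
     linarith only [h2, h4]
   exact by
    have hz0 : 0 < z := by linarith only [hp, h1, h2, h3, hz1, hz1.1]
    have hzlt : z < 1 := by linarith only [hq, h1, h2, h3, hz1, hz1.2]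
    have hVω : ∀ (x : ℚ × ℚ) (i : ℕ), ∃ K o : ℝ, 0 < o ∧ (i ≤ n → 0 ≤ x.1 → x.1 ≤ x.2 →
        x.2 ≤ 1 / 2 → (∀ y : ℝ, -(1 / 2) ≤ y → y ≤ z →
          Λ i (z - x.1) (z - x.2) - Λ i (y - x.1) (y - x.2) ≤ K * (z - y)) ∧
        (∀ y : ℝ, z ≤ y → y ≤ z + o →
          Λ i (y - x.1) (y - x.2) - Λ i (z - x.1) (z - x.2) ≤ K * (y - z))) := by
      intro x i
      by_cases hc : i ≤ n ∧ 0 ≤ x.1 ∧ x.1 ≤ x.2 ∧ x.2 ≤ 1 / 2
      · have hd := (hz2 i x hc.1 hc.2.1 hc.2.2.1 hc.2.2.2 ⟨by linarith only [hp, hq, h1, h2, h3, hz0], hzlt.le⟩).differentiableAt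
          (Icc_mem_nhds (by linarith only [hp, hq, h1, h2, h3, hz0]) hzlt)
        obtain ⟨K, o, ho, h4, h5⟩ := slope_bd (by linarith only [hp, hq, h1, h2, h3, hz0]) (hmono i hc.1 x hc.2.1 hc.2.2.1
          hc.2.2.2) hzlt hd
        exact ⟨K, o, ho, fun _ _ _ _ => ⟨h4, h5⟩⟩
      · exact ⟨0, 1, one_pos, fun g1 g2 g3 g4 => absurd ⟨g1, g2, g3, g4⟩ hc⟩
    choose K o ho hKo using hVω
    have hV : ∀ x : ℚ × ℚ, ∃ V : ℕ, ∀ i ≤ n, K x i ≤ V := by
      intro x
      obtain ⟨V, hV⟩ := exists_nat_ge (∑ i ∈ Finset.range (n + 1), |K x i|)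
      refine ⟨V, fun i hi => (le_abs_self _).trans (le_trans ?_ hV)⟩
      exact Finset.single_le_sum (f := fun i => |K x i|) (fun _ _ => abs_nonneg _)
        (Finset.mem_range.2 (Nat.lt_succ_of_le hi))
    choose V hV using hV
    have hω : ∀ x : ℚ × ℚ, ∃ w : ℝ, 0 < w ∧ z + w ≤ 1 ∧ ∀ i ≤ n, w ≤ o x i := by
      intro x
      obtain ⟨c, hc, h4⟩ := fset_small (Finset.range (n + 1)) (Q := fun i e => e ≤ o x i)
        (fun i _ => ⟨o x i, ho x i, fun e _ he => he⟩)
      have h5 : 0 < min c (1 - z) := lt_min hc (by linarith only [hzlt])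
      exact ⟨min c (1 - z), h5, by linarith only [min_le_right c (1 - z)], fun i hi =>
        h4 _ h5 (min_le_left _ _) i (Finset.mem_range.2 (Nat.lt_succ_of_le hi))⟩
    choose ω hω0 hω1 hωo using hω
    -- the margin
    exact by
     obtain ⟨e', he'0, he'e, he'm⟩ : ∃ e' : ℝ, 0 < e' ∧ e' ≤ e ∧ e' ≤ 1 / 2 ^ m 0 :=
       ⟨min e (1 / 2 ^ m 0), lt_min he (hpow0 _), min_le_left _ _, min_le_right _ _⟩
     rw [← hmz] at hm₀ hm₁ hm₂ hm₃
     have hk0 := hpow0 (m 0)
     refine ⟨S, m, z, e', V, ω, hSn, hm₀, hms, ⟨hz0, he'0, by linarith only [he1, he'e, hz1, hz1.2], ?_, ?_, ?_, hω0,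
       hω1, ?_, ?_⟩⟩
     · nlinarith only [hm₂, hm₁, h1, hz0, he'0, he'm, hz1, hz1.1]
     · intro i hi x β g1 g2 g3
       have hin : i < n := Finset.mem_range.1 (hSn hi)
       have g4 := hst i hi x ⟨by nlinarith only [hm₂, h1, he'0, he'm, g1, g2, hz1, hz1.1], by nlinarith only [hm₂, h1, h2, h3, he'm, g3, hz1, he'0, hz1.2]⟩
       refine g4.trans (H.mono_w hin.le ?_ ?_ g2 ?_)
       · nlinarith only [hm₂, hm₁, h1, hz0, he'0, he'm, g1, g2, hpow, hz1, hpow M, hz1.1]
       · nlinarith only [hm₃, he'm, g1, g3]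
       · linarith only [he1, he'e, g3, hz1, hz1.2]
     · intro j hj i hi hiS
       have g1 := hgp j hj z hz1.1.le hz1.2.le i hi hiS
       have hσ := (H.lo i hi.le).sig_nonneg
       have g2 := H.mono_a hi.le (β := z - 1 / 2 ^ m j / 2) (x := z + e') (y := z + e)
         (by linarith only [hz0, hpow, hpow (m j)]) (by linarith only [he'0, hpow0, hpow0 (m j)]) (by linarith only [he'e])
         (by linarith only [he1, hz1, hz1.2])
       have g3 : σ i * (z - 1 / 2 ^ m (j + 1) - e) ≤ σ i * (z - 1 / 2 ^ m (j + 1) - e') :=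
         mul_le_mul_of_nonneg_left (by linarith only [he'e]) hσ
       linarith only [he'e, g1, g2, g3]
     · intro i hi x g1 g2 g3 y g4 g5
       refine ((hKo x i hi g1 g2 g3).1 y g4 g5).trans ?_
       exact mul_le_mul_of_nonneg_right (hV x i hi) (by linarith only [g5])
     · intro i hi x g1 g2 g3 y g4 g5
       refine ((hKo x i hi g1 g2 g3).2 y g4 (g5.trans (by linarith only [hωo, hi, hωo x i hi]))).trans ?_
       exact mul_le_mul_of_nonneg_right (hV x i hi) (by linarith only [g4])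

end

end PrM

open PrM

/-- **The profile of the levels: wide cells.** -/
theorem profileW {n : ℕ} {L : ℕ → ℝ → ℝ → ℝ} {a : ℝ} {σ : ℕ → ℝ} (h0 : 0 < a) (h1 : a < 1)
    (hLaw : ∀ i ≤ n, Law (L i)) (hder : ∀ i ≤ n, HasDerivAt (fun x => L i x x) (σ i) a)
    (htri : ∀ ε : ℝ, 0 < ε → ∃ r₁ : ℝ, 0 < r₁ ∧ ∀ r : ℝ, 0 < r → r < r₁ → ∀ a' w' : ℝ,
      a - r ≤ w' → w' ≤ a' → a' ≤ a + r → L n a' a' - ε * r ≤ L n a' w') (A R : ℕ) :
    ∃ (S : Finset ℕ) (m : ℕ → ℕ) (s : ℕ) (V : ℚ × ℚ → ℕ) (θ : ℝ), S ⊆ Finset.range n ∧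
      1 ≤ m 0 ∧ (∀ j, m j < m (j + 1)) ∧ 0 < θ ∧ ∀ τ : ℝ, 0 < τ → ∃ g₀ : ℝ, 0 < g₀ ∧
        g₀ ≤ 1 / 2 ^ m R ∧ ∀ γ μ : ℝ, 0 ≤ γ → γ ≤ g₀ → 0 ≤ μ → μ ≤ g₀ →
          ∀ F : Finset (ℚ × ℚ), (∀ x ∈ F, 0 ≤ x.1 ∧ x.1 ≤ x.2 ∧ x.2 ≤ 1 / 2) →
            ∃ o₀ : ℝ, 0 < o₀ ∧ ∀ o : ℝ, 0 ≤ o → o ≤ o₀ → ∀ ε : ℝ, 0 < ε → ∀ r₁ : ℝ, 0 < r₁ →
              ∃ r b : ℝ, 0 < r ∧ r < r₁ ∧ a ≤ b ∧ |b - a| ≤ r ∧
                CellW L n S σ s A R (fun j => 1 / 2 ^ m j) θ τ γ μ F V o b r ε := by
  classical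
  obtain ⟨δ₀, hδ₀⟩ : ∃ δ₀, δ₀ = min a (1 - a) := ⟨_, rfl⟩
  have hL : ∀ i ≤ n, Lo (L i) a δ₀ (σ i) := fun i hi =>
    ⟨hLaw i hi, hδ₀ ▸ lt_min h0 (by linarith), hδ₀ ▸ min_le_left _ _,
      by rw [hδ₀]; linarith [min_le_right a (1 - a)], hder i hi⟩
  obtain ⟨U, r, Λ, H⟩ := exists_pf hL
  obtain ⟨S, m, z, e, V, ω, hSn, hm1, hms, G⟩ := H.gen2 A R
  have hpow0 : ∀ m : ℕ, (0 : ℝ) < 1 / 2 ^ m := fun m => by positivity
  have hanti : ∀ m m' : ℕ, m ≤ m' → (1 : ℝ) / 2 ^ m' ≤ 1 / 2 ^ m := fun m m' h =>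
    one_div_le_one_div_of_le (by positivity) (pow_le_pow_right₀ (by norm_num) h)
  have hmmono : StrictMono m := strictMono_nat_of_lt_succ hms
  have hz0 := G.z0
  have he0 := G.e0
  have hz1 := G.z1
  have hzA := G.zA
  -- the slope of the diagonals
  have hK : ∀ i : ℕ, ∃ K : ℝ, i ≤ n → ∀ v : ℝ, 0 ≤ v → v ≤ a →
      L i a a - L i (a - v) (a - v) ≤ K * v := by
    intro i
    by_cases hi : i ≤ n
    · obtain ⟨K, _, hK⟩ := diag_slope (hLaw i hi) h0 h1.le (hder i hi)
      exact ⟨K, fun _ => hK⟩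
    · exact ⟨0, fun h => absurd h hi⟩
  choose K hK using hK
  obtain ⟨s, hs⟩ := exists_nat_ge (∑ i ∈ Finset.range (n + 1), (|K i| + |σ i|) + 2 / a)
  have hsum : ∀ i ≤ n, |K i| + |σ i| ≤ ∑ i ∈ Finset.range (n + 1), (|K i| + |σ i|) :=
    fun i hi => Finset.single_le_sum (f := fun i => |K i| + |σ i|)
      (fun _ _ => add_nonneg (abs_nonneg _) (abs_nonneg _))
      (Finset.mem_range.2 (Nat.lt_succ_of_le hi))
  have h2a : 0 < 2 / a := by positivity
  exact by
   have hsK : ∀ i ≤ n, K i ≤ s := fun i hi => by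
     have := hsum i hi
     have := le_abs_self (K i)
     have := abs_nonneg (σ i)
     linarith
   have hsσ : ∀ i ≤ n, σ i ≤ s := fun i hi => by
     have := hsum i hi
     have := le_abs_self (σ i)
     have := abs_nonneg (K i)
     linarith
   have hs2 : 2 ≤ s * a := by
     have h3 : 0 ≤ ∑ i ∈ Finset.range (n + 1), (|K i| + |σ i|) :=
       Finset.sum_nonneg fun _ _ => add_nonneg (abs_nonneg _) (abs_nonneg _)
     have h4 : 2 / a ≤ s := by linarith only [hs, h3]
     rwa [div_le_iff₀ h0] at h4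
   refine ⟨S, m, s, fun x => V x + 2 * s, e / 2, hSn, hm1, hms, by linarith only [he0], fun τ hτ => ?_⟩
   -- the small number
   obtain ⟨k, hk⟩ : ∃ k : ℕ → ℝ, k = fun j => 1 / 2 ^ m j := ⟨_, rfl⟩
   obtain ⟨kq, hkq⟩ : ∃ kq : ℕ → ℚ, kq = fun j => 1 / 2 ^ m j := ⟨_, rfl⟩
   have hkkq : ∀ j, ((kq j : ℚ) : ℝ) = k j := fun j => by
     rw [hkq, hk]
     push_cast
     rfl
   have hk0 : ∀ j, 0 < k j := fun j => by rw [hk]; exact hpow0 _
   have hkj : ∀ j, k j = 1 / 2 ^ m j := fun j => by rw [hk]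
   have hkanti : ∀ i j, i ≤ j → k j ≤ k i := fun i j hij => by
     rw [hkj, hkj]
     exact hanti _ _ (hmmono.monotone hij)
   have hk12 : ∀ j, k j ≤ 1 / 2 := fun j => by
     refine (hkanti 0 j (Nat.zero_le j)).trans ?_
     rw [hkj]
     have := hanti 1 (m 0) hm1
     rwa [pow_one] at this
   exact by
    have hkq0 : ∀ j, (0 : ℚ) ≤ kq j := fun j => by
      have : (0 : ℝ) ≤ ((kq j : ℚ) : ℝ) := by rw [hkkq]; exact (hk0 j).le
      exact_mod_cast this
    have hkq12 : ∀ j, kq j ≤ 1 / 2 := fun j => by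
      have h3 := hk12 j
      rw [← hkkq] at h3
      have h4 : ((kq j : ℚ) : ℝ) ≤ ((1 / 2 : ℚ) : ℝ) := by
        push_cast
        exact h3
      exact_mod_cast h4
    have hA0 : (0 : ℝ) ≤ A := Nat.cast_nonneg A
    have hAk : ((A : ℝ) + 1) * k 0 ≤ z := by rw [hkj]; exact hzA
    have hAk' : (A : ℝ) * k 0 + k 0 ≤ z := by linarith only [hAk]
    have hAk0 : 0 ≤ (A : ℝ) * k 0 := mul_nonneg hA0 (hk0 0).le
    obtain ⟨g₀, hg0, hge, hgR, hgv⟩ : ∃ g₀ : ℝ, 0 < g₀ ∧ 2 * g₀ ≤ e ∧ 2 * g₀ ≤ k R ∧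
        ∀ j ∈ Finset.range (R + 1), 2 * g₀ ≤ ω (0, kq j) ∧ V (0, kq j) * (2 * g₀) ≤ τ / 4 := by
      obtain ⟨c, hc, h2⟩ := fset_small (Finset.range (R + 1)) (Q := fun j g =>
        2 * g ≤ ω (0, kq j) ∧ V (0, kq j) * (2 * g) ≤ τ / 4) (by
          intro j _
          have h3 := G.ω0 (0, kq j)
          have h4 : (0 : ℝ) ≤ V (0, kq j) := Nat.cast_nonneg _
          refine ⟨min (ω (0, kq j) / 2) (τ / 4 / (2 * (V (0, kq j) + 1))),
            lt_min (by linarith only [h3]) (by positivity), fun g hg0 hg => ⟨?_, ?_⟩⟩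
          · linarith only [hg, hg.trans (min_le_left _ _)]
          · have h5 := hg.trans (min_le_right _ _)
            rw [le_div_iff₀ (by positivity)] at h5
            nlinarith only [hg0, h5])
      have h3 : 0 < min c (min (e / 2) (k R / 2)) :=
        lt_min hc (lt_min (by linarith only [he0]) (by linarith only [hk0, hk0 R]))
      have h4 : min c (min (e / 2) (k R / 2)) ≤ e / 2 :=
        (min_le_right _ _).trans (min_le_left _ _)
      have h5 : min c (min (e / 2) (k R / 2)) ≤ k R / 2 :=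
        (min_le_right _ _).trans (min_le_right _ _)
      exact ⟨_, h3, by linarith only [h4], by linarith only [h5], h2 _ h3 (min_le_left _ _)⟩
    exact by
     refine ⟨g₀, hg0, by rw [← hkj]; linarith only [hg0, hgR], fun γ μ hγ hγg hμ hμg F hF => ?_⟩
     obtain ⟨o₀, ho₀, hoω⟩ := fset_small F (Q := fun x o => o ≤ ω x) fun x _ =>
       ⟨ω x, G.ω0 x, fun _ _ h => h⟩
     have ho₀F : ∀ x ∈ F, o₀ ≤ ω x := hoω o₀ ho₀ le_rfl
     refine ⟨min o₀ 1, lt_min ho₀ one_pos, fun o ho hoo ε hε r₁ hr₁ => ?_⟩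
     have hoo₀ : o ≤ o₀ := hoo.trans (min_le_left _ _)
     have ho1 : o ≤ 1 := hoo.trans (min_le_right _ _)
     have hgk : ∀ j ≤ R, 2 * g₀ ≤ k j := fun j hj => hgR.trans (hkanti j R hj)
     have hg0k := hgk 0 (Nat.zero_le R)
     have hε4 : 0 < ε / 4 := by positivity
     have hFr : ∀ x ∈ F, (0 : ℝ) ≤ x.1 ∧ (x.1 : ℝ) ≤ x.2 ∧ (x.2 : ℝ) ≤ 1 / 2 := by
       intro x hx
       obtain ⟨g1, g2, g3⟩ := hF x hx
       refine ⟨by exact_mod_cast g1, by exact_mod_cast g2, ?_⟩
       have h4 : ((x.2 : ℚ) : ℝ) ≤ ((1 / 2 : ℚ) : ℝ) := by exact_mod_cast g3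
       push_cast at h4
       exact h4
     -- the static coordinates
     have T1 : ∀ᶠ t in (U : Filter ℕ), ∀ i ∈ Finset.range (n + 1), (i ∈ S ∨ i = n) → ∀ x β',
         z - (A * k 0 + μ) ≤ β' → β' ≤ x → x ≤ z + (γ + μ) →
           |RL (L i) a r x β' t - σ i * x| ≤ ε / 4 := by
       rw [Filter.eventually_all_finset]
       intro i hi
       have hin : i ≤ n := Nat.lt_succ_iff.1 (Finset.mem_range.1 hi)
       by_cases hiN : i = n
       · subst hiN
         filter_upwards [(hL i le_rfl).ev_top H.rpos H.rlim htri hε4] with t ht _ x β' g1 g2 g3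
         exact ht x β' (by linarith only [hz1, hAk, hAk0, hg0, hge, hμg, hg0k, g1]) g2 (by linarith only [hz1, hge, hγg, hμg, g3])
       by_cases hiS : i ∈ S
       · have h2 := (hL i hin).ev_sta H.rpos H.rlim (β := z - (A * k 0 + μ)) (z := z + (γ + μ))
           (l := fun x => Λ i x (z - (A * k 0 + μ))) (by linarith only [hz1, hAk, hAk0, hg0, hge, hμg, hg0k]) (by linarith only [hAk0, hγ, hμ]) (by linarith only [hz1, hge, hγg, hμg])
           (fun x g1 g2 => H.lim i hin x _ (by linarith only [hz1, hAk, hAk0, hg0, hge, hμg, hg0k]) g1 (by linarith only [hz1, hge, hγg, hμg, g2]))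
           (fun x g1 g2 => G.st i hiS x _ (by rw [← hkj]; linarith only [hg0, hge, hμg]) g1 (by linarith only [hge, hγg, hμg, g2])) hε4
         exact h2.mono fun t ht _ => ht
       · exact Filter.Eventually.of_forall fun t h => by
           rcases h with h | h
           · exact absurd h hiS
           · exact absurd h hiN
     exact by
      have T2 : ∀ᶠ t in (U : Filter ℕ), ∀ i ∈ Finset.range (n + 1), ∀ x, -1 ≤ x → x ≤ 1 →
          |RL (L i) a r x x t - σ i * x| ≤ ε / 4 := by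
        rw [Filter.eventually_all_finset]
        intro i hi
        exact (hL i (Nat.lt_succ_iff.1 (Finset.mem_range.1 hi))).ev_diag2 H.rpos H.rlim hε4
      have T3 : ∀ᶠ t in (U : Filter ℕ), ∀ i ∈ Finset.range n, ∀ j ∈ Finset.range R, i ∉ S →
          RL (L i) a r (z + (γ + μ)) (z - (k j - μ)) t + e / 2 ≤
            RL (L i) a r (z - (γ + μ)) (z - (k (j + 1) + μ)) t := by
        rw [Filter.eventually_all_finset]
        intro i hi
        rw [Filter.eventually_all_finset]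
        intro j hj
        have hin : i < n := Finset.mem_range.1 hi
        have hjR : j < R := Finset.mem_range.1 hj
        by_cases hiS : i ∈ S
        · exact Filter.Eventually.of_forall fun t h => absurd hiS h
        have hgp := G.gp j hjR i hin hiS
        rw [← hkj, ← hkj] at hgp
        have h7 := (hL i hin.le).ev_gap2 H.rpos H.rlim (z := z) (e := e) (k := k j)
          (k' := k (j + 1)) (γ := γ) (μ := μ) (θ := e / 2)
          (H.lim i hin.le (z + e) (z - k j / 2) (by linarith only [hz1, hAk, hAk0, hg0, hge, hg0k, hk12, hk12 j]) (by linarith only [hg0, hge, hk0, hk0 j]) hz1)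
          hgp he0 (hkanti j (j + 1) (Nat.le_succ j)) hγ hμ (by linarith only [hge, hγg, hμg])
          (by linarith only [hμg, hgk, hjR, hgk j hjR.le]) (by linarith only [hg0, hγg, hgk, hjR, hgk (j + 1) hjR]) le_rfl hz0.le hz1 (hk12 j)
        exact h7.mono fun t ht _ => ht
      have T4 : ∀ᶠ t in (U : Filter ℕ), ∀ i ∈ Finset.range n, ∀ j ∈ Finset.range (R + 1), i ∉ S →
          RL (L i) a r (z + (γ + μ)) (z - (k j - μ)) t ≤
            RL (L i) a r (z - (γ + μ)) (z - (k j + μ)) t + τ := by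
        rw [Filter.eventually_all_finset]
        intro i hi
        rw [Filter.eventually_all_finset]
        intro j hj
        have hin : i < n := Finset.mem_range.1 hi
        have hjR : j ≤ R := Nat.lt_succ_iff.1 (Finset.mem_range.1 hj)
        obtain ⟨v1, v2⟩ := hgv j hj
        have hh : γ + μ ≤ ω (0, kq j) := by linarith only [hγg, hμg, v1]
        have hV0 : (0 : ℝ) ≤ V (0, kq j) := Nat.cast_nonneg _
        have hkk := hk12 j
        have hkk0 := hk0 j
        have hgkj := hgk j hjR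
        have b1 := G.fw i hin.le (0, kq j) le_rfl (hkq0 j) (hkq12 j) (z + (γ + μ)) (by linarith only [hγ, hμ])
          (by linarith only [hγg, hμg, v1])
        have b2 := G.bk i hin.le (0, kq j) le_rfl (hkq0 j) (hkq12 j) (z - (γ + μ)) (by linarith only [hz1, hAk, hAk0, hg0, hge, hγg, hμg, hg0k])
          (by linarith only [hγ, hμ])
        simp only [Rat.cast_zero, sub_zero, hkkq] at b1 b2
        have b3 : V (0, kq j) * (z + (γ + μ) - z) ≤ τ / 4 := by
          refine le_trans ?_ v2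
          exact mul_le_mul_of_nonneg_left (by linarith only [hγg, hμg]) hV0
        have b4 : V (0, kq j) * (z - (z - (γ + μ))) ≤ τ / 4 := by
          refine le_trans ?_ v2
          exact mul_le_mul_of_nonneg_left (by linarith only [hγg, hμg]) hV0
        have h7 := (hL i hin.le).ev_var H.rpos H.rlim (z := z) (k := k j) (γ := γ) (μ := μ)
          (τ := τ) (l := Λ i (z + (γ + μ)) (z + (γ + μ) - k j))
          (l' := Λ i (z - (γ + μ)) (z - (γ + μ) - k j))
          (H.lim i hin.le _ _ (by linarith only [hz1, hAk, hAk0, hg0, hge, hγ, hμ, hg0k, hkk]) (by linarith only [hkk0]) (by linarith only [hz1, hge, hγg, hμg]))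
          (H.lim i hin.le _ _ (by linarith only [hz1, hAk, hAk0, hg0, hge, hγg, hμg, hg0k, hkk]) (by linarith only [hkk0]) (by linarith only [hz1, hg0, hge, hγ, hμ])) (by linarith only [b1, b2, b3]) hτ hγ hμ
          (by linarith only [hγg, hkk0, hgkj]) hz0.le (by linarith only [hz1, hge, hγg, hμg]) (by linarith only [hz1, hAk, hAk0, hge, hγg, hμg, hg0k, hkk])
        exact h7.mono fun t ht _ => ht
      exact by
       have T5 : ∀ᶠ t in (U : Filter ℕ), ∀ i ∈ Finset.range (n + 1), ∀ x ∈ F, ∀ y : ℝ,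
           -(1 / 2) ≤ y → y ≤ z → RL (L i) a r (z - x.1) (z - x.2) t -
             RL (L i) a r (y - x.1) (y - x.2) t ≤ V x * (z - y) + ε / 4 := by
         rw [Filter.eventually_all_finset]
         intro i hi
         rw [Filter.eventually_all_finset]
         intro x hx
         have hin : i ≤ n := Nat.lt_succ_iff.1 (Finset.mem_range.1 hi)
         obtain ⟨g1, g2, g3⟩ := hFr x hx
         obtain ⟨q1, q2, q3⟩ := hF x hx
         exact (hL i hin).ev_bk H.rpos H.rlim (g := fun y => Λ i (y - x.1) (y - x.2)) g1 g2 g3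
           hz0.le (by linarith only [hz1, hg0, hge]) (Nat.cast_nonneg _)
           (fun y h3 h4 => H.lim i hin _ _ (by linarith only [g3, h3]) (by linarith only [g2]) (by linarith only [hz1, hg0, hge, g1, h4]))
           (G.bk i hin x q1 q2 q3) hε4
       have T6 : ∀ᶠ t in (U : Filter ℕ), ∀ i ∈ Finset.range (n + 1), ∀ x ∈ F, ∀ y : ℝ,
           z ≤ y → y ≤ z + o → RL (L i) a r (y - x.1) (y - x.2) t -
             RL (L i) a r (z - x.1) (z - x.2) t ≤ V x * (y - z) + ε / 4 := by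
         rw [Filter.eventually_all_finset]
         intro i hi
         rw [Filter.eventually_all_finset]
         intro x hx
         have hin : i ≤ n := Nat.lt_succ_iff.1 (Finset.mem_range.1 hi)
         obtain ⟨g1, g2, g3⟩ := hFr x hx
         obtain ⟨q1, q2, q3⟩ := hF x hx
         have hox : o ≤ ω x := hoo₀.trans (ho₀F x hx)
         have hω1 := G.ω1 x
         exact (hL i hin).ev_fw H.rpos H.rlim (g := fun y => Λ i (y - x.1) (y - x.2)) g1 g2 g3
           hz0.le (by linarith only [hox, hω1]) ho (Nat.cast_nonneg _)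
           (fun y h3 h4 => H.lim i hin _ _ (by linarith only [hz1, hAk, hAk0, hg0, hge, hg0k, g3, h3]) (by linarith only [g2]) (by linarith only [g1, hox, hω1, h4]))
           (fun y h3 h4 => G.fw i hin x q1 q2 q3 y h3 (by linarith only [hox, h4])) hε4
       exact by
        obtain ⟨t, ⟨⟨⟨⟨⟨⟨t1, t2⟩, t3⟩, t4⟩, t5⟩, t6⟩, t7⟩⟩ :=
          (((((((T1.and T2).and T3).and T4).and T5).and T6).and
            ((tendsto_order.1 H.rlim).2 (min r₁ (min (a / 2) ((1 - a) / 4))) (lt_min hr₁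
              (lt_min (by linarith only [h0]) (by linarith only [h1]))))).exists)
        have hrt := H.rpos t
        have hr1 : r t < r₁ := t7.trans_le (min_le_left _ _)
        have hr2 : r t < a / 2 := t7.trans_le ((min_le_right _ _).trans (min_le_left _ _))
        have hr3 : r t < (1 - a) / 4 := t7.trans_le ((min_le_right _ _).trans (min_le_right _ _))
        have hk00 : (fun j => 1 / 2 ^ m j) = k := hk.symm
        have hzr : 0 < z * r t := mul_pos hz0 hrt
        have hzr1 : z * r t ≤ r t := by nlinarith only [h0, h1, he0, hrt, hz1]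
        refine ⟨r t, a + z * r t, hrt, hr1, by linarith only [hzr], ?_, ?_⟩
        · rw [add_sub_cancel_left, abs_of_pos hzr]
          exact hzr1
        have xform : ∀ y : ℝ, ∃ x : ℝ, y = a + x * r t := fun y => ⟨(y - a) / r t, by
          rw [div_mul_cancel₀ _ hrt.ne']; ring⟩
        have hmem : ∀ i ≤ n, i ∈ Finset.range (n + 1) := fun i hi =>
          Finset.mem_range.2 (Nat.lt_succ_of_le hi)
        have cancel : ∀ x y : ℝ, a + x * r t ≤ a + y * r t → x ≤ y := fun x y h =>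
          le_of_mul_le_mul_right (by linarith only [h]) hrt
        have core : ∀ i ≤ n, ∀ x y : ℝ, |RL (L i) a r x y t - σ i * x| ≤ ε / 4 →
            |L i (a + x * r t) (a + y * r t) - L i (a + z * r t) (a + z * r t) -
              σ i * (a + x * r t - (a + z * r t))| ≤ ε * r t := by
          intro i hi x y h2
          have h3 := abs_le.1 (t2 i (hmem i hi) z (by linarith only [hAk, hAk0, hg0, hg0k, hrt, hr2, hr3]) (by linarith only [hz1, hg0, hge]))
          have h2' := abs_le.1 h2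
          rw [RL_eq (L i) a hrt, RL_eq (L i) a hrt]
          have e2 : L i a a + RL (L i) a r x y t * r t - (L i a a + RL (L i) a r z z t * r t) -
              σ i * (a + x * r t - (a + z * r t)) =
              (RL (L i) a r x y t - σ i * x - (RL (L i) a r z z t - σ i * z)) * r t := by ring
          rw [e2, abs_mul, abs_of_pos hrt]
          refine mul_le_mul_of_nonneg_right ?_ hrt.le
          rw [abs_le]
          constructor <;> linarith only [hε, h3, h2']
        exact by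
         have hs0 : (0 : ℝ) ≤ s := Nat.cast_nonneg s
         -- the backward slopes of the diagonals
         have hsl : ∀ i ≤ n, ∀ v, 0 ≤ v → v ≤ a + z * r t → L i (a + z * r t) (a + z * r t) -
             L i (a + z * r t - v) (a + z * r t - v) ≤ s * v + ε / 2 * r t := by
           intro i hi v hv hvb
           have g3 := abs_le.1 (t2 i (hmem i hi) z (by linarith only [hAk, hAk0, hg0, hg0k, hrt, hr2, hr3]) (by linarith only [hz1, hg0, hge]))
           rcases le_or_gt v (z * r t) with hvz | hvz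
           · obtain ⟨y, hy⟩ := xform (a + z * r t - v)
             have hy1 : 0 ≤ y := by
               have : a + 0 * r t ≤ a + y * r t := by rw [← hy]; linarith only [hvz]
               exact cancel _ _ this
             have hy2 : y ≤ z := by
               have : a + y * r t ≤ a + z * r t := by rw [← hy]; linarith only [hv]
               exact cancel _ _ this
             have hv' : v = (z - y) * r t := by linarith only [hy]
             have g4 := abs_le.1 (t2 i (hmem i hi) y (by linarith only [hrt, hr2, hr3, hy1]) (by linarith only [hz1, hg0, hge, hy2]))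
             rw [hy, RL_eq (L i) a hrt, RL_eq (L i) a hrt, hv']
             have g5 : RL (L i) a r z z t - RL (L i) a r y y t ≤ s * (z - y) + ε / 2 := by
               have : σ i * (z - y) ≤ s * (z - y) :=
                 mul_le_mul_of_nonneg_right (hsσ i hi) (by linarith only [hy2])
               linarith only [g3, g4, this]
             have g6 := mul_le_mul_of_nonneg_right g5 hrt.le
             linarith only [g6]
           · have g4 := hK i hi (v - z * r t) (by linarith only [hvz]) (by linarith only [hvb])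
             have e3 : a - (v - z * r t) = a + z * r t - v := by ring
             rw [e3] at g4
             have g5 : K i * (v - z * r t) ≤ s * (v - z * r t) :=
               mul_le_mul_of_nonneg_right (hsK i hi) (by linarith only [hvz])
             rw [RL_eq (L i) a hrt]
             have g6 : RL (L i) a r z z t ≤ s * z + ε / 4 := by
               have : σ i * z ≤ s * z := mul_le_mul_of_nonneg_right (hsσ i hi) hz0.le
               linarith only [g3, this]
             have g7 := mul_le_mul_of_nonneg_right g6 hrt.le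
             nlinarith only [g4, g5, g7, hz0, hz1, hg0, hge, hε, hrt]
         exact by
          have hεr : 0 < ε * r t := mul_pos hε hrt
          rw [hk00]
          refine ⟨?_, ?_, ?_, ?_, ?_, ?_, ?_, ?_, ?_, ?_⟩
          · have : (A * k 0 + μ) * r t ≤ 1 * r t := mul_le_mul_of_nonneg_right (by linarith only [hz1, hAk, hg0, hge, hμg, hg0k]) hrt.le
            linarith only [hr2, hzr, this]
          · have : (γ + μ + o) * r t ≤ 2 * r t := mul_le_mul_of_nonneg_right (by linarith only [hz1, hAk, hAk0, hge, hγg, hμg, ho1, hg0k, hrt, hr2, hr3]) hrt.le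
            linarith only [hrt, hr3, hzr1, this]
          · have : s * a ≤ s * (a + z * r t) := mul_le_mul_of_nonneg_left (by linarith only [hzr]) hs0
            linarith only [hs2, this]
          · intro i hi a' w' g1 g2 g3
            have hin : i ≤ n := by
              rcases hi with h | h
              · exact (Finset.mem_range.1 (hSn h)).le
              · exact h.le
            obtain ⟨x, rfl⟩ := xform a'
            obtain ⟨y, rfl⟩ := xform w'
            refine core i hin x y (t1 i (hmem i hin) hi x y (cancel _ _ ?_) (cancel _ _ g2)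
              (cancel _ _ ?_))
            · rw [sub_mul]
              linarith only [g1]
            · rw [add_mul]
              linarith only [g3]
          · intro i hi hiS a' g1 g2
            obtain ⟨x, rfl⟩ := xform a'
            have g3 : z - (A * k 0 + μ) ≤ x := cancel _ _ (by rw [sub_mul]; linarith only [g1])
            have g4 : x ≤ z + (γ + μ) := cancel _ _ (by rw [add_mul]; linarith only [g2])
            exact core i hi.le x x (t2 i (hmem i hi.le) x (by linarith only [hAk, hg0, hμg, hg0k, hrt, hr2, hr3, g3]) (by linarith only [hz1, hge, hγg, hμg, g4]))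
          · intro i hi hiS j hj
            have h2 := t3 i (Finset.mem_range.2 hi) j (Finset.mem_range.2 hj) hiS
            have e1 : a + z * r t + (γ + μ) * r t = a + (z + (γ + μ)) * r t := by ring
            have e2 : a + z * r t - (k j - μ) * r t = a + (z - (k j - μ)) * r t := by ring
            have e3 : a + z * r t - (γ + μ) * r t = a + (z - (γ + μ)) * r t := by ring
            have e4 : a + z * r t - (k (j + 1) + μ) * r t = a + (z - (k (j + 1) + μ)) * r t := by ring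
            rw [e1, e2, e3, e4, RL_eq (L i) a hrt, RL_eq (L i) a hrt]
            have h3 := mul_le_mul_of_nonneg_right h2 hrt.le
            linarith only [h3]
          · intro i hi hiS j hj
            have h2 := t4 i (Finset.mem_range.2 hi) j (Finset.mem_range.2 (Nat.lt_succ_of_le hj)) hiS
            have e1 : a + z * r t + (γ + μ) * r t = a + (z + (γ + μ)) * r t := by ring
            have e2 : a + z * r t - (k j - μ) * r t = a + (z - (k j - μ)) * r t := by ring
            have e3 : a + z * r t - (γ + μ) * r t = a + (z - (γ + μ)) * r t := by ring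
            have e4 : a + z * r t - (k j + μ) * r t = a + (z - (k j + μ)) * r t := by ring
            rw [e1, e2, e3, e4, RL_eq (L i) a hrt, RL_eq (L i) a hrt]
            have h3 := mul_le_mul_of_nonneg_right h2 hrt.le
            linarith only [h3]
          · intro i hi v g1 g2
            have := hsl i hi v g1 g2
            linarith only [hεr, this]
          · intro i hi x hx v g1 g2
            obtain ⟨f1, f2, f3⟩ := hFr x hx
            have hVx : (0 : ℝ) ≤ V x := Nat.cast_nonneg _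
            push_cast
            rcases le_or_gt v (z + 1 / 2) with hv | hv
            · have h2 := t5 i (hmem i hi) x hx (z - v) (by linarith only [hv]) (by linarith only [g1])
              have e1 : a + z * r t - x.1 * r t = a + (z - x.1) * r t := by ring
              have e2 : a + z * r t - x.2 * r t = a + (z - x.2) * r t := by ring
              have e3 : a + z * r t - (x.1 + v) * r t = a + (z - v - x.1) * r t := by ring
              have e4 : a + z * r t - (x.2 + v) * r t = a + (z - v - x.2) * r t := by ring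
              rw [e1, e2, e3, e4, RL_eq (L i) a hrt, RL_eq (L i) a hrt]
              have h3 : RL (L i) a r (z - x.1) (z - x.2) t - RL (L i) a r (z - v - x.1) (z - v - x.2) t ≤
                  (V x + 2 * s) * v + ε := by
                have : 0 ≤ 2 * (s : ℝ) * v := by positivity
                linarith only [hε, h2, this]
              have h4 := mul_le_mul_of_nonneg_right h3 hrt.le
              linarith only [h4]
            · have hb1 : a + z * r t ≤ 1 := by linarith only [hrt, hr3, hzr1]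
              have h2 := hsl i hi ((x.2 + v) * r t) (mul_nonneg (by linarith only [hAk, hAk0, hg0, hg0k, hrt, hr2, hr3, f1, f2, hv]) hrt.le) g2
              have f4 : (x.1 : ℝ) * r t ≤ x.2 * r t := mul_le_mul_of_nonneg_right f2 hrt.le
              have f5 : 0 ≤ (x.1 : ℝ) * r t := mul_nonneg f1 hrt.le
              have f6 : 0 ≤ v * r t := mul_nonneg g1 hrt.le
              have f7 : (x.2 + v) * r t = x.2 * r t + v * r t := by ring
              have f8 : (x.1 + v) * r t = x.1 * r t + v * r t := by ring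
              have h3 : L i (a + z * r t - x.1 * r t) (a + z * r t - x.2 * r t) ≤
                  L i (a + z * r t) (a + z * r t) :=
                (hLaw i hi).mono (by linarith only [g2, f6]) (by linarith only [f4]) (by linarith only [f5]) (by linarith only [f4, f5]) le_rfl hb1
              have h4 : L i (a + z * r t - (x.2 + v) * r t) (a + z * r t - (x.2 + v) * r t) ≤
                  L i (a + z * r t - (x.1 + v) * r t) (a + z * r t - (x.2 + v) * r t) :=
                (hLaw i hi).mono_a _ _ _ (by linarith only [g2]) le_rfl (by linarith only [f4]) (by linarith only [hrt, hr3, hzr1, f5, f6])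
              have h5 : s * ((x.2 + v) * r t) ≤ 2 * s * v * r t := by
                have : s * ((x.2 + v) * r t) ≤ s * ((v + v) * r t) :=
                  mul_le_mul_of_nonneg_left (mul_le_mul_of_nonneg_right (by linarith only [hAk, hAk0, hg0, hg0k, f3, hv]) hrt.le) hs0
                linarith only [this]
              have h6 : 0 ≤ V x * v * r t := by positivity
              linarith only [hεr, h2, h3, h4, h5, h6]
          · intro i hi x hx v g1 g2
            push_cast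
            have h2 := t6 i (hmem i hi) x hx (z + v) (by linarith only [g1]) (by linarith only [g2])
            have e1 : a + z * r t - x.1 * r t = a + (z - x.1) * r t := by ring
            have e2 : a + z * r t - x.2 * r t = a + (z - x.2) * r t := by ring
            have e3 : a + z * r t - (x.1 - v) * r t = a + (z + v - x.1) * r t := by ring
            have e4 : a + z * r t - (x.2 - v) * r t = a + (z + v - x.2) * r t := by ring
            rw [e1, e2, e3, e4, RL_eq (L i) a hrt, RL_eq (L i) a hrt]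
            have h3 : RL (L i) a r (z + v - x.1) (z + v - x.2) t -
                RL (L i) a r (z - x.1) (z - x.2) t ≤ (V x + 2 * s) * v + ε := by
              have : 0 ≤ 2 * (s : ℝ) * v := by positivity
              linarith only [hε, h2, this]
            have h4 := mul_le_mul_of_nonneg_right h3 hrt.le
            linarith only [h4]

end Pool.STAT
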