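import Pool.Agent.H75.STAT.ShW
import Pool.Agent.H87.GEN.StaF

/-!
# Generic centres of wide cells

`Dns W a`: `a` is a density point of the set `W` of windows. `AttN Att`: on every line of direction
`(1, 1)` almost all pairs (radius, window) belong to `Att`. The centre of a wide cell can be moved
by a small `t` such that finitely many windows belong to `W` and all the pairs with rational
offsets belong to `Att`. So a strategy may assume this: `gme_of_good`.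
-/

set_option autoImplicit false

namespace Pool.STR

open MeasureTheory Set Filter Topology Pool.LEV
open scoped ENNReal

/-- `a` is a density point of `W`. -/
def Dns (W : Set ℝ) (a : ℝ) : Prop :=
  ∀ ε : ℝ, 0 < ε → ∃ r₁ : ℝ, 0 < r₁ ∧ ∀ r : ℝ, 0 < r → r < r₁ →
    volume (Ioo (a - r) (a + r) \ W) ≤ ENNReal.ofReal (ε * r)

/-- On every line of direction `(1, 1)` almost all pairs belong to `Att`. -/
def AttN (Att : Set (ℝ × ℝ)) : Prop :=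
  ∀ x y : ℝ, y ≤ x → ∀ᵐ t : ℝ, 0 < y + t → x + t < 1 → (x + t, y + t) ∈ Att

theorem dns_ae {W : Set ℝ} (hW : MeasurableSet W) : ∀ᵐ a : ℝ, a ∈ W → Dns W a := by
  filter_upwards [Besicovitch.ae_tendsto_measure_inter_div_of_measurableSet
    (volume : Measure ℝ) hW.compl] with a ha haW ε hε
  have h0 : Set.indicator Wᶜ (1 : ℝ → ℝ≥0∞) a = 0 := indicator_of_notMem (by simpa using haW) _
  rw [h0] at ha
  have h1 : ∀ᶠ r in 𝓝[>] (0 : ℝ), volume (Wᶜ ∩ Metric.closedBall a r) /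
      volume (Metric.closedBall a r) < ENNReal.ofReal (ε / 2) :=
    (tendsto_order.1 ha).2 _ (ENNReal.ofReal_pos.2 (half_pos hε))
  rw [eventually_nhdsWithin_iff, Metric.eventually_nhds_iff] at h1
  obtain ⟨r₁, hr₁, h1⟩ := h1
  refine ⟨r₁, hr₁, fun r hr hrr => ?_⟩
  have h2 := h1 (y := r) (by rw [Real.dist_eq, sub_zero, abs_of_pos hr]; exact hrr) hr
  rw [Real.volume_closedBall] at h2
  have h3 : ENNReal.ofReal (2 * r) ≠ 0 := by
    rw [Ne, ENNReal.ofReal_eq_zero, not_le]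
    linarith only [hr]
  have h4 := (ENNReal.div_lt_iff (Or.inl h3) (Or.inl ENNReal.ofReal_ne_top)).1 h2
  rw [← ENNReal.ofReal_mul (by positivity)] at h4
  have h5 : ε / 2 * (2 * r) = ε * r := by ring
  rw [h5] at h4
  refine (measure_mono ?_).trans h4.le
  intro x hx
  refine ⟨hx.2, ?_⟩
  rw [Metric.mem_closedBall, Real.dist_eq, abs_le]
  constructor <;> linarith only [hx, hx.1.1, hx.1.2]

/-- Almost every radius is a density point of one of countably many sets which cover. -/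
theorem dns_cover {ι : Type*} [Countable ι] {W : ι → Set ℝ} (hW : ∀ i, MeasurableSet (W i))
    (hc : ∀ᵐ a : ℝ, 0 < a → a < 1 → ∃ i, a ∈ W i) :
    ∀ᵐ a : ℝ, 0 < a → a < 1 → ∃ i, a ∈ W i ∧ Dns (W i) a := by
  filter_upwards [hc, ae_all_iff.2 fun i => dns_ae (hW i)] with a h1 h2 h3 h4
  obtain ⟨i, hi⟩ := h1 h3 h4
  exact ⟨i, hi, h2 i hi⟩

/-- **The generic shift.** -/
theorem good_shift {W : Set ℝ} {Att : Set (ℝ × ℝ)} {a δ : ℝ} (hW : Dns W a) (hA : AttN Att)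
    (hδ : 0 < δ) (K : Finset ℝ) : ∃ r₁ : ℝ, 0 < r₁ ∧ ∀ r b : ℝ, 0 < r → r < r₁ →
      |b - a| ≤ r → ∃ t : ℝ, 0 ≤ t ∧ t ≤ δ * r ∧ (∀ k ∈ K, b + t - k * r ∈ W) ∧
        ∀ p₁ q₁ p₂ q₂ : ℚ, 0 < b + t - p₂ - q₂ * r →
          b + t - p₂ - q₂ * r ≤ b + t - p₁ - q₁ * r → b + t - p₁ - q₁ * r < 1 →
            (b + t - p₁ - q₁ * r, b + t - p₂ - q₂ * r) ∈ Att := by
  classical
  obtain ⟨C, hC0, hC⟩ : ∃ C : ℝ, 0 ≤ C ∧ ∀ k ∈ K, |k| ≤ C :=
    ⟨∑ k ∈ K, |k|, Finset.sum_nonneg fun _ _ => abs_nonneg _, fun k hk =>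
      Finset.single_le_sum (f := fun k => |k|) (fun _ _ => abs_nonneg _) hk⟩
  obtain ⟨δ', hδ'⟩ : ∃ δ', δ' = min δ 1 := ⟨_, rfl⟩
  have hδ'0 : 0 < δ' := by rw [hδ']; exact lt_min hδ one_pos
  have hδ'1 : δ' ≤ 1 := by rw [hδ']; exact min_le_right _ _
  have hδ'δ : δ' ≤ δ := by rw [hδ']; exact min_le_left _ _
  have hN : (0 : ℝ) < (K.card : ℝ) + 1 := by positivity
  obtain ⟨r₁, hr₁, h1⟩ := hW (δ' / (K.card + 1) / (C + 2)) (by positivity)
  refine ⟨r₁ / (C + 2), by positivity, fun r b hr hrr hb => ?_⟩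
  rw [lt_div_iff₀ (by positivity)] at hrr
  have h2 := h1 ((C + 2) * r) (by positivity) (by linarith)
  have e1 : δ' / (K.card + 1) / (C + 2) * ((C + 2) * r) = δ' * r / (K.card + 1) := by
    field_simp
  rw [e1] at h2
  obtain ⟨hb1, hb2⟩ := abs_le.1 hb
  -- the bad sets
  obtain ⟨BW, hBW⟩ : ∃ BW : ℝ → Set ℝ, BW = fun k => (fun t => t + (b - k * r)) ⁻¹'
      (Ioo (a - (C + 2) * r) (a + (C + 2) * r) \ W) := ⟨_, rfl⟩
  have hBWm : ∀ k, volume (BW k) ≤ ENNReal.ofReal (δ' * r / (K.card + 1)) := fun k => by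
    rw [hBW]
    simp only
    rw [measure_preimage_add_right]
    exact h2
  have hAe : ∀ᵐ t : ℝ, ∀ p₁ q₁ p₂ q₂ : ℚ, b - p₂ - q₂ * r ≤ b - p₁ - q₁ * r →
      0 < b - p₂ - q₂ * r + t → b - p₁ - q₁ * r + t < 1 →
        (b - p₁ - q₁ * r + t, b - p₂ - q₂ * r + t) ∈ Att := by
    rw [ae_all_iff]
    intro p₁
    rw [ae_all_iff]
    intro q₁
    rw [ae_all_iff]
    intro p₂
    rw [ae_all_iff]
    intro q₂
    by_cases hle : b - p₂ - q₂ * r ≤ b - p₁ - q₁ * r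
    · filter_upwards [hA _ _ hle] with t ht _
      exact ht
    · exact Filter.Eventually.of_forall fun t h => absurd h hle
  have hex : ∃ t ∈ Ioo 0 (δ' * r), t ∉ (⋃ k ∈ K, BW k) ∧
      ∀ p₁ q₁ p₂ q₂ : ℚ, b - p₂ - q₂ * r ≤ b - p₁ - q₁ * r →
      0 < b - p₂ - q₂ * r + t → b - p₁ - q₁ * r + t < 1 →
        (b - p₁ - q₁ * r + t, b - p₂ - q₂ * r + t) ∈ Att := by
    by_contra hcon
    push Not at hcon
    have h3 : Ioo 0 (δ' * r) ⊆ (⋃ k ∈ K, BW k) ∪ {t | ¬ ∀ p₁ q₁ p₂ q₂ : ℚ,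
        b - p₂ - q₂ * r ≤ b - p₁ - q₁ * r → 0 < b - p₂ - q₂ * r + t →
        b - p₁ - q₁ * r + t < 1 → (b - p₁ - q₁ * r + t, b - p₂ - q₂ * r + t) ∈ Att} := by
      intro t ht
      by_cases htB : t ∈ ⋃ k ∈ K, BW k
      · exact Or.inl htB
      · obtain ⟨p₁, q₁, p₂, q₂, g1, g2, g3, g4⟩ := hcon t ht htB
        exact Or.inr fun hall => g4 (hall p₁ q₁ p₂ q₂ g1 g2 g3)
    have h4 : volume (Ioo 0 (δ' * r)) ≤
        ENNReal.ofReal (K.card * (δ' * r / (K.card + 1))) := by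
      refine (measure_mono h3).trans ((measure_union_le _ _).trans ?_)
      have h5 : volume {t : ℝ | ¬ ∀ p₁ q₁ p₂ q₂ : ℚ,
        b - p₂ - q₂ * r ≤ b - p₁ - q₁ * r → 0 < b - p₂ - q₂ * r + t →
        b - p₁ - q₁ * r + t < 1 → (b - p₁ - q₁ * r + t, b - p₂ - q₂ * r + t) ∈ Att} = 0 :=
        ae_iff.1 hAe
      rw [h5, add_zero]
      refine (measure_biUnion_finset_le _ _).trans ((Finset.sum_le_sum fun k _ =>
        hBWm k).trans ?_)
      rw [Finset.sum_const, nsmul_eq_mul, ← ENNReal.ofReal_natCast K.card,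
        ← ENNReal.ofReal_mul (Nat.cast_nonneg _)]
    rw [Real.volume_Ioo, ENNReal.ofReal_le_ofReal_iff (by positivity), sub_zero,
      mul_div_assoc', le_div_iff₀ hN] at h4
    have : 0 < δ' * r := mul_pos hδ'0 hr
    linarith only [h4, this]
  obtain ⟨t, ht, htB, htA⟩ := hex
  have hδr : δ' * r ≤ δ * r := mul_le_mul_of_nonneg_right hδ'δ hr.le
  have hδr1 : δ' * r ≤ r := by nlinarith only [hδ'1, hr]
  refine ⟨t, ht.1.le, by linarith [ht.2], fun k hk => ?_, fun p₁ q₁ p₂ q₂ g1 g2 g3 => ?_⟩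
  · by_contra hcon
    refine htB (mem_biUnion hk ?_)
    rw [hBW]
    have hk1 := abs_le.1 (hC k hk)
    have hkr1 : -C * r ≤ k * r := mul_le_mul_of_nonneg_right hk1.1 hr.le
    have hkr2 : k * r ≤ C * r := mul_le_mul_of_nonneg_right hk1.2 hr.le
    have e2 : t + (b - k * r) = b + t - k * r := by ring
    refine ⟨⟨?_, ?_⟩, ?_⟩
    · simp only
      nlinarith only [hr, hb1, hkr2, ht, ht.1]
    · simp only
      nlinarith only [hb2, hδr1, hkr1, ht, ht.2]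
    · simp only
      rw [e2]
      exact hcon
  · have e1 : b + t - p₁ - q₁ * r = b - p₁ - q₁ * r + t := by ring
    have e2 : b + t - p₂ - q₂ * r = b - p₂ - q₂ * r + t := by ring
    rw [e1] at g2 g3 ⊢
    rw [e2] at g1 g2 ⊢
    exact htA p₁ q₁ p₂ q₂ (by linarith only [g2]) g1 g3

/-- **A strategy against the wide cells with a generic centre.** -/
def GmeG (L : ℕ → ℝ → ℝ → ℝ) (n : ℕ) (σ : ℕ → ℝ) (a : ℝ) (W : Set ℝ) (Att : Set (ℝ × ℝ)) :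
    Prop :=
  ∃ A R : ℕ, 1 ≤ A ∧ ∀ (S : Finset ℕ) (m : ℕ → ℕ) (s : ℕ) (V : ℚ × ℚ → ℕ) (θ : ℝ),
    S ⊆ Finset.range n → 1 ≤ m 0 → (∀ j, m j < m (j + 1)) → 0 < θ →
    ∃ τ : ℝ, 0 < τ ∧ ∀ g₀ : ℝ, 0 < g₀ → g₀ ≤ 1 / 2 ^ m R →
      ∃ (γ μ : ℝ) (F : Finset (ℚ × ℚ)), 0 ≤ γ ∧ γ ≤ g₀ ∧ 0 ≤ μ ∧ μ ≤ g₀ ∧
        (∀ x ∈ F, 0 ≤ x.1 ∧ x.1 ≤ x.2 ∧ x.2 ≤ 1 / 2) ∧
        ∀ o₀ : ℝ, 0 < o₀ → ∃ o : ℝ, 0 ≤ o ∧ o ≤ o₀ ∧ ∃ ε : ℝ, 0 < ε ∧ ∃ r₁ : ℝ, 0 < r₁ ∧
          ∃ K : Finset ℝ, ∀ r b : ℝ, 0 < r → r < r₁ → |b - a| ≤ 2 * r →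
            STAT.CellW L n S σ s A R (fun j => 1 / 2 ^ m j) θ τ γ μ F V o b r ε →
            (∀ k ∈ K, b - k * r ∈ W) →
            (∀ p₁ q₁ p₂ q₂ : ℚ, 0 < b - p₂ - q₂ * r → b - p₂ - q₂ * r ≤ b - p₁ - q₁ * r →
              b - p₁ - q₁ * r < 1 → (b - p₁ - q₁ * r, b - p₂ - q₂ * r) ∈ Att) → False

/-- **It is enough to play against generic centres.** -/
theorem gme_of_good {L : ℕ → ℝ → ℝ → ℝ} {n : ℕ} {σ : ℕ → ℝ} {a : ℝ} {W : Set ℝ}
    {Att : Set (ℝ × ℝ)} (h0 : 0 < a) (hL : ∀ i ≤ n, Law (L i)) (hσ : ∀ i ≤ n, 0 ≤ σ i)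
    (hW : Dns W a) (hA : AttN Att) (G : GmeG L n σ a W Att) : Gme L n σ a := by
  classical
  obtain ⟨B, hB⟩ : ∃ B : ℝ, ∀ i ≤ n, σ i ≤ B :=
    ⟨∑ i ∈ Finset.range (n + 1), |σ i|, fun i hi => (le_abs_self _).trans
      (Finset.single_le_sum (f := fun i => |σ i|) (fun _ _ => abs_nonneg _)
        (Finset.mem_range.2 (Nat.lt_succ_of_le hi)))⟩
  have hB0 : 0 ≤ B := (hσ 0 (Nat.zero_le n)).trans (hB 0 (Nat.zero_le n))
  obtain ⟨A, R, hA1, G⟩ := G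
  refine ⟨A, R, fun S m s V θ hS hm1 hms hθ => ?_⟩
  obtain ⟨τ, hτ, G⟩ := G S m s V θ hS hm1 hms hθ
  refine ⟨τ, hτ, fun g₀ hg hgR => ?_⟩
  obtain ⟨γ, μ, F, hγ, hγg, hμ, hμg, hF, G⟩ := G (g₀ / 2) (half_pos hg) (by linarith only [hg, hgR])
  refine ⟨γ, μ + g₀ / 2, F, hγ, by linarith only [hg, hγg], by linarith only [hg, hμ], by linarith only [hμg], hF, fun o₀ ho₀ => ?_⟩
  obtain ⟨o, ho, hoo, ε, hε, r₁, hr₁, K, G⟩ := G (o₀ / 2) (half_pos ho₀)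
  refine ⟨o₀, ho₀.le, le_rfl, ε / 4, by positivity, ?_⟩
  have hmmono : StrictMono m := strictMono_nat_of_lt_succ hms
  have hanti : ∀ m m' : ℕ, m ≤ m' → (1 : ℝ) / 2 ^ m' ≤ 1 / 2 ^ m := fun m m' h =>
    one_div_le_one_div_of_le (by positivity) (pow_le_pow_right₀ (by norm_num) h)
  have hpow0 : ∀ m : ℕ, (0 : ℝ) < 1 / 2 ^ m := fun m => by positivity
  have hs0 : (0 : ℝ) ≤ s := Nat.cast_nonneg s
  have hA1' : (1 : ℝ) ≤ A := by exact_mod_cast hA1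
  -- the size of the shift
  obtain ⟨D, hD⟩ : ∃ D : ℝ, D = (B + s) + ∑ x ∈ F, (V x : ℝ) + 1 := ⟨_, rfl⟩
  have hsum0 : 0 ≤ ∑ x ∈ F, (V x : ℝ) := Finset.sum_nonneg fun _ _ => Nat.cast_nonneg _
  have hD1 : 1 ≤ D := by rw [hD]; linarith only [hB0, hsum0]
  have hDV : ∀ x ∈ F, (V x : ℝ) ≤ D := fun x hx => by
    have : (V x : ℝ) ≤ ∑ x ∈ F, (V x : ℝ) :=
      Finset.single_le_sum (f := fun x => (V x : ℝ)) (fun _ _ => Nat.cast_nonneg _) hx
    rw [hD]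
    linarith only [hB0, this]
  obtain ⟨δ, hδ0, hδg, hδo, hδ1, hδD⟩ : ∃ δ : ℝ, 0 < δ ∧ δ ≤ g₀ / 2 ∧ δ ≤ o₀ / 2 ∧ δ ≤ 1 ∧
      D * δ ≤ ε / 2 := by
    have hp : 0 < min (min (g₀ / 2) (o₀ / 2)) (min 1 (ε / 2 / D)) :=
      lt_min (lt_min (half_pos hg) (half_pos ho₀)) (lt_min one_pos (by positivity))
    refine ⟨_, hp, (min_le_left _ _).trans (min_le_left _ _),
      (min_le_left _ _).trans (min_le_right _ _), (min_le_right _ _).trans (min_le_left _ _), ?_⟩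
    have h1 : min (min (g₀ / 2) (o₀ / 2)) (min 1 (ε / 2 / D)) ≤ ε / 2 / D :=
      (min_le_right _ _).trans (min_le_right _ _)
    rw [le_div_iff₀ (by linarith only [hB0, hD, hsum0])] at h1
    linarith only [h1]
  obtain ⟨r₂, hr₂, hsh⟩ := good_shift hW hA hδ0 K
  refine ⟨min (min r₁ r₂) (a / 4), lt_min (lt_min hr₁ hr₂) (by linarith only [h0]),
    fun r b hr hrr hab hba C => ?_⟩
  have hr1 : r < r₁ := hrr.trans_le ((min_le_left _ _).trans (min_le_left _ _))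
  have hr2 : r < r₂ := hrr.trans_le ((min_le_left _ _).trans (min_le_right _ _))
  have hr3 : r < a / 4 := hrr.trans_le (min_le_right _ _)
  obtain ⟨t, ht1, ht2, hK, hAt⟩ := hsh r b hr hr2 hba
  have hδr : δ * r ≤ r := by nlinarith only [hδ1, hr]
  obtain ⟨hb1, hb2⟩ := abs_le.1 hba
  have hBs : (B + s) * δ ≤ D * δ := mul_le_mul_of_nonneg_right (by rw [hD]; linarith only [hsum0]) hδ0.le
  -- the slope condition at the new centre
  have hs2 : 2 ≤ s * (b + t) := by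
    have h1 := C.one
    have h2 : s * b ≤ s * (b + t) := mul_le_mul_of_nonneg_left (by linarith only [ht1]) hs0
    linarith only [h1, h2]
  refine G r (b + t) hr hr1 (abs_le.2 ⟨by linarith only [hr, hab, ht1], by linarith only [ht2, hδr, hb2]⟩) ?_ hK hAt
  refine C.shift (b := b + t) (δ := δ) (μ' := μ) (o' := o) (ε' := ε) (B := B) hL
    (fun i hi => (Finset.mem_range.1 (hS hi)).le) hr hγ hμ (fun j _ => (hpow0 _).le)
    (fun j hj => ?_) (fun j hj => ?_) hδ0.le (by linarith only [hδg]) (by linarith only [hoo, hδo]) ho hσ hB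
    (fun x hx => ⟨(hF x hx).1, (hF x hx).2.1⟩) (fun x hx => ?_) (by linarith only [hδD, hBs])
    (fun x hx => ?_) (by positivity) ?_ ?_ hs2
  · have := hanti (m j) (m R) (hmmono.monotone hj)
    linarith only [hgR, hγg, hδ0, hδg, this]
  · have h1 := hanti (m 0) (m j) (hmmono.monotone (Nat.zero_le j))
    have h2 : 1 / 2 ^ m 0 ≤ (A : ℝ) * (1 / 2 ^ m 0) := by
      have := mul_le_mul_of_nonneg_right hA1' (hpow0 (m 0)).le
      linarith only [this]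
    exact h1.trans h2
  · have h1 : ((x.2 : ℚ) : ℝ) ≤ 1 / 2 := by
      have h4 : ((x.2 : ℚ) : ℝ) ≤ ((1 / 2 : ℚ) : ℝ) := by exact_mod_cast (hF x hx).2.2
      push_cast at h4
      exact h4
    have h2 : (x.2 : ℝ) * r ≤ 1 / 2 * r := mul_le_mul_of_nonneg_right h1 hr.le
    linarith only [hr, hab, hr3, h2]
  · have := mul_le_mul_of_nonneg_right (hDV x hx) hδ0.le
    linarith only [hδD, this]
  · rw [add_sub_cancel_left, abs_of_nonneg ht1]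
    exact ht2
  · linarith only [hab, hr3, hδr]

end Pool.STR
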