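import Pool.Agent.H64.STAT.Rows

/-!
# Row FLS: walks with fewer legs

A leg of length `0` may be dropped: the walk without its first (or last) leg is the walk at the
value `0` of the length of this leg, so its minors are parts of the minors of the long walk.
-/

set_option autoImplicit false

namespace Pool.STAT

open Finset MvPolynomial
open Pool.BFL (Pl CB)

section Kill

variable {N M : ℕ} {f : Fin N → Fin M} (hf : Function.Injective f)

theorem kc_X (a : Fin N) : killCompl hf (X (f a) : Pl M) = X a := by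
  rw [← rename_X, killCompl_rename_app]

theorem kc_X_not {t : Fin M} (ht : t ∉ Set.range f) : killCompl hf (X t : Pl M) = 0 := by
  rw [killCompl, aeval_X, dif_neg ht]

/-- The derivative in a variable which is kept. -/
theorem kc_pderiv (a : Fin N) (P : Pl M) :
    killCompl hf (pderiv (f a) P) = pderiv a (killCompl hf P) := by
  induction P using MvPolynomial.induction_on with
  | C r => rw [pderiv_C, killCompl_C, pderiv_C, map_zero]
  | add P Q hP hQ => rw [map_add, map_add, map_add, map_add, hP, hQ]
  | mul_X P t hP =>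
    have key : killCompl hf (pderiv (f a) (X t : Pl M)) = pderiv a (killCompl hf (X t : Pl M)) := by
      by_cases ht : t ∈ Set.range f
      · obtain ⟨b, rfl⟩ := ht
        rw [kc_X hf]
        by_cases hab : b = a
        · subst hab
          rw [pderiv_X_self, pderiv_X_self, map_one]
        · rw [pderiv_X_of_ne hab, pderiv_X_of_ne (fun h => hab (hf h)), map_zero]
      · rw [kc_X_not hf ht, map_zero, pderiv_X_of_ne (fun h => ht ⟨a, h.symm⟩), map_zero]
    rw [pderiv_mul, map_add, map_mul, map_mul, map_mul, pderiv_mul, hP, key]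

theorem kc_bind {c : ℕ} (g : Fin c → Pl M) (Q : Pl c) :
    killCompl hf (bind₁ g Q) = bind₁ (fun k => killCompl hf (g k)) Q := by
  unfold bind₁
  exact comp_aeval_apply _ (killCompl hf) Q

end Kill

variable {c N : ℕ}

theorem wT_unf (d : Fin c → ℕ) (ξ : Fin (N + 1) → Fin c → Pl c) (i : Fin c) :
    wT d (N + 1) ξ i = ∑ r ∈ range (d i + 1), C (1 / (r.factorial : ℝ)) * X 0 ^ r *
      bind₁ (fun k => rename Fin.succ (wT d N (fun a => ξ a.succ) k)) ((lie (ξ 0))^[r] (X i)) :=
  rfl

theorem wH_unf (d : Fin c → ℕ) (j : ℕ) (ξ : Fin (N + 1) → Fin c → Pl c)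
    (b : Fin (N + 1) → Pl c) :
    wH d j (N + 1) ξ b = rename Fin.succ (wH d j N (fun a => ξ a.succ) (fun a => b a.succ)) +
      ∑ r ∈ range j, C (1 / ((r + 1).factorial : ℝ)) * X 0 ^ (r + 1) *
        bind₁ (fun k => rename Fin.succ (wT d N (fun a => ξ a.succ) k)) ((lie (ξ 0))^[r] (b 0)) :=
  rfl

theorem kc_castSucc_rename (P : Pl (N + 1)) :
    killCompl (Fin.castSucc_injective (N + 1)) (rename Fin.succ P) =
      rename Fin.succ (killCompl (Fin.castSucc_injective N) P) := by
  have h : (killCompl (R := ℝ) (Fin.castSucc_injective (N + 1))).comp (rename Fin.succ) =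
      (rename Fin.succ).comp (killCompl (R := ℝ) (Fin.castSucc_injective N)) := by
    apply algHom_ext
    intro a
    rw [AlgHom.comp_apply, AlgHom.comp_apply, rename_X]
    induction a using Fin.lastCases with
    | last =>
      rw [kc_X_not (Fin.castSucc_injective N) (t := Fin.last N), map_zero,
        kc_X_not (Fin.castSucc_injective (N + 1))]
      · rw [Fin.succ_last, Fin.range_castSucc]
        simp
      · rw [Fin.range_castSucc]
        simp
    | cast b =>
      rw [kc_X (Fin.castSucc_injective N) b, rename_X, Fin.succ_castSucc,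
        kc_X (Fin.castSucc_injective (N + 1)) b.succ]
  exact AlgHom.congr_fun h P

/-! ### The first leg -/

theorem wT_drop_first (d : Fin c → ℕ) (ξ : Fin (N + 1) → Fin c → Pl c) (i : Fin c) :
    killCompl (Fin.succ_injective N) (wT d (N + 1) ξ i) = wT d N (fun a => ξ a.succ) i := by
  have h0 : killCompl (Fin.succ_injective N) (X 0 : Pl (N + 1)) = 0 :=
    kc_X_not _ (by simp)
  rw [wT_unf, map_sum, Finset.sum_eq_single_of_mem 0 (by simp)]
  · rw [map_mul, map_mul, pow_zero, map_one, killCompl_C, Nat.factorial_zero, Nat.cast_one,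
      div_one, C_1, one_mul, one_mul, Function.iterate_zero, id_eq, bind₁_X_right,
      killCompl_rename_app]
  · intro r _ hr
    rw [map_mul, map_mul, map_pow, h0, zero_pow hr, mul_zero, zero_mul]

theorem wH_drop_first (d : Fin c → ℕ) (j : ℕ) (ξ : Fin (N + 1) → Fin c → Pl c)
    (b : Fin (N + 1) → Pl c) :
    killCompl (Fin.succ_injective N) (wH d j (N + 1) ξ b) =
      wH d j N (fun a => ξ a.succ) (fun a => b a.succ) := by
  have h0 : killCompl (Fin.succ_injective N) (X 0 : Pl (N + 1)) = 0 :=
    kc_X_not _ (by simp)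
  rw [wH_unf, map_add, map_sum, killCompl_rename_app, Finset.sum_eq_zero, add_zero]
  intro r _
  rw [map_mul, map_mul, map_pow, h0, zero_pow (Nat.succ_ne_zero r), mul_zero, zero_mul]

/-! ### The last leg -/

theorem wT_drop_last (d : Fin c → ℕ) : ∀ (N : ℕ) (ξ : Fin (N + 1) → Fin c → Pl c) (i : Fin c),
    killCompl (Fin.castSucc_injective N) (wT d (N + 1) ξ i) = wT d N (fun a => ξ a.castSucc) i
  | 0, ξ, i => by
    have h0 : killCompl (Fin.castSucc_injective 0) (X 0 : Pl (0 + 1)) = 0 :=
      kc_X_not _ (by rintro ⟨a, _⟩; exact a.elim0)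
    rw [wT_unf, map_sum, Finset.sum_eq_single_of_mem 0 (by simp)]
    · rw [map_mul, map_mul, pow_zero, map_one, killCompl_C, Nat.factorial_zero, Nat.cast_one,
        div_one, C_1, one_mul, one_mul, Function.iterate_zero, id_eq, bind₁_X_right]
      simp only [wT, map_zero]
    · intro r _ hr
      rw [map_mul, map_mul, map_pow, h0, zero_pow hr, mul_zero, zero_mul]
  | N + 1, ξ, i => by
    have h0 : killCompl (Fin.castSucc_injective (N + 1)) (X 0 : Pl (N + 1 + 1)) = X 0 :=
      kc_X (Fin.castSucc_injective (N + 1)) 0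
    have hb : ∀ k, killCompl (Fin.castSucc_injective (N + 1))
        (rename Fin.succ (wT d (N + 1) (fun a => ξ a.succ) k)) =
        rename Fin.succ (wT d N (fun a => ξ a.succ.castSucc) k) := fun k => by
      rw [kc_castSucc_rename, wT_drop_last d N]
      rfl
    rw [wT_unf d ξ, map_sum, wT_unf d (fun a : Fin (N + 1) => ξ a.castSucc)]
    refine Finset.sum_congr rfl fun r _ => ?_
    rw [map_mul, map_mul, map_pow, h0, killCompl_C, kc_bind]
    simp only [hb]
    rfl

theorem wH_drop_last (d : Fin c → ℕ) (j : ℕ) : ∀ (N : ℕ) (ξ : Fin (N + 1) → Fin c → Pl c)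
    (b : Fin (N + 1) → Pl c),
    killCompl (Fin.castSucc_injective N) (wH d j (N + 1) ξ b) =
      wH d j N (fun a => ξ a.castSucc) (fun a => b a.castSucc)
  | 0, ξ, b => by
    have h0 : killCompl (Fin.castSucc_injective 0) (X 0 : Pl (0 + 1)) = 0 :=
      kc_X_not _ (by rintro ⟨a, _⟩; exact a.elim0)
    rw [wH_unf, map_add, map_sum, Finset.sum_eq_zero, add_zero]
    · simp only [wH, map_zero]
    · intro r _
      rw [map_mul, map_mul, map_pow, h0, zero_pow (Nat.succ_ne_zero r), mul_zero, zero_mul]
  | N + 1, ξ, b => by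
    have h0 : killCompl (Fin.castSucc_injective (N + 1)) (X 0 : Pl (N + 1 + 1)) = X 0 :=
      kc_X (Fin.castSucc_injective (N + 1)) 0
    have hb : ∀ k, killCompl (Fin.castSucc_injective (N + 1))
        (rename Fin.succ (wT d (N + 1) (fun a => ξ a.succ) k)) =
        rename Fin.succ (wT d N (fun a => ξ a.succ.castSucc) k) := fun k => by
      rw [kc_castSucc_rename, wT_drop_last d N]
      rfl
    rw [wH_unf d j ξ, map_add, map_sum, wH_unf d j (fun a : Fin (N + 1) => ξ a.castSucc),
      kc_castSucc_rename, wH_drop_last d j N]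
    congr 1
    refine Finset.sum_congr rfl fun r _ => ?_
    rw [map_mul, map_mul, map_pow, h0, killCompl_C, kc_bind]
    simp only [hb]
    rfl

/-! ### Flat walks -/

theorem flat_kill (d : Fin c → ℕ) (j : ℕ) {f : Fin N → Fin (N + 1)} (hf : Function.Injective f)
    (ξ : Fin (N + 1) → Fin c → Pl c) (b : Fin (N + 1) → Pl c) (ξ' : Fin N → Fin c → Pl c)
    (b' : Fin N → Pl c) (hT : ∀ i, killCompl hf (wT d (N + 1) ξ i) = wT d N ξ' i)
    (hH : killCompl hf (wH d j (N + 1) ξ b) = wH d j N ξ' b') (r : ℝ) (h : Flat d j ξ b r) :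
    Flat d j ξ' b' r := by
  intro e
  have key : minA d j ξ' b' e = killCompl hf (minA d j ξ b (fun k => f (e k))) := by
    rw [minA, minA, AlgHom.map_det]
    congr 1
    ext1 i k
    rw [Matrix.of_apply, AlgHom.mapMatrix_apply, Matrix.map_apply, Matrix.of_apply,
      kc_pderiv hf (e k)]
    congr 1
    induction i using Fin.lastCases with
    | last => rw [Fin.snoc_last, Fin.snoc_last, hH]
    | cast i => rw [Fin.snoc_castSucc, Fin.snoc_castSucc, hT]
  intro k
  rw [key, coeff_killCompl]
  exact h _ _

/-- **FLS.** -/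
theorem fls_thm : FlsStmt := by
  intro c j N d r _
  exact ⟨fun ξ b h => flat_kill d j (Fin.succ_injective N) ξ b _ _ (wT_drop_first d ξ)
      (wH_drop_first d j ξ b) r h,
    fun ξ b h => flat_kill d j (Fin.castSucc_injective N) ξ b _ _ (wT_drop_last d N ξ)
      (wH_drop_last d j N ξ b) r h⟩

end Pool.STAT
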