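import Pool.Agent.H75.STAT.Lad
import Pool.Agent.H90.STAT.Adx
import Pool.Agent.H87.STAT.Nrm

/-!
# Row 106, without hypotheses
-/

namespace Pool.STAT

/-- **Row 106 LAD.** -/
theorem lad_thm : LadStmt := lad_of AdxRow.adx_thm nrm_thm

end Pool.STAT
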