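import Pool.Agent.H76.GN.Lev

/-!
# The cell with a margin

`L i` (`i ≤ n`) are the thresholds of the coordinates, `σ i` the derivatives of their diagonals
(real numbers). The coordinates of `S` and the top coordinate `n` are static in the triangle
`a - (k 0 + μ) r ≤ w ≤ a' ≤ a + μ r`; the other ones have gaps between the windows `a - k j r`.
-/

set_option autoImplicit false

namespace Pool.STAT

open Pool.LEV

/-- **The cell** of size `r` below the radius `a`, with gap `γ` and margin `μ`. -/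
structure CellM (L : ℕ → ℝ → ℝ → ℝ) (n : ℕ) (S : Finset ℕ) (σ : ℕ → ℝ) (R : ℕ) (k : ℕ → ℝ)
    (γ μ a r ε : ℝ) : Prop where
  stat : ∀ i, (i ∈ S ∨ i = n) → ∀ a' w', a - (k 0 + μ) * r ≤ w' → w' ≤ a' → a' ≤ a + μ * r →
    |L i a' w' - L i a a - σ i * (a' - a)| ≤ ε * r
  dyn : ∀ i < n, i ∉ S → ∀ j < R,
    L i (a + (γ + μ) * r) (a - (k j - μ) * r) + γ * r ≤
      L i (a - (γ + μ) * r) (a - (k (j + 1) + μ) * r)
  diag : ∀ i < n, i ∉ S → ∀ a', a - (k 0 + μ) * r ≤ a' → a' ≤ a + μ * r →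
    |L i a' a' - L i a a - σ i * (a' - a)| ≤ ε * r

/-- The gap at all the radii and windows. -/
theorem CellM.gap {L : ℕ → ℝ → ℝ → ℝ} {n : ℕ} {S : Finset ℕ} {σ : ℕ → ℝ} {R : ℕ} {k : ℕ → ℝ}
    {γ μ a r ε : ℝ} (H : CellM L n S σ R k γ μ a r ε) (hL : ∀ i < n, Law (L i)) (hr : 0 ≤ r)
    (hγ : 0 ≤ γ) (hμ : 0 ≤ μ) (ha : 0 ≤ a - (k 0 + μ) * r) (ha1 : a + (γ + μ) * r ≤ 1)
    (hk : ∀ j < R, k (j + 1) ≤ k j) (hk0 : ∀ j < R, k j ≤ k 0) (hkγ : ∀ j < R, γ ≤ k (j + 1))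
    {i : ℕ} (hi : i < n) (hiS : i ∉ S) {j : ℕ} (hj : j < R) {x u y v : ℝ}
    (hx : x ≤ a + (γ + μ) * r) (hy : a - (γ + μ) * r ≤ y) (hy1 : y ≤ 1)
    (hu0 : 0 ≤ u) (hu : u ≤ a - (k j - μ) * r) (hv : a - (k (j + 1) + μ) * r ≤ v) (hux : u ≤ x)
    (hvy : v ≤ y) : L i x u + γ * r ≤ L i y v := by
  have h1 := H.dyn i hi hiS j hj
  have hγr : 0 ≤ (γ + μ) * r := mul_nonneg (by linarith) hr
  have e0 : (k j - μ) * r = k j * r - μ * r := by ring
  have e1 : (k (j + 1) + μ) * r = k (j + 1) * r + μ * r := by ring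
  have e2 : (γ + μ) * r = γ * r + μ * r := by ring
  have e3 : (k 0 + μ) * r = k 0 * r + μ * r := by ring
  have f0 : k j * r ≤ k 0 * r := mul_le_mul_of_nonneg_right (hk0 j hj) hr
  have f1 : k (j + 1) * r ≤ k j * r := mul_le_mul_of_nonneg_right (hk j hj) hr
  have f2 : γ * r ≤ k (j + 1) * r := mul_le_mul_of_nonneg_right (hkγ j hj) hr
  have f3 : 0 ≤ μ * r := mul_nonneg hμ hr
  have f4 : 0 ≤ γ * r := mul_nonneg hγ hr
  have hl := hL i hi
  have h2 : L i x u ≤ L i (a + (γ + μ) * r) u := hl.mono_a _ _ _ hu0 hux hx ha1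
  have h3 : L i (a + (γ + μ) * r) u ≤ L i (a + (γ + μ) * r) (a - (k j - μ) * r) :=
    hl.mono_w _ _ _ hu0 hu (by linarith) ha1
  have h4 : L i (a - (γ + μ) * r) (a - (k (j + 1) + μ) * r) ≤
      L i y (a - (k (j + 1) + μ) * r) := hl.mono_a _ _ _ (by linarith) (by linarith) hy hy1
  have h5 : L i y (a - (k (j + 1) + μ) * r) ≤ L i y v :=
    hl.mono_w _ _ _ (by linarith) hv hvy hy1
  linarith

end Pool.STAT
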