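import Pool.Agent.H63.STAT.Flw4
import Pool.Agent.H87.STAT.Flw2

/-!
# Drop-out of the dynamic coordinates

Nested labels with the offsets `0, .., r`: `ξ j` are the natural coordinates of a point of the
thinnest ball in the chart of the label `j`. From the label `j` to the label `j + 1` the
coordinates `i ∈ S` (static) keep their thickness, the others (dynamic) gain a factor `ρ`. If there
are at most `r` dynamic coordinates then, on the thinnest ball, the dynamic coordinates are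
polynomials of the static ones, up to `ρ`, in the chart of the fattest label.
-/

set_option autoImplicit false

namespace Pool.STAT

open Finset MvPolynomial
open Pool.BFL (Pl CB)

namespace Drop

variable {n : ℕ}

/-! ### Tools -/

theorem eval_bind {m : ℕ} (u : Fin m → ℝ) (f : Fin n → Pl m) (P : Pl n) :
    eval u (bind₁ f P) = eval (fun k => eval u (f k)) P :=
  eval₂Hom_bind₁ (RingHom.id ℝ) u f P

theorem eval_vars {P : Pl n} {u v : Fin n → ℝ} (h : ∀ i ∈ P.vars, u i = v i) :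
    eval u P = eval v P :=
  eval₂Hom_congr' rfl (fun i hi _ => h i hi) rfl

theorem pb_monoR {K : ℕ} {R R' : ℝ} {P : Pl n} (h : PB K R P) (hR : 0 ≤ R) (hRR : R ≤ R') :
    PB K R' P :=
  ⟨h.1, cb_mono h.2 (mul_le_mul_of_nonneg_left (pow_le_pow_left₀ hR hRR _) (by positivity))⟩

theorem pb_C_mul {K : ℕ} {R a : ℝ} {P : Pl n} (hR : 1 ≤ R) (ha : |a| ≤ R) (h : PB K R P) :
    PB (K + 1) R (C a * P) := by
  refine ⟨(totalDegree_mul _ _).trans ?_, cb_mono (cb_C_mul a h.2) ?_⟩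
  · rw [totalDegree_C, zero_add]
    exact h.1.trans (Nat.le_succ K)
  · have h0 : (0 : ℝ) ≤ R ^ K := by positivity
    have h1 : (0 : ℝ) ≤ K := by positivity
    calc |a| * (K * R ^ K) ≤ R * (K * R ^ K) :=
          mul_le_mul_of_nonneg_right ha (kr_nonneg K hR)
      _ = K * R ^ (K + 1) := by ring
      _ ≤ ((K + 1 : ℕ) : ℝ) * R ^ (K + 1) := by
          refine mul_le_mul_of_nonneg_right ?_ (by positivity)
          push_cast
          linarith

/-- A polynomial, evaluated at values which are known up to `ρ` as polynomials. -/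
theorem lip (n D K₁ : ℕ) : ∃ K₂ : ℕ, ∀ R : ℝ, 1 ≤ R → ∀ ρ : ℝ, 0 ≤ ρ → ∀ (P : Pl n)
    (u w : Fin n → ℝ) (T : Fin n → Pl n), PB D R P → (∀ i, |u i| ≤ R) → (∀ i, |w i| ≤ R) →
    (∀ i, PB K₁ R (T i)) → (∀ l ∈ P.vars, |u l - eval w (T l)| ≤ K₁ * R ^ K₁ * ρ) →
    |eval u P - eval w (bind₁ T P)| ≤ K₂ * R ^ K₂ * ρ := by
  obtain ⟨K₃, hK₃⟩ : ∃ K₃ : ℕ, K₃ = (K₁ + 1) ^ n * (K₁ * K₁ + K₁) + 2 * K₁ := ⟨_, rfl⟩
  obtain ⟨K₄, hK₄⟩ : ∃ K₄ : ℕ, K₄ = (D + 1) ^ n * (D * D + D) + 2 * D := ⟨_, rfl⟩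
  obtain ⟨A, hA⟩ : ∃ A : ℕ, A = K₄ * (K₃ + 1) ^ K₄ * K₁ := ⟨_, rfl⟩
  obtain ⟨B, hB⟩ : ∃ B : ℕ, B = (K₃ + 1) * K₄ + K₁ := ⟨_, rfl⟩
  refine ⟨A + B, fun R hR ρ hρ P u w T hP hu hw hT h => ?_⟩
  classical
  have hR0 : 0 ≤ R := by linarith
  have h1 : ∀ l, |eval w (T l)| ≤ K₃ * R ^ K₃ := fun l => by
    rw [hK₃]
    exact (F4.eval_box (δ := 0) hR (hT l) hw hw le_rfl fun i => by rw [sub_self, abs_zero]).1
  obtain ⟨R', hR'⟩ : ∃ R' : ℝ, R' = ((K₃ + 1 : ℕ) : ℝ) * R ^ (K₃ + 1) := ⟨_, rfl⟩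
  have h2 : R ≤ R' := by
    have h3 : R ^ 1 ≤ R ^ (K₃ + 1) := pow_le_pow_right₀ hR (by omega)
    have h4 : (1 : ℝ) ≤ ((K₃ + 1 : ℕ) : ℝ) := by exact_mod_cast Nat.le_add_left 1 K₃
    rw [hR']
    calc R = 1 * R ^ 1 := by rw [one_mul, pow_one]
      _ ≤ ((K₃ + 1 : ℕ) : ℝ) * R ^ (K₃ + 1) := mul_le_mul h4 h3 (by positivity) (by positivity)
  have h5 : (K₃ : ℝ) * R ^ K₃ ≤ R' := by
    rw [hR']
    exact kr_mono (Nat.le_succ K₃) hR
  have hR1 : 1 ≤ R' := hR.trans h2
  set v : Fin n → ℝ := fun l => if l ∈ P.vars then eval w (T l) else u l with hv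
  have hvb : ∀ l, |v l| ≤ R' := fun l => by
    rw [hv]
    dsimp only
    split_ifs
    · exact (h1 l).trans h5
    · exact (hu l).trans h2
  have huv : ∀ l, |u l - v l| ≤ K₁ * R ^ K₁ * ρ := fun l => by
    rw [hv]
    dsimp only
    split_ifs with hl
    · exact h l hl
    · rw [sub_self, abs_zero]
      have := kr_nonneg K₁ hR
      positivity
  have h6 : eval w (bind₁ T P) = eval v P := by
    rw [eval_bind]
    refine eval_vars fun i hi => ?_
    rw [hv]
    dsimp only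
    rw [if_pos hi]
  have h7 := (F4.eval_box hR1 (pb_monoR hP hR0 h2) (fun i => (hu i).trans h2) hvb
    (by have := kr_nonneg K₁ hR; positivity) huv).2
  rw [← hK₄] at h7
  rw [h6]
  refine h7.trans ?_
  have h8 : (K₄ : ℝ) * R' ^ K₄ * (K₁ * R ^ K₁ * ρ) = (A : ℝ) * R ^ B * ρ := by
    rw [hR', hA, hB, mul_pow, ← pow_mul, pow_add]
    push_cast
    ring
  rw [h8]
  refine mul_le_mul_of_nonneg_right ?_ hρ
  refine mul_le_mul ?_ (pow_le_pow_right₀ hR (Nat.le_add_left _ _)) (by positivity)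
    (by positivity)
  exact_mod_cast Nat.le_add_right _ _

/-! ### The statement -/

/-- The number of the dynamic coordinates below `i`. -/
def rk (S : Finset (Fin n)) (i : Fin n) : ℕ := ((Sᶜ).filter (· < i)).card

theorem rk_mono (S : Finset (Fin n)) {l i : Fin n} (h : l ≤ i) : rk S l ≤ rk S i :=
  card_le_card fun x hx => by
    rw [mem_filter] at hx ⊢
    exact ⟨hx.1, hx.2.trans_le h⟩

theorem rk_lt (S : Finset (Fin n)) {l i : Fin n} (h : l < i) (hl : l ∉ S) :
    rk S l + 1 ≤ rk S i := by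
  refine card_lt_card ⟨fun x hx => ?_, fun hx => ?_⟩
  · rw [mem_filter] at hx ⊢
    exact ⟨hx.1, hx.2.trans h⟩
  · have h1 : l ∈ (Sᶜ).filter (· < i) := mem_filter.2 ⟨mem_compl.2 hl, h⟩
    have h2 := hx h1
    rw [mem_filter] at h2
    exact lt_irrefl _ h2.2

/-- The hypotheses on the charts. -/
structure Chart (D r : ℕ) (S : Finset (Fin n)) (R ρ : ℝ) (δ : ℕ → Fin n → ℝ)
    (G : ℕ → Fin n → Pl n) : Prop where
  R_ge : 1 ≤ R
  ρ_ge : 0 ≤ ρ
  G_vars : ∀ j < r, ∀ i, ∀ l ∈ (G j i).vars, l < i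
  G_pb : ∀ j < r, ∀ i, PB D R (G j i)
  stat : ∀ j < r, ∀ i ∈ S, δ j i ≠ 0 ∧ |(δ j i)⁻¹| ≤ R
  dyn : ∀ j < r, ∀ i ∉ S, |δ j i| ≤ ρ

/-- The natural coordinates of a point of the thinnest ball. -/
structure Pt (r : ℕ) (R ρ : ℝ) (δ : ℕ → Fin n → ℝ) (G : ℕ → Fin n → Pl n)
    (ξ : ℕ → Fin n → ℝ) : Prop where
  box : ∀ j ≤ r, ∀ i, |ξ j i| ≤ R
  rel : ∀ j < r, ∀ i, |ξ j i - (δ j i * ξ (j + 1) i + eval (ξ (j + 1)) (G j i))| ≤ ρ

/-! ### The coordinates of the next chart -/

theorem inner (D r j K : ℕ) (S : Finset (Fin n)) (hj : j < r) : ∀ m : ℕ, ∃ K₁ : ℕ,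
    ∀ (R ρ : ℝ) (δ : ℕ → Fin n → ℝ) (G : ℕ → Fin n → Pl n), Chart D r S R ρ δ G →
    ∀ A : Fin n → Pl n, (∀ i, ∀ l ∈ (A i).vars, l ∈ S ∧ l < i) → (∀ i, PB K R (A i)) →
    ∃ T : Fin n → Pl n, (∀ i, ∀ l ∈ (T i).vars, l ∈ S ∧ l ≤ i) ∧ (∀ i, PB K₁ R (T i)) ∧
      ∀ ξ : ℕ → Fin n → ℝ, Pt r R ρ δ G ξ →
        (∀ i ∉ S, rk S i + (j + 1) < r →
          |ξ (j + 1) i - eval (ξ (j + 1)) (A i)| ≤ K * R ^ K * ρ) →
        ∀ k : Fin n, (k : ℕ) < m → (k ∈ S ∧ rk S k + j < r ∨ k ∉ S ∧ rk S k + (j + 1) < r) →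
          |ξ (j + 1) k - eval (ξ j) (T k)| ≤ K₁ * R ^ K₁ * ρ := by
  classical
  intro m
  induction m with
  | zero =>
    refine ⟨0, fun R ρ δ G _ A _ _ => ⟨fun _ => 0, fun i l hl => ?_, fun i => ?_, ?_⟩⟩
    · rw [vars_0] at hl
      exact absurd hl (notMem_empty _)
    · exact F4.zero_pb
    · intro ξ _ _ k hk
      exact absurd hk (Nat.not_lt_zero _)
  | succ m ih =>
    obtain ⟨K₁, h₁⟩ := ih
    by_cases hm : m < n
    · obtain ⟨KG, hKG⟩ := lip n D K₁
      obtain ⟨KA, hKA⟩ := lip n K K₁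
      obtain ⟨BG, hBG⟩ := FLW2.pb_bind n n D K₁
      obtain ⟨BA, hBA⟩ := FLW2.pb_bind n n K K₁
      obtain ⟨K', hK'⟩ : ∃ K' : ℕ, K' = (K₁ + (1 + BG + 1) + BA) + (KG + 1 + 1) + (KA + K) :=
        ⟨_, rfl⟩
      refine ⟨K', fun R ρ δ G hC A hAv hAp => ?_⟩
      obtain ⟨T, hTv, hTp, hT⟩ := h₁ R ρ δ G hC A hAv hAp
      have hR := hC.R_ge
      have hR0 : 0 ≤ R := by linarith
      have hρ := hC.ρ_ge
      set k₀ : Fin n := ⟨m, hm⟩ with hk₀
      set N : Pl n := if k₀ ∈ S then C (δ j k₀)⁻¹ * (X k₀ + -bind₁ T (G j k₀))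
        else bind₁ T (A k₀) with hN
      have hNv : ∀ l ∈ N.vars, l ∈ S ∧ l ≤ k₀ := by
        intro l hl
        rw [hN] at hl
        split_ifs at hl with h0
        · have h2 := vars_mul _ _ hl
          rw [vars_C, empty_union] at h2
          have h3 := vars_add_subset _ _ h2
          rw [mem_union, vars_neg] at h3
          rcases h3 with h3 | h3
          · rw [vars_X, mem_singleton] at h3
            subst h3
            exact ⟨h0, le_rfl⟩
          · have h4 := vars_bind₁ _ _ h3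
            rw [mem_biUnion] at h4
            obtain ⟨i, hi, hli⟩ := h4
            have h5 := hC.G_vars j hj k₀ i hi
            have h6 := hTv i l hli
            exact ⟨h6.1, h6.2.trans h5.le⟩
        · have h4 := vars_bind₁ _ _ hl
          rw [mem_biUnion] at h4
          obtain ⟨i, hi, hli⟩ := h4
          have h5 := hAv k₀ i hi
          have h6 := hTv i l hli
          exact ⟨h6.1, h6.2.trans h5.2.le⟩
      have hNp : PB K' R N := by
        rw [hN]
        split_ifs with h0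
        · have h2 : PB (1 + BG + 1) R (C (δ j k₀)⁻¹ * (X k₀ + -bind₁ T (G j k₀))) :=
            pb_C_mul hR (hC.stat j hj k₀ h0).2
              (PB.add hR (F4.pb_X hR k₀) (PB.neg (hBG R hR _ _ (hC.G_pb j hj k₀) hTp)))
          exact h2.mono (by omega) hR
        · exact (hBA R hR _ _ (hAp k₀) hTp).mono (by omega) hR
      refine ⟨Function.update T k₀ N, fun i l hl => ?_, fun i => ?_, ?_⟩
      · by_cases hi : i = k₀
        · subst hi
          rw [Function.update_self] at hl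
          exact hNv l hl
        · rw [Function.update_of_ne hi] at hl
          exact hTv i l hl
      · by_cases hi : i = k₀
        · subst hi
          rw [Function.update_self]
          exact hNp
        · rw [Function.update_of_ne hi]
          exact (hTp i).mono (by omega) hR
      · intro ξ hξ hA k hk hkc
        have hT' := hT ξ hξ hA
        by_cases hkk : k = k₀
        · subst hkk
          rw [Function.update_self]
          -- the lower coordinates are known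
          have hlow : ∀ l : Fin n, l < k₀ → |ξ (j + 1) l - eval (ξ j) (T l)| ≤
              K₁ * R ^ K₁ * ρ := by
            intro l hl
            refine hT' l (by exact hl) ?_
            by_cases hlS : l ∈ S
            · left
              refine ⟨hlS, ?_⟩
              have := rk_mono S hl.le
              rcases hkc with hkc | hkc <;> omega
            · right
              refine ⟨hlS, ?_⟩
              have := rk_lt S hl hlS
              rcases hkc with hkc | hkc <;> omega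
          have hmono : ∀ {a : ℕ}, a ≤ K' → (a : ℝ) * R ^ a * ρ ≤ K' * R ^ K' * ρ := fun ha =>
            mul_le_mul_of_nonneg_right (kr_mono ha hR) hρ
          rcases hkc with ⟨h0, _⟩ | ⟨h0, hk2⟩
          · have hG := hKG R hR ρ hρ (G j k₀) (ξ (j + 1)) (ξ j) T (hC.G_pb j hj k₀)
              (hξ.box (j + 1) hj) (hξ.box j hj.le) hTp
              (fun l hl => hlow l (hC.G_vars j hj k₀ l hl))
            have hrel := hξ.rel j hj k₀
            obtain ⟨hd0, hdR⟩ := hC.stat j hj k₀ h0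
            rw [hN, if_pos h0, map_mul, eval_C, map_add, eval_X, map_neg]
            have e1 : ξ (j + 1) k₀ - (δ j k₀)⁻¹ * (ξ j k₀ + -eval (ξ j) (bind₁ T (G j k₀))) =
                (δ j k₀)⁻¹ * (-(ξ j k₀ - (δ j k₀ * ξ (j + 1) k₀ +
                  eval (ξ (j + 1)) (G j k₀))) - (eval (ξ (j + 1)) (G j k₀) -
                  eval (ξ j) (bind₁ T (G j k₀)))) := by
              field_simp
              ring
            rw [e1, abs_mul]
            have e2 : |(-(ξ j k₀ - (δ j k₀ * ξ (j + 1) k₀ +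
                  eval (ξ (j + 1)) (G j k₀))) - (eval (ξ (j + 1)) (G j k₀) -
                  eval (ξ j) (bind₁ T (G j k₀))))| ≤ ρ + KG * R ^ KG * ρ := by
              refine (abs_sub _ _).trans ?_
              rw [abs_neg]
              exact add_le_add hrel hG
            refine (mul_le_mul hdR e2 (abs_nonneg _) hR0).trans ?_
            refine le_trans ?_ (hmono (a := KG + 1 + 1) (by omega))
            have h9 : (1 : ℝ) ≤ R ^ KG := one_le_pow₀ hR
            calc R * (ρ + KG * R ^ KG * ρ) = R * (1 + KG * R ^ KG) * ρ := by ring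
              _ ≤ (((KG + 1 + 1 : ℕ) : ℝ) * R ^ (KG + 1 + 1)) * ρ := by
                refine mul_le_mul_of_nonneg_right ?_ hρ
                have h10 : R * (1 + KG * R ^ KG) ≤ R * (R ^ KG + KG * R ^ KG) :=
                  mul_le_mul_of_nonneg_left (by linarith) hR0
                refine h10.trans ?_
                have h11 : R * (R ^ KG + KG * R ^ KG) = ((KG : ℝ) + 1) * R ^ (KG + 1) := by
                  ring
                rw [h11]
                refine mul_le_mul ?_ (pow_le_pow_right₀ hR (Nat.le_succ _)) (by positivity)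
                  (by positivity)
                push_cast
                linarith
          · have hG := hKA R hR ρ hρ (A k₀) (ξ (j + 1)) (ξ j) T (hAp k₀)
              (hξ.box (j + 1) hj) (hξ.box j hj.le) hTp
              (fun l hl => hlow l (hAv k₀ l hl).2)
            have hA0 := hA k₀ h0 hk2
            rw [hN, if_neg h0]
            have e1 : ξ (j + 1) k₀ - eval (ξ j) (bind₁ T (A k₀)) =
                (ξ (j + 1) k₀ - eval (ξ (j + 1)) (A k₀)) +
                (eval (ξ (j + 1)) (A k₀) - eval (ξ j) (bind₁ T (A k₀))) := by ring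
            rw [e1]
            refine (abs_add_le _ _).trans ((add_le_add hA0 hG).trans ?_)
            refine le_trans ?_ (hmono (a := KA + K) (by omega))
            have h10 : R ^ K ≤ R ^ (KA + K) := pow_le_pow_right₀ hR (Nat.le_add_left _ _)
            have h11 : R ^ KA ≤ R ^ (KA + K) := pow_le_pow_right₀ hR (Nat.le_add_right _ _)
            have h12 : (K : ℝ) * R ^ K ≤ K * R ^ (KA + K) :=
              mul_le_mul_of_nonneg_left h10 (by positivity)
            have h13 : (KA : ℝ) * R ^ KA ≤ KA * R ^ (KA + K) :=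
              mul_le_mul_of_nonneg_left h11 (by positivity)
            calc (K : ℝ) * R ^ K * ρ + KA * R ^ KA * ρ = (K * R ^ K + KA * R ^ KA) * ρ := by
                  ring
              _ ≤ (((KA + K : ℕ) : ℝ) * R ^ (KA + K)) * ρ := by
                refine mul_le_mul_of_nonneg_right ?_ hρ
                push_cast
                linarith
        · rw [Function.update_of_ne hkk]
          have hk3 : (k : ℕ) < m := by
            rcases Nat.lt_succ_iff_lt_or_eq.1 hk with h | h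
            · exact h
            · exact absurd (Fin.ext h) hkk
          exact (hT' k hk3 hkc).trans (mul_le_mul_of_nonneg_right (kr_mono (by omega) hR) hρ)
    · refine ⟨K₁, fun R ρ δ G hC A hAv hAp => ?_⟩
      obtain ⟨T, hTv, hTp, hT⟩ := h₁ R ρ δ G hC A hAv hAp
      exact ⟨T, hTv, hTp, fun ξ hξ hA k hk hkc => hT ξ hξ hA k (by omega) hkc⟩

/-! ### The induction -/

theorem outer (D r : ℕ) (S : Finset (Fin n)) : ∀ s j : ℕ, j + s = r → ∃ K : ℕ,
    ∀ (R ρ : ℝ) (δ : ℕ → Fin n → ℝ) (G : ℕ → Fin n → Pl n), Chart D r S R ρ δ G →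
    ∃ A : Fin n → Pl n, (∀ i, ∀ l ∈ (A i).vars, l ∈ S ∧ l < i) ∧ (∀ i, PB K R (A i)) ∧
      ∀ ξ : ℕ → Fin n → ℝ, Pt r R ρ δ G ξ → ∀ i ∉ S, rk S i + j < r →
        |ξ j i - eval (ξ j) (A i)| ≤ K * R ^ K * ρ := by
  classical
  intro s
  induction s with
  | zero =>
    intro j hj
    refine ⟨0, fun R ρ δ G _ => ⟨fun _ => 0, fun i l hl => ?_, fun i => F4.zero_pb, ?_⟩⟩
    · rw [vars_0] at hl
      exact absurd hl (notMem_empty _)
    · intro ξ _ i _ hi
      omega
  | succ s ih =>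
    intro j hj
    have hjr : j < r := by omega
    obtain ⟨K, hK⟩ := ih (j + 1) (by omega)
    obtain ⟨K₁, hK₁⟩ := inner D r j K S hjr n
    obtain ⟨KG, hKG⟩ := lip n D K₁
    obtain ⟨BG, hBG⟩ := FLW2.pb_bind n n D K₁
    refine ⟨BG + (KG + 2 + 1), fun R ρ δ G hC => ?_⟩
    obtain ⟨A, hAv, hAp, hA⟩ := hK R ρ δ G hC
    obtain ⟨T, hTv, hTp, hT⟩ := hK₁ R ρ δ G hC A hAv hAp
    have hR := hC.R_ge
    have hR0 : 0 ≤ R := by linarith
    have hρ := hC.ρ_ge
    refine ⟨fun i => bind₁ T (G j i), fun i l hl => ?_, fun i => ?_, ?_⟩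
    · have h4 := vars_bind₁ _ _ hl
      rw [mem_biUnion] at h4
      obtain ⟨a, ha, hla⟩ := h4
      have h5 := hC.G_vars j hjr i a ha
      have h6 := hTv a l hla
      exact ⟨h6.1, h6.2.trans_lt h5⟩
    · exact (hBG R hR _ _ (hC.G_pb j hjr i) hTp).mono (by omega) hR
    · intro ξ hξ i hi hir
      have hT' := hT ξ hξ (fun i hi hir => hA ξ hξ i hi hir)
      have hG := hKG R hR ρ hρ (G j i) (ξ (j + 1)) (ξ j) T (hC.G_pb j hjr i)
        (hξ.box (j + 1) hjr) (hξ.box j hjr.le) hTp (fun l hl => by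
          have h5 := hC.G_vars j hjr i l hl
          refine hT' l l.2 ?_
          by_cases hlS : l ∈ S
          · left
            have := rk_mono S h5.le
            exact ⟨hlS, by omega⟩
          · right
            have := rk_lt S h5 hlS
            exact ⟨hlS, by omega⟩)
      have hrel := hξ.rel j hjr i
      have hd := hC.dyn j hjr i hi
      have hx := hξ.box (j + 1) hjr i
      have e1 : ξ j i - eval (ξ j) (bind₁ T (G j i)) =
          (ξ j i - (δ j i * ξ (j + 1) i + eval (ξ (j + 1)) (G j i))) + δ j i * ξ (j + 1) i +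
          (eval (ξ (j + 1)) (G j i) - eval (ξ j) (bind₁ T (G j i))) := by ring
      rw [e1]
      have e2 : |δ j i * ξ (j + 1) i| ≤ ρ * R := by
        rw [abs_mul]
        exact mul_le_mul hd hx (abs_nonneg _) hρ
      have e3 := (abs_add_le (ξ j i - (δ j i * ξ (j + 1) i + eval (ξ (j + 1)) (G j i)) +
        δ j i * ξ (j + 1) i) (eval (ξ (j + 1)) (G j i) - eval (ξ j) (bind₁ T (G j i))))
      have e4 := (abs_add_le (ξ j i - (δ j i * ξ (j + 1) i + eval (ξ (j + 1)) (G j i)))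
        (δ j i * ξ (j + 1) i))
      have e5 : ρ + ρ * R + KG * R ^ KG * ρ ≤ ((BG + (KG + 2 + 1) : ℕ) : ℝ) *
          R ^ (BG + (KG + 2 + 1)) * ρ := by
        have h9 : (1 : ℝ) ≤ R ^ (BG + (KG + 2 + 1)) := one_le_pow₀ hR
        have h10 : R ≤ R ^ (BG + (KG + 2 + 1)) := by
          calc R = R ^ 1 := (pow_one R).symm
            _ ≤ _ := pow_le_pow_right₀ hR (by omega)
        have h11 : R ^ KG ≤ R ^ (BG + (KG + 2 + 1)) := pow_le_pow_right₀ hR (by omega)
        have h12 : (KG : ℝ) * R ^ KG ≤ KG * R ^ (BG + (KG + 2 + 1)) :=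
          mul_le_mul_of_nonneg_left h11 (by positivity)
        have h13 : (0 : ℝ) ≤ BG * R ^ (BG + (KG + 2 + 1)) := by positivity
        calc ρ + ρ * R + KG * R ^ KG * ρ = (1 + R + KG * R ^ KG) * ρ := by ring
          _ ≤ _ := by
            refine mul_le_mul_of_nonneg_right ?_ hρ
            push_cast
            linarith
      linarith

end Drop

open Drop in
/-- **DROP-OUT.** If there are at most `r` dynamic coordinates then, on the thinnest ball, each of
them is, up to `ρ`, a polynomial of the static coordinates below it, in the chart of the fattest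
label. -/
theorem drop_out (n D r : ℕ) (S : Finset (Fin n)) (hS : (Sᶜ).card ≤ r) : ∃ K : ℕ,
    ∀ (R ρ : ℝ) (δ : ℕ → Fin n → ℝ) (G : ℕ → Fin n → Pl n), Chart D r S R ρ δ G →
    ∃ Λ : Fin n → Pl n, (∀ i, ∀ l ∈ (Λ i).vars, l ∈ S ∧ l < i) ∧ (∀ i, PB K R (Λ i)) ∧
      ∀ ξ : ℕ → Fin n → ℝ, Pt r R ρ δ G ξ → ∀ i ∉ S,
        |ξ 0 i - eval (ξ 0) (Λ i)| ≤ K * R ^ K * ρ := by
  obtain ⟨K, hK⟩ := outer D r S r 0 (zero_add r)
  refine ⟨K, fun R ρ δ G hC => ?_⟩
  obtain ⟨A, hAv, hAp, hA⟩ := hK R ρ δ G hC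
  refine ⟨A, hAv, hAp, fun ξ hξ i hi => hA ξ hξ i hi ?_⟩
  have h1 : rk S i < (Sᶜ).card := by
    refine card_lt_card ⟨fun x hx => (mem_filter.1 hx).1, fun hx => ?_⟩
    have h2 := hx (mem_compl.2 hi)
    rw [mem_filter] at h2
    exact lt_irrefl _ h2.2
  omega

open Drop in
/-- Elimination of the dynamic coordinates from a polynomial. -/
theorem drop_elim (n D D' r : ℕ) (S : Finset (Fin n)) (hS : (Sᶜ).card ≤ r) : ∃ K : ℕ,
    ∀ (R ρ : ℝ) (δ : ℕ → Fin n → ℝ) (G : ℕ → Fin n → Pl n), Chart D r S R ρ δ G →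
    ∃ Θ : Fin n → Pl n, (∀ i ∈ S, Θ i = X i) ∧ (∀ i, ∀ l ∈ (Θ i).vars, l ∈ S ∧ l ≤ i) ∧
      (∀ i, PB K R (Θ i)) ∧ (∀ P : Pl n, PB D' R P → PB K R (bind₁ Θ P)) ∧
      ∀ ξ : ℕ → Fin n → ℝ, Pt r R ρ δ G ξ → (∀ i, |ξ 0 i - eval (ξ 0) (Θ i)| ≤ K * R ^ K * ρ) ∧
        ∀ P : Pl n, PB D' R P →
          |eval (ξ 0) P - eval (ξ 0) (bind₁ Θ P)| ≤ K * R ^ K * ρ := by
  classical
  obtain ⟨K, hK⟩ := drop_out n D r S hS
  obtain ⟨K₂, hK₂⟩ := lip n D' (K + 1)
  obtain ⟨K₃, hK₃⟩ := FLW2.pb_bind n n D' (K + 1)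
  refine ⟨K + 1 + K₂ + K₃, fun R ρ δ G hC => ?_⟩
  obtain ⟨Λ, hΛv, hΛp, hΛ⟩ := hK R ρ δ G hC
  have hR := hC.R_ge
  have hρ := hC.ρ_ge
  have hp : ∀ i, PB (K + 1) R (if i ∈ S then X i else Λ i : Pl n) := fun i => by
    split_ifs
    · exact (F4.pb_X hR i).mono (by omega) hR
    · exact (hΛp i).mono (by omega) hR
  refine ⟨fun i => if i ∈ S then X i else Λ i, fun i hi => if_pos hi, fun i l hl => ?_,
    fun i => (hp i).mono (by omega) hR, fun P hP => (hK₃ R hR P _ hP hp).mono (by omega) hR,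
    fun ξ hξ => ?_⟩
  · dsimp only at hl
    split_ifs at hl with hi
    · rw [vars_X, mem_singleton] at hl
      subst hl
      exact ⟨hi, le_rfl⟩
    · exact ⟨(hΛv i l hl).1, (hΛv i l hl).2.le⟩
  · have h1 : ∀ i, |ξ 0 i - eval (ξ 0) (if i ∈ S then X i else Λ i : Pl n)| ≤
        ((K + 1 : ℕ) : ℝ) * R ^ (K + 1) * ρ := by
      intro i
      split_ifs with hi
      · rw [eval_X, sub_self, abs_zero]
        have := kr_nonneg (K + 1) hR
        positivity
      · exact (hΛ ξ hξ i hi).trans (mul_le_mul_of_nonneg_right (kr_mono (by omega) hR) hρ)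
    have hmono : ∀ {a : ℕ}, a ≤ K + 1 + K₂ + K₃ → (a : ℝ) * R ^ a * ρ ≤
        ((K + 1 + K₂ + K₃ : ℕ) : ℝ) * R ^ (K + 1 + K₂ + K₃) * ρ := fun ha =>
      mul_le_mul_of_nonneg_right (kr_mono ha hR) hρ
    refine ⟨fun i => (h1 i).trans (hmono (by omega)), fun P hP => ?_⟩
    exact (hK₂ R hR ρ hρ P (ξ 0) (ξ 0) _ hP (hξ.box 0 (Nat.zero_le r))
      (hξ.box 0 (Nat.zero_le r)) hp (fun l _ => h1 l)).trans (hmono (by omega))

end Pool.STAT
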