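import Pool.Agent.H19.STAT.Sys

/-!
# Row 106: the transition maps of a ladder

`δ^{k,k'}` is the difference between the adapted coordinates of the levels `k' ≤ k`. The proof is
an induction over the coordinates: the differences of the labels of the levels `l` with
`k' ≤ l < k`, in the adapted coordinates of the level `k`, have the weights `≤ W`, and the
transition map `T^{k,l}` costs `exp (c W z)` on the radius of the level `l`.
-/

set_option autoImplicit false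

namespace Pool.STAT

open Finset MvPolynomial

namespace Lad75

variable {d : ℕ → ℕ}

/-- The weights of the monomials are at most `r`. -/
def Wle (d : ℕ → ℕ) (r : ℕ) (F : PN) : Prop := ∀ k, F.coeff k ≠ 0 → Finsupp.weight d k ≤ r

theorem wle_mono {r s : ℕ} {F : PN} (h : Wle d r F) (hs : r ≤ s) : Wle d s F :=
  fun k hk => (h k hk).trans hs

theorem wle_zero (r : ℕ) : Wle d r (0 : PN) := fun k hk => absurd (coeff_zero k) hk

theorem wle_add {r : ℕ} {F G : PN} (hF : Wle d r F) (hG : Wle d r G) : Wle d r (F + G) := by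
  intro k hk
  rw [coeff_add] at hk
  by_cases h1 : F.coeff k = 0
  · rw [h1, zero_add] at hk
    exact hG k hk
  · exact hF k h1

theorem wle_neg {r : ℕ} {F : PN} (hF : Wle d r F) : Wle d r (-F) := by
  intro k hk
  rw [coeff_neg, neg_ne_zero] at hk
  exact hF k hk

theorem wle_sub {r : ℕ} {F G : PN} (hF : Wle d r F) (hG : Wle d r G) : Wle d r (F - G) := by
  rw [sub_eq_add_neg]
  exact wle_add hF (wle_neg hG)

theorem wle_sum {ι : Type*} {r : ℕ} (s : Finset ι) {F : ι → PN} (hF : ∀ i ∈ s, Wle d r (F i)) :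
    Wle d r (∑ i ∈ s, F i) := by
  classical
  induction s using Finset.induction_on with
  | empty => simpa using wle_zero r
  | insert a s ha ih =>
    rw [Finset.sum_insert ha]
    exact wle_add (hF a (Finset.mem_insert_self a s))
      (ih fun i hi => hF i (Finset.mem_insert_of_mem hi))

theorem wle_mul {r s : ℕ} {F G : PN} (hF : Wle d r F) (hG : Wle d s G) : Wle d (r + s) (F * G) := by
  classical
  intro k hk
  rw [coeff_mul] at hk
  obtain ⟨⟨a, b⟩, hab, hne⟩ := Finset.exists_ne_zero_of_sum_ne_zero hk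
  replace hab := HasAntidiagonal.mem_antidiagonal.1 hab
  simp only at hab hne
  have h1 := hF a (left_ne_zero_of_mul hne)
  have h2 := hG b (right_ne_zero_of_mul hne)
  rw [← hab, map_add]
  omega

theorem wle_C (a : ℝ) (r : ℕ) : Wle d r (C a : PN) := by
  classical
  intro k hk
  rw [coeff_C] at hk
  split_ifs at hk with h
  · rw [← h, map_zero]
    exact Nat.zero_le r
  · exact absurd rfl hk

theorem wle_X (i : ℕ) : Wle d (d i) (X i : PN) := by
  classical
  intro k hk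
  rw [coeff_X] at hk
  split_ifs at hk with h
  · rw [← h, Finsupp.weight_apply, Finsupp.sum_single_index (by simp), one_smul]
  · exact absurd rfl hk

theorem wle_pow {r : ℕ} {F : PN} (hF : Wle d r F) (n : ℕ) : Wle d (n * r) (F ^ n) := by
  induction n with
  | zero => simpa using wle_C (d := d) 1 0
  | succ n ih =>
    rw [pow_succ, add_mul, one_mul]
    exact wle_mul ih hF

theorem wle_prod {ι : Type*} (s : Finset ι) {r : ι → ℕ} {F : ι → PN}
    (hF : ∀ i ∈ s, Wle d (r i) (F i)) : Wle d (∑ i ∈ s, r i) (∏ i ∈ s, F i) := by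
  classical
  induction s using Finset.induction_on with
  | empty => simpa using wle_C (d := d) 1 0
  | insert a s ha ih =>
    rw [Finset.sum_insert ha, Finset.prod_insert ha]
    exact wle_mul (hF a (Finset.mem_insert_self a s))
      (ih fun i hi => hF i (Finset.mem_insert_of_mem hi))

theorem wle_bind {r : ℕ} {F : PN} (hF : Wle d r F) {T : ℕ → PN}
    (hT : ∀ i ∈ F.vars, Wle d (d i) (T i)) : Wle d r (bind₁ T F) := by
  classical
  have h1 : bind₁ T F = ∑ k ∈ F.support, bind₁ T (monomial k (F.coeff k)) := by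
    conv_lhs => rw [F.as_sum]
    rw [map_sum]
  rw [h1]
  refine wle_sum _ fun k hk => ?_
  rw [bind₁_monomial]
  have hk' : F.coeff k ≠ 0 := by rwa [mem_support_iff] at hk
  have h2 : Wle d (∑ i ∈ k.support, k i * d i) (∏ i ∈ k.support, T i ^ k i) := by
    refine wle_prod _ fun i hi => ?_
    refine wle_pow (hT i ?_) (k i)
    rw [mem_vars_iff_mem_support]
    exact ⟨k, hk, hi⟩
  have h3 : ∑ i ∈ k.support, k i * d i ≤ r := by
    have := hF k hk'
    rwa [Finsupp.weight_apply, Finsupp.sum] at this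
  have h4 := wle_mul (wle_C (d := d) (F.coeff k) 0) (wle_mono h2 h3)
  rwa [zero_add] at h4

theorem coeff_trw (r : ℕ) (F : PN) (k : ℕ →₀ ℕ) :
    (trw d r F).coeff k = if Finsupp.weight d k < r then F.coeff k else 0 := by
  classical
  rw [trw, coeff_sum]
  simp only [coeff_weightedHomogeneousComponent]
  rw [Finset.sum_ite_eq]
  simp only [Finset.mem_range]

theorem trw_of_wle {r s : ℕ} {F : PN} (hF : Wle d r F) (hs : r < s) : trw d s F = F := by
  ext k
  rw [coeff_trw]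
  split_ifs with h
  · rfl
  · by_contra h1
    exact h (lt_of_le_of_lt (hF k (Ne.symm h1)) hs)

theorem wle_trw {r : ℕ} (hr : 1 ≤ r) (F : PN) : Wle d (r - 1) (trw d r F) := by
  intro k hk
  rw [coeff_trw] at hk
  split_ifs at hk with h
  · omega
  · exact absurd rfl hk

theorem wle_trw' {r s : ℕ} {F : PN} (hF : Wle d s F) : Wle d s (trw d r F) := by
  intro k hk
  rw [coeff_trw] at hk
  split_ifs at hk with h
  · exact hF k hk
  · exact absurd rfl hk

theorem trw_add (r : ℕ) (F G : PN) : trw d r (F + G) = trw d r F + trw d r G := by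
  simp only [trw, map_add, Finset.sum_add_distrib]

theorem trw_sub (r : ℕ) (F G : PN) : trw d r (F - G) = trw d r F - trw d r G := by
  simp only [trw, map_sub, Finset.sum_sub_distrib]

theorem trw_sum {ι : Type*} (r : ℕ) (s : Finset ι) (F : ι → PN) :
    trw d r (∑ i ∈ s, F i) = ∑ i ∈ s, trw d r (F i) := by
  classical
  induction s using Finset.induction_on with
  | empty => simp [trw]
  | insert a s ha ih => rw [Finset.sum_insert ha, Finset.sum_insert ha, trw_add, ih]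

theorem gew_add (r : ℕ) (F G : PN) : gew d r (F + G) = gew d r F + gew d r G := by
  rw [gew, gew, gew, trw_add]
  ring

theorem gew_sum {ι : Type*} (r : ℕ) (s : Finset ι) (F : ι → PN) :
    gew d r (∑ i ∈ s, F i) = ∑ i ∈ s, gew d r (F i) := by
  simp only [gew, trw_sum, Finset.sum_sub_distrib]

theorem wle_gew {r s : ℕ} {F : PN} (hF : Wle d s F) : Wle d s (gew d r F) := by
  rw [gew]
  exact wle_sub hF (wle_trw' hF)

theorem gew_of_wle {r s : ℕ} {F : PN} (hF : Wle d r F) (hs : r < s) : gew d s F = 0 := by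
  rw [gew, trw_of_wle hF hs, sub_self]

theorem trw_trw (r : ℕ) (F : PN) : trw d r (trw d r F) = trw d r F := by
  ext k
  rw [coeff_trw, coeff_trw]
  split_ifs <;> rfl

/-- The weights of a polynomial of bounded degree in the first variables. -/
theorem wle_deg {K D i : ℕ} {F : PN} (hF : F.totalDegree ≤ K) (hv : F.vars ⊆ range i)
    (hD : ∀ j < i, d j ≤ D) : Wle d (K * D) F := by
  classical
  intro k hk
  rw [Finsupp.weight_apply, Finsupp.sum]
  have h1 : ∑ j ∈ k.support, k j • d j ≤ ∑ j ∈ k.support, k j * D := by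
    refine Finset.sum_le_sum fun j hj => ?_
    rw [smul_eq_mul]
    refine Nat.mul_le_mul_left _ (hD j ?_)
    have h2 : j ∈ F.vars := by
      rw [mem_vars_iff_mem_support]
      exact ⟨k, mem_support_iff.2 hk, hj⟩
    exact Finset.mem_range.1 (hv h2)
  rw [← Finset.sum_mul] at h1
  have h3 : ∑ j ∈ k.support, k j ≤ K := (le_totalDegree (mem_support_iff.2 hk)).trans hF
  exact h1.trans (Nat.mul_le_mul_right D h3)

theorem vars_bind {F : PN} {i : ℕ} (hF : F.vars ⊆ range i) {T : ℕ → PN}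
    (hT : ∀ j < i, (T j).vars ⊆ range (j + 1)) : (bind₁ T F).vars ⊆ range i := by
  classical
  refine (vars_bind₁ T F).trans ?_
  intro m hm
  rw [Finset.mem_biUnion] at hm
  obtain ⟨j, hj, hm⟩ := hm
  have h1 := Finset.mem_range.1 (hF hj)
  have h2 := Finset.mem_range.1 (hT j h1 hm)
  rw [Finset.mem_range]
  omega

theorem vars_sub' {F G : PN} {s : Finset ℕ} (hF : F.vars ⊆ s) (hG : G.vars ⊆ s) :
    (F - G).vars ⊆ s := by
  classical
  exact (vars_sub_subset (p := F) (q := G)).trans (Finset.union_subset hF hG)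

theorem vars_add' {F G : PN} {s : Finset ℕ} (hF : F.vars ⊆ s) (hG : G.vars ⊆ s) :
    (F + G).vars ⊆ s := by
  classical
  exact (vars_add_subset F G).trans (Finset.union_subset hF hG)

theorem vars_of_sub_X {F : PN} {i : ℕ} (hF : (F - X i).vars ⊆ range i) :
    F.vars ⊆ range (i + 1) := by
  classical
  have h1 : F = (F - X i) + X i := by ring
  rw [h1]
  refine vars_add' (hF.trans ?_) ?_
  · exact Finset.range_subset_range.2 (Nat.le_succ i)
  · rw [vars_X]
    intro m hm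
    rw [Finset.mem_singleton] at hm
    rw [Finset.mem_range]
    omega

theorem sub_tel {α : Type*} [AddCommGroup α] (f : ℕ → α) {m n : ℕ} (h : m ≤ n) :
    f n - f m = ∑ l ∈ Finset.Ico m n, (f (l + 1) - f l) := by
  induction n, h using Nat.le_induction with
  | base => simp
  | succ n hn ih => rw [Finset.sum_Ico_succ_top hn, ← ih]; abel


/-! ### The transition maps -/

/-- The transition map. -/
noncomputable def Tr (χ Θ : ℕ → ℕ → PN) (k l j : ℕ) : PN := bind₁ (χ k) (Θ l j)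

theorem tr_comp {χ Θ : ℕ → ℕ → PN} {k l : ℕ} (h : ∀ m, bind₁ (Θ l) (χ l m) = X m) (P : PN) :
    bind₁ (Tr χ Θ k l) (bind₁ (χ l) P) = bind₁ (χ k) P := by
  rw [bind₁_bind₁]
  have h1 : (fun i => bind₁ (Tr χ Θ k l) (χ l i)) = χ k := by
    funext m
    have h2 : bind₁ (Tr χ Θ k l) (χ l m) = bind₁ (χ k) (bind₁ (Θ l) (χ l m)) := by
      rw [bind₁_bind₁]
      rfl
    rw [h2, h m, bind₁_X_right]
  rw [h1]

/-- The facts about the adapted coordinates of a ladder which are used. -/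
structure Fx (d : ℕ → ℕ) (K n n' N : ℕ) (Φ χ Θ : ℕ → ℕ → PN) : Prop where
  le : n' ≤ n + 1
  d_pos : ∀ i, 1 ≤ d i
  tri : ∀ k ≤ N, TriN (Φ k)
  deg : ∀ k ≤ N, ∀ i < n', (Φ k i).totalDegree ≤ K
  eq : ∀ k ≤ N, ∀ i, χ k i = X i + trw d (d i) (bind₁ (χ k) (Φ k i))
  χ_tri : ∀ k ≤ N, ∀ i, (χ k i - X i).vars ⊆ range i
  Θ_tri : ∀ k ≤ N, ∀ i, (Θ k i - X i).vars ⊆ range i
  inv : ∀ k ≤ N, ∀ i, bind₁ (Θ k) (χ k i) = X i

section
variable {K n n' N : ℕ} {Φ χ Θ : ℕ → ℕ → PN}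

theorem Fx.wle_chi (H : Fx d K n n' N Φ χ Θ) {k : ℕ} (hk : k ≤ N) (i : ℕ) :
    Wle d (d i) (χ k i) := by
  rw [H.eq k hk i]
  exact wle_add (wle_X i) (wle_mono (wle_trw (H.d_pos i) _) (Nat.sub_le _ _))

theorem Fx.vars_chi (H : Fx d K n n' N Φ χ Θ) {k : ℕ} (hk : k ≤ N) (i : ℕ) :
    (χ k i).vars ⊆ range (i + 1) := vars_of_sub_X (H.χ_tri k hk i)

theorem Fx.delta_vars (H : Fx d K n n' N Φ χ Θ) {k l : ℕ} (hk : k ≤ N) (hl : l ≤ N) (i : ℕ) :
    (Tr χ Θ k l i - X i).vars ⊆ range i := by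
  have h1 : Tr χ Θ k l i - X i = bind₁ (χ k) (Θ l i - X i) + (χ k i - X i) := by
    rw [map_sub, bind₁_X_right, Tr]
    ring
  rw [h1]
  exact vars_add' (vars_bind (H.Θ_tri l hl i) fun j _ => H.vars_chi hk j) (H.χ_tri k hk i)

/-- The difference of the adapted coordinates. -/
theorem Fx.delta_eq (H : Fx d K n n' N Φ χ Θ) {k l : ℕ} (hk : k ≤ N) (hl : l ≤ N) (i : ℕ) :
    Tr χ Θ k l i - X i = trw d (d i) (bind₁ (χ k) (Φ k i)) -
      bind₁ (Tr χ Θ k l) (trw d (d i) (bind₁ (χ l) (Φ l i))) := by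
  have h1 := tr_comp (χ := χ) (Θ := Θ) (k := k) (l := l) (H.inv l hl) (X i)
  rw [bind₁_X_right, bind₁_X_right] at h1
  conv_lhs at h1 => rw [H.eq l hl i]
  rw [map_add, bind₁_X_right, H.eq k hk i] at h1
  rw [sub_eq_sub_iff_add_eq_add]
  linear_combination h1

theorem Fx.vars_g (H : Fx d K n n' N Φ χ Θ) {l : ℕ} (hl : l ≤ N) (i : ℕ) :
    (trw d (d i) (bind₁ (χ l) (Φ l i))).vars ⊆ range i := by
  have h1 := H.χ_tri l hl i
  rwa [H.eq l hl i, add_sub_cancel_left] at h1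

theorem Fx.wle_tr (H : Fx d K n n' N Φ χ Θ) {k l : ℕ} (hk : k ≤ N) (hl : l ≤ N) (i : ℕ) :
    Wle d (d i - 1) (Tr χ Θ k l i - X i) ∧ Wle d (d i) (Tr χ Θ k l i) := by
  induction i using Nat.strong_induction_on with
  | _ i ih =>
    have h1 : Wle d (d i - 1) (Tr χ Θ k l i - X i) := by
      rw [H.delta_eq hk hl i]
      refine wle_sub (wle_trw (H.d_pos i) _) (wle_bind (wle_trw (H.d_pos i) _) fun j hj => ?_)
      exact (ih j (Finset.mem_range.1 (H.vars_g hl i hj))).2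
    refine ⟨h1, ?_⟩
    have h2 : Tr χ Θ k l i = (Tr χ Θ k l i - X i) + X i := by ring
    rw [h2]
    exact wle_add (wle_mono h1 (Nat.sub_le _ _)) (wle_X i)

/-- The difference is the low part of what was not taken before. -/
theorem Fx.delta_eq' (H : Fx d K n n' N Φ χ Θ) {k l : ℕ} (hk : k ≤ N) (hl : l ≤ N) (i : ℕ) :
    Tr χ Θ k l i - X i = trw d (d i) (bind₁ (χ k) (Φ k i - Φ l i)) +
      trw d (d i) (bind₁ (Tr χ Θ k l) (gew d (d i) (bind₁ (χ l) (Φ l i)))) := by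
  have h1 : Wle d (d i - 1) (bind₁ (Tr χ Θ k l) (trw d (d i) (bind₁ (χ l) (Φ l i)))) :=
    wle_bind (wle_trw (H.d_pos i) _) fun j _ => (H.wle_tr hk hl j).2
  have h2 := trw_of_wle (s := d i) h1 (by have := H.d_pos i; omega)
  rw [H.delta_eq hk hl i, ← trw_add]
  conv_lhs => rw [← h2]
  rw [← trw_sub]
  congr 1
  rw [gew, map_sub, map_sub, tr_comp (H.inv l hl)]
  ring

/-- The difference of the labels in the adapted coordinates of the lower level. -/
noncomputable def Ed (Φ χ : ℕ → ℕ → PN) (l i : ℕ) : PN := bind₁ (χ l) (Φ (l + 1) i - Φ l i)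

theorem Fx.tel (H : Fx d K n n' N Φ χ Θ) {k k' : ℕ} (hk : k ≤ N) (hk' : k' ≤ k) (i : ℕ) :
    bind₁ (χ k) (Φ k i - Φ k' i) =
      ∑ l ∈ Finset.Ico k' k, bind₁ (Tr χ Θ k l) (Ed Φ χ l i) := by
  rw [sub_tel (fun l => Φ l i) hk', map_sum]
  refine Finset.sum_congr rfl fun l hl => ?_
  rw [Ed, tr_comp (H.inv l _)]
  have := (Finset.mem_Ico.1 hl).2
  omega

theorem Fx.vars_diff (H : Fx d K n n' N Φ χ Θ) {l : ℕ} (hl : l + 1 ≤ N) (i : ℕ) :
    (Φ (l + 1) i - Φ l i).vars ⊆ range i :=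
  vars_sub' (H.tri (l + 1) hl i) (H.tri l (by omega) i)

theorem Fx.vars_ed (H : Fx d K n n' N Φ χ Θ) {l : ℕ} (hl : l + 1 ≤ N) (i : ℕ) :
    (Ed Φ χ l i).vars ⊆ range i :=
  vars_bind (H.vars_diff hl i) fun j _ => H.vars_chi (by omega) j

theorem Fx.wle_ed (H : Fx d K n n' N Φ χ Θ) {D : ℕ} (hD : ∀ j ≤ n, d j ≤ D) {l : ℕ}
    (hl : l + 1 ≤ N) {i : ℕ} (hi : i < n') : Wle d (K * D) (Ed Φ χ l i) := by
  refine wle_bind (wle_deg ?_ (H.vars_diff hl i) fun j hj => hD j ?_) fun j _ =>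
    H.wle_chi (by omega) j
  · exact (totalDegree_sub _ _).trans (max_le (H.deg (l + 1) hl i hi) (H.deg l (by omega) i hi))
  · have := H.le
    omega

theorem Fx.wle_F (H : Fx d K n n' N Φ χ Θ) {D : ℕ} (hD : ∀ j ≤ n, d j ≤ D) {k : ℕ}
    (hk : k ≤ N) {i : ℕ} (hi : i < n') : Wle d (K * D) (bind₁ (χ k) (Φ k i)) := by
  refine wle_bind (wle_deg (H.deg k hk i hi) (H.tri k hk i) fun j hj => hD j ?_) fun j _ =>
    H.wle_chi hk j
  have := H.le
  omega

theorem Fx.vars_F (H : Fx d K n n' N Φ χ Θ) {k : ℕ} (hk : k ≤ N) (i : ℕ) :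
    (bind₁ (χ k) (Φ k i)).vars ⊆ range i :=
  vars_bind (H.tri k hk i) fun j _ => H.vars_chi hk j

end

/-! ### Norms -/

section
variable (hN : NrmStmt)
include hN

theorem bind_bound (hd : ∀ i, 1 ≤ d i) {W i : ℕ} {F : PN} (hv : F.vars ⊆ range i)
    (hw : Wle d W F) {T : ℕ → PN} {ρ L : ℝ} (hρ : 0 < ρ) (hL : 1 ≤ L)
    (hT : ∀ j < i, nrm d ρ (T j) ≤ (L * ρ) ^ d j) :
    nrm d ρ (bind₁ T F) ≤ L ^ W * nrm d ρ F := by
  have hL0 : 0 < L := by linarith
  obtain ⟨-, -, -, -, -, -, -, -, -, h1, -, -, -⟩ := hN d ρ hd hρ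
  have h2 := h1 T F (L * ρ) (mul_pos hL0 hρ) fun j hj => hT j (Finset.mem_range.1 (hv hj))
  obtain ⟨-, -, -, -, -, -, -, -, -, -, -, h3, -⟩ := hN d ρ hd hρ
  have h4 := h3 W F (L * ρ) (by nlinarith)
  rw [trw_of_wle hw (Nat.lt_succ_self W), mul_div_assoc, div_self hρ.ne', mul_one] at h4
  exact h2.trans h4

theorem nrm_sum {ι : Type*} (hd : ∀ i, 1 ≤ d i) {ρ : ℝ} (hρ : 0 < ρ) (s : Finset ι)
    (F : ι → PN) {B : ℝ} (hB : ∀ i ∈ s, nrm d ρ (F i) ≤ B) :
    nrm d ρ (∑ i ∈ s, F i) ≤ s.card * B := by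
  classical
  induction s using Finset.induction_on with
  | empty =>
    obtain ⟨-, -, -, -, h1, -⟩ := hN d ρ hd hρ
    have h2 := h1 0
    rw [C_0, abs_zero] at h2
    simp [h2]
  | insert a s ha ih =>
    rw [Finset.sum_insert ha, Finset.card_insert_of_notMem ha]
    obtain ⟨-, h1, -⟩ := hN d ρ hd hρ
    have h2 := ih fun i hi => hB i (Finset.mem_insert_of_mem hi)
    have h3 := hB a (Finset.mem_insert_self a s)
    have h4 := h1 (F a) (∑ i ∈ s, F i)
    push_cast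
    linarith

end


/-! ### Radii -/

theorem rd_pos (z k : ℕ) : 0 < rd z k := by unfold rd; positivity

theorem rd_anti (z : ℕ) {l k : ℕ} (h : l ≤ k) : rd z k ≤ rd z l := by
  unfold rd
  apply one_div_le_one_div_of_le (by positivity)
  exact pow_le_pow_right₀ (by norm_num) (Nat.mul_le_mul_right z h)

theorem rd_zero (z : ℕ) : rd z 0 = 1 := by simp [rd]

theorem low_pow {a b s : ℝ} {m : ℕ} (ha : 0 < a) (hab : a ≤ b) (hs : s ≤ m) :
    (a / b) ^ m * b ^ s ≤ a ^ s := by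
  have hb : 0 < b := lt_of_lt_of_le ha hab
  have h1 : (a / b) ^ m ≤ (a / b) ^ s := by
    rw [← Real.rpow_natCast]
    exact Real.rpow_le_rpow_of_exponent_ge (div_pos ha hb) ((div_le_one hb).2 hab) hs
  have h2 : (a / b) ^ s * b ^ s = a ^ s := by
    rw [← Real.mul_rpow (div_pos ha hb).le hb.le, div_mul_cancel₀ a hb.ne']
  rw [← h2]
  exact mul_le_mul_of_nonneg_right h1 (Real.rpow_nonneg hb.le s)

theorem high_pow {a b s : ℝ} {m : ℕ} (hb : 0 < b) (hab : b ≤ a) (hs : (m : ℝ) ≤ s) :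
    (a / b) ^ m * b ^ s ≤ a ^ s := by
  have ha : 0 < a := lt_of_lt_of_le hb hab
  have h1 : (a / b) ^ m ≤ (a / b) ^ s := by
    rw [← Real.rpow_natCast]
    exact Real.rpow_le_rpow_of_exponent_le ((one_le_div hb).2 hab) hs
  have h2 : (a / b) ^ s * b ^ s = a ^ s := by
    rw [← Real.mul_rpow (div_pos ha hb).le hb.le, div_mul_cancel₀ a hb.ne']
  rw [← h2]
  exact mul_le_mul_of_nonneg_right h1 (Real.rpow_nonneg hb.le s)

theorem one_add_exp {c z : ℝ} (hc : 0 ≤ c) (hz : 1 ≤ z) :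
    1 + Real.exp (c * z) ≤ Real.exp ((c + 1) * z) := by
  have h1 : 1 ≤ Real.exp (c * z) := Real.one_le_exp (by positivity)
  have h2 : 2 ≤ Real.exp z := by
    have := Real.add_one_le_exp z
    linarith
  have h3 : Real.exp ((c + 1) * z) = Real.exp (c * z) * Real.exp z := by
    rw [← Real.exp_add]; ring_nf
  rw [h3]
  nlinarith

section
variable (hN : NrmStmt) {K n n' N : ℕ} {Φ χ Θ : ℕ → ℕ → PN}
include hN

/-- The transition map costs `exp ((c + 1) z)` on the radius. -/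
theorem Fx.tr_le (H : Fx d K n n' N Φ χ Θ) {σ : ℕ → ℝ} (hS : Slp d σ n) {z : ℕ} (hz : 1 ≤ z)
    {c : ℝ} (hc : 0 ≤ c) {i : ℕ} (hi : i < n')
    (IH : ∀ j < i, ∀ k ≤ N, ∀ l ≤ k,
      nrm d (rd z l) (Tr χ Θ k l j - X j) ≤ Real.exp (c * z) * rd z l ^ σ j)
    {k l : ℕ} (hk : k ≤ N) (hl : l ≤ k) {j : ℕ} (hj : j < i) :
    nrm d (rd z l) (Tr χ Θ k l j) ≤ (Real.exp ((c + 1) * z) * rd z l) ^ d j := by
  have hz' : (1 : ℝ) ≤ z := by exact_mod_cast hz
  have hj' : j < n := by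
    have := H.le
    omega
  obtain ⟨-, h1, -, -, -, h2, -⟩ := hN d (rd z l) H.d_pos (rd_pos z l)
  have h3 := h1 (Tr χ Θ k l j - X j) (X j)
  rw [sub_add_cancel, h2 j] at h3
  have h4 := IH j hj k hk l hl
  rw [hS.int j hj', Real.rpow_natCast] at h4
  have h5 := one_add_exp hc hz'
  have h6 : (1 : ℝ) ≤ Real.exp ((c + 1) * z) := Real.one_le_exp (by positivity)
  have h7 : Real.exp ((c + 1) * z) ≤ Real.exp ((c + 1) * z) ^ d j :=
    le_self_pow₀ h6 (by have := H.d_pos j; omega)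
  have h8 : 0 < rd z l ^ d j := pow_pos (rd_pos z l) _
  rw [mul_pow]
  calc nrm d (rd z l) (Tr χ Θ k l j)
      ≤ Real.exp (c * z) * rd z l ^ d j + rd z l ^ d j := h3.trans (by linarith)
    _ = (1 + Real.exp (c * z)) * rd z l ^ d j := by ring
    _ ≤ Real.exp ((c + 1) * z) ^ d j * rd z l ^ d j :=
        mul_le_mul_of_nonneg_right (h5.trans h7) h8.le

theorem Fx.te_le (H : Fx d K n n' N Φ χ Θ) {σ : ℕ → ℝ} (hS : Slp d σ n) {z : ℕ} (hz : 1 ≤ z)
    {D : ℕ} (hD : ∀ j ≤ n, d j ≤ D) {c C₂ : ℝ} (hc : 0 ≤ c) {i : ℕ} (hi : i < n')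
    (hE : ∀ l, l + 1 ≤ N → nrm d (rd z l) (Ed Φ χ l i) ≤ Real.exp (C₂ * z) * rd z l ^ σ i)
    (IH : ∀ j < i, ∀ k ≤ N, ∀ l ≤ k,
      nrm d (rd z l) (Tr χ Θ k l j - X j) ≤ Real.exp (c * z) * rd z l ^ σ j)
    {k l : ℕ} (hk : k ≤ N) (hl : l < k) :
    nrm d (rd z l) (bind₁ (Tr χ Θ k l) (Ed Φ χ l i)) ≤
      Real.exp (((c + 1) * (K * D : ℕ) + C₂) * z) * rd z l ^ σ i := by
  have h6 : (1 : ℝ) ≤ Real.exp ((c + 1) * z) := Real.one_le_exp (by positivity)
  have h1 := bind_bound hN H.d_pos (H.vars_ed (by omega : l + 1 ≤ N) i)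
    (H.wle_ed hD (by omega : l + 1 ≤ N) hi) (rd_pos z l) h6
    (fun j hj => H.tr_le hN hS hz hc hi IH hk hl.le hj)
  have h2 := hE l (by omega)
  refine h1.trans ((mul_le_mul_of_nonneg_left h2 (by positivity)).trans (le_of_eq ?_))
  rw [← Real.exp_nat_mul, ← mul_assoc, ← Real.exp_add]
  congr 2
  ring

theorem Fx.a_le (H : Fx d K n n' N Φ χ Θ) {σ : ℕ → ℝ} (hS : Slp d σ n) {z : ℕ} (hz : 1 ≤ z)
    (hzN : (N : ℝ) ≤ Real.exp z)
    {D : ℕ} (hD : ∀ j ≤ n, d j ≤ D) {c C₂ : ℝ} (hc : 0 ≤ c) {i : ℕ} (hi : i < n')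
    (hE : ∀ l, l + 1 ≤ N → nrm d (rd z l) (Ed Φ χ l i) ≤ Real.exp (C₂ * z) * rd z l ^ σ i)
    (hB : ∀ k ≤ N, gew d (d i) (bind₁ (χ k) (Φ 0 i)) = 0)
    (IH : ∀ j < i, ∀ k ≤ N, ∀ l ≤ k,
      nrm d (rd z l) (Tr χ Θ k l j - X j) ≤ Real.exp (c * z) * rd z l ^ σ j)
    {k : ℕ} (hk : k ≤ N) :
    nrm d (rd z k) (gew d (d i) (bind₁ (χ k) (Φ k i))) ≤
      Real.exp (((c + 1) * (K * D : ℕ) + C₂ + 1) * z) * rd z k ^ σ i := by
  have hσ : σ i ≤ d i := by
    have := H.le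
    rcases Nat.lt_or_ge i n with h | h
    · rw [hS.int i h]
    · obtain rfl : i = n := by omega
      exact hS.le
  have h0 : gew d (d i) (bind₁ (χ k) (Φ k i)) =
      ∑ l ∈ Finset.Ico 0 k, gew d (d i) (bind₁ (Tr χ Θ k l) (Ed Φ χ l i)) := by
    rw [← gew_sum, ← H.tel hk (Nat.zero_le k) i, map_sub, sub_eq_add_neg, gew_add]
    have h1 : gew d (d i) (-(bind₁ (χ k)) (Φ 0 i)) = 0 := by
      have h2 := hB k hk
      have h3 := gew_add (d := d) (d i) (bind₁ (χ k) (Φ 0 i)) (-(bind₁ (χ k)) (Φ 0 i))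
      rw [add_neg_cancel, h2, zero_add] at h3
      rw [← h3]
      simp [gew, trw]
    rw [h1, add_zero]
  rw [h0]
  have h1 : ∀ l ∈ Finset.Ico 0 k, nrm d (rd z k) (gew d (d i) (bind₁ (Tr χ Θ k l)
      (Ed Φ χ l i))) ≤ Real.exp (((c + 1) * (K * D : ℕ) + C₂) * z) * rd z k ^ σ i := by
    intro l hl
    have hl' := (Finset.mem_Ico.1 hl).2
    obtain ⟨-, -, -, -, -, -, -, -, -, -, h2, -, -⟩ := hN d (rd z k) H.d_pos (rd_pos z k)
    have h3 := h2 (d i) (bind₁ (Tr χ Θ k l) (Ed Φ χ l i)) (rd z l) (rd_anti z hl'.le)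
    have h4 := H.te_le hN hS hz hD hc hi hE IH hk hl'
    have h5 := low_pow (rd_pos z k) (rd_anti z hl'.le) hσ
    have h6 : 0 ≤ rd z k / rd z l := div_nonneg (rd_pos z k).le (rd_pos z l).le
    calc _ ≤ (rd z k / rd z l) ^ d i *
          nrm d (rd z l) (bind₁ (Tr χ Θ k l) (Ed Φ χ l i)) := h3
      _ ≤ (rd z k / rd z l) ^ d i *
          (Real.exp (((c + 1) * (K * D : ℕ) + C₂) * z) * rd z l ^ σ i) :=
          mul_le_mul_of_nonneg_left h4 (pow_nonneg h6 _)
      _ = Real.exp (((c + 1) * (K * D : ℕ) + C₂) * z) *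
          ((rd z k / rd z l) ^ d i * rd z l ^ σ i) := by ring
      _ ≤ _ := mul_le_mul_of_nonneg_left h5 (Real.exp_pos _).le
  have h2 := nrm_sum hN H.d_pos (rd_pos z k) _ _ h1
  rw [Nat.card_Ico, Nat.sub_zero] at h2
  have h3 : (k : ℝ) ≤ Real.exp z := le_trans (by exact_mod_cast hk) hzN
  have h4 : 0 < rd z k ^ σ i := Real.rpow_pos_of_pos (rd_pos z k) _
  refine h2.trans ?_
  calc (k : ℝ) * (Real.exp (((c + 1) * (K * D : ℕ) + C₂) * z) * rd z k ^ σ i)
      ≤ Real.exp z * (Real.exp (((c + 1) * (K * D : ℕ) + C₂) * z) * rd z k ^ σ i) :=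
        mul_le_mul_of_nonneg_right h3 (by positivity)
    _ = _ := by
        rw [← mul_assoc, ← Real.exp_add]
        congr 2
        ring

theorem Fx.d_le (H : Fx d K n n' N Φ χ Θ) {σ : ℕ → ℝ} (hS : Slp d σ n) {z : ℕ} (hz : 1 ≤ z)
    (hzN : (N : ℝ) ≤ Real.exp z)
    {D : ℕ} (hD : ∀ j ≤ n, d j ≤ D) {c C₂ : ℝ} (hc : 0 ≤ c) {i : ℕ} (hi : i < n')
    (hE : ∀ l, l + 1 ≤ N → nrm d (rd z l) (Ed Φ χ l i) ≤ Real.exp (C₂ * z) * rd z l ^ σ i)
    (hB : ∀ k ≤ N, gew d (d i) (bind₁ (χ k) (Φ 0 i)) = 0)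
    (IH : ∀ j < i, ∀ k ≤ N, ∀ l ≤ k,
      nrm d (rd z l) (Tr χ Θ k l j - X j) ≤ Real.exp (c * z) * rd z l ^ σ j)
    {k k' : ℕ} (hk : k ≤ N) (hk' : k' ≤ k) :
    nrm d (rd z k') (Tr χ Θ k k' i - X i) ≤
      Real.exp ((2 * ((c + 1) * (K * D : ℕ)) + C₂ + 2) * z) * rd z k' ^ σ i := by
  have hz' : (1 : ℝ) ≤ z := by exact_mod_cast hz
  have hσ : (d i : ℝ) - 1 ≤ σ i := by
    have := H.le
    rcases Nat.lt_or_ge i n with h | h
    · rw [hS.int i h]; linarith
    · obtain rfl : i = n := by omega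
      exact hS.lt.le
  have hdi := H.d_pos i
  have hσ' : ((d i - 1 : ℕ) : ℝ) ≤ σ i := by
    rw [Nat.cast_sub hdi, Nat.cast_one]; exact hσ
  rw [H.delta_eq' hk (hk'.trans hk) i, H.tel hk hk' i, trw_sum]
  set W : ℝ := (c + 1) * (K * D : ℕ) with hW
  have hW0 : 0 ≤ W := by positivity
  have h1 : ∀ l ∈ Finset.Ico k' k, nrm d (rd z k') (trw d (d i) (bind₁ (Tr χ Θ k l)
      (Ed Φ χ l i))) ≤ Real.exp ((W + C₂) * z) * rd z k' ^ σ i := by
    intro l hl
    have hl' := Finset.mem_Ico.1 hl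
    obtain ⟨-, -, -, -, -, -, -, -, -, -, -, h2, -⟩ := hN d (rd z l) H.d_pos (rd_pos z l)
    have h3 := h2 (d i - 1) (bind₁ (Tr χ Θ k l) (Ed Φ χ l i)) (rd z k') (rd_anti z hl'.1)
    rw [Nat.sub_add_cancel hdi] at h3
    have h4 := H.te_le hN hS hz hD hc hi hE IH hk hl'.2
    have h5 := high_pow (rd_pos z l) (rd_anti z hl'.1) hσ'
    have h6 : 0 ≤ rd z k' / rd z l := div_nonneg (rd_pos z k').le (rd_pos z l).le
    calc _ ≤ (rd z k' / rd z l) ^ (d i - 1) *
          nrm d (rd z l) (bind₁ (Tr χ Θ k l) (Ed Φ χ l i)) := h3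
      _ ≤ (rd z k' / rd z l) ^ (d i - 1) *
          (Real.exp ((W + C₂) * z) * rd z l ^ σ i) :=
          mul_le_mul_of_nonneg_left h4 (pow_nonneg h6 _)
      _ = Real.exp ((W + C₂) * z) *
          ((rd z k' / rd z l) ^ (d i - 1) * rd z l ^ σ i) := by ring
      _ ≤ _ := mul_le_mul_of_nonneg_left h5 (Real.exp_pos _).le
  have h2 := nrm_sum hN H.d_pos (rd_pos z k') _ _ h1
  rw [Nat.card_Ico] at h2
  have h3 : ((k - k' : ℕ) : ℝ) ≤ Real.exp z :=
    le_trans (by exact_mod_cast (Nat.sub_le k k').trans hk) hzN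
  have h4 : 0 < rd z k' ^ σ i := Real.rpow_pos_of_pos (rd_pos z k') _
  have h5 := H.a_le hN hS hz hzN hD hc hi hE hB IH (hk'.trans hk)
  have h6 : (1 : ℝ) ≤ Real.exp ((c + 1) * z) := Real.one_le_exp (by positivity)
  have h7 := bind_bound hN (T := Tr χ Θ k k') (F := gew d (d i) (bind₁ (χ k') (Φ k' i)))
    H.d_pos (i := i) (W := K * D) ?_
    (wle_gew (H.wle_F hD (hk'.trans hk) hi)) (rd_pos z k') h6
    (fun j hj => H.tr_le hN hS hz hc hi IH hk hk' hj)
  · obtain ⟨-, h8, -, -, -, -, h9, -⟩ := hN d (rd z k') H.d_pos (rd_pos z k')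
    refine (h8 _ _).trans ?_
    have h10 := h9 (d i) (bind₁ (Tr χ Θ k k') (gew d (d i) (bind₁ (χ k') (Φ k' i))))
    have h11 : Real.exp ((c + 1) * z) ^ (K * D) = Real.exp (W * z) := by
      rw [← Real.exp_nat_mul, hW]
      congr 1
      push_cast
      ring
    rw [h11] at h7
    have h12 : ((k - k' : ℕ) : ℝ) * (Real.exp ((W + C₂) * z) * rd z k' ^ σ i) ≤
        Real.exp ((W + C₂ + 1) * z) * rd z k' ^ σ i := by
      refine (mul_le_mul_of_nonneg_right h3 (by positivity)).trans (le_of_eq ?_)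
      rw [← mul_assoc, ← Real.exp_add]
      congr 2
      ring
    have h13 : Real.exp (W * z) * (Real.exp ((W + C₂ + 1) * z) * rd z k' ^ σ i) ≤
        Real.exp ((2 * W + C₂ + 1) * z) * rd z k' ^ σ i := by
      rw [← mul_assoc, ← Real.exp_add]
      refine le_of_eq ?_
      congr 2
      ring
    have h14 : Real.exp ((W + C₂ + 1) * z) ≤ Real.exp ((2 * W + C₂ + 1) * z) := by
      apply Real.exp_le_exp.2
      apply mul_le_mul_of_nonneg_right _ (by positivity)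
      linarith
    have h15 : 2 * Real.exp ((2 * W + C₂ + 1) * z) ≤ Real.exp ((2 * W + C₂ + 2) * z) := by
      have h16 : (2 : ℝ) ≤ Real.exp z := by
        have := Real.add_one_le_exp (z : ℝ)
        linarith
      have h17 : Real.exp ((2 * W + C₂ + 2) * z) =
          Real.exp ((2 * W + C₂ + 1) * z) * Real.exp z := by
        rw [← Real.exp_add]; ring_nf
      rw [h17]
      nlinarith [Real.exp_pos ((2 * W + C₂ + 1) * z)]
    have h18 : nrm d (rd z k') (bind₁ (Tr χ Θ k k')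
        (gew d (d i) (bind₁ (χ k') (Φ k' i)))) ≤
        Real.exp ((2 * W + C₂ + 1) * z) * rd z k' ^ σ i :=
      h7.trans ((mul_le_mul_of_nonneg_left h5 (Real.exp_pos _).le).trans h13)
    calc _ ≤ Real.exp ((W + C₂ + 1) * z) * rd z k' ^ σ i +
          Real.exp ((2 * W + C₂ + 1) * z) * rd z k' ^ σ i :=
          add_le_add (h2.trans h12) (h10.trans h18)
      _ ≤ (2 * Real.exp ((2 * W + C₂ + 1) * z)) * rd z k' ^ σ i := by
          rw [← add_mul]
          apply mul_le_mul_of_nonneg_right _ h4.le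
          linarith
      _ ≤ _ := mul_le_mul_of_nonneg_right h15 h4.le
  · have h8 := H.vars_F (hk'.trans hk) i
    rw [gew]
    exact vars_sub' h8 (H.vars_g (hk'.trans hk) i)

end


/-- The constants. -/
def cst (W C₂ : ℝ) : ℕ → ℝ
  | 0 => 0
  | i + 1 => cst W C₂ i + (2 * ((cst W C₂ i + 1) * W) + C₂ + 2)

theorem cst_nonneg {W C₂ : ℝ} (hW : 0 ≤ W) (hC : 0 ≤ C₂) (i : ℕ) : 0 ≤ cst W C₂ i := by
  induction i with
  | zero => exact le_refl 0
  | succ i ih =>
    rw [cst]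
    positivity

theorem cst_succ {W C₂ : ℝ} (hW : 0 ≤ W) (hC : 0 ≤ C₂) (i : ℕ) :
    cst W C₂ i ≤ cst W C₂ (i + 1) := by
  have := cst_nonneg hW hC i
  have h1 : 0 ≤ 2 * ((cst W C₂ i + 1) * W) + C₂ + 2 := by positivity
  rw [cst]
  linarith

theorem cst_mono {W C₂ : ℝ} (hW : 0 ≤ W) (hC : 0 ≤ C₂) {i j : ℕ} (h : i ≤ j) :
    cst W C₂ i ≤ cst W C₂ j := monotone_nat_of_le_succ (cst_succ hW hC) h

theorem Fx.all (hN : NrmStmt) {K n n' N : ℕ} {Φ χ Θ : ℕ → ℕ → PN}
    (H : Fx d K n n' N Φ χ Θ) {σ : ℕ → ℝ} (hS : Slp d σ n) {z : ℕ} (hz : 1 ≤ z)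
    (hzN : (N : ℝ) ≤ Real.exp z) {D : ℕ} (hD : ∀ j ≤ n, d j ≤ D) {C₂ : ℝ} (hC : 0 ≤ C₂)
    (hE : ∀ l, l + 1 ≤ N → ∀ i < n',
      nrm d (rd z l) (Ed Φ χ l i) ≤ Real.exp (C₂ * z) * rd z l ^ σ i)
    (hB : ∀ k ≤ N, ∀ i < n', gew d (d i) (bind₁ (χ k) (Φ 0 i)) = 0) (i : ℕ) :
    ∀ j < i, j < n' → ∀ k ≤ N, ∀ l ≤ k, nrm d (rd z l) (Tr χ Θ k l j - X j) ≤
      Real.exp (cst (K * D : ℕ) C₂ i * z) * rd z l ^ σ j := by
  have hW : (0 : ℝ) ≤ (K * D : ℕ) := Nat.cast_nonneg _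
  induction i with
  | zero => intro j hj; exact absurd hj (Nat.not_lt_zero j)
  | succ i ih =>
    intro j hj hj' k hk l hl
    rcases Nat.lt_succ_iff_lt_or_eq.1 hj with h | h
    · refine (ih j h hj' k hk l hl).trans ?_
      apply mul_le_mul_of_nonneg_right _ (Real.rpow_nonneg (rd_pos z l).le _)
      apply Real.exp_le_exp.2
      exact mul_le_mul_of_nonneg_right (cst_succ hW hC i) (by positivity)
    · subst h
      refine (H.d_le hN hS hz hzN hD (cst_nonneg hW hC j) hj' (fun l hl => hE l hl j hj')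
        (fun k hk => hB k hk j hj')
        (fun m hm k hk l hl => ih m hm (by omega) k hk l hl) hk hl).trans ?_
      apply mul_le_mul_of_nonneg_right _ (Real.rpow_nonneg (rd_pos z l).le _)
      apply Real.exp_le_exp.2
      apply mul_le_mul_of_nonneg_right _ (by positivity)
      have := cst_nonneg hW hC j
      rw [cst]
      linarith

/-- The facts from row 101. -/
theorem fx_of (hA : AdxStmt) {K n n' N : ℕ} {Φ : ℕ → ℕ → PN} (hd0 : d 0 = 1)
    (hd : ∀ i, 1 ≤ d i) (hn : n' ≤ n + 1) (hL : LBase K n' N Φ) :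
    Fx d K n n' N Φ (fun k => adp d (Φ k)) (fun k => tinv (adp d (Φ k))) where
  le := hn
  d_pos := hd
  tri := hL.tri
  deg := hL.deg
  eq := fun k hk i => (hA.2 d (Φ k) hd0 hd (hL.tri k hk)).1 i
  χ_tri := fun k hk i => (hA.2 d (Φ k) hd0 hd (hL.tri k hk)).2.1 i
  Θ_tri := fun k hk i => by
    obtain ⟨-, h1, h2, -⟩ := hA.2 d (Φ k) hd0 hd (hL.tri k hk)
    exact (h2 _ h1).1 i
  inv := fun k hk i => by
    obtain ⟨-, h1, h2, -⟩ := hA.2 d (Φ k) hd0 hd (hL.tri k hk)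
    exact (h2 _ h1).2.1 i

end Lad75

open Lad75

/-- **Row 106**, from the rows 101 and 105. -/
theorem lad_of (hA : AdxStmt) (hN : NrmStmt) : LadStmt := by
  intro n K d σ C₂ hS hC₂
  have hd0 := hS.d_zero
  have hd := hS.d_pos
  set D : ℕ := ∑ j ∈ range (n + 1), d j with hDdef
  have hD : ∀ j ≤ n, d j ≤ D := fun j hj =>
    Finset.single_le_sum (f := d) (fun _ _ => Nat.zero_le _)
      (Finset.mem_range.2 (Nat.lt_succ_of_le hj))
  have hW : (0 : ℝ) ≤ (K * D : ℕ) := Nat.cast_nonneg _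
  have hC0 : (0 : ℝ) ≤ C₂ := by linarith
  set c : ℝ := cst (K * D : ℕ) C₂ (n + 1) with hc
  have hc0 : 0 ≤ c := cst_nonneg hW hC0 (n + 1)
  refine ⟨c + 2 + ((c + 1) * (K * D : ℕ) + C₂ + 1), ?_, fun N => ⟨N + 1, ?_⟩⟩
  · have : 0 ≤ (c + 1) * ((K * D : ℕ) : ℝ) := by positivity
    linarith
  intro z Φ n' hz hn' hL hLad
  have hz1 : 1 ≤ z := by omega
  have hz' : (1 : ℝ) ≤ z := by exact_mod_cast hz1
  have hzN : (N : ℝ) ≤ Real.exp z := by
    have h1 := Real.add_one_le_exp (z : ℝ)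
    have h2 : ((N + 1 : ℕ) : ℝ) ≤ z := by exact_mod_cast hz
    push_cast at h2
    linarith
  have H := fx_of hA hd0 hd hn' hL
  have hE : ∀ l, l + 1 ≤ N → ∀ i < n', nrm d (rd z l) (Ed Φ (fun k => adp d (Φ k)) l i) ≤
      Real.exp (C₂ * z) * rd z l ^ σ i := fun l hl i hi => hLad l (by omega) i hi
  have hΦ0 : ∀ i, 1 ≤ i → i < n' → Φ 0 i = 0 := hL.zero
  obtain ⟨t, ht, hΦt⟩ := hL.base
  have hB : ∀ k ≤ N, ∀ i < n', gew d (d i) (bind₁ (adp d (Φ k)) (Φ 0 i)) = 0 := by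
    intro k hk i hi
    rcases Nat.eq_zero_or_pos i with h | h
    · subst h
      rw [hΦt, bind₁_C_right]
      exact gew_of_wle (wle_C t 0) (hd 0)
    · rw [hΦ0 i h hi, map_zero]
      exact gew_of_wle (wle_zero 0) (hd i)
  have hall := H.all hN hS hz1 hzN hD hC0 hE hB (n + 1)
  rw [← hc] at hall
  have hall' : ∀ i < n', ∀ k ≤ N, ∀ l ≤ k, nrm d (rd z l)
      (Tr (fun k => adp d (Φ k)) (fun k => tinv (adp d (Φ k))) k l i - X i) ≤
      Real.exp (c * z) * rd z l ^ σ i := fun i hi => hall i (by omega) hi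
  have hbig : Real.exp (c * z) ≤
      Real.exp ((c + 2 + ((c + 1) * (K * D : ℕ) + C₂ + 1)) * z) := by
    apply Real.exp_le_exp.2
    apply mul_le_mul_of_nonneg_right _ (by positivity)
    have : 0 ≤ (c + 1) * ((K * D : ℕ) : ℝ) := by positivity
    linarith
  refine ⟨fun k hk i hi => ⟨?_, ?_⟩, fun k hk k' hk' i hi => ?_⟩
  · have h0 : nrm d (rd z 0) (adp d (Φ k) i) ≤ Real.exp (c * z) + 3 := by
      have h1 := tr_comp (χ := fun k => adp d (Φ k)) (Θ := fun k => tinv (adp d (Φ k))) (k := k)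
        (l := 0) (H.inv 0 (Nat.zero_le N)) (X i)
      simp only [bind₁_X_right] at h1
      have h2 := hall' i hi k hk 0 (Nat.zero_le k)
      rw [rd_zero, Real.one_rpow, mul_one] at h2
      rw [rd_zero]
      obtain ⟨-, h3, -, -, h4, h5, -⟩ := hN d 1 hd one_pos
      have h6 : ∃ s : ℝ, |s| ≤ 2 ∧ adp d (Φ 0) i = X i + C s := by
        have h7 := H.eq 0 (Nat.zero_le N) i
        rcases Nat.eq_zero_or_pos i with h | h
        · subst h
          refine ⟨t, ht, ?_⟩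
          conv_lhs => rw [h7]
          rw [hΦt, bind₁_C_right, trw_of_wle (wle_C t 0) (hd 0)]
        · refine ⟨0, by simp, ?_⟩
          conv_lhs => rw [h7]
          rw [hΦ0 i h hi, map_zero, trw_of_wle (wle_zero 0) (hd i), C_0]
      obtain ⟨s, hs, hs'⟩ := h6
      rw [hs', map_add, bind₁_X_right, bind₁_C_right] at h1
      rw [← h1]
      have h8 := h3 (Tr (fun k => adp d (Φ k)) (fun k => tinv (adp d (Φ k))) k 0 i) (C s)
      have h9 := h3 (Tr (fun k => adp d (Φ k)) (fun k => tinv (adp d (Φ k))) k 0 i - X i) (X i)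
      rw [sub_add_cancel, h5 i, one_pow] at h9
      rw [h4 s] at h8
      linarith
    rw [rd_zero] at h0
    refine h0.trans ?_
    have h1 : Real.exp (c * z) + 3 ≤ Real.exp ((c + 2) * z) := by
      have h2 : 1 ≤ Real.exp (c * z) := Real.one_le_exp (by positivity)
      have h3 : 4 ≤ Real.exp (2 * z) := by
        have h4 : Real.exp (2 * (z : ℝ)) = Real.exp z * Real.exp z := by
          rw [← Real.exp_add]; ring_nf
        have h5 := Real.add_one_le_exp (z : ℝ)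
        rw [h4]
        nlinarith
      have h6 : Real.exp ((c + 2) * z) = Real.exp (c * z) * Real.exp (2 * z) := by
        rw [← Real.exp_add]; ring_nf
      rw [h6]
      nlinarith
    refine h1.trans (Real.exp_le_exp.2 (mul_le_mul_of_nonneg_right ?_ (by positivity)))
    have : 0 ≤ (c + 1) * ((K * D : ℕ) : ℝ) := by positivity
    linarith
  · have h1 := H.a_le hN hS hz1 hzN hD hc0 hi (fun l hl => hE l hl i hi)
      (fun k hk => hB k hk i hi) (fun j hj k hk l hl => hall' j (by omega) k hk l hl) hk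
    refine h1.trans (mul_le_mul_of_nonneg_right ?_ (Real.rpow_nonneg (rd_pos z k).le _))
    apply Real.exp_le_exp.2
    apply mul_le_mul_of_nonneg_right _ (by positivity)
    linarith
  · intro δ
    have hδ : δ = Tr (fun k => adp d (Φ k)) (fun k => tinv (adp d (Φ k))) k k' i - X i := rfl
    have hk'N : k' ≤ N := hk'.trans hk
    have hw := (H.wle_tr hk hk'N i).1
    have htr : trw d (d i) δ = δ := by
      rw [hδ]
      exact trw_of_wle hw (by have := hd i; omega)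
    refine ⟨?_, htr, fun v hv => ?_⟩
    · rw [hδ]
      exact H.delta_vars hk hk'N i
    · have h1 := hall' i hi k hk k' hk'
      rw [← hδ] at h1
      obtain ⟨-, -, -, -, -, -, -, -, -, -, -, h2, -⟩ := hN d (rd z k') hd (rd_pos z k')
      have h3 := h2 (d i - 1) δ (rd z v) (rd_anti z hv)
      rw [Nat.sub_add_cancel (hd i), htr] at h3
      have h4 : (rd z v / rd z k') ^ (d i - 1) * rd z k' ^ σ i =
          rd z v ^ ((d i : ℝ) - 1) * rd z k' ^ (σ i - d i + 1) := by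
        rw [← Real.rpow_natCast, Nat.cast_sub (hd i), Nat.cast_one,
          Real.div_rpow (rd_pos z v).le (rd_pos z k').le, div_mul_eq_mul_div, mul_div_assoc,
          ← Real.rpow_sub (rd_pos z k')]
        congr 2
        ring
      have h5 : 0 ≤ (rd z v / rd z k') ^ (d i - 1) :=
        pow_nonneg (div_nonneg (rd_pos z v).le (rd_pos z k').le) _
      have h6 : 0 ≤ rd z v ^ ((d i : ℝ) - 1) * rd z k' ^ (σ i - d i + 1) :=
        mul_nonneg (Real.rpow_nonneg (rd_pos z v).le _) (Real.rpow_nonneg (rd_pos z k').le _)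
      calc nrm d (rd z v) δ ≤ (rd z v / rd z k') ^ (d i - 1) * nrm d (rd z k') δ := h3
        _ ≤ (rd z v / rd z k') ^ (d i - 1) * (Real.exp (c * z) * rd z k' ^ σ i) :=
            mul_le_mul_of_nonneg_left h1 h5
        _ = Real.exp (c * z) * ((rd z v / rd z k') ^ (d i - 1) * rd z k' ^ σ i) := by ring
        _ = Real.exp (c * z) * (rd z v ^ ((d i : ℝ) - 1) * rd z k' ^ (σ i - d i + 1)) := by
            rw [h4]
        _ ≤ _ := mul_le_mul_of_nonneg_right hbig h6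


end Pool.STAT
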