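import Pool.Agent.H76.GN.Lev
import Pool.Agent.H67.GEN.Cnc

/-!
# The profile of the levels near a window-free row

`L i` (`i ≤ n`) are the thresholds of the coordinates, `L n` is the top coordinate, which is
window-free at the radius `a`. At arbitrarily small scales `r` every coordinate `i < n` is either
static (its level does not depend on the window in the triangle `a - k 0 r ≤ w ≤ a' ≤ a`), with a
natural number as slope, or dynamic (there are gaps between the windows `a - k j r`).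
-/

set_option autoImplicit false

namespace Pool.STAT

open Set Filter Topology Pool.LEV Pool.LmC

/-- **The cell** of size `r` below the radius `a`. -/
structure Cell (L : ℕ → ℝ → ℝ → ℝ) (n : ℕ) (S : Finset ℕ) (d : ℕ → ℕ) (R : ℕ) (k : ℕ → ℝ)
    (γ a r ε : ℝ) : Prop where
  stat : ∀ i, (i ∈ S ∨ i = n) → ∀ a' w', a - k 0 * r ≤ w' → w' ≤ a' → a' ≤ a →
    |L i a' w' - L i a a - d i * (a' - a)| ≤ ε * r
  dyn : ∀ i < n, i ∉ S → ∀ j < R, ∀ a', a - γ * r ≤ a' → a' ≤ a →
    L i a' (a - k j * r) + γ * r ≤ L i a' (a - k (j + 1) * r)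
  diag : ∀ i < n, i ∉ S → ∀ a', a - k 0 * r ≤ a' → a' ≤ a →
    L i a a - L i a' a' ≤ d i * (a - a') + ε * r

namespace Prof

/-- One coordinate near the radius `a`: laws, concavity in the radius, differentiable diagonal. -/
structure Loc (P : ℝ → ℝ → ℝ) (a δ₀ σ : ℝ) : Prop where
  law : Law P
  pos : 0 < δ₀
  lo : δ₀ ≤ a
  hi : a + δ₀ ≤ 1
  le_one : P a a ≤ 1
  pth : ∀ w, a - δ₀ ≤ w → w ≤ a → Pth (fun x => P x w) w (a + δ₀)
  der : HasDerivAt (fun x => P x x) σ a

variable {P : ℝ → ℝ → ℝ} {a δ₀ σ : ℝ}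

/-- The diagonal is affine up to `η |x - a|`. -/
theorem Loc.aff (H : Loc P a δ₀ σ) {η : ℝ} (hη : 0 < η) : ∃ ρ : ℝ, 0 < ρ ∧ ∀ x, |x - a| ≤ ρ →
    |P x x - P a a - σ * (x - a)| ≤ η * |x - a| := by
  have h1 := hasDerivAt_iff_isLittleO.1 H.der
  have h2 := h1.def hη
  obtain ⟨ρ, hρ, h3⟩ := Metric.eventually_nhds_iff.1 h2
  refine ⟨ρ / 2, half_pos hρ, fun x hx => ?_⟩
  have h4 := h3 (y := x) (by rw [Real.dist_eq]; linarith only [hρ, hx])
  rw [Real.norm_eq_abs, Real.norm_eq_abs, smul_eq_mul, mul_comm (x - a) σ] at h4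
  exact h4

theorem Loc.mono (H : Loc P a δ₀ σ) {w : ℝ} (h0 : a - δ₀ ≤ w) :
    MonotoneOn (fun x => P x w) (Icc w (a + δ₀)) := by
  intro x hx y hy hxy
  exact H.law.mono_a x y w (by linarith only [h0, H, H.lo]) hx.1 hxy (by linarith [hy.2, H.hi])

/-- Concavity in the radius. -/
theorem Loc.conc (H : Loc P a δ₀ σ) {w x y z : ℝ} (h0 : a - δ₀ ≤ w) (h1 : w ≤ a) (hx : w ≤ x)
    (hxy : x ≤ y) (hyz : y ≤ z) (hz : z ≤ a + δ₀) :
    (P z w - P x w) * (y - x) ≤ (P y w - P x w) * (z - x) :=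
  concave (H.mono h0) (H.pth w h0 h1) hx hxy hyz hz

theorem Loc.sig_nonneg (H : Loc P a δ₀ σ) : 0 ≤ σ := by
  by_contra hc
  push Not at hc
  obtain ⟨ρ, hρ, h1⟩ := H.aff (η := -σ / 2) (by linarith only [hc])
  have hm : 0 < min ρ δ₀ := lt_min hρ H.pos
  have h2 := h1 (a + min ρ δ₀) (by
    rw [add_sub_cancel_left, abs_of_pos hm]
    exact min_le_left _ _)
  rw [add_sub_cancel_left, abs_of_pos hm] at h2
  have h3 := H.law.mono (a := a) (a' := a + min ρ δ₀) (w := a) (w' := a + min ρ δ₀)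
    (by linarith only [H, H.pos, H.lo]) le_rfl (by linarith only [hm]) (by linarith only [hm]) le_rfl
    (by linarith only [H, min_le_right ρ δ₀, H.hi])
  have h4 := (abs_le.1 h2).2
  nlinarith only [h3, h4, hc, hm]

/-- Diagonal below `a`, at the scale `r`. -/
theorem Loc.dg (H : Loc P a δ₀ σ) {η : ℝ} (hη : 0 < η) : ∃ ρ : ℝ, 0 < ρ ∧ ∀ r, 0 < r → r ≤ ρ →
    ∀ x, a - r ≤ x → x ≤ a → P a a - σ * (a - x) - η * r ≤ P x x ∧
      P x x ≤ P a a - σ * (a - x) + η * r := by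
  obtain ⟨ρ, hρ, h1⟩ := H.aff hη
  refine ⟨ρ, hρ, fun r hr hrρ x hx hxa => ?_⟩
  have h2 : |x - a| ≤ r := by
    rw [abs_sub_comm, abs_of_nonneg (by linarith)]
    linarith
  have h3 := h1 x (h2.trans hrρ)
  have h4 : η * |x - a| ≤ η * r := mul_le_mul_of_nonneg_left h2 hη.le
  have h5 := abs_le.1 (h3.trans h4)
  constructor <;> nlinarith only [h5, h5.1, h5.2]

/-- The drop of the level on the windows which are longer by `e r`. -/
theorem Loc.drop (H : Loc P a δ₀ σ) : ∃ ρ : ℝ, 0 < ρ ∧ ρ ≤ δ₀ ∧ ∀ r, 0 < r → r ≤ ρ →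
    P a a - P a (a - r) ≤ (σ + 1) * r := by
  obtain ⟨ρ, hρ, h1⟩ := H.dg (η := 1) one_pos
  refine ⟨min ρ δ₀, lt_min hρ H.pos, min_le_right _ _, fun r hr hrρ => ?_⟩
  have h2 := (h1 r hr (hrρ.trans (min_le_left _ _)) (a - r) le_rfl (by linarith)).1
  have hrd : r ≤ δ₀ := hrρ.trans (min_le_right _ _)
  have h3 := H.law.slope (a - r) (a - r) r (by linarith [H.lo]) le_rfl hr.le
    (by linarith [H.hi, H.pos])
  rw [sub_add_cancel] at h3
  have h4 := H.sig_nonneg
  rcases min_le_iff.1 h3 with h5 | h5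
  · nlinarith only [hr, h5, H, h4, H.le_one]
  · nlinarith only [hr, h2, h5]


/-- A coordinate which is static at the top radius is static in the whole triangle. -/
theorem Loc.tri (H : Loc P a δ₀ σ) {κ η : ℝ} (hκ : 0 < κ) (hη : 0 < η) : ∃ ρ : ℝ, 0 < ρ ∧
    ∀ r, 0 < r → r ≤ ρ → P a a - η * r ≤ P a (a - κ * r) → ∀ x w', a - κ * r ≤ w' → w' ≤ x →
      x ≤ a → |P x w' - P a a - σ * (x - a)| ≤ η * (κ + 1) * r := by
  obtain ⟨ρ, hρ, h1⟩ := H.dg hη
  refine ⟨min ρ δ₀ / κ, by have := H.pos; positivity, fun r hr hrρ h2 x w' hw hwx hxa => ?_⟩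
  have hκr : 0 < κ * r := mul_pos hκ hr
  have h3 : κ * r ≤ min ρ δ₀ := by
    rw [le_div_iff₀ hκ] at hrρ
    linarith only [hrρ]
  have h4 : κ * r ≤ ρ := h3.trans (min_le_left _ _)
  have h5 : κ * r ≤ δ₀ := h3.trans (min_le_right _ _)
  have hlo := H.lo
  have hhi := H.hi
  have hpos := H.pos
  have hup := (h1 (κ * r) hκr h4 x (by linarith only [hw, hwx]) hxa).2
  have hw0 := (h1 (κ * r) hκr h4 (a - κ * r) le_rfl (by linarith only [hκr])).1
  have hc := H.conc (w := a - κ * r) (x := a - κ * r) (y := x) (z := a) (by linarith only [h5])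
    (by linarith only [hκr]) le_rfl (by linarith) hxa (by linarith)
  have hx1 : P x (a - κ * r) ≤ P x w' :=
    H.law.mono_w x (a - κ * r) w' (by linarith) hw hwx (by linarith)
  have hx2 : P x w' ≤ P x x := H.law.mono_w x w' x (by linarith) hwx le_rfl (by linarith only [hxa, hκr, h5, hhi])
  have e1 : a - (a - κ * r) = κ * r := by ring
  rw [e1] at hc hw0
  obtain ⟨t, ht⟩ : ∃ t, t = a - x := ⟨_, rfl⟩
  have ht0 : 0 ≤ t := by linarith only [hxa, ht]
  have htk : t ≤ κ * r := by linarith only [hw, hwx, ht]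
  have hlow : P a a - σ * t - η * (κ + 1) * r ≤ P x (a - κ * r) := by
    have e2 : x - (a - κ * r) = κ * r - t := by rw [ht]; ring
    rw [e2] at hc
    have h6 : (P a (a - κ * r) - P (a - κ * r) (a - κ * r)) * (κ * r - t) +
        P (a - κ * r) (a - κ * r) * (κ * r) ≤ P x (a - κ * r) * (κ * r) := by nlinarith only [hc]
    have h7 : (P a a - σ * (κ * r) - η * (κ * r)) * t ≤
        P (a - κ * r) (a - κ * r) * t := mul_le_mul_of_nonneg_right hw0 ht0
    have h8 : (P a a - η * r) * (κ * r - t) ≤ P a (a - κ * r) * (κ * r - t) :=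
      mul_le_mul_of_nonneg_right h2 (by linarith only [hw, hwx, ht])
    have h9 : (P a a - σ * t - η * (κ + 1) * r) * (κ * r) ≤ P x (a - κ * r) * (κ * r) := by
      have h10 : η * (κ * r) * t ≤ η * (κ * r) * (κ * r) :=
        mul_le_mul_of_nonneg_left htk (by positivity)
      have h11 : 0 ≤ η * r * t := by positivity
      nlinarith only [hc, h7, h8, h10, h11]
    exact le_of_mul_le_mul_right h9 hκr
  have e3 : σ * (x - a) = -(σ * t) := by rw [ht]; ring
  rw [e3, abs_le]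
  have h12 : 0 ≤ η * r := by positivity
  constructor
  · linarith only [hx1, hlow]
  · rw [← ht] at hup
    nlinarith only [hx2, hup, h12]

/-- A static coordinate has a natural number as slope. -/
theorem Loc.int (H : Loc P a δ₀ σ) {κ : ℝ} (hκ : 0 < κ)
    (h : ∀ η : ℝ, 0 < η → ∃ r : ℝ, 0 < r ∧ r < η ∧ P a a - η * r ≤ P a (a - κ * r)) :
    ∃ d : ℕ, σ = d := by
  by_contra hcon
  push Not at hcon
  have hσ := H.sig_nonneg
  obtain ⟨k, hk⟩ : ∃ k : ℕ, k = ⌊σ⌋₊ := ⟨_, rfl⟩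
  have hk1 : (k : ℝ) < σ := lt_of_le_of_ne (by rw [hk]; exact Nat.floor_le hσ)
    (Ne.symm (hcon k))
  have hk2 : σ < k + 1 := by rw [hk]; exact Nat.lt_floor_add_one σ
  obtain ⟨s, hs⟩ : ∃ s, s = σ - k := ⟨_, rfl⟩
  have hs0 : 0 < s := by linarith only [hk1, hs]
  have hs1 : s < 1 := by linarith only [hk2, hs]
  obtain ⟨c, hc⟩ : ∃ c, c = s * κ / 2 := ⟨_, rfl⟩
  have hc0 : 0 < c := by rw [hc]; positivity
  have hcκ : c ≤ κ := by rw [hc]; nlinarith only [hκ, hk1, hk2, hs]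
  obtain ⟨η, hη0, hη1, hη2⟩ : ∃ η : ℝ, 0 < η ∧ η * (1 + κ) < s * κ / 2 ∧
      2 * η * κ < (1 - s) * c := by
    refine ⟨min (s * κ / 2 / (1 + κ) / 2) ((1 - s) * c / κ / 4), ?_, ?_, ?_⟩
    · have : 0 < 1 - s := by linarith only [hk2, hs]
      positivity
    · have h1 : min (s * κ / 2 / (1 + κ) / 2) ((1 - s) * c / κ / 4) * (1 + κ) ≤
          s * κ / 2 / (1 + κ) / 2 * (1 + κ) :=
        mul_le_mul_of_nonneg_right (min_le_left _ _) (by positivity)
      refine h1.trans_lt ?_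
      have e : s * κ / 2 / (1 + κ) / 2 * (1 + κ) = s * κ / 4 := by
        field_simp
        ring
      rw [e]
      nlinarith only [hc, hc0, mul_pos hs0 hκ]
    · have h1 : min (s * κ / 2 / (1 + κ) / 2) ((1 - s) * c / κ / 4) * (2 * κ) ≤
          (1 - s) * c / κ / 4 * (2 * κ) :=
        mul_le_mul_of_nonneg_right (min_le_right _ _) (by positivity)
      have e : (1 - s) * c / κ / 4 * (2 * κ) = (1 - s) * c / 2 := by
        field_simp
        ring
      rw [e] at h1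
      have h2 : 0 < (1 - s) * c := mul_pos (by linarith only [hk2, hs]) hc0
      linarith only [h1, h2]
  obtain ⟨ρ, hρ, h1⟩ := H.dg hη0
  have hm : 0 < min η (min ρ δ₀ / κ) := by have := H.pos; positivity
  obtain ⟨r, hr0, hr1, hr2⟩ := h (min η (min ρ δ₀ / κ)) hm
  have hκr : 0 < κ * r := mul_pos hκ hr0
  have hr3 : r ≤ min ρ δ₀ / κ := hr1.le.trans (min_le_right _ _)
  rw [le_div_iff₀ hκ] at hr3
  have h4 : κ * r ≤ ρ := by linarith only [hr3, min_le_left ρ δ₀]
  have h5 : κ * r ≤ δ₀ := by linarith only [hr3, min_le_right ρ δ₀]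
  have hlo := H.lo
  have hhi := H.hi
  have hpos := H.pos
  have hr4 : P a a - η * r ≤ P a (a - κ * r) := by
    have : min η (min ρ δ₀ / κ) * r ≤ η * r :=
      mul_le_mul_of_nonneg_right (min_le_left _ _) hr0.le
    linarith only [hr2, this]
  obtain ⟨w, hw⟩ : ∃ w, w = a - κ * r := ⟨_, rfl⟩
  have hww := h1 (κ * r) hκr h4 w (by linarith only [hw]) (by linarith only [hκr, hw])
  have e1 : a - w = κ * r := by rw [hw]; ring
  rw [e1] at hww
  rw [← hw] at hr4
  have e2 : w + κ * r = a := by rw [hw]; ring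
  have hgain : (σ * κ - η * (1 + κ)) * r ≤ P a w - P w w := by nlinarith only [hr4, hww, hww.2]
  have hsl := slope_prop (H.mono (w := w) (by linarith only [h5, hw])) (H.pth w (by linarith only [h5, hw]) (by linarith only [hκr, hw]))
    (a := w) (v := κ * r) (k := k) le_rfl hκr.le (by linarith only [hκr, h5, hw]) (by
      simp only [e2]
      have : (k : ℝ) * (κ * r) < (σ * κ - η * (1 + κ)) * r := by
        have h6 : (k : ℝ) * κ < σ * κ - η * (1 + κ) := by
          have : s * κ = σ * κ - k * κ := by rw [hs]; ring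
          nlinarith only [hc, hc0, hη1, this, mul_pos hs0 hκ]
        nlinarith only [hs, hκr, hc, hr0, hc0, hη1]
      linarith only [hr4, hww, this]) (u := c * r) (by positivity) (by nlinarith only [hk1, hκr, hk2, hs, hc, hr0]) (by
      simp only [e2]
      have : c * r ≤ (σ * κ - η * (1 + κ)) * r - k * (κ * r) := by
        have h6 : c ≤ σ * κ - η * (1 + κ) - k * κ := by
          have : s * κ = σ * κ - k * κ := by rw [hs]; ring
          rw [hc]
          linarith only [hη1, this]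
        nlinarith only [hk1, hk2, hs, hκr, hc, hr0, hη1]
      linarith only [hr4, hww, this])
  have hcr : c * r ≤ κ * r := mul_le_mul_of_nonneg_right hcκ hr0.le
  have hup := (h1 (κ * r) hκr h4 (w + c * r) (by nlinarith only [hw, hk1, hκr, hk2, hs, hc, hr0]) (by linarith only [hw, hcr])).2
  have hx2 : P (w + c * r) w ≤ P (w + c * r) (w + c * r) :=
    H.law.mono_w (w + c * r) w (w + c * r) (by linarith only [h5, hlo, hw]) (by nlinarith only [hk1, hκr, hk2, hs, hc, hr0]) le_rfl (by linarith only [hκr, h5, hhi, hw, hcr])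
  have e3 : a - (w + c * r) = κ * r - c * r := by rw [hw]; ring
  rw [e3] at hup
  have hfin : ((k : ℝ) + 1) * (c * r) ≤ σ * (c * r) + 2 * η * κ * r := by
    nlinarith only [hww, hsl, hup, hx2, hww.1]
  have : ((1 - s) * c) * r ≤ (2 * η * κ) * r := by
    have e4 : (1 - s) * c = (k + 1) * c - σ * c := by rw [hs]; ring
    rw [e4]
    nlinarith only [hww, hsl, hup, hx2]
  have := le_of_mul_le_mul_right this hr0
  linarith only [hη2, this]

/-- The window-free condition at a slightly larger radius gives it at the radius `a`. -/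
theorem Loc.wf (H : Loc P a δ₀ σ) : ∃ ρ : ℝ, 0 < ρ ∧ ∀ q ε, 0 < q → q ≤ ρ → 0 < ε → ε ≤ 1 →
    P a a ≤ P (a + ε * q) (a - q) → P a a - ε * (σ + 1) * q ≤ P a (a - q) := by
  obtain ⟨ρ, hρ, h1⟩ := H.dg (η := 1) one_pos
  refine ⟨min ρ δ₀, lt_min hρ H.pos, fun q ε hq hqρ hε hε1 h2 => ?_⟩
  have hqd : q ≤ δ₀ := hqρ.trans (min_le_right _ _)
  have hlo := H.lo
  have hhi := H.hi
  have hw0 := (h1 q hq (hqρ.trans (min_le_left _ _)) (a - q) le_rfl (by linarith)).1
  have e1 : a - (a - q) = q := by ring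
  rw [e1] at hw0
  have hεq : 0 < ε * q := mul_pos hε hq
  have hεq' : ε * q ≤ q := by nlinarith only [hq, hε1]
  have hc := H.conc (w := a - q) (x := a - q) (y := a) (z := a + ε * q) (by linarith)
    (by linarith) le_rfl (by linarith) (by linarith) (by linarith)
  have e2 : a + ε * q - (a - q) = (1 + ε) * q := by ring
  rw [e1, e2] at hc
  have h3 : P a a - P (a - q) (a - q) ≤ (P a (a - q) - P (a - q) (a - q)) * (1 + ε) := by
    have h4 : (P a a - P (a - q) (a - q)) * q ≤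
        (P a (a - q) - P (a - q) (a - q)) * (1 + ε) * q := by nlinarith only [hc, hq, h2]
    exact le_of_mul_le_mul_right h4 hq
  have h5 : P a a - P (a - q) (a - q) ≤ (σ + 1) * q := by linarith only [hw0]
  have h6 : P (a - q) (a - q) ≤ P a (a - q) :=
    H.law.mono_a (a - q) a (a - q) (by linarith only [hqd, hlo]) le_rfl (by linarith) (by linarith)
  have h7 : P a (a - q) ≤ P a a :=
    H.law.mono_w a (a - q) a (by linarith) (by linarith) le_rfl (by linarith)
  nlinarith only [h3, hε, hw0, h7]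

/-- The level is Lipschitz in the radius at a fixed window. -/
theorem Loc.lip (H : Loc P a δ₀ σ) {e : ℝ} (he : 0 < e) (he1 : e ≤ 1) : ∃ ρ : ℝ, 0 < ρ ∧
    ∀ r γ, 0 < r → r ≤ ρ → 0 < γ → γ ≤ e / 2 →
      P a (a - e * r) - (σ + 1) * (γ * r) ≤ P (a - γ * r) (a - e * r) := by
  obtain ⟨ρ, hρ, h1⟩ := H.dg (η := e / 4) (by positivity)
  refine ⟨min ρ δ₀, lt_min hρ H.pos, fun r γ hr hrρ hγ hγe => ?_⟩
  have hrd : r ≤ δ₀ := hrρ.trans (min_le_right _ _)
  have hlo := H.lo
  have hhi := H.hi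
  have her : e * r ≤ r := by nlinarith only [he1, hr]
  have hγr : 0 < γ * r := mul_pos hγ hr
  have hγr' : γ * r ≤ e / 2 * r := mul_le_mul_of_nonneg_right hγe hr.le
  have her0 : 0 < e * r := mul_pos he hr
  have hw := (h1 r hr (hrρ.trans (min_le_left _ _)) (a - e * r) (by linarith only [her]) (by linarith only [hγr, hγr'])).1
  have hx := (h1 r hr (hrρ.trans (min_le_left _ _)) (a - γ * r) (by linarith only [her, hγr, hγr']) (by linarith only [hγr])).2
  have e1 : a - (a - e * r) = e * r := by ring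
  have e2 : a - (a - γ * r) = γ * r := by ring
  rw [e1] at hw
  rw [e2] at hx
  have hc := H.conc (w := a - e * r) (x := a - e * r) (y := a - γ * r) (z := a) (by linarith only [hrd, her])
    (by linarith only [hγr, hγr']) le_rfl (by linarith only [hγr, hγr']) (by linarith only [hγr]) (by linarith only [hrd, her, hγr, hγr', H.pos])
  have e3 : a - γ * r - (a - e * r) = e * r - γ * r := by ring
  rw [e1, e3] at hc
  have h6 : P (a - γ * r) (a - e * r) ≤ P (a - γ * r) (a - γ * r) :=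
    H.law.mono_w (a - γ * r) (a - e * r) (a - γ * r) (by linarith only [hrd, hlo, her]) (by linarith only [hγr, hγr']) le_rfl
      (by linarith only [hrd, hhi, her, hγr, hγr'])
  -- `(P a - P x) (x - w) ≤ (P x - P w) (a - x)`
  obtain ⟨A, hA⟩ : ∃ A, A = P a (a - e * r) := ⟨_, rfl⟩
  obtain ⟨B, hB⟩ : ∃ B, B = P (a - γ * r) (a - e * r) := ⟨_, rfl⟩
  obtain ⟨W, hW⟩ : ∃ W, W = P (a - e * r) (a - e * r) := ⟨_, rfl⟩
  rw [← hA, ← hB]
  rw [← hA, ← hB, ← hW] at hc
  rw [← hB] at h6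
  rw [← hW] at hw
  have hσ := H.sig_nonneg
  have h7 : B - W ≤ (σ + 1) * (e * r - γ * r) := by
    have h8 : e / 4 * r * 2 ≤ e * r - γ * r := by linarith only [hγr']
    nlinarith only [hγr', hx, h6, hw]
  have h9 : (A - B) * (e * r - γ * r) ≤ (B - W) * (γ * r) := by nlinarith only [hc]
  have h10 : (A - B) * (e * r - γ * r) ≤ ((σ + 1) * (γ * r)) * (e * r - γ * r) := by
    have := mul_le_mul_of_nonneg_right h7 hγr.le
    nlinarith only [hc, this]
  have h11 : 0 < e * r - γ * r := by linarith only [hγr, hγr']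
  have := le_of_mul_le_mul_right h10 h11
  linarith only [this]


/-! ### Sequences of scales -/

section
variable {U : Filter ℕ} {r : ℕ → ℝ}

theorem ev_le (hr : Tendsto r U (𝓝 0)) {ρ : ℝ} (hρ : 0 < ρ) : ∀ᶠ t in U, r t ≤ ρ :=
  ((tendsto_order.1 hr).2 ρ hρ).mono fun _ h => h.le

/-- The drop at the scale `r t`, on the windows which are longer by `e r t`. -/
noncomputable def dr (P : ℝ → ℝ → ℝ) (a e : ℝ) (r : ℕ → ℝ) (t : ℕ) : ℝ :=
  (P a a - P a (a - e * r t)) / r t

theorem Loc.ev_stat (H : Loc P a δ₀ σ) (hpos : ∀ t, 0 < r t) (hr : Tendsto r U (𝓝 0)) {κ : ℝ}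
    (hκ : 0 < κ) (h : Tendsto (dr P a κ r) U (𝓝 0)) {ε : ℝ} (hε : 0 < ε) :
    ∀ᶠ t in U, ∀ x w', a - κ * r t ≤ w' → w' ≤ x → x ≤ a →
      |P x w' - P a a - σ * (x - a)| ≤ ε * r t := by
  have hη : 0 < ε / (κ + 1) := by positivity
  obtain ⟨ρ, hρ, h1⟩ := H.tri hκ hη
  filter_upwards [ev_le hr hρ, (tendsto_order.1 h).2 _ hη] with t ht1 ht2
  have h2 := h1 (r t) (hpos t) ht1 (by
    unfold dr at ht2
    rw [div_lt_iff₀ (hpos t)] at ht2
    linarith only [ht2])
  intro x w' hw hx hxa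
  have h3 := h2 x w' hw hx hxa
  have e : ε / (κ + 1) * (κ + 1) = ε := div_mul_cancel₀ _ (by positivity)
  rwa [e] at h3

theorem Loc.ev_diag (H : Loc P a δ₀ σ) (hpos : ∀ t, 0 < r t) (hr : Tendsto r U (𝓝 0)) {κ : ℝ}
    (hκ : 0 < κ) (hκ1 : κ ≤ 1) {ε : ℝ} (hε : 0 < ε) :
    ∀ᶠ t in U, ∀ x, a - κ * r t ≤ x → x ≤ a →
      P a a - P x x ≤ σ * (a - x) + ε * r t := by
  obtain ⟨ρ, hρ, h1⟩ := H.dg hε
  filter_upwards [ev_le hr hρ] with t ht x hx hxa
  have h2 := (h1 (r t) (hpos t) ht x (by nlinarith only [hx, hκ, hκ1, hxa, hpos t]) hxa).1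
  linarith only [h2]

theorem Loc.ev_dyn (H : Loc P a δ₀ σ) (hpos : ∀ t, 0 < r t) (hr : Tendsto r U (𝓝 0))
    {e e' γ D D' : ℝ} (he : 0 < e') (hee : e' < e) (he1 : e ≤ 1) (hγ : 0 < γ)
    (hγe : γ ≤ e' / 2) (hD : Tendsto (dr P a e r) U (𝓝 D)) (hD' : Tendsto (dr P a e' r) U (𝓝 D'))
    (hDD : D' + (σ + 2) * γ < D) :
    ∀ᶠ t in U, ∀ x, a - γ * r t ≤ x → x ≤ a →
      P x (a - e * r t) + γ * r t ≤ P x (a - e' * r t) := by
  obtain ⟨ρ, hρ, h1⟩ := H.lip he (by linarith only [hee, he1])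
  have h2 : ∀ᶠ t in U, dr P a e' r t + (σ + 2) * γ < dr P a e r t := by
    have h3 : Tendsto (fun t => dr P a e r t - dr P a e' r t) U (𝓝 (D - D')) := hD.sub hD'
    filter_upwards [(tendsto_order.1 h3).1 ((σ + 2) * γ) (by linarith only [hDD])] with t ht
    linarith only [ht]
  filter_upwards [ev_le hr hρ, ev_le hr H.pos, h2] with t ht htd ht2 x hx hxa
  have hrt := hpos t
  have hlo := H.lo
  have hhi := H.hi
  have her : e * r t ≤ r t := by nlinarith only [he1, hrt]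
  have he're : e' * r t < e * r t := mul_lt_mul_of_pos_right hee hrt
  have hγr : γ * r t ≤ e' / 2 * r t := mul_le_mul_of_nonneg_right hγe hrt.le
  have hγ0 : 0 < γ * r t := mul_pos hγ hrt
  have he0 : 0 < e' * r t := mul_pos he hrt
  have h3 := h1 (r t) γ hrt ht hγ hγe
  have h4 : P (a - γ * r t) (a - e' * r t) ≤ P x (a - e' * r t) :=
    H.law.mono_a (a - γ * r t) x (a - e' * r t) (by linarith only [htd, hlo, her, he're]) (by linarith only [hγr, hγ0]) hx (by linarith only [htd, hxa, hhi, her, he're, hγr, hγ0])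
  have h5 : P x (a - e * r t) ≤ P a (a - e * r t) :=
    H.law.mono_a x a (a - e * r t) (by linarith only [htd, hlo, her]) (by linarith only [hx, he're, hγr, hγ0]) hxa (by linarith only [htd, hhi, her, he're, hγr, hγ0])
  unfold dr at ht2
  have h6 : (P a a - P a (a - e' * r t)) + (σ + 2) * γ * r t < P a a - P a (a - e * r t) := by
    have h7 := mul_lt_mul_of_pos_right ht2 hrt
    rw [add_mul, div_mul_cancel₀ _ hrt.ne', div_mul_cancel₀ _ hrt.ne'] at h7
    linarith only [h7]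
  nlinarith only [h3, h4, h5, h6]

end

/-- Limits along an ultrafilter. -/
theorem ulim' (U : Ultrafilter ℕ) (x : ℕ → ℝ) (b c : ℝ) (h : ∀ᶠ t in (U : Filter ℕ), x t ∈ Icc b c) :
    ∃ y ∈ Icc b c, Tendsto x U (𝓝 y) := by
  have hc : IsCompact (Icc b c) := isCompact_Icc
  have h1 : (U.map x : Filter ℝ) ≤ 𝓟 (Icc b c) := by
    rw [le_principal_iff]
    exact h
  exact hc.ultrafilter_le_nhds (U.map x) h1

/-- The drops at the scale `r t` are bounded. -/
theorem Loc.ev_dr (H : Loc P a δ₀ σ) {U : Filter ℕ} {r : ℕ → ℝ} (hpos : ∀ t, 0 < r t)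
    (hr : Tendsto r U (𝓝 0)) {e : ℝ} (he : 0 < e) :
    ∀ᶠ t in U, dr P a e r t ∈ Icc 0 ((σ + 1) * e) := by
  obtain ⟨ρ, hρ, hρδ, h1⟩ := H.drop
  have hpe : 0 < ρ / e := div_pos hρ he
  filter_upwards [ev_le hr hpe] with t ht
  have hrt := hpos t
  have her : 0 < e * r t := mul_pos he hrt
  have h2 : e * r t ≤ ρ := by
    rw [le_div_iff₀ he] at ht
    linarith
  have h3 := h1 (e * r t) her h2
  have h4 : P a (a - e * r t) ≤ P a a :=
    H.law.mono_w a (a - e * r t) a (by linarith only [hρδ, h2, H, H.lo]) (by linarith) le_rfl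
      (by linarith [H.hi, H.pos])
  unfold dr
  constructor
  · exact div_nonneg (by linarith) hrt.le
  · rw [div_le_iff₀ hrt]
    linarith only [h3]

end Prof

open Prof

/-- **The profile of the levels.** -/
theorem profile {n : ℕ} {L : ℕ → ℝ → ℝ → ℝ} {a δ₀ : ℝ} {σ : ℕ → ℝ}
    (hL : ∀ i ≤ n, Loc (L i) a δ₀ (σ i))
    (hwf : ∀ ε : ℝ, 0 < ε → ∀ q₁ : ℝ, 0 < q₁ → ∃ q : ℝ, 0 < q ∧ q < q₁ ∧
      L n a a ≤ L n (a + ε * q) (a - q)) :
    ∃ (S : Finset ℕ) (d : ℕ → ℕ), S ⊆ Finset.range n ∧ (∀ i, i ∈ S ∨ i = n → σ i = d i) ∧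
      (∀ i < n, σ i ≤ d i) ∧ (∀ i ≤ n, L i a a < 1 → 1 ≤ d i) ∧
      ∃ m : ℕ → ℕ, 1 ≤ m 0 ∧ (∀ j, m j < m (j + 1)) ∧ ∀ R : ℕ, ∃ g₀ : ℕ, m R < g₀ ∧
        ∀ g ≥ g₀, ∀ ε : ℝ, 0 < ε → ∀ r₁ : ℝ, 0 < r₁ → ∃ r : ℝ, 0 < r ∧ r < r₁ ∧
          Cell L n S d R (fun j => 1 / 2 ^ m j) (1 / 2 ^ g) a r ε := by
  classical
  -- the scales
  have hstep : ∀ t : ℕ, ∃ q : ℝ, 0 < q ∧ q < 1 / ((t : ℝ) + 1) ∧
      L n a a ≤ L n (a + 1 / ((t : ℝ) + 1) * q) (a - q) := fun t =>
    hwf _ (by positivity) _ (by positivity)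
  choose r hr0 hr1 hr2 using hstep
  obtain ⟨U, hU⟩ : ∃ U : Ultrafilter ℕ, U = hyperfilter ℕ := ⟨_, rfl⟩
  have hUt : (U : Filter ℕ) ≤ atTop := by
    rw [hU]
    exact Nat.hyperfilter_le_atTop
  have hlim1 : Tendsto (fun t : ℕ => 1 / ((t : ℝ) + 1)) U (𝓝 0) :=
    tendsto_one_div_add_atTop_nhds_zero_nat.mono_left hUt
  have hr : Tendsto r U (𝓝 0) :=
    squeeze_zero (fun t => (hr0 t).le) (fun t => (hr1 t).le) hlim1
  -- the drops
  have hD : ∀ i : ℕ, ∀ m : ℕ, ∃ y : ℝ, i ≤ n → (y ∈ Icc 0 ((σ i + 1) * (1 / 2 ^ m)) ∧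
      Tendsto (dr (L i) a (1 / 2 ^ m) r) U (𝓝 y)) := by
    intro i m
    by_cases hi : i ≤ n
    · obtain ⟨y, hy1, hy2⟩ := ulim' U _ _ _ ((hL i hi).ev_dr hr0 hr (e := 1 / 2 ^ m)
        (by positivity))
      exact ⟨y, fun _ => ⟨hy1, hy2⟩⟩
    · exact ⟨0, fun h => absurd h hi⟩
  choose D hD using hD
  -- the drops decrease
  have hDm : ∀ i ≤ n, ∀ m m', m ≤ m' → D i m' ≤ D i m := by
    intro i hi m m' hm
    have H := hL i hi
    refine le_of_tendsto_of_tendsto (hD i m' hi).2 (hD i m hi).2 ?_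
    filter_upwards [ev_le hr H.pos] with t ht
    have hrt := hr0 t
    have h1 : (1 : ℝ) / 2 ^ m' ≤ 1 / 2 ^ m :=
      one_div_le_one_div_of_le (by positivity) (pow_le_pow_right₀ (by norm_num) hm)
    have h2 : (1 : ℝ) / 2 ^ m ≤ 1 := by
      rw [div_le_one (by positivity)]
      exact one_le_pow₀ (by norm_num)
    have h3 : 1 / 2 ^ m' * r t ≤ 1 / 2 ^ m * r t := mul_le_mul_of_nonneg_right h1 hrt.le
    have h4 : 1 / 2 ^ m * r t ≤ r t := by nlinarith only [hrt, h2]
    have h5 : 0 < 1 / 2 ^ m' * r t := by positivity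
    have h6 := H.law.mono_w a (a - 1 / 2 ^ m * r t) (a - 1 / 2 ^ m' * r t)
      (by linarith only [ht, h4, H, H.lo]) (by linarith only [h3]) (by linarith only [h5]) (by linarith only [ht, hrt, H, H.hi, H.pos])
    unfold dr
    exact div_le_div_of_nonneg_right (by linarith only [h6]) hrt.le
  -- the top coordinate
  have hDn : D n 0 = 0 := by
    have H := hL n le_rfl
    have h1 := hD n 0 le_rfl
    refine tendsto_nhds_unique h1.2 ?_
    obtain ⟨ρ, hρ, h2⟩ := H.wf
    have h3 : ∀ᶠ t in (U : Filter ℕ), dr (L n) a (1 / 2 ^ 0) r t ≤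
        (1 / ((t : ℝ) + 1)) * (σ n + 1) := by
      filter_upwards [ev_le hr hρ] with t ht
      have hrt := hr0 t
      have h4 := h2 (r t) (1 / ((t : ℝ) + 1)) hrt ht (by positivity) (by
        rw [div_le_one (by positivity)]
        have : (0 : ℝ) ≤ t := Nat.cast_nonneg t
        linarith only) (hr2 t)
      unfold dr
      rw [pow_zero, div_one, one_mul, div_le_iff₀ hrt]
      linarith only [h4]
    have h5 : ∀ᶠ t in (U : Filter ℕ), 0 ≤ dr (L n) a (1 / 2 ^ 0) r t :=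
      (H.ev_dr hr0 hr (e := 1 / 2 ^ 0) (by positivity)).mono fun t ht => ht.1
    have h6 : Tendsto (fun t : ℕ => (1 / ((t : ℝ) + 1)) * (σ n + 1)) U (𝓝 0) := by
      simpa using hlim1.mul_const (σ n + 1)
    exact squeeze_zero' h5 h3 h6
  -- the static coordinates
  obtain ⟨S, hS⟩ : ∃ S : Finset ℕ, S = (Finset.range n).filter fun i => ∃ m, D i m = 0 :=
    ⟨_, rfl⟩
  have hSn : ∀ i, i ∈ S → i < n := fun i hi => by
    rw [hS, Finset.mem_filter, Finset.mem_range] at hi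
    exact hi.1
  have hzero : ∀ i ≤ n, ∀ m m', m ≤ m' → D i m = 0 → D i m' = 0 := by
    intro i hi m m' hm h0
    exact le_antisymm (h0 ▸ hDm i hi m m' hm) (hD i m' hi).1.1
  obtain ⟨m₀, hm₀, hm₀S⟩ : ∃ m₀ : ℕ, 1 ≤ m₀ ∧ ∀ i, (i ∈ S ∨ i = n) → D i m₀ = 0 := by
    have h1 : ∀ i : ℕ, ∃ m : ℕ, i ∈ S → D i m = 0 := by
      intro i
      by_cases hi : i ∈ S
      · rw [hS, Finset.mem_filter] at hi
        obtain ⟨m, hm⟩ := hi.2
        exact ⟨m, fun _ => hm⟩
      · exact ⟨0, fun h => absurd h hi⟩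
    choose f hf using h1
    refine ⟨S.sup f + 1, by omega, ?_⟩
    rintro i (hi | rfl)
    · exact hzero i (hSn i hi).le (f i) _ ((Finset.le_sup hi).trans (Nat.le_succ _)) (hf i hi)
    · exact hzero i le_rfl 0 _ (Nat.zero_le _) hDn
  have hposD : ∀ i < n, i ∉ S → ∀ m, 0 < D i m := by
    intro i hi hiS m
    refine lt_of_le_of_ne (hD i m hi.le).1.1 fun h => hiS ?_
    rw [hS, Finset.mem_filter, Finset.mem_range]
    exact ⟨hi, m, h.symm⟩
  have htend : ∀ A : ℝ, Tendsto (fun m : ℕ => A * (1 / 2 ^ m)) atTop (𝓝 0) := by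
    intro A
    have h1 : Tendsto (fun m : ℕ => ((1 : ℝ) / 2) ^ m) atTop (𝓝 0) :=
      tendsto_pow_atTop_nhds_zero_of_lt_one (by norm_num) (by norm_num)
    have h2 := h1.const_mul A
    rw [mul_zero] at h2
    refine h2.congr fun m => ?_
    rw [one_div_pow]
  -- the next offset
  have hnext : ∀ m : ℕ, ∃ m' : ℕ, m < m' ∧ ∀ i < n, i ∉ S → D i m' ≤ D i m / 2 := by
    intro m
    have h1 : ∀ᶠ m' in (atTop : Filter ℕ), ∀ i ∈ Finset.range n, i ∉ S →
        (σ i + 1) * (1 / 2 ^ m') < D i m / 2 := by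
      rw [Filter.eventually_all_finset]
      intro i hi
      by_cases hiS : i ∈ S
      · exact Filter.Eventually.of_forall fun _ h => absurd hiS h
      · filter_upwards [(tendsto_order.1 (htend (σ i + 1))).2 _
          (half_pos (hposD i (Finset.mem_range.1 hi) hiS m))] with m' hm' _
        exact hm'
    obtain ⟨m', h2, h3⟩ := (h1.and (eventually_gt_atTop m)).exists
    exact ⟨m', h3, fun i hi hiS =>
      (hD i m' hi.le).1.2.trans (h2 i (Finset.mem_range.2 hi) hiS).le⟩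
  choose nx hnx1 hnx2 using hnext
  obtain ⟨m, hm⟩ : ∃ m : ℕ → ℕ, m = fun j => nx^[j] m₀ := ⟨_, rfl⟩
  have hm0 : m 0 = m₀ := by rw [hm]; rfl
  have hms : ∀ j, m (j + 1) = nx (m j) := by
    intro j
    rw [hm]
    exact Function.iterate_succ_apply' nx j m₀
  have hmlt : ∀ j, m j < m (j + 1) := fun j => by rw [hms]; exact hnx1 _
  have hmmono : StrictMono m := strictMono_nat_of_lt_succ hmlt
  -- the slopes
  have hint : ∀ i, (i ∈ S ∨ i = n) → ∃ d : ℕ, σ i = d := by
    intro i hi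
    have hin : i ≤ n := by
      rcases hi with h | h
      · exact (hSn i h).le
      · exact h.le
    refine (hL i hin).int (κ := 1 / 2 ^ m₀) (by positivity) fun η hη => ?_
    have h1 := (hD i m₀ hin).2
    rw [hm₀S i hi] at h1
    obtain ⟨t, h2, h3⟩ := (((tendsto_order.1 h1).2 η hη).and
      ((tendsto_order.1 hr).2 η hη)).exists
    refine ⟨r t, hr0 t, h3, ?_⟩
    unfold dr at h2
    rw [div_lt_iff₀ (hr0 t)] at h2
    linarith only [h2]
  obtain ⟨d, hd⟩ : ∃ d : ℕ → ℕ, d = fun i => ⌈σ i⌉₊ := ⟨_, rfl⟩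
  have hd1 : ∀ i, (i ∈ S ∨ i = n) → σ i = d i := by
    intro i hi
    obtain ⟨k, hk⟩ := hint i hi
    rw [hd]
    simp only [hk, Nat.ceil_natCast]
  have hd2 : ∀ i, σ i ≤ d i := fun i => by
    rw [hd]
    exact Nat.le_ceil _
  have hσ1 : ∀ i ≤ n, L i a a < 1 → 1 ≤ σ i := by
    intro i hi h1
    have H := hL i hi
    by_contra hc
    push Not at hc
    obtain ⟨ρ, hρ, h2⟩ := H.aff (η := (1 - σ i) / 2) (by linarith only [hc])
    obtain ⟨v, hv0, hv1, hv2, hv3⟩ : ∃ v : ℝ, 0 < v ∧ v ≤ ρ ∧ v ≤ δ₀ ∧ v < 1 - L i a a := by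
      refine ⟨min (min ρ δ₀) ((1 - L i a a) / 2), ?_, ?_, ?_, ?_⟩
      · have := H.pos
        have h3 : 0 < 1 - L i a a := by linarith only [h1]
        positivity
      · exact (min_le_left _ _).trans (min_le_left _ _)
      · exact (min_le_left _ _).trans (min_le_right _ _)
      · have : min (min ρ δ₀) ((1 - L i a a) / 2) ≤ (1 - L i a a) / 2 := min_le_right _ _
        linarith only [h1, this]
    have h3 := h2 (a - v) (by rw [sub_sub_cancel_left, abs_neg, abs_of_pos hv0]; exact hv1)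
    rw [sub_sub_cancel_left, abs_neg, abs_of_pos hv0] at h3
    have h4 := H.law.slope (a - v) (a - v) v (by linarith only [hv2, H, H.lo]) le_rfl hv0.le
      (by linarith only [hv0, hv2, H, H.hi, H.pos])
    rw [sub_add_cancel] at h4
    have h5 : L i a (a - v) ≤ L i a a :=
      H.law.mono_w a (a - v) a (by linarith only [hv2, H, H.lo]) (by linarith only [hv0]) le_rfl
        (by linarith only [hv0, hv2, H, H.hi, H.pos])
    have h6 := (abs_le.1 h3).1
    rcases min_le_iff.1 h4 with h7 | h7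
    · linarith only [hv0, hv3, h5, h7]
    · nlinarith only [h5, h6, h7, hc, hv0]
  refine ⟨S, d, ?_, hd1, fun i _ => hd2 i, ?_, m, by rw [hm0]; exact hm₀, hmlt, fun R => ?_⟩
  · rw [hS]
    exact Finset.filter_subset _ _
  · intro i hi h1
    have h2 := (hσ1 i hi h1).trans (hd2 i)
    exact_mod_cast h2
  -- the gap
  have hgap : ∀ᶠ g in (atTop : Filter ℕ), ∀ j ∈ Finset.range R, ∀ i ∈ Finset.range n, i ∉ S →
      (σ i + 2) * (1 / 2 ^ g) < D i (m j) / 2 := by
    rw [Filter.eventually_all_finset]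
    intro j _
    rw [Filter.eventually_all_finset]
    intro i hi
    by_cases hiS : i ∈ S
    · exact Filter.Eventually.of_forall fun _ h => absurd hiS h
    · filter_upwards [(tendsto_order.1 (htend (σ i + 2))).2 _
        (half_pos (hposD i (Finset.mem_range.1 hi) hiS (m j)))] with g hg _
      exact hg
  obtain ⟨g₀, hg₀⟩ := eventually_atTop.1 hgap
  refine ⟨max g₀ (m R + 1), by omega, fun g hg ε hε r₁ hr₁ => ?_⟩
  have hg1 : g₀ ≤ g := (le_max_left _ _).trans hg
  have hg2 : m R + 1 ≤ g := (le_max_right _ _).trans hg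
  have hk0 : (0 : ℝ) < 1 / 2 ^ m 0 := by positivity
  have hk1 : ∀ j, (1 : ℝ) / 2 ^ m j ≤ 1 := by
    intro j
    rw [div_le_one (by positivity)]
    exact one_le_pow₀ (by norm_num)
  have e1 : ∀ᶠ t in (U : Filter ℕ), ∀ i ∈ Finset.range (n + 1), (i ∈ S ∨ i = n) →
      ∀ a' w', a - 1 / 2 ^ m 0 * r t ≤ w' → w' ≤ a' → a' ≤ a →
        |L i a' w' - L i a a - σ i * (a' - a)| ≤ ε * r t := by
    rw [Filter.eventually_all_finset]
    intro i hi
    have hin : i ≤ n := by rw [Finset.mem_range] at hi; omega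
    by_cases hiS : i ∈ S ∨ i = n
    · have h1 := (hD i m₀ hin).2
      rw [hm₀S i hiS] at h1
      rw [hm0]
      filter_upwards [(hL i hin).ev_stat hr0 hr (κ := 1 / 2 ^ m₀) (by positivity) h1 hε]
        with t ht _
      exact ht
    · exact Filter.Eventually.of_forall fun _ h => absurd h hiS
  have e2 : ∀ᶠ t in (U : Filter ℕ), ∀ i ∈ Finset.range n, i ∉ S → ∀ j ∈ Finset.range R,
      ∀ a', a - 1 / 2 ^ g * r t ≤ a' → a' ≤ a →
        L i a' (a - 1 / 2 ^ m j * r t) + 1 / 2 ^ g * r t ≤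
          L i a' (a - 1 / 2 ^ m (j + 1) * r t) := by
    rw [Filter.eventually_all_finset]
    intro i hi
    have hin : i < n := Finset.mem_range.1 hi
    by_cases hiS : i ∈ S
    · exact Filter.Eventually.of_forall fun _ h => absurd hiS h
    · have h0 : ∀ᶠ t in (U : Filter ℕ), ∀ j ∈ Finset.range R,
          ∀ a', a - 1 / 2 ^ g * r t ≤ a' → a' ≤ a →
            L i a' (a - 1 / 2 ^ m j * r t) + 1 / 2 ^ g * r t ≤
              L i a' (a - 1 / 2 ^ m (j + 1) * r t) := by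
        rw [Filter.eventually_all_finset]
        intro j hj
        have hj' : j + 1 ≤ R := Finset.mem_range.1 hj
        have h1 : m (j + 1) + 1 ≤ g := by
          have := hmmono.monotone hj'
          omega
        have h2 : D i (m (j + 1)) ≤ D i (m j) / 2 := by
          rw [hms]
          exact hnx2 (m j) i hin hiS
        refine (hL i hin.le).ev_dyn hr0 hr (e := 1 / 2 ^ m j) (e' := 1 / 2 ^ m (j + 1))
          (γ := 1 / 2 ^ g) (by positivity) ?_ (hk1 j) (by positivity) ?_ (hD i (m j) hin.le).2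
          (hD i (m (j + 1)) hin.le).2 ?_
        · exact one_div_lt_one_div_of_lt (by positivity)
            (pow_lt_pow_right₀ (by norm_num) (hmlt j))
        · have h3 : (1 : ℝ) / 2 ^ g ≤ 1 / 2 ^ (m (j + 1) + 1) :=
            one_div_le_one_div_of_le (by positivity) (pow_le_pow_right₀ (by norm_num) h1)
          have h4 : (1 : ℝ) / 2 ^ (m (j + 1) + 1) = 1 / 2 ^ m (j + 1) / 2 := by
            rw [pow_succ]
            field_simp
          linarith only [h3, h4]
        · have h3 := hg₀ g hg1 j hj i hi hiS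
          linarith only [h2, h3]
      exact h0.mono fun t ht _ => ht
  have e3 : ∀ᶠ t in (U : Filter ℕ), ∀ i ∈ Finset.range n,
      ∀ a', a - 1 / 2 ^ m 0 * r t ≤ a' → a' ≤ a →
        L i a a - L i a' a' ≤ σ i * (a - a') + ε * r t := by
    rw [Filter.eventually_all_finset]
    intro i hi
    exact (hL i (Finset.mem_range.1 hi).le).ev_diag hr0 hr (by positivity) (hk1 0) hε
  obtain ⟨t, ht1, ht2, ht3, ht4⟩ :=
    (e1.and (e2.and (e3.and ((tendsto_order.1 hr).2 r₁ hr₁)))).exists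
  refine ⟨r t, hr0 t, ht4, ?_, ?_, ?_⟩
  · intro i hi a' w' h1 h2 h3
    have hin : i ∈ Finset.range (n + 1) := by
      rw [Finset.mem_range]
      rcases hi with h | h
      · exact (hSn i h).trans (Nat.lt_succ_self n)
      · omega
    have h4 := ht1 i hin hi a' w' h1 h2 h3
    rwa [hd1 i hi] at h4
  · intro i hi hiS j hj a' h1 h2
    exact ht2 i (Finset.mem_range.2 hi) hiS j (Finset.mem_range.2 hj) a' h1 h2
  · intro i hi hiS a' h1 h2
    have h4 := ht3 i (Finset.mem_range.2 hi) a' h1 h2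
    have h5 : σ i * (a - a') ≤ d i * (a - a') :=
      mul_le_mul_of_nonneg_right (hd2 i) (by linarith only [h2])
    linarith only [h4, h5]

end Pool.STAT
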