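import Pool.Agent.H75.STAT.CellM

/-!
# The profile of the levels: cells with a margin

`L i` (`i ≤ n`) are the thresholds of the coordinates, differentiable on the diagonal at the radius
`a`; the top coordinate is static in all small triangles near `a`. No concavity and no integrality
is used. At arbitrarily small scales `r` there are cells (`CellM`) whose top radius is near `a`.

Proof. The rescaled levels have a limit profile along an ultrafilter; a coordinate is static on an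
interval of radii if its limit level does not depend on the window there. A maximal set `S` of
coordinates is static on a common interval, and at a generic radius of this interval (Baire) the
other coordinates have a drop at every window.
-/

set_option autoImplicit false

namespace Pool.STAT

open Set Filter Topology Pool.LEV

namespace PrM

/-- A sequence of small positive scales is below any positive number. -/
theorem ev_le {U : Filter ℕ} {r : ℕ → ℝ} (hr : Tendsto r U (𝓝 0)) {ρ : ℝ} (hρ : 0 < ρ) :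
    ∀ᶠ t in U, r t ≤ ρ :=
  ((tendsto_order.1 hr).2 ρ hρ).mono fun _ h => h.le

/-- Limits along an ultrafilter. -/
theorem ulim' (U : Ultrafilter ℕ) (x : ℕ → ℝ) (b c : ℝ)
    (h : ∀ᶠ t in (U : Filter ℕ), x t ∈ Icc b c) :
    ∃ y ∈ Icc b c, Tendsto x U (𝓝 y) := by
  have hc : IsCompact (Icc b c) := isCompact_Icc
  have h1 : (U.map x : Filter ℝ) ≤ 𝓟 (Icc b c) := by
    rw [le_principal_iff]
    exact h
  exact hc.ultrafilter_le_nhds (U.map x) h1

/-! ### Monotone functions and grids -/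

section
variable {U : Filter ℕ} {F : ℕ → ℝ → ℝ} {f : ℝ → ℝ} {p q k ρ : ℝ}

theorem grid_pts (hpq : p ≤ q) {η : ℝ} (hη : 0 < η)
    (hlim : ∀ x, p ≤ x → x ≤ q → Tendsto (fun t => F t x) U (𝓝 (f x))) (N : ℕ) :
    ∀ᶠ t in U, ∀ j ≤ N, |F t (p + (q - p) * (j / N)) - f (p + (q - p) * (j / N))| ≤ η := by
  have h1 : ∀ᶠ t in U, ∀ j ∈ Finset.range (N + 1),
      |F t (p + (q - p) * (j / N)) - f (p + (q - p) * (j / N))| ≤ η := by
    rw [Filter.eventually_all_finset]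
    intro j hj
    have hj' : j ≤ N := Nat.lt_succ_iff.1 (Finset.mem_range.1 hj)
    have h0 : (0 : ℝ) ≤ (j : ℝ) / N := by positivity
    have h2 : (j : ℝ) / N ≤ 1 := by
      rcases Nat.eq_zero_or_pos N with h | h
      · subst h; simp
      · rw [div_le_one (by exact_mod_cast h)]
        exact_mod_cast hj'
    have h3 := hlim (p + (q - p) * (j / N)) (by nlinarith only [hpq, h0]) (by nlinarith only [hpq, h2])
    have h4 := Metric.tendsto_nhds.1 h3 η hη
    filter_upwards [h4] with t ht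
    rw [Real.dist_eq] at ht
    exact ht.le
  exact h1.mono fun t ht j hj => ht j (Finset.mem_range.2 (Nat.lt_succ_of_le hj))

theorem grid_idx (hpq : p < q) {N : ℕ} (hN : 0 < N) {x : ℝ} (hx : p ≤ x) (hxq : x ≤ q) :
    ∃ j : ℕ, j + 1 ≤ N ∧ p + (q - p) * (j / N) ≤ x ∧
      x ≤ p + (q - p) * (((j + 1 : ℕ) : ℝ) / N) := by
  have hN' : (0 : ℝ) < N := by exact_mod_cast hN
  have hqp : 0 < q - p := by linarith only [hpq]
  obtain ⟨y, hy⟩ : ∃ y, y = (x - p) / (q - p) * N := ⟨_, rfl⟩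
  have hy0 : 0 ≤ y := by rw [hy]; have : 0 ≤ x - p := by linarith only [hx]
                         positivity
  have hyN : y ≤ N := by
    rw [hy]
    have : (x - p) / (q - p) ≤ 1 := by rw [div_le_one hqp]; linarith only [hxq]
    nlinarith only [this]
  have hxy : x = p + (q - p) * (y / N) := by
    rw [hy]
    field_simp
    ring
  have key : ∀ c : ℝ, (y ≤ c ↔ x ≤ p + (q - p) * (c / N)) ∧
      (c ≤ y ↔ p + (q - p) * (c / N) ≤ x) := by
    intro c
    rw [hxy]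
    constructor
    · rw [add_le_add_iff_left, mul_le_mul_iff_right₀ hqp, div_le_div_iff_of_pos_right hN']
    · rw [add_le_add_iff_left, mul_le_mul_iff_right₀ hqp, div_le_div_iff_of_pos_right hN']
  by_cases hcase : ⌊y⌋₊ + 1 ≤ N
  · refine ⟨⌊y⌋₊, hcase, (key _).2.1 (Nat.floor_le hy0), (key _).1.1 ?_⟩
    push_cast
    exact (Nat.lt_floor_add_one y).le
  · have h1 : N ≤ ⌊y⌋₊ := by omega
    have h2 : (N : ℝ) ≤ y := (Nat.cast_le.2 h1).trans (Nat.floor_le hy0)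
    refine ⟨N - 1, by omega, (key _).2.1 ?_, (key _).1.1 ?_⟩
    · rw [Nat.cast_sub hN]
      push_cast
      linarith only [h2]
    · rw [Nat.sub_add_cancel hN]
      exact hyN

theorem grid_lo (hpq : p ≤ q) (hk : 0 ≤ k)
    (hF : ∀ᶠ t in U, ∀ x y, p ≤ x → x ≤ y → y ≤ q → F t x ≤ F t y)
    (hlim : ∀ x, p ≤ x → x ≤ q → Tendsto (fun t => F t x) U (𝓝 (f x)))
    (h : ∀ x, p ≤ x → x ≤ q → k * x - f x ≤ ρ) {η : ℝ} (hη : 0 < η) :
    ∀ᶠ t in U, ∀ x, p ≤ x → x ≤ q → k * x - F t x ≤ ρ + η := by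
  rcases eq_or_lt_of_le hpq with hpq' | hpq'
  · have h1 := Metric.tendsto_nhds.1 (hlim p le_rfl hpq) η hη
    filter_upwards [h1] with t ht x hx hxq
    have : x = p := by linarith only [hx, hpq', hxq]
    subst this
    rw [Real.dist_eq] at ht
    have := (abs_lt.1 ht).1
    linarith [h x le_rfl hxq]
  obtain ⟨N, hN⟩ := exists_nat_gt (k * (q - p) / (η / 2))
  have hkq : 0 ≤ k * (q - p) := mul_nonneg hk (by linarith only [hpq'])
  have hN0 : (0 : ℝ) < N := lt_of_le_of_lt (by positivity) hN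
  have hN1 : 0 < N := by exact_mod_cast hN0
  rw [div_lt_iff₀ (by positivity)] at hN
  filter_upwards [hF, grid_pts hpq (half_pos hη) hlim N] with t ht1 ht2 x hx hxq
  obtain ⟨j, hj, hj1, hj2⟩ := grid_idx hpq' hN1 hx hxq
  have h0 : (0 : ℝ) ≤ (j : ℝ) / N := by positivity
  have h1 := ht1 (p + (q - p) * (j / N)) x (by nlinarith only [hpq, h0]) hj1 hxq
  have h2 := (abs_le.1 (ht2 j (by omega))).1
  have h3 := h (p + (q - p) * (j / N)) (by nlinarith only [hpq, h0]) (by linarith only [hxq, hj1])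
  have h4 : x ≤ p + (q - p) * (j / N) + (q - p) / N := by
    push_cast at hj2
    have : (q - p) * (((j : ℝ) + 1) / N) = (q - p) * (j / N) + (q - p) / N := by ring
    linarith only [hj2, this]
  have h5 : k * ((q - p) / N) ≤ η / 2 := by
    rw [mul_div_assoc', div_le_iff₀ hN0]
    linarith only [hN]
  have h6 : k * x ≤ k * (p + (q - p) * (j / N)) + k * ((q - p) / N) := by
    have := mul_le_mul_of_nonneg_left h4 hk
    linarith only [this]
  linarith only [h1, h2, h3, h5, h6]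

theorem grid_hi (hpq : p ≤ q) (hk : 0 ≤ k)
    (hF : ∀ᶠ t in U, ∀ x y, p ≤ x → x ≤ y → y ≤ q → F t x ≤ F t y)
    (hlim : ∀ x, p ≤ x → x ≤ q → Tendsto (fun t => F t x) U (𝓝 (f x)))
    (h : ∀ x, p ≤ x → x ≤ q → f x - k * x ≤ ρ) {η : ℝ} (hη : 0 < η) :
    ∀ᶠ t in U, ∀ x, p ≤ x → x ≤ q → F t x - k * x ≤ ρ + η := by
  rcases eq_or_lt_of_le hpq with hpq' | hpq'
  · have h1 := Metric.tendsto_nhds.1 (hlim p le_rfl hpq) η hη
    filter_upwards [h1] with t ht x hx hxq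
    have : x = p := by linarith only [hx, hpq', hxq]
    subst this
    rw [Real.dist_eq] at ht
    have := (abs_lt.1 ht).2
    linarith [h x le_rfl hxq]
  obtain ⟨N, hN⟩ := exists_nat_gt (k * (q - p) / (η / 2))
  have hkq : 0 ≤ k * (q - p) := mul_nonneg hk (by linarith)
  have hN0 : (0 : ℝ) < N := lt_of_le_of_lt (by positivity) hN
  have hN1 : 0 < N := by exact_mod_cast hN0
  rw [div_lt_iff₀ (by positivity)] at hN
  filter_upwards [hF, grid_pts hpq (half_pos hη) hlim N] with t ht1 ht2 x hx hxq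
  obtain ⟨j, hj, hj1, hj2⟩ := grid_idx hpq' hN1 hx hxq
  have h0 : (((j + 1 : ℕ) : ℝ) / N) ≤ 1 := by
    rw [div_le_one hN0]
    exact_mod_cast hj
  have hq' : p + (q - p) * (((j + 1 : ℕ) : ℝ) / N) ≤ q := by nlinarith only [hpq, h0]
  have h1 := ht1 x (p + (q - p) * (((j + 1 : ℕ) : ℝ) / N)) hx hj2 hq'
  have h2 := (abs_le.1 (ht2 (j + 1) hj)).2
  have h3 := h (p + (q - p) * (((j + 1 : ℕ) : ℝ) / N)) (by linarith only [hx, hj2]) hq'
  have h4 : p + (q - p) * (((j + 1 : ℕ) : ℝ) / N) ≤ x + (q - p) / N := by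
    push_cast
    have : (q - p) * (((j : ℝ) + 1) / N) = (q - p) * (j / N) + (q - p) / N := by ring
    linarith only [hj1, this]
  have h5 : k * ((q - p) / N) ≤ η / 2 := by
    rw [mul_div_assoc', div_le_iff₀ hN0]
    linarith only [hN]
  have h6 : k * (p + (q - p) * (((j + 1 : ℕ) : ℝ) / N)) ≤ k * x + k * ((q - p) / N) := by
    have := mul_le_mul_of_nonneg_left h4 hk
    linarith only [this]
  linarith only [h1, h2, h3, h5, h6]

end

/-! ### One coordinate -/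

/-- One coordinate near the radius `a`: laws and differentiable diagonal. -/
structure Lo (P : ℝ → ℝ → ℝ) (a δ₀ σ : ℝ) : Prop where
  law : Law P
  pos : 0 < δ₀
  lo : δ₀ ≤ a
  hi : a + δ₀ ≤ 1
  der : HasDerivAt (fun x => P x x) σ a

variable {P : ℝ → ℝ → ℝ} {a δ₀ σ : ℝ}

theorem Lo.dg (H : Lo P a δ₀ σ) {η : ℝ} (hη : 0 < η) : ∃ ρ : ℝ, 0 < ρ ∧ ∀ r, 0 < r → r ≤ ρ →
    ∀ x, a - r ≤ x → x ≤ a + r → |P x x - P a a - σ * (x - a)| ≤ η * r := by
  have h1 := hasDerivAt_iff_isLittleO.1 H.der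
  have h2 := h1.def hη
  obtain ⟨ρ, hρ, h3⟩ := Metric.eventually_nhds_iff.1 h2
  refine ⟨ρ / 2, half_pos hρ, fun r hr hrρ x hx1 hx2 => ?_⟩
  have hx : |x - a| ≤ r := abs_le.2 ⟨by linarith only [hx1], by linarith only [hx2]⟩
  have h4 := h3 (y := x) (by rw [Real.dist_eq]; linarith)
  rw [Real.norm_eq_abs, Real.norm_eq_abs, smul_eq_mul, mul_comm (x - a) σ] at h4
  exact h4.trans (mul_le_mul_of_nonneg_left hx hη.le)

theorem Lo.sig_nonneg (H : Lo P a δ₀ σ) : 0 ≤ σ := by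
  by_contra hc
  push Not at hc
  obtain ⟨ρ, hρ, h1⟩ := H.dg (η := -σ / 2) (by linarith only [hc])
  have hm : 0 < min ρ δ₀ := lt_min hρ H.pos
  have h2 := h1 (min ρ δ₀) hm (min_le_left _ _) (a + min ρ δ₀) (by linarith) le_rfl
  rw [add_sub_cancel_left] at h2
  have h3 := H.law.mono (a := a) (a' := a + min ρ δ₀) (w := a) (w' := a + min ρ δ₀)
    (by linarith only [H, H.pos, H.lo]) le_rfl (by linarith only [hm]) (by linarith only [hm]) le_rfl
    (by linarith only [H, min_le_right ρ δ₀, H.hi])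
  have h4 := (abs_le.1 h2).2
  nlinarith only [h3, h4, hc, hm]

/-- The rescaled level. -/
noncomputable def RL (P : ℝ → ℝ → ℝ) (a : ℝ) (r : ℕ → ℝ) (α β : ℝ) (t : ℕ) : ℝ :=
  (P (a + α * r t) (a + β * r t) - P a a) / r t

theorem RL_eq (P : ℝ → ℝ → ℝ) (a : ℝ) {r : ℕ → ℝ} {t : ℕ} (h : 0 < r t) (α β : ℝ) :
    P (a + α * r t) (a + β * r t) = P a a + RL P a r α β t * r t := by
  rw [RL, div_mul_cancel₀ _ h.ne']
  ring

section
variable {U : Filter ℕ} {r : ℕ → ℝ}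

theorem Lo.ev_mono_a (H : Lo P a δ₀ σ) (hpos : ∀ t, 0 < r t) (hr : Tendsto r U (𝓝 0)) {β : ℝ}
    (hβ : -1 ≤ β) : ∀ᶠ t in U, ∀ x y, β ≤ x → x ≤ y → y ≤ 1 →
      RL P a r x β t ≤ RL P a r y β t := by
  filter_upwards [ev_le hr H.pos] with t ht x y hx hxy hy
  have hrt := hpos t
  unfold RL
  refine div_le_div_of_nonneg_right (sub_le_sub_right ?_ _) hrt.le
  exact H.law.mono_a _ _ _ (by nlinarith only [ht, H, hβ, hrt, H.lo]) (by nlinarith only [hx, hrt]) (by nlinarith only [hxy, hrt])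
    (by nlinarith only [ht, H, hy, hrt, H.hi])

theorem Lo.ev_mono_w (H : Lo P a δ₀ σ) (hpos : ∀ t, 0 < r t) (hr : Tendsto r U (𝓝 0)) :
    ∀ᶠ t in U, ∀ x β β', -1 ≤ β → β ≤ β' → β' ≤ x → x ≤ 1 →
      RL P a r x β t ≤ RL P a r x β' t := by
  filter_upwards [ev_le hr H.pos] with t ht x β β' hβ hββ hx hx1
  have hrt := hpos t
  unfold RL
  refine div_le_div_of_nonneg_right (sub_le_sub_right ?_ _) hrt.le
  exact H.law.mono_w _ _ _ (by nlinarith only [ht, H, hβ, hrt, H.lo]) (by nlinarith only [hββ, hrt]) (by nlinarith only [hx, hrt])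
    (by nlinarith only [ht, H, hx1, hrt, H.hi])

/-- The rescaled diagonal. -/
theorem Lo.ev_diag2 (H : Lo P a δ₀ σ) (hpos : ∀ t, 0 < r t) (hr : Tendsto r U (𝓝 0)) {η : ℝ}
    (hη : 0 < η) : ∀ᶠ t in U, ∀ x, -1 ≤ x → x ≤ 1 → |RL P a r x x t - σ * x| ≤ η := by
  obtain ⟨ρ, hρ, h1⟩ := H.dg hη
  filter_upwards [ev_le hr hρ] with t ht x hx hx1
  have hrt := hpos t
  have h2 := h1 (r t) hrt ht (a + x * r t) (by nlinarith only [hx, hrt]) (by nlinarith only [hx1, hrt])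
  have e : RL P a r x x t - σ * x =
      (P (a + x * r t) (a + x * r t) - P a a - σ * (a + x * r t - a)) / r t := by
    unfold RL
    field_simp
    ring
  rw [e, abs_div, abs_of_pos hrt, div_le_iff₀ hrt]
  exact h2

theorem Lo.ev_bd (H : Lo P a δ₀ σ) (hpos : ∀ t, 0 < r t) (hr : Tendsto r U (𝓝 0)) {α β : ℝ}
    (hβ : -1 ≤ β) (hβα : β ≤ α) (hα : α ≤ 1) :
    ∀ᶠ t in U, RL P a r α β t ∈ Icc (-(σ + 1)) (σ + 1) := by
  filter_upwards [H.ev_mono_a hpos hr hβ, H.ev_mono_w hpos hr, H.ev_diag2 hpos hr one_pos]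
    with t h1 h2 h3
  have h4 := h1 β α le_rfl hβα hα
  have h5 := h2 α β α hβ hβα le_rfl hα
  have h6 := abs_le.1 (h3 β hβ (by linarith))
  have h7 := abs_le.1 (h3 α (by linarith) hα)
  have h8 := H.sig_nonneg
  constructor <;> nlinarith [h6.1, h7.2]

end

/-! ### The limit profile -/

/-- The limit profile along the scales `r t`. -/
structure Pf (U : Filter ℕ) (r : ℕ → ℝ) (n : ℕ) (L : ℕ → ℝ → ℝ → ℝ) (a δ₀ : ℝ) (σ : ℕ → ℝ)
    (Λ : ℕ → ℝ → ℝ → ℝ) : Prop where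
  lo : ∀ i ≤ n, Lo (L i) a δ₀ (σ i)
  rpos : ∀ t, 0 < r t
  rlim : Tendsto r U (𝓝 0)
  lim : ∀ i ≤ n, ∀ α β, -1 ≤ β → β ≤ α → α ≤ 1 →
    Tendsto (fun t => RL (L i) a r α β t) U (𝓝 (Λ i α β))

section
variable {U : Filter ℕ} [U.NeBot] {r : ℕ → ℝ} {n : ℕ} {L : ℕ → ℝ → ℝ → ℝ} {σ : ℕ → ℝ}
  {Λ : ℕ → ℝ → ℝ → ℝ}

theorem Pf.mono_a (H : Pf U r n L a δ₀ σ Λ) {i : ℕ} (hi : i ≤ n) {β x y : ℝ} (hβ : -1 ≤ β)
    (hx : β ≤ x) (hxy : x ≤ y) (hy : y ≤ 1) : Λ i x β ≤ Λ i y β :=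
  le_of_tendsto_of_tendsto (H.lim i hi x β hβ hx (by linarith only [hxy, hy]))
    (H.lim i hi y β hβ (by linarith only [hx, hxy]) hy)
    (((H.lo i hi).ev_mono_a H.rpos H.rlim hβ).mono fun _ h => h x y hx hxy hy)

theorem Pf.mono_w (H : Pf U r n L a δ₀ σ Λ) {i : ℕ} (hi : i ≤ n) {x β β' : ℝ} (hβ : -1 ≤ β)
    (hββ : β ≤ β') (hx : β' ≤ x) (hx1 : x ≤ 1) : Λ i x β ≤ Λ i x β' :=
  le_of_tendsto_of_tendsto (H.lim i hi x β hβ (by linarith only [hββ, hx]) hx1)
    (H.lim i hi x β' (by linarith only [hβ, hββ]) hx hx1)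
    (((H.lo i hi).ev_mono_w H.rpos H.rlim).mono fun _ h => h x β β' hβ hββ hx hx1)

theorem Pf.diag (H : Pf U r n L a δ₀ σ Λ) {i : ℕ} (hi : i ≤ n) {x : ℝ} (hx : -1 ≤ x)
    (hx1 : x ≤ 1) : Λ i x x = σ i * x := by
  refine tendsto_nhds_unique (H.lim i hi x x hx le_rfl hx1) ?_
  rw [Metric.tendsto_nhds]
  intro ε hε
  filter_upwards [(H.lo i hi).ev_diag2 H.rpos H.rlim (half_pos hε)] with t ht
  rw [Real.dist_eq]
  linarith only [hε, ht, hx, hx1, ht x hx hx1]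

theorem Pf.le_diag (H : Pf U r n L a δ₀ σ Λ) {i : ℕ} (hi : i ≤ n) {x β : ℝ} (hβ : -1 ≤ β)
    (hx : β ≤ x) (hx1 : x ≤ 1) : Λ i x β ≤ σ i * x := by
  rw [← H.diag hi (by linarith only [hβ, hx]) hx1]
  exact H.mono_w hi hβ hx le_rfl hx1

theorem Pf.ge_diag (H : Pf U r n L a δ₀ σ Λ) {i : ℕ} (hi : i ≤ n) {x β : ℝ} (hβ : -1 ≤ β)
    (hx : β ≤ x) (hx1 : x ≤ 1) : σ i * β ≤ Λ i x β := by
  rw [← H.diag hi hβ (by linarith only [hx, hx1])]
  exact H.mono_a hi hβ le_rfl hx hx1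


end

/-- **The limit profile exists.** -/
theorem exists_pf {n : ℕ} {L : ℕ → ℝ → ℝ → ℝ} {σ : ℕ → ℝ} (hL : ∀ i ≤ n, Lo (L i) a δ₀ (σ i)) :
    ∃ (U : Ultrafilter ℕ) (r : ℕ → ℝ) (Λ : ℕ → ℝ → ℝ → ℝ),
      Pf (U : Filter ℕ) r n L a δ₀ σ Λ := by
  obtain ⟨U, hU⟩ : ∃ U : Ultrafilter ℕ, U = hyperfilter ℕ := ⟨_, rfl⟩
  have hUt : (U : Filter ℕ) ≤ atTop := by
    rw [hU]
    exact Nat.hyperfilter_le_atTop
  obtain ⟨r, hrdef⟩ : ∃ r : ℕ → ℝ, r = fun t : ℕ => 1 / ((t : ℝ) + 1) := ⟨_, rfl⟩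
  have hr : Tendsto r U (𝓝 0) := by
    rw [hrdef]
    exact tendsto_one_div_add_atTop_nhds_zero_nat.mono_left hUt
  have hpos : ∀ t : ℕ, 0 < r t := fun t => by
    rw [hrdef]
    positivity
  have h : ∀ (i : ℕ) (α β : ℝ), ∃ y : ℝ, i ≤ n → -1 ≤ β → β ≤ α → α ≤ 1 →
      Tendsto (fun t => RL (L i) a r α β t) U (𝓝 y) := by
    intro i α β
    by_cases hc : i ≤ n ∧ -1 ≤ β ∧ β ≤ α ∧ α ≤ 1
    · obtain ⟨y, _, hy⟩ := ulim' U _ _ _
        ((hL i hc.1).ev_bd hpos hr hc.2.1 hc.2.2.1 hc.2.2.2)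
      exact ⟨y, fun _ _ _ _ => hy⟩
    · exact ⟨0, fun h1 h2 h3 h4 => absurd ⟨h1, h2, h3, h4⟩ hc⟩
  choose Λ hΛ using h
  exact ⟨U, r, Λ, hL, hpos, hr, fun i hi α β h1 h2 h3 => hΛ i α β hi h1 h2 h3⟩

/-! ### Generic points -/

/-- If a level touches its diagonal at densely many radii, it does so everywhere. -/
theorem stat_of_dense {F : ℝ → ℝ → ℝ} {s κ p q : ℝ} (hs : 0 ≤ s) (hp : 0 ≤ p) (hq : q ≤ 1)
    (hκ : 0 < κ) (hκ1 : κ ≤ 1)
    (hw : ∀ x β β', -1 ≤ β → β ≤ β' → β' ≤ x → x ≤ 1 → F x β ≤ F x β')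
    (hd : Ioo p q ⊆ closure {x | ∀ h, 0 < h → x + h ≤ 1 → s * x ≤ F (x + h) (x - κ)}) :
    ∀ x ∈ Ioo p q, s * x ≤ F x (x - κ) := by
  intro x hx
  refine le_of_forall_pos_lt_add fun ε hε => ?_
  have hlt : max p (x - ε / (s + 1)) < x := max_lt hx.1 (by
    have : 0 < ε / (s + 1) := by positivity
    linarith only [this])
  obtain ⟨z, hz⟩ := exists_between hlt
  have hzI : z ∈ Ioo p q := ⟨(le_max_left _ _).trans_lt hz.1, hz.2.trans hx.2⟩
  obtain ⟨y, hy1, hy2⟩ := mem_closure_iff.1 (hd hzI) _ isOpen_Ioo hz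
  have hy3 : p < y := (le_max_left _ _).trans_lt hy1.1
  have hy4 : x - ε / (s + 1) < y := (le_max_right _ _).trans_lt hy1.1
  have hy5 : y < x := hy1.2
  have h1 := hy2 (x - y) (by linarith only [hy5]) (by linarith [hx.2])
  rw [add_sub_cancel] at h1
  have h2 := hw x (y - κ) (x - κ) (by linarith) (by linarith) (by linarith) (by linarith only [hq, hx, hx.2])
  have h3 : s * (x - y) < ε := by
    have h4 : s * (x - y) ≤ s * (ε / (s + 1)) := mul_le_mul_of_nonneg_left (by linarith only [hy4]) hs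
    have h5 : s * (ε / (s + 1)) < ε := by
      rw [mul_div_assoc', div_lt_iff₀ (by linarith only [hs])]
      nlinarith only [hε]
    linarith only [h4, h5]
  nlinarith only [h1, h2, h3]

/-- A generic point of an interval. -/
theorem generic {I : Type*} [Countable I] {B : I → Set ℝ} {p q : ℝ} (hpq : p < q)
    (h : ∀ i p' q', p ≤ p' → p' < q' → q' ≤ q → ¬ Ioo p' q' ⊆ closure (B i)) :
    ∃ x ∈ Ioo p q, ∀ i, x ∉ B i := by
  have h1 : ∀ i, Dense (closure (B i ∩ Ioo p q))ᶜ := by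
    intro i
    rw [← interior_eq_empty_iff_dense_compl]
    by_contra hne
    obtain ⟨x, hx⟩ := Set.nonempty_iff_ne_empty.2 hne
    obtain ⟨ε, hε, hball⟩ := Metric.isOpen_iff.1 isOpen_interior x hx
    rw [Real.ball_eq_Ioo] at hball
    have hsub : Ioo (x - ε) (x + ε) ⊆ closure (B i ∩ Ioo p q) := hball.trans interior_subset
    have hIcc : closure (B i ∩ Ioo p q) ⊆ Icc p q :=
      closure_minimal (inter_subset_right.trans Ioo_subset_Icc_self) isClosed_Icc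
    have hxI : x ∈ Icc p q := hIcc (hsub ⟨by linarith, by linarith⟩)
    refine h i (max p (x - ε)) (min q (x + ε)) (le_max_left _ _)
      (max_lt (lt_min hpq (by linarith [hxI.1])) (lt_min (by linarith [hxI.2]) (by linarith)))
      (min_le_left _ _) fun y hy => ?_
    exact closure_mono inter_subset_left
      (hsub ⟨(le_max_right _ _).trans_lt hy.1, hy.2.trans_le (min_le_right _ _)⟩)
  obtain ⟨x, hx1, hx2⟩ := (dense_iInter_of_isOpen (fun i => isClosed_closure.isOpen_compl)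
    h1).inter_open_nonempty (Ioo p q) isOpen_Ioo (nonempty_Ioo.2 hpq)
  refine ⟨x, hx1, fun i hi => ?_⟩
  rw [mem_iInter] at hx2
  exact hx2 i (subset_closure ⟨hi, hx1⟩)

/-! ### From the limit profile to the levels -/

section
variable {U : Filter ℕ} {r : ℕ → ℝ}

/-- A gap. -/
theorem Lo.ev_gap (H : Lo P a δ₀ σ) (hpos : ∀ t, 0 < r t) (hr : Tendsto r U (𝓝 0))
    {z h δ e e' γ μ l : ℝ} (hlim : Tendsto (fun t => RL P a r (z + h) (z - e / 2) t) U (𝓝 l))
    (hl : l ≤ σ * z - δ) (hδ : 0 < δ) (he' : σ * e' ≤ δ / 4) (hee : e' ≤ e) (hγ : 0 ≤ γ)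
    (hμ : 0 ≤ μ) (hγμ : γ + μ ≤ h) (hμe : μ ≤ e / 2) (hγe : γ ≤ e')
    (hs : (σ + 1) * (γ + μ) ≤ δ / 4) (hz0 : 0 ≤ z) (hz : z + h ≤ 1) (he1 : e ≤ 1 / 2) :
    ∀ᶠ t in U, RL P a r (z + (γ + μ)) (z - (e - μ)) t + γ ≤
      RL P a r (z - (γ + μ)) (z - (e' + μ)) t := by
  have hσ := H.sig_nonneg
  have hδ8 : 0 < δ / 8 := by positivity
  filter_upwards [(tendsto_order.1 hlim).2 (l + δ / 8) (by linarith only [hδ]),
    H.ev_mono_a hpos hr (β := z - (e - μ)) (by linarith only [hμ, hz0, he1]),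
    H.ev_mono_a hpos hr (β := z - (e' + μ)) (by linarith only [hee, hμe, hz0, he1]),
    H.ev_mono_w hpos hr, H.ev_diag2 hpos hr hδ8] with t h1 h2 h3 h4 h5
  have g1 := h2 (z + (γ + μ)) (z + h) (by linarith only [hγ, hμ, hμe]) (by linarith only [hγμ]) hz
  have g2 := h4 (z + h) (z - (e - μ)) (z - e / 2) (by linarith only [hμ, hz0, he1]) (by linarith only [hμe]) (by linarith only [hγ, hμ, hγμ, hμe]) hz
  have g3 := h3 (z - (e' + μ)) (z - (γ + μ)) le_rfl (by linarith only [hγe]) (by linarith only [hγ, hμ, hγμ, hz])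
  have g4 := (abs_le.1 (h5 (z - (e' + μ)) (by linarith only [hee, hμe, hz0, he1]) (by linarith only [hγ, hμ, hγμ, hγe, hz]))).1
  nlinarith only [hl, hδ, he', hμ, hs, h1, g1, g2, g3, g4, hγ, hσ]

/-- A static coordinate. -/
theorem Lo.ev_sta (H : Lo P a δ₀ σ) (hpos : ∀ t, 0 < r t) (hr : Tendsto r U (𝓝 0))
    {β z : ℝ} (hβ : -1 ≤ β) (hβz : β ≤ z) (hz : z ≤ 1) {l : ℝ → ℝ}
    (hlim : ∀ x, β ≤ x → x ≤ z → Tendsto (fun t => RL P a r x β t) U (𝓝 (l x)))
    (hst : ∀ x, β ≤ x → x ≤ z → σ * x ≤ l x) {η : ℝ} (hη : 0 < η) :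
    ∀ᶠ t in U, ∀ x β', β ≤ β' → β' ≤ x → x ≤ z → |RL P a r x β' t - σ * x| ≤ η := by
  have g1 := grid_lo (k := σ) (ρ := 0) hβz H.sig_nonneg
    ((H.ev_mono_a hpos hr hβ).mono fun t ht x y h1 h2 h3 => ht x y h1 h2 (by linarith)) hlim
    (fun x h1 h2 => by linarith [hst x h1 h2]) hη
  filter_upwards [g1, H.ev_mono_w hpos hr, H.ev_diag2 hpos hr hη] with t h1 h2 h3 x β' hb hx hxz
  have e1 := h1 x (by linarith) hxz
  have e2 := h2 x β β' hβ hb hx (by linarith)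
  have e3 := h2 x β' x (by linarith) hx le_rfl (by linarith)
  have e4 := (abs_le.1 (h3 x (by linarith) (by linarith))).2
  rw [abs_le]
  constructor <;> linarith

/-- The top coordinate. -/
theorem Lo.ev_top (H : Lo P a δ₀ σ) (hpos : ∀ t, 0 < r t) (hr : Tendsto r U (𝓝 0))
    (htri : ∀ ε : ℝ, 0 < ε → ∃ r₁ : ℝ, 0 < r₁ ∧ ∀ r : ℝ, 0 < r → r < r₁ → ∀ a' w' : ℝ,
      a - r ≤ w' → w' ≤ a' → a' ≤ a + r → P a' a' - ε * r ≤ P a' w') {η : ℝ} (hη : 0 < η) :
    ∀ᶠ t in U, ∀ x β', -1 ≤ β' → β' ≤ x → x ≤ 1 → |RL P a r x β' t - σ * x| ≤ η := by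
  obtain ⟨r₁, hr₁, h0⟩ := htri (η / 2) (half_pos hη)
  filter_upwards [(tendsto_order.1 hr).2 r₁ hr₁, H.ev_mono_w hpos hr,
    H.ev_diag2 hpos hr (half_pos hη)] with t h1 h2 h3 x β' hb hx hx1
  have hrt := hpos t
  have e1 := h0 (r t) hrt h1 (a + x * r t) (a + β' * r t) (by nlinarith only [hb, hrt]) (by nlinarith only [hx, hrt])
    (by nlinarith only [hx1, hrt])
  rw [RL_eq P a hrt, RL_eq P a hrt] at e1
  have e2 : RL P a r x x t - η / 2 ≤ RL P a r x β' t := by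
    have : (RL P a r x x t - η / 2) * r t ≤ RL P a r x β' t * r t := by linarith only [e1]
    exact le_of_mul_le_mul_right this hrt
  have e3 := h2 x β' x hb hx le_rfl hx1
  have e4 := abs_le.1 (h3 x (by linarith only [hb, hx]) hx1)
  rw [abs_le]
  constructor <;> linarith

end

/-- A positive number with finitely many monotone properties. -/
theorem fin_small {n : ℕ} {Q : ℕ → ℝ → Prop}
    (h : ∀ i < n, ∃ c : ℝ, 0 < c ∧ ∀ e, 0 < e → e ≤ c → Q i e) :
    ∃ c : ℝ, 0 < c ∧ ∀ e, 0 < e → e ≤ c → ∀ i < n, Q i e := by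
  induction n with
  | zero => exact ⟨1, one_pos, fun _ _ _ i hi => absurd hi (Nat.not_lt_zero i)⟩
  | succ n ih =>
    obtain ⟨c, hc, h1⟩ := ih fun i hi => h i (hi.trans (Nat.lt_succ_self n))
    obtain ⟨d, hd, h2⟩ := h n (Nat.lt_succ_self n)
    refine ⟨min c d, lt_min hc hd, fun e he hec i hi => ?_⟩
    rcases Nat.lt_succ_iff_lt_or_eq.1 hi with h3 | h3
    · exact h1 e he (hec.trans (min_le_left _ _)) i h3
    · subst h3
      exact h2 e he (hec.trans (min_le_right _ _))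

/-- **The limit profile has a generic radius** `z`: a maximal set `S` of coordinates is static near
`z`, the other ones drop at every window. -/
theorem Pf.gen {U : Filter ℕ} [U.NeBot] {r : ℕ → ℝ} {n : ℕ} {L : ℕ → ℝ → ℝ → ℝ} {σ : ℕ → ℝ}
    {Λ : ℕ → ℝ → ℝ → ℝ} (H : Pf U r n L a δ₀ σ Λ) :
    ∃ (S : Finset ℕ) (p q z : ℝ) (M : ℕ), S ⊆ Finset.range n ∧ 0 < p ∧ p < z ∧ z < q ∧ q < 1 ∧
      (∀ i ∈ S, ∀ x ∈ Ioo p q, σ i * x ≤ Λ i x (x - 1 / 2 ^ M)) ∧
      ∀ m : ℕ, ∃ e : ℝ, 0 < e ∧ z + e ≤ 1 ∧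
        ∀ i < n, i ∉ S → Λ i (z + e) (z - 1 / 2 ^ m) ≤ σ i * z - e := by
  classical
  have hpow : ∀ m : ℕ, (1 : ℝ) / 2 ^ m ≤ 1 := fun m => by
    rw [div_le_one (by positivity)]
    exact one_le_pow₀ (by norm_num)
  have hpow0 : ∀ m : ℕ, (0 : ℝ) < 1 / 2 ^ m := fun m => by positivity
  have hanti : ∀ m m' : ℕ, m ≤ m' → (1 : ℝ) / 2 ^ m' ≤ 1 / 2 ^ m := fun m m' h =>
    one_div_le_one_div_of_le (by positivity) (pow_le_pow_right₀ (by norm_num) h)
  obtain ⟨adm, hadm⟩ : ∃ adm : Finset ℕ → Prop, adm = fun s => ∃ (p q : ℝ) (M : ℕ), 0 < p ∧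
      p < q ∧ q < 1 ∧ ∀ i ∈ s, ∀ x ∈ Ioo p q, σ i * x ≤ Λ i x (x - 1 / 2 ^ M) := ⟨_, rfl⟩
  obtain ⟨S, hS, hmax⟩ := Finset.exists_max_image ((Finset.range n).powerset.filter adm)
    Finset.card ⟨∅, by
      rw [Finset.mem_filter, hadm]
      exact ⟨Finset.empty_mem_powerset _, 1 / 4, 1 / 2, 0, by norm_num, by norm_num, by norm_num,
        fun i hi => absurd hi (Finset.notMem_empty i)⟩⟩
  rw [Finset.mem_filter, Finset.mem_powerset, hadm] at hS
  obtain ⟨hSn, p, q, M, hp, hpq, hq, hst⟩ := hS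
  -- maximality
  have hno : ∀ i < n, i ∉ S → ∀ (m : ℕ) (p' q' : ℝ), p ≤ p' → p' < q' → q' ≤ q →
      ¬ Ioo p' q' ⊆ closure {x | ∀ h, 0 < h → x + h ≤ 1 →
        σ i * x ≤ Λ i (x + h) (x - 1 / 2 ^ m)} := by
    intro i hi hiS m p' q' h1 h2 h3 h4
    have h5 := stat_of_dense (F := Λ i) (s := σ i) (κ := 1 / 2 ^ m) (H.lo i hi.le).sig_nonneg
      (by linarith only [hp, h1] : 0 ≤ p') (by linarith only [hq, h3] : q' ≤ 1) (hpow0 m) (hpow m)
      (fun x β β' g1 g2 g3 g4 => H.mono_w hi.le g1 g2 g3 g4) h4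
    have h6 : insert i S ∈ (Finset.range n).powerset.filter adm := by
      rw [Finset.mem_filter, Finset.mem_powerset, hadm]
      refine ⟨Finset.insert_subset (Finset.mem_range.2 hi) hSn, p', q', max M m, by linarith, h2,
        by linarith, fun l hl x hx => ?_⟩
      have hx0 : 0 < x := by linarith [hx.1]
      have hx1 : x < 1 := by linarith [hx.2]
      rcases Finset.mem_insert.1 hl with h | h
      · subst h
        refine (h5 x hx).trans (H.mono_w hi.le (by linarith only [hx0, hpow, hpow m])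
          (by linarith only [hanti, hanti m (max M m) (le_max_right _ _)])
          (by linarith only [hpow0, hpow0 (max M m)]) hx1.le)
      · have hln : l < n := Finset.mem_range.1 (hSn h)
        refine (hst l h x ⟨by linarith only [h1, hx, hx.1], by linarith only [h3, hx, hx.2]⟩).trans
          (H.mono_w hln.le (by linarith only [hx0, hpow, hpow M])
            (by linarith only [hanti, hanti M (max M m) (le_max_left _ _)])
            (by linarith only [hpow0, hpow0 (max M m)]) hx1.le)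
    have h7 := hmax _ h6
    rw [Finset.card_insert_of_notMem hiS] at h7
    omega
  obtain ⟨z, hz, hzB⟩ := generic (I := ℕ × ℕ) (B := fun im => if im.1 < n ∧ im.1 ∉ S then
    {x | ∀ h, 0 < h → x + h ≤ 1 → σ im.1 * x ≤ Λ im.1 (x + h) (x - 1 / 2 ^ im.2)} else ∅) hpq
    (by
      rintro ⟨i, m⟩ p' q' h1 h2 h3
      by_cases hc : i < n ∧ i ∉ S
      · simp only [hc, not_false_eq_true, and_self, if_true]
        exact hno i hc.1 hc.2 m p' q' h1 h2 h3
      · simp only [hc, if_false, closure_empty]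
        intro h4
        exact (Set.nonempty_Ioo.2 h2).ne_empty (Set.subset_empty_iff.1 h4))
  refine ⟨S, p, q, z, M, hSn, hp, hz.1, hz.2, hq, hst, fun m => ?_⟩
  have hz0 : 0 < z := hp.trans hz.1
  have hz1 : z < 1 := hz.2.trans hq
  obtain ⟨c, hc, h1⟩ := fin_small (n := n) (Q := fun i e => i ∉ S → z + e ≤ 1 →
    Λ i (z + e) (z - 1 / 2 ^ m) ≤ σ i * z - e) (by
      intro i hi
      by_cases hiS : i ∈ S
      · exact ⟨1, one_pos, fun _ _ _ h => absurd hiS h⟩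
      have h2 := hzB (i, m)
      simp only [hi, hiS, not_false_eq_true, and_self, if_true, mem_ofPred_eq] at h2
      push Not at h2
      obtain ⟨h, h3, h4, h5⟩ := h2
      refine ⟨min h (σ i * z - Λ i (z + h) (z - 1 / 2 ^ m)), lt_min h3 (by linarith only [h5]),
        fun e he hec _ _ => ?_⟩
      have h6 : e ≤ h := hec.trans (min_le_left _ _)
      have h7 := hec.trans (min_le_right _ _)
      have h8 := H.mono_a hi.le (β := z - 1 / 2 ^ m) (x := z + e) (y := z + h)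
        (by linarith only [hz0, hpow, hpow m]) (by linarith only [he, hpow0, hpow0 m]) (by linarith only [h6]) h4
      linarith only [h7, h8])
  have hm : 0 < min c (1 - z) := lt_min hc (by linarith)
  exact ⟨min c (1 - z), hm, by linarith [min_le_right c (1 - z)], fun i hi hiS =>
    h1 _ hm (min_le_left _ _) i hi hiS (by linarith [min_le_right c (1 - z)])⟩

end PrM

open PrM

/-- **The profile of the levels: cells with a margin.** -/
theorem profileM {n : ℕ} {L : ℕ → ℝ → ℝ → ℝ} {a : ℝ} {σ : ℕ → ℝ} (h0 : 0 < a) (h1 : a < 1)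
    (hLaw : ∀ i ≤ n, Law (L i)) (hder : ∀ i ≤ n, HasDerivAt (fun x => L i x x) (σ i) a)
    (htri : ∀ ε : ℝ, 0 < ε → ∃ r₁ : ℝ, 0 < r₁ ∧ ∀ r : ℝ, 0 < r → r < r₁ → ∀ a' w' : ℝ,
      a - r ≤ w' → w' ≤ a' → a' ≤ a + r → L n a' a' - ε * r ≤ L n a' w') :
    ∃ (S : Finset ℕ) (m : ℕ → ℕ), S ⊆ Finset.range n ∧ 1 ≤ m 0 ∧ (∀ j, m j < m (j + 1)) ∧
      ∀ R : ℕ, ∃ g₀ : ℝ, 0 < g₀ ∧ g₀ ≤ 1 / 2 ^ m R ∧
        ∀ γ μ : ℝ, 0 ≤ γ → γ ≤ g₀ → 0 ≤ μ → μ ≤ g₀ → ∀ ε : ℝ, 0 < ε → ∀ r₁ : ℝ, 0 < r₁ →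
          ∃ r b : ℝ, 0 < r ∧ r < r₁ ∧ a ≤ b ∧ |b - a| ≤ r ∧
            a - r ≤ b - (1 / 2 ^ m 0 + μ) * r ∧ b + (γ + μ) * r ≤ a + r ∧
            CellM L n S σ R (fun j => 1 / 2 ^ m j) γ μ b r ε := by
  classical
  obtain ⟨δ₀, hδ₀⟩ : ∃ δ₀, δ₀ = min a (1 - a) := ⟨_, rfl⟩
  have hL : ∀ i ≤ n, Lo (L i) a δ₀ (σ i) := fun i hi =>
    ⟨hLaw i hi, hδ₀ ▸ lt_min h0 (by linarith only [h1]), hδ₀ ▸ min_le_left _ _,
      by rw [hδ₀]; linarith only [min_le_right a (1 - a)], hder i hi⟩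
  obtain ⟨U, r, Λ, H⟩ := exists_pf hL
  obtain ⟨S, p, q, z, M, hSn, hp, hpz, hzq, hq, hst, hdr⟩ := H.gen
  choose e he0 he1 he using hdr
  have hpow0 : ∀ m : ℕ, (0 : ℝ) < 1 / 2 ^ m := fun m => by positivity
  have hpow : ∀ m : ℕ, (1 : ℝ) / 2 ^ m ≤ 1 := fun m => by
    rw [div_le_one (by positivity)]
    exact one_le_pow₀ (by norm_num)
  have hanti : ∀ m m' : ℕ, m ≤ m' → (1 : ℝ) / 2 ^ m' ≤ 1 / 2 ^ m := fun m m' h =>
    one_div_le_one_div_of_le (by positivity) (pow_le_pow_right₀ (by norm_num) h)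
  have hhalf : ∀ m : ℕ, (1 : ℝ) / 2 ^ (m + 1) = 1 / 2 ^ m / 2 := fun m => by
    rw [pow_succ]; field_simp
  have htend : ∀ A : ℝ, Tendsto (fun m : ℕ => A * (1 / 2 ^ m)) atTop (𝓝 0) := by
    intro A
    have h1 : Tendsto (fun m : ℕ => ((1 : ℝ) / 2) ^ m) atTop (𝓝 0) :=
      tendsto_pow_atTop_nhds_zero_of_lt_one (by norm_num) (by norm_num)
    have h2 := h1.const_mul A
    rw [mul_zero] at h2
    refine h2.congr fun m => ?_
    rw [one_div_pow]
  -- a bound for the slopes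
  obtain ⟨B, hB0, hB⟩ : ∃ B : ℝ, 0 ≤ B ∧ ∀ i < n, σ i ≤ B := by
    refine ⟨∑ i ∈ Finset.range n, |σ i|, Finset.sum_nonneg fun _ _ => abs_nonneg _,
      fun i hi => (le_abs_self _).trans ?_⟩
    exact Finset.single_le_sum (f := fun i => |σ i|) (fun _ _ => abs_nonneg _)
      (Finset.mem_range.2 hi)
  -- the first offset
  obtain ⟨m₀, hm₀, hm₀z⟩ : ∃ m₀ : ℕ, M + 2 ≤ m₀ ∧ 2 * (1 / 2 ^ m₀) < z - p := by
    obtain ⟨m₀, h2, h3⟩ := (((tendsto_order.1 (htend 2)).2 (z - p) (by linarith)).and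
      (eventually_ge_atTop (M + 2))).exists
    exact ⟨m₀, h3, h2⟩
  -- the next offset
  have hnext : ∀ m : ℕ, ∃ m' : ℕ, m < m' ∧ B * (1 / 2 ^ m') ≤ e (m + 1) / 4 := by
    intro m
    obtain ⟨m', h2, h3⟩ := (((tendsto_order.1 (htend B)).2 (e (m + 1) / 4)
      (by linarith only [he0, he0 (m + 1)])).and (eventually_gt_atTop m)).exists
    exact ⟨m', h3, h2.le⟩
  choose nx hnx1 hnx2 using hnext
  obtain ⟨m, hm⟩ : ∃ m : ℕ → ℕ, m = fun j => nx^[j] m₀ := ⟨_, rfl⟩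
  have hm0 : m 0 = m₀ := by rw [hm]; rfl
  have hms : ∀ j, m (j + 1) = nx (m j) := by
    intro j
    rw [hm]
    exact Function.iterate_succ_apply' nx j m₀
  have hmlt : ∀ j, m j < m (j + 1) := fun j => by rw [hms]; exact hnx1 _
  have hmmono : StrictMono m := strictMono_nat_of_lt_succ hmlt
  refine ⟨S, m, hSn, by omega, hmlt, fun R => ?_⟩
  -- the small number
  obtain ⟨g₀, hg0, hgR, hgq, hgj⟩ : ∃ g₀ : ℝ, 0 < g₀ ∧ 2 * g₀ ≤ 1 / 2 ^ m R ∧ 2 * g₀ < q - z ∧
      ∀ j < R, (B + 1) * (2 * g₀) ≤ e (m j + 1) / 4 := by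
    obtain ⟨c, hc, h2⟩ := fin_small (n := R) (Q := fun j g => (B + 1) * (2 * g) ≤
      e (m j + 1) / 4) (fun j _ => ⟨e (m j + 1) / 4 / (2 * (B + 1)), by
        have := he0 (m j + 1)
        positivity, fun g _ hg => by
        rw [le_div_iff₀ (by positivity)] at hg
        linarith only [hg]⟩)
    have h3 : 0 < min c (min (1 / 2 ^ m R / 2) ((q - z) / 3)) :=
      lt_min hc (lt_min (by positivity) (by linarith only [hzq]))
    have h4 : min c (min (1 / 2 ^ m R / 2) ((q - z) / 3)) ≤ 1 / 2 ^ m R / 2 :=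
      (min_le_right _ _).trans (min_le_left _ _)
    have h5 : min c (min (1 / 2 ^ m R / 2) ((q - z) / 3)) ≤ (q - z) / 3 :=
      (min_le_right _ _).trans (min_le_right _ _)
    exact ⟨_, h3, by linarith only [h4], by linarith only [h3, h5], fun j hj => h2 _ h3 (min_le_left _ _) j hj⟩
  refine ⟨g₀, hg0, by linarith only [hg0, hgR], fun γ μ hγ hγg hμ hμg ε hε r₁ hr₁ => ?_⟩
  obtain ⟨k, hk⟩ : ∃ k : ℕ → ℝ, k = fun j => 1 / 2 ^ m j := ⟨_, rfl⟩
  have hk0 : ∀ j, 0 < k j := fun j => by rw [hk]; exact hpow0 _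
  have hkj : ∀ j, k j = 1 / 2 ^ m j := fun j => by rw [hk]
  have hkanti : ∀ i j, i ≤ j → k j ≤ k i := fun i j hij => by
    rw [hkj, hkj]
    exact hanti _ _ (hmmono.monotone hij)
  have hgk : ∀ j ≤ R, 2 * g₀ ≤ k j := fun j hj => by
    have := hkanti j R hj
    rw [hkj R] at this
    linarith only [hgR, this]
  have hkM : 4 * k 0 ≤ 1 / 2 ^ M := by
    have h2 := hanti (M + 2) m₀ hm₀
    rw [hhalf, hhalf] at h2
    rw [hkj, hm0]
    linarith only [h2]
  have hkz : 2 * k 0 < z - p := by rw [hkj, hm0]; exact hm₀z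
  have hg0k := hgk 0 (Nat.zero_le R)
  have hk12 : ∀ j, k j ≤ 1 / 2 := fun j => by
    have h2 := hkanti 0 j (Nat.zero_le j)
    have h3 := hpow M
    linarith only [hp, hq, hg0, hgq, hkz, h2]
  have hz0 : 0 < z := hp.trans hpz
  have hz1 : z < 1 := hzq.trans hq
  -- the static coordinates
  have T1 : ∀ᶠ t in (U : Filter ℕ), ∀ i ∈ Finset.range (n + 1), (i ∈ S ∨ i = n) → ∀ x β',
      z - (k 0 + μ) ≤ β' → β' ≤ x → x ≤ z + μ → |RL (L i) a r x β' t - σ i * x| ≤ ε / 2 := by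
    rw [Filter.eventually_all_finset]
    intro i hi
    have hin : i ≤ n := Nat.lt_succ_iff.1 (Finset.mem_range.1 hi)
    by_cases hiN : i = n
    · subst hiN
      filter_upwards [(hL i le_rfl).ev_top H.rpos H.rlim htri (half_pos hε)] with t ht _ x β'
        g1 g2 g3
      exact ht x β' (by linarith only [hp, hq, hg0, hgq, hμg, hkz, hg0k, g1]) g2 (by linarith only [hq, hg0, hgq, hμg, g3])
    by_cases hiS : i ∈ S
    · have h2 := (hL i hin).ev_sta H.rpos H.rlim (β := z - (k 0 + μ)) (z := z + μ)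
        (l := fun x => Λ i x (z - (k 0 + μ))) (by linarith only [hp, hq, hg0, hgq, hμg, hkz, hg0k]) (by linarith only [hg0, hμ, hg0k, hk0 0]) (by linarith only [hq, hg0, hgq, hμg])
        (fun x g1 g2 => H.lim i hin x _ (by linarith only [hp, hq, hg0, hgq, hμg, hkz, hg0k]) g1 (by linarith only [hq, hg0, hgq, hμg, g2]))
        (fun x g1 g2 => by
          refine (hst i hiS x ⟨by linarith only [hg0, hμg, hkz, hg0k, g1], by linarith only [hg0, hgq, hμg, g2]⟩).trans ?_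
          exact H.mono_w hin (by linarith only [hp, hpz, hμg, hkz, hg0k, g1, hpow, hpow M]) (by linarith only [hg0, hμg, hkM, hg0k, g2]) g1 (by linarith only [hq, hg0, hgq, hμg, g2]))
        (half_pos hε)
      exact h2.mono fun t ht _ => ht
    · exact Filter.Eventually.of_forall fun t h => by
        rcases h with h | h
        · exact absurd h hiS
        · exact absurd h hiN
  have T2 : ∀ᶠ t in (U : Filter ℕ), ∀ i ∈ Finset.range (n + 1), ∀ x, -1 ≤ x → x ≤ 1 →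
      |RL (L i) a r x x t - σ i * x| ≤ ε / 2 := by
    rw [Filter.eventually_all_finset]
    intro i hi
    exact (hL i (Nat.lt_succ_iff.1 (Finset.mem_range.1 hi))).ev_diag2 H.rpos H.rlim
      (half_pos hε)
  have T3 : ∀ᶠ t in (U : Filter ℕ), ∀ i ∈ Finset.range n, ∀ j ∈ Finset.range R, i ∉ S →
      RL (L i) a r (z + (γ + μ)) (z - (k j - μ)) t + γ ≤
        RL (L i) a r (z - (γ + μ)) (z - (k (j + 1) + μ)) t := by
    rw [Filter.eventually_all_finset]
    intro i hi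
    rw [Filter.eventually_all_finset]
    intro j hj
    have hin : i < n := Finset.mem_range.1 hi
    have hjR : j < R := Finset.mem_range.1 hj
    by_cases hiS : i ∈ S
    · exact Filter.Eventually.of_forall fun t h => absurd hiS h
    have hE := he0 (m j + 1)
    have hE1 := he1 (m j + 1)
    have hE2 := he (m j + 1) i hin hiS
    have hgj' := hgj j hjR
    have e1 : (1 : ℝ) / 2 ^ (m j + 1) = k j / 2 := by rw [hhalf, hkj]
    rw [e1] at hE2
    have hσ := (hL i hin.le).sig_nonneg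
    have hσB := hB i hin
    have h2 : σ i * k (j + 1) ≤ e (m j + 1) / 4 := by
      have h3 := hnx2 (m j)
      rw [← hms, ← hkj] at h3
      have h4 : σ i * k (j + 1) ≤ B * k (j + 1) := mul_le_mul_of_nonneg_right hσB (hk0 _).le
      linarith only [h3, h4]
    have h5 : 2 * g₀ ≤ e (m j + 1) := by nlinarith only [hg0, hgj', hB0]
    have h6 : (σ i + 1) * (γ + μ) ≤ e (m j + 1) / 4 := by
      refine le_trans ?_ hgj'
      exact mul_le_mul (by linarith only [hσB]) (by linarith only [hγg, hμg]) (by linarith only [hγ, hμ]) (by linarith only [hp, hq, hB0, hg0, hgq, hkz, hg0k])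
    have h7 := (hL i hin.le).ev_gap H.rpos H.rlim (z := z) (h := e (m j + 1))
      (δ := e (m j + 1)) (e := k j) (e' := k (j + 1)) (γ := γ) (μ := μ)
      (H.lim i hin.le (z + e (m j + 1)) (z - k j / 2) (by linarith only [hp, hq, hg0, hgq, hkz, hg0k, hk12, hk12 j])
        (by linarith only [hg0, h5, hk0, hk0 j]) hE1)
      hE2 hE h2 (hkanti j (j + 1) (Nat.le_succ j)) hγ hμ (by linarith only [hγg, hμg, h5])
      (by linarith only [hμg, hgk, hjR, hgk j hjR.le]) (by linarith only [hg0, hγg, hgk, hjR, hgk (j + 1) hjR]) h6 hz0.le hE1 (hk12 j)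
    exact h7.mono fun t ht _ => ht
  obtain ⟨t, ⟨⟨t1, t2⟩, t3⟩, t4⟩ := (((T1.and T2).and T3).and
    ((tendsto_order.1 H.rlim).2 r₁ hr₁)).exists
  have hrt := H.rpos t
  have hk00 : (fun j => 1 / 2 ^ m j) = k := hk.symm
  refine ⟨r t, a + z * r t, hrt, t4, by nlinarith only [h0, h1, hp, hrt, hpz], ?_, ?_, ?_, ?_⟩
  · rw [add_sub_cancel_left, abs_of_pos (mul_pos hz0 hrt)]
    nlinarith only [h0, h1, hzq, hrt, hq]
  · rw [← hkj 0]
    nlinarith only [hp, hrt, hpz, hq, hg0, hgq, hμg, hkz]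
  · nlinarith only [hp, hpz, hq, hrt, hg0, hgq, hγg, hμg]
  have xform : ∀ y : ℝ, ∃ x : ℝ, y = a + x * r t := fun y => ⟨(y - a) / r t, by
    rw [div_mul_cancel₀ _ hrt.ne']; ring⟩
  have hmem : ∀ i ≤ n, i ∈ Finset.range (n + 1) := fun i hi =>
    Finset.mem_range.2 (Nat.lt_succ_of_le hi)
  have cancel : ∀ x y : ℝ, a + x * r t ≤ a + y * r t → x ≤ y := fun x y h =>
    le_of_mul_le_mul_right (by linarith only [h]) hrt
  have core : ∀ i ≤ n, ∀ x y : ℝ, |RL (L i) a r x y t - σ i * x| ≤ ε / 2 →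
      |L i (a + x * r t) (a + y * r t) - L i (a + z * r t) (a + z * r t) -
        σ i * (a + x * r t - (a + z * r t))| ≤ ε * r t := by
    intro i hi x y h2
    have h3 := abs_le.1 (t2 i (hmem i hi) z (by linarith only [hp, hq, hg0, hgq, hkz, hg0k]) hz1.le)
    have h2' := abs_le.1 h2
    rw [RL_eq (L i) a hrt, RL_eq (L i) a hrt]
    have e2 : L i a a + RL (L i) a r x y t * r t - (L i a a + RL (L i) a r z z t * r t) -
        σ i * (a + x * r t - (a + z * r t)) =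
        (RL (L i) a r x y t - σ i * x - (RL (L i) a r z z t - σ i * z)) * r t := by ring
    rw [e2, abs_mul, abs_of_pos hrt]
    refine mul_le_mul_of_nonneg_right ?_ hrt.le
    rw [abs_le]
    constructor <;> linarith only [h3, h2']
  rw [hk00]
  refine ⟨?_, ?_, ?_⟩
  · intro i hi a' w' g1 g2 g3
    have hin : i ≤ n := by
      rcases hi with h | h
      · exact (Finset.mem_range.1 (hSn h)).le
      · exact h.le
    obtain ⟨x, rfl⟩ := xform a'
    obtain ⟨y, rfl⟩ := xform w'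
    refine core i hin x y (t1 i (hmem i hin) hi x y (cancel _ _ ?_) (cancel _ _ g2)
      (cancel _ _ ?_))
    · rw [sub_mul]
      linarith only [g1]
    · rw [add_mul]
      linarith only [g3]
  · intro i hi hiS j hj
    have h2 := t3 i (Finset.mem_range.2 hi) j (Finset.mem_range.2 hj) hiS
    have e1 : a + z * r t + (γ + μ) * r t = a + (z + (γ + μ)) * r t := by ring
    have e2 : a + z * r t - (k j - μ) * r t = a + (z - (k j - μ)) * r t := by ring
    have e3 : a + z * r t - (γ + μ) * r t = a + (z - (γ + μ)) * r t := by ring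
    have e4 : a + z * r t - (k (j + 1) + μ) * r t = a + (z - (k (j + 1) + μ)) * r t := by ring
    rw [e1, e2, e3, e4, RL_eq (L i) a hrt, RL_eq (L i) a hrt]
    have h3 := mul_le_mul_of_nonneg_right h2 hrt.le
    linarith only [h3]
  · intro i hi hiS a' g1 g2
    obtain ⟨x, rfl⟩ := xform a'
    have g3 : z - (k 0 + μ) ≤ x := cancel _ _ (by rw [sub_mul]; linarith only [g1])
    have g4 : x ≤ z + μ := cancel _ _ (by rw [add_mul]; linarith only [g2])
    exact core i hi.le x x (t2 i (hmem i hi.le) x (by linarith only [hp, hq, hg0, hgq, hμg, hkz, hg0k, g3]) (by linarith only [hq, hg0, hgq, hμg, g4]))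

end Pool.STAT
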