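import Pool.Agent.H75.STAT.CellW

/-!
# A wide cell can be shifted

All the centres `b` with `|b - a| ≤ δ r` have the same cell, with a smaller margin and a slightly
larger error: so the centre (and all the windows with it) can be moved by a generic amount.
-/

set_option autoImplicit false

namespace Pool.STAT

open Pool.LEV

namespace CellW

variable {L : ℕ → ℝ → ℝ → ℝ} {n : ℕ} {S : Finset ℕ} {σ : ℕ → ℝ} {s A R : ℕ} {k : ℕ → ℝ}
  {θ τ γ μ : ℝ} {F : Finset (ℚ × ℚ)} {V : ℚ × ℚ → ℕ} {o a r ε : ℝ}

/-- **Shift of the centre.** -/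
theorem shift (H : CellW L n S σ s A R k θ τ γ μ F V o a r ε) (hL : ∀ i ≤ n, Law (L i))
    (hS : ∀ i ∈ S, i ≤ n) (hr : 0 < r) (hγ : 0 ≤ γ) {μ' o' δ ε' b B : ℝ} (hμ' : 0 ≤ μ')
    (hk0 : ∀ j ≤ R, 0 ≤ k j) (hkγ : ∀ j ≤ R, γ ≤ k j) (hkA : ∀ j ≤ R, k j ≤ A * k 0)
    (hδ : 0 ≤ δ) (hδμ : μ' + δ ≤ μ) (hδo : o' + δ ≤ o) (ho' : 0 ≤ o')
    (hσ : ∀ i ≤ n, 0 ≤ σ i) (hσB : ∀ i ≤ n, σ i ≤ B)
    (hF : ∀ x ∈ F, 0 ≤ x.1 ∧ x.1 ≤ x.2) (hFr : ∀ x ∈ F, x.2 * r ≤ a / 2)
    (hε : 2 * ε + (B + s) * δ ≤ ε') (hεV : ∀ x ∈ F, 2 * ε + V x * δ ≤ ε') (hε0 : 0 ≤ ε)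
    (hb : |b - a| ≤ δ * r) (hδa : 2 * (δ * r) ≤ a / 2) (hsa : 2 ≤ s * b) :
    CellW L n S σ s A R k θ τ γ μ' F V o' b r ε' := by
  obtain ⟨t, ht⟩ : ∃ t, t = b - a := ⟨_, rfl⟩
  have hbt : b = a + t := by linarith only [ht]
  rw [← ht] at hb
  obtain ⟨ht1, ht2⟩ := abs_le.1 hb
  subst hbt
  have hlo := H.lo
  have hhi := H.hi
  have hk00 := hk0 0 (Nat.zero_le R)
  have hA : (0 : ℝ) ≤ A := Nat.cast_nonneg A
  have hAk : 0 ≤ A * k 0 := mul_nonneg hA hk00
  have hδr : 0 ≤ δ * r := mul_nonneg hδ hr.le
  have hμr : μ' * r + δ * r ≤ μ * r := by nlinarith only [hr, hδμ]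
  have hor : o' * r + δ * r ≤ o * r := by nlinarith only [hr, hδo]
  have e1 : (A * k 0 + μ) * r = A * k 0 * r + μ * r := by ring
  have e2 : (A * k 0 + μ') * r = A * k 0 * r + μ' * r := by ring
  have e3 : (γ + μ + o) * r = γ * r + μ * r + o * r := by ring
  have e4 : (γ + μ' + o') * r = γ * r + μ' * r + o' * r := by ring
  have e5 : (γ + μ) * r = γ * r + μ * r := by ring
  have e6 : (γ + μ') * r = γ * r + μ' * r := by ring
  have hμ'r : 0 ≤ μ' * r := mul_nonneg hμ' hr.le
  have ho'r : 0 ≤ o' * r := mul_nonneg ho' hr.le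
  have hγr : 0 ≤ γ * r := mul_nonneg hγ hr.le
  have hAr : 0 ≤ A * k 0 * r := mul_nonneg hAk hr.le
  have hs0 : (0 : ℝ) ≤ s := Nat.cast_nonneg s
  have hsδ : 0 ≤ s * δ := mul_nonneg hs0 hδ
  have ha : 0 ≤ a := by linarith only [hδa, ht1, ht2]
  -- the diagonal at the new centre
  have hdg : ∀ i ≤ n, |L i (a + t) (a + t) - L i a a - σ i * t| ≤ ε * r := by
    intro i hi
    have h1 : a - (A * k 0 + μ) * r ≤ a + t := by linarith only [ht1, hμr, hμ'r, hAr]
    have h2 : a + t ≤ a + (γ + μ) * r := by linarith only [ht2, hμr, hμ'r, hγr]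
    by_cases hiS : i ∈ S ∨ i = n
    · have := H.stat i hiS (a + t) (a + t) h1 le_rfl h2
      rwa [add_sub_cancel_left] at this
    · push Not at hiS
      have := H.diag i (lt_of_le_of_ne hi hiS.2) hiS.1 (a + t) h1 h2
      rwa [add_sub_cancel_left] at this
  have hB0 : 0 ≤ B := (hσ 0 (Nat.zero_le n)).trans (hσB 0 (Nat.zero_le n))
  have hεr' : 2 * (ε * r) + (B + s) * (δ * r) ≤ ε' * r := by
    have := mul_le_mul_of_nonneg_right hε hr.le
    linarith
  have hεr : 2 * (ε * r) ≤ ε' * r := by
    have : 0 ≤ (B + s) * (δ * r) := mul_nonneg (add_nonneg hB0 hs0) hδr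
    linarith
  refine ⟨?_, ?_, hsa, ?_, ?_, ?_, ?_, ?_, ?_, ?_⟩
  · linarith only [ht1, ht2, hlo, hμr]
  · linarith only [ht1, ht2, hhi, hμr, hor]
  · intro i hi a' w' h1 h2 h3
    have hin : i ≤ n := by
      rcases hi with h | h
      · exact hS i h
      · exact h.le
    have g1 := abs_le.1 (H.stat i hi a' w' (by linarith only [ht1, hμr, h1]) h2 (by linarith only [ht2, hμr, h3]))
    have g2 := abs_le.1 (hdg i hin)
    rw [abs_le]
    constructor <;> linarith only [hεr, g1, g2]
  · intro i hi hiS a' h1 h2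
    have g1 := abs_le.1 (H.diag i hi hiS a' (by linarith only [ht1, hμr, h1]) (by linarith only [ht2, hμr, h2]))
    have g2 := abs_le.1 (hdg i hi.le)
    rw [abs_le]
    constructor <;> linarith only [hεr, g1, g2]
  · intro i hi hiS j hj
    have g1 := H.dyn i hi hiS j hj
    have f1 : (k j - μ) * r = k j * r - μ * r := by ring
    have f2 : (k j - μ') * r = k j * r - μ' * r := by ring
    have f3 : (k (j + 1) + μ) * r = k (j + 1) * r + μ * r := by ring
    have f4 : (k (j + 1) + μ') * r = k (j + 1) * r + μ' * r := by ring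
    have f5 : 0 ≤ k j * r := mul_nonneg (hk0 j hj.le) hr.le
    have f6 : γ * r ≤ k (j + 1) * r := mul_le_mul_of_nonneg_right (hkγ (j + 1) hj) hr.le
    have f7 : k (j + 1) * r ≤ A * k 0 * r := mul_le_mul_of_nonneg_right (hkA (j + 1) hj) hr.le
    have f8 : k j * r ≤ A * k 0 * r := mul_le_mul_of_nonneg_right (hkA j hj.le) hr.le
    have g2 : L i (a + t + (γ + μ') * r) (a + t - (k j - μ') * r) ≤
        L i (a + (γ + μ) * r) (a - (k j - μ) * r) :=
      (hL i hi.le).mono (by linarith only [hδa, ht1, ht2, hlo, hμr, hμ'r, f8]) (by linarith only [hγr, f5]) (by linarith only [ht2, hμr]) (by linarith only [ht2, hμr]) (by linarith only [hγr, f5])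
        (by linarith only [ht1, ht2, hhi, hor, ho'r])
    have g3 : L i (a - (γ + μ) * r) (a - (k (j + 1) + μ) * r) ≤
        L i (a + t - (γ + μ') * r) (a + t - (k (j + 1) + μ') * r) :=
      (hL i hi.le).mono (by linarith only [hδa, ht1, ht2, hlo, f7]) (by linarith only [f6]) (by linarith only [ht1, hμr]) (by linarith only [ht1, hμr]) (by linarith only [f6])
        (by linarith only [ht1, ht2, hhi, hμr, hor, hμ'r, ho'r, hγr])
    linarith only [g1, g2, g3]
  · intro i hi hiS j hj
    have g1 := H.var i hi hiS j hj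
    have f1 : (k j - μ) * r = k j * r - μ * r := by ring
    have f2 : (k j - μ') * r = k j * r - μ' * r := by ring
    have f3 : (k j + μ) * r = k j * r + μ * r := by ring
    have f4 : (k j + μ') * r = k j * r + μ' * r := by ring
    have f5 : 0 ≤ k j * r := mul_nonneg (hk0 j hj) hr.le
    have f6 : γ * r ≤ k j * r := mul_le_mul_of_nonneg_right (hkγ j hj) hr.le
    have f8 : k j * r ≤ A * k 0 * r := mul_le_mul_of_nonneg_right (hkA j hj) hr.le
    have g2 : L i (a + t + (γ + μ') * r) (a + t - (k j - μ') * r) ≤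
        L i (a + (γ + μ) * r) (a - (k j - μ) * r) :=
      (hL i hi.le).mono (by linarith only [hδa, ht1, ht2, hlo, hμr, hμ'r, f8]) (by linarith only [hγr, f5]) (by linarith only [ht2, hμr]) (by linarith only [ht2, hμr]) (by linarith only [hγr, f5])
        (by linarith only [ht1, ht2, hhi, hor, ho'r])
    have g3 : L i (a - (γ + μ) * r) (a - (k j + μ) * r) ≤
        L i (a + t - (γ + μ') * r) (a + t - (k j + μ') * r) :=
      (hL i hi.le).mono (by linarith only [hδa, ht1, ht2, hlo, f8]) (by linarith only [f6]) (by linarith only [ht1, hμr]) (by linarith only [ht1, hμr]) (by linarith only [f6])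
        (by linarith only [ht1, ht2, hhi, hμr, hor, hμ'r, ho'r, hγr])
    linarith only [g1, g2, g3]
  · intro i hi v h1 h2
    have g2 := abs_le.1 (hdg i hi)
    have hσi := hσ i hi
    have hσs' := hσB i hi
    rcases le_or_gt t v with h3 | h3
    · -- `v ≥ t`
      have g1 := H.sl i hi (v - t)
      have e7 : a - (v - t) = a + t - v := by ring
      rw [e7] at g1
      have g3 := g1 (by linarith only [h3]) (by linarith only [h2])
      have g4 : σ i * t ≤ s * t + (B + s) * (δ * r) := by
        rcases le_or_gt 0 t with h4 | h4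
        · have h5 : σ i * t ≤ B * (δ * r) :=
            (mul_le_mul_of_nonneg_right hσs' h4).trans (mul_le_mul_of_nonneg_left ht2 hB0)
          have h6 : 0 ≤ s * t := mul_nonneg hs0 h4
          have h7 : 0 ≤ s * (δ * r) := mul_nonneg hs0 hδr
          linarith only [h5, h6, h7]
        · have h5 : σ i * t ≤ 0 := mul_nonpos_of_nonneg_of_nonpos hσi h4.le
          have h6 : 0 ≤ s * (t + δ * r) := mul_nonneg hs0 (by linarith only [ht1])
          have h7 : 0 ≤ B * (δ * r) := mul_nonneg hB0 hδr
          linarith only [h5, h6, h7]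
      linarith only [hεr', g2, g3, g4]
    · -- `v < t`
      have h4 : 0 < t := by linarith only [h1, h3]
      have h5 : L i a a ≤ L i (a + t - v) (a + t - v) :=
        (hL i hi).mono ha le_rfl (by linarith only [h3]) (by linarith only [h3]) le_rfl (by linarith only [ht2, hhi, hμr, hor, hμ'r, ho'r, hγr, h1, h3])
      have g4 : σ i * t ≤ B * (δ * r) :=
        (mul_le_mul_of_nonneg_right hσs' h4.le).trans (mul_le_mul_of_nonneg_left ht2 hB0)
      have : 0 ≤ s * v := mul_nonneg hs0 h1
      have : 0 ≤ s * (δ * r) := mul_nonneg hs0 hδr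
      have : 0 ≤ ε * r := mul_nonneg hε0 hr.le
      linarith
  · intro i hi x hx v h1 h2
    obtain ⟨c1, c2⟩ := hF x hx
    have c1' : (0 : ℝ) ≤ x.1 := by exact_mod_cast c1
    have c2' : (x.1 : ℝ) ≤ x.2 := by exact_mod_cast c2
    have hxr := hFr x hx
    have hV : (0 : ℝ) ≤ V x := Nat.cast_nonneg _
    have c3 : (x.1 : ℝ) * r ≤ x.2 * r := mul_le_mul_of_nonneg_right c2' hr.le
    have c4 : 0 ≤ (x.1 : ℝ) * r := mul_nonneg c1' hr.le
    obtain ⟨y, hy⟩ : ∃ y, t = y * r := ⟨t / r, (div_mul_cancel₀ _ hr.ne').symm⟩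
    have hy1 : y ≤ δ := le_of_mul_le_mul_right (by rw [← hy]; exact ht2) hr
    have hy2 : -δ ≤ y := le_of_mul_le_mul_right (by rw [← hy]; linarith only [ht1]) hr
    have hεx := hεV x hx
    have hv0 : 0 ≤ v * r := mul_nonneg h1 hr.le
    -- the value at the pair, at the old centre
    have up : L i (a + t - x.1 * r) (a + t - x.2 * r) ≤
        L i (a - x.1 * r) (a - x.2 * r) + (V x * max y 0 + ε) * r := by
      rcases le_or_gt 0 y with h3 | h3
      · have g1 := H.fw i hi x hx y h3 (by linarith only [hδo, ho', hy1])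
        have e7 : a - (x.1 - y) * r = a + t - x.1 * r := by rw [hy]; ring
        have e8 : a - (x.2 - y) * r = a + t - x.2 * r := by rw [hy]; ring
        rw [e7, e8] at g1
        rw [max_eq_left h3]
        linarith only [g1]
      · have g1 : L i (a + t - x.1 * r) (a + t - x.2 * r) ≤ L i (a - x.1 * r) (a - x.2 * r) :=
          (hL i hi).mono (by linarith only [hδa, ht1, ht2, hxr]) (by linarith only [c3]) (by nlinarith only [hy, hr, h3]) (by nlinarith only [hy, hr, h3]) (by linarith only [c3])
            (by linarith only [ht1, ht2, hhi, hμr, hor, hμ'r, ho'r, hγr, c4])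
        have g2 : 0 ≤ (V x * max y 0 + ε) * r :=
          mul_nonneg (add_nonneg (mul_nonneg hV (le_max_right _ _)) hε0) hr.le
        linarith only [g1, g2]
    have dn : L i (a - x.1 * r) (a - x.2 * r) - (V x * max (v - y) 0 + ε) * r ≤
        L i (a + t - (x.1 + v) * r) (a + t - (x.2 + v) * r) := by
      rcases le_or_gt 0 (v - y) with h3 | h3
      · have e9 : (x.2 + (v - y)) * r = (x.2 + v) * r - t := by rw [hy]; ring
        have g1 := H.bk i hi x hx (v - y) h3 (by rw [e9]; linarith only [h2])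
        have e7 : a - (x.1 + (v - y)) * r = a + t - (x.1 + v) * r := by rw [hy]; ring
        have e8 : a - (x.2 + (v - y)) * r = a + t - (x.2 + v) * r := by rw [hy]; ring
        rw [e7, e8] at g1
        rw [max_eq_left h3]
        linarith only [g1]
      · have e9 : (x.1 + v) * r = x.1 * r + v * r := by ring
        have e10 : (x.2 + v) * r = x.2 * r + v * r := by ring
        have g0 : v * r < t := by rw [hy]; exact mul_lt_mul_of_pos_right (by linarith only [h3]) hr
        have g1 : L i (a - x.1 * r) (a - x.2 * r) ≤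
            L i (a + t - (x.1 + v) * r) (a + t - (x.2 + v) * r) :=
          (hL i hi).mono (by linarith only [hδa, ht2, hxr, hv0, g0]) (by linarith only [c3]) (by linarith only [g0]) (by linarith only [g0]) (by linarith only [c3])
            (by linarith only [ht2, hhi, hμr, hor, hμ'r, ho'r, hγr, c4, hv0, g0])
        have g2 : 0 ≤ (V x * max (v - y) 0 + ε) * r :=
          mul_nonneg (add_nonneg (mul_nonneg hV (le_max_right _ _)) hε0) hr.le
        linarith only [g1, g2]
    have h3 : V x * max y 0 + V x * max (v - y) 0 ≤ V x * v + V x * δ := by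
      have : max y 0 + max (v - y) 0 ≤ v + δ := by
        rcases le_total y 0 with h4 | h4 <;> rcases le_total (v - y) 0 with h5 | h5
        · rw [max_eq_right h4, max_eq_right h5]; linarith only [hδ, h1]
        · rw [max_eq_right h4, max_eq_left h5]; linarith only [hy2]
        · rw [max_eq_left h4, max_eq_right h5]; linarith only [h1, hy1]
        · rw [max_eq_left h4, max_eq_left h5]; linarith only [hδ]
      have := mul_le_mul_of_nonneg_left this hV
      linarith only [this]
    have h4 : (V x * max y 0 + ε + (V x * max (v - y) 0 + ε)) * r ≤ (V x * v + ε') * r :=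
      mul_le_mul_of_nonneg_right (by linarith only [hεx, h3]) hr.le
    linarith only [up, dn, h4]
  · intro i hi x hx v h1 h2
    obtain ⟨c1, c2⟩ := hF x hx
    have c1' : (0 : ℝ) ≤ x.1 := by exact_mod_cast c1
    have c2' : (x.1 : ℝ) ≤ x.2 := by exact_mod_cast c2
    have hxr := hFr x hx
    have hV : (0 : ℝ) ≤ V x := Nat.cast_nonneg _
    have c3 : (x.1 : ℝ) * r ≤ x.2 * r := mul_le_mul_of_nonneg_right c2' hr.le
    have c4 : 0 ≤ (x.1 : ℝ) * r := mul_nonneg c1' hr.le
    obtain ⟨y, hy⟩ : ∃ y, t = y * r := ⟨t / r, (div_mul_cancel₀ _ hr.ne').symm⟩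
    have hy1 : y ≤ δ := le_of_mul_le_mul_right (by rw [← hy]; exact ht2) hr
    have hy2 : -δ ≤ y := le_of_mul_le_mul_right (by rw [← hy]; linarith only [ht1]) hr
    have hεx := hεV x hx
    have hv0 : 0 ≤ v * r := mul_nonneg h1 hr.le
    have hvr : v * r ≤ o' * r := mul_le_mul_of_nonneg_right h2 hr.le
    have up : L i (a + t - (x.1 - v) * r) (a + t - (x.2 - v) * r) ≤
        L i (a - x.1 * r) (a - x.2 * r) + (V x * max (v + y) 0 + ε) * r := by
      rcases le_or_gt 0 (v + y) with h3 | h3
      · have g1 := H.fw i hi x hx (v + y) h3 (by linarith only [hδo, h2, hy1])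
        have e7 : a - (x.1 - (v + y)) * r = a + t - (x.1 - v) * r := by rw [hy]; ring
        have e8 : a - (x.2 - (v + y)) * r = a + t - (x.2 - v) * r := by rw [hy]; ring
        rw [e7, e8] at g1
        rw [max_eq_left h3]
        linarith only [g1]
      · have e9 : (x.1 - v) * r = x.1 * r - v * r := by ring
        have e10 : (x.2 - v) * r = x.2 * r - v * r := by ring
        have g0 : v * r + t < 0 := by
          rw [hy]
          have : (v + y) * r < 0 := mul_neg_of_neg_of_pos h3 hr
          linarith only [this]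
        have g1 : L i (a + t - (x.1 - v) * r) (a + t - (x.2 - v) * r) ≤
            L i (a - x.1 * r) (a - x.2 * r) :=
          (hL i hi).mono (by linarith only [hδa, ht1, hxr, hv0, g0]) (by linarith only [c3]) (by linarith only [g0]) (by linarith only [g0]) (by linarith only [c3])
            (by linarith only [ht1, hhi, hμr, hor, hμ'r, ho'r, hγr, c4, hv0, g0])
        have g2 : 0 ≤ (V x * max (v + y) 0 + ε) * r :=
          mul_nonneg (add_nonneg (mul_nonneg hV (le_max_right _ _)) hε0) hr.le
        linarith only [g1, g2]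
    have dn : L i (a - x.1 * r) (a - x.2 * r) - (V x * max (-y) 0 + ε) * r ≤
        L i (a + t - x.1 * r) (a + t - x.2 * r) := by
      rcases le_or_gt 0 (-y) with h3 | h3
      · have e9 : (x.2 + -y) * r = x.2 * r - t := by rw [hy]; ring
        have g1 := H.bk i hi x hx (-y) h3 (by rw [e9]; linarith only [hδa, ht1, ht2, hxr])
        have e7 : a - (x.1 + -y) * r = a + t - x.1 * r := by rw [hy]; ring
        have e8 : a - (x.2 + -y) * r = a + t - x.2 * r := by rw [hy]; ring
        rw [e7, e8] at g1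
        rw [max_eq_left h3]
        linarith only [g1]
      · have g0 : 0 < t := by rw [hy]; exact mul_pos (by linarith only [h3]) hr
        have g1 : L i (a - x.1 * r) (a - x.2 * r) ≤ L i (a + t - x.1 * r) (a + t - x.2 * r) :=
          (hL i hi).mono (by linarith only [hδa, ht2, hxr, g0]) (by linarith only [c3]) (by linarith only [g0]) (by linarith only [g0]) (by linarith only [c3])
            (by linarith only [ht2, hhi, hμr, hor, hμ'r, ho'r, hγr, c4, g0])
        have g2 : 0 ≤ (V x * max (-y) 0 + ε) * r :=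
          mul_nonneg (add_nonneg (mul_nonneg hV (le_max_right _ _)) hε0) hr.le
        linarith only [g1, g2]
    have h3 : V x * max (v + y) 0 + V x * max (-y) 0 ≤ V x * v + V x * δ := by
      have : max (v + y) 0 + max (-y) 0 ≤ v + δ := by
        rcases le_total (-y) 0 with h4 | h4 <;> rcases le_total (v + y) 0 with h5 | h5
        · rw [max_eq_right h4, max_eq_right h5]; linarith only [hδ, h1]
        · rw [max_eq_right h4, max_eq_left h5]; linarith only [hy1]
        · rw [max_eq_left h4, max_eq_right h5]; linarith only [h1, hy2]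
        · rw [max_eq_left h4, max_eq_left h5]; linarith only [hδ]
      have := mul_le_mul_of_nonneg_left this hV
      linarith only [this]
    have h4 : (V x * max (v + y) 0 + ε + (V x * max (-y) 0 + ε)) * r ≤ (V x * v + ε') * r :=
      mul_le_mul_of_nonneg_right (by linarith only [hεx, h3]) hr.le
    linarith only [up, dn, h4]

end CellW

end Pool.STAT
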