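import Pool.Agent.H80.STAT.Rdd
import Pool.Agent.H90.STAT.FamA

/-!
# The static theorem for the drop-out system of a family

`DPP.ok1`: the conditions `CndX` and the axioms `Ok0` of the drop-out system, with one degree.

`DPP.EntR`: the entropies of the family conditioned on an event: the times, and the exactness
behind the numbers `h` of the balls.

`DPP.RowN`: the rows of the last coordinate over the chain `C`, given the exact time.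

`DPP.fam_staR`: if all large events have the entropies and, for integer slopes, the rows, then
there is a new label (`NDat.NewLab0`) of the drop-out system on a large event.
-/

set_option autoImplicit false

namespace Pool.STAT.DPP

open Finset MvPolynomial
open Pool.Agent.H49.Ent Pool.Agent.H32.Dense Pool.STK Pool.KS3 Pool.KA Pool.KSAT Pool.K2S Pool.PB
  Pool.GEN
open Pool.STAT.CLO Pool.STAT.CDat Pool.STAT.RR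
open Pool.FLF (Fam.sub)

/-- **The conditions and the axioms of the drop-out system**, with one degree. -/
theorem ok1 (N K : ℕ) : ∃ (K'' c c' : ℕ) (T₀ : ℝ), 2 ≤ T₀ ∧ ∀ {m J : ℕ} {F : Fam m J}
    (C B : CDat F) (T : TDat F) (p : ℕ → Prop) [DecidablePred p] (e : ℕ → Fin m)
    (w₀ z M : ℕ) (g h : ℕ → ℕ → ℕ) (C₁ C₁' S Q ε : ℝ) (σ : ℕ → ℝ) (A : F.Ω → Prop) (L : ℝ),
    Hyp C B T p e (N + 1) K w₀ z M g h C₁ S Q ε A → T₀ ≤ S → S ≤ Q → 0 ≤ ε →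
    Q ^ c * ε ≤ 1 → 0 ≤ C₁' → Real.exp (C₁ * z) * S ^ c' ≤ Real.exp (C₁' * z) → 0 ≤ L →
    Num (Nat.count p (N + 1)) J w₀ z M (dg p g) (fun i => σ (Nat.nth p i)) C₁' →
    (∀ k ≤ M, C.Near e (N + 1) w₀ z g k z L A) → (∀ k ≤ M, B.Near e N w₀ z h k 0 L A) →
    (∀ k ≤ M, ∀ i, 1 ≤ i → i ≤ N → p i → g k i + z ≤ J) →
    (∀ k ≤ M, ∀ i, 1 ≤ i → i ≤ N → ¬ p i → h k i ≤ J) →
    (dd C B T p (N + 1) w₀ z g).CndX (dx C p e (N + 1) w₀ z) (Nat.count p (N + 1)) K'' w₀ z M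
      (dg p g) C₁' A ∧
    ∀ (E : F.Ω → Prop) (hE : 0 < Pe F.p E), (∀ ω, E ω → A ω) → ∀ κ e₀ ε' : ℝ,
    (Fam.sub F E hE).Tm e₀ →
    (∀ k ≤ M, ExW F E (fun j : Fin N => e (j + 1)) (w₀ + k * z)
      ((∑ i ∈ Ico 1 (N + 1), ((J : ℝ) - h k i)) * Real.log 2 - ε')) → 0 ≤ ε' →
    e₀ + ε' + (N + 1 : ℕ) * Real.log (11 + 2 * L) ≤ κ * z →
    ((dd C B T p (N + 1) w₀ z g).ndX (dx C p e (N + 1) w₀ z) (Nat.count p (N + 1)) w₀ z M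
      (dg p g)).Ok0 (Nat.count p (N + 1)) K'' J w₀ z M (fun i => σ (Nat.nth p i)) κ C₁'
      (Pool.Agent.H49.Ent.cond F.p E True) := by
  obtain ⟨K'', c₁, c', T₁, hT₁, h1⟩ := cnd (N + 1) K
  obtain ⟨c₂, T₂, hT₂, h2⟩ := full N K
  refine ⟨K'', c₁ + c₂, c', T₁ + T₂, by linarith, ?_⟩
  intro m J F C B T p _ e w₀ z M g h C₁ C₁' S Q ε σ A L H hS hSQ hε hεQ hC₁ hS' hL
    hnum hnC hnB hgJ hhJ
  have hQ1 : 1 ≤ Q := by linarith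
  have hε1 : Q ^ c₁ * ε ≤ 1 :=
    (mul_le_mul_of_nonneg_right (pow_up hQ1 (by omega)) hε).trans hεQ
  have hε2 : Q ^ c₂ * ε ≤ 1 :=
    (mul_le_mul_of_nonneg_right (pow_up hQ1 (by omega)) hε).trans hεQ
  have hc := h1 C B T p e w₀ z M g h C₁ C₁' S Q ε A H (by linarith) hSQ hε hε1 hS'
  refine ⟨hc, fun E hE hEA κ e₀ ε' ht hex hε' hκ => ?_⟩
  have hlog : 0 ≤ ((N + 1 : ℕ) : ℝ) * Real.log (11 + 2 * L) :=
    mul_nonneg (Nat.cast_nonneg _) (Real.log_nonneg (by linarith))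
  refine ok0X hc hnum hC₁ (isLaw_cond F.isLaw hE) (fun ω hω => hEA ω (cond_supp hω)) ?_
    fun k hk => ?_
  · refine le_trans ?_ (nd_time hE ht (by have := H.top; omega))
    linarith
  · refine le_trans ?_ (h2 C B T p e w₀ z M g h C₁ C₁' S Q ε K'' A E L H (by linarith)
      (by linarith) hε hε2 hL k hk hc (hnC k hk) (hnB k hk) (hgJ k hk) (hhJ k hk) hE hEA e₀ ε'
      ht (hex k hk))
    linarith

/-- **The entropies of a law of a family**: times, and exactness behind the numbers of the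
balls. -/
structure EntR {m J : ℕ} (F : Fam m J) (e : ℕ → Fin m) (N w₀ z M : ℕ) (h : ℕ → ℕ → ℕ)
    (e₀ ε' : ℝ) (E : F.Ω → Prop) : Prop where
  pos : 0 < Pe F.p E
  tm : (Fam.sub F E pos).Tm e₀
  ex : ∀ k ≤ M, ExW F E (fun j : Fin N => e (j + 1)) (w₀ + k * z)
    ((∑ i ∈ Ico 1 (N + 1), ((J : ℝ) - h k i)) * Real.log 2 - ε')

/-- **The rows of the last coordinate over the chain `C`**, given the exact time. -/
def RowN {m J : ℕ} (F : Fam m J) (C : CDat F) (e : ℕ → Fin m) (N w₀ z U : ℕ) (g : ℕ → ℕ → ℕ)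
    (ρ a C₂ : ℝ) (v : ℕ) (E : F.Ω → Prop) : Prop :=
  ∀ P : ℕ, (P : ℝ) ≤ ρ * (U * z) →
    CH (Pool.Agent.H49.Ent.cond F.p E True)
      (fun ω => ⌊(2 : ℝ) ^ P * fh C e w₀ z g v ω (N + 1)⌋)
      (fun ω => (C.lab w₀ z v ω,
        ((fun j : Fin N => ⌊(2 : ℝ) ^ (U * z) * fh C e w₀ z g v ω (j + 1)⌋), F.T ω))) ≤
      (1 - a) * (P * Real.log 2) + C₂ * z

/-- **The labels, for the static theorem.** -/
structure StIn {m J : ℕ} {F : Fam m J} (C B : CDat F) (T : TDat F) (p : ℕ → Prop)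
    [DecidablePred p] (e : ℕ → Fin m) (N K w₀ z M U : ℕ) (g h : ℕ → ℕ → ℕ) (σ : ℕ → ℝ)
    (C₁ C₁' S Q ε L T₀ : ℝ) (c c' : ℕ) (A : F.Ω → Prop) : Prop where
  hyp : Hyp C B T p e (N + 1) K w₀ z M g h C₁ S Q ε A
  hS : T₀ ≤ S
  hSQ : S ≤ Q
  hε : 0 ≤ ε
  hQε : Q ^ c * ε ≤ 1 / 2 ^ (U * z)
  hC : Real.exp (C₁ * z) * S ^ c' ≤ Real.exp (C₁' * z)
  hL : 0 ≤ L
  num : Num (Nat.count p (N + 1)) J w₀ z M (dg p g) (fun i => σ (Nat.nth p i)) C₁'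
  nearC : ∀ k ≤ M, C.Near e (N + 1) w₀ z g k z L A
  nearB : ∀ k ≤ M, B.Near e N w₀ z h k 0 L A
  gJ : ∀ k ≤ M, ∀ i, 1 ≤ i → i ≤ N → p i → g k i + z ≤ J
  hJ : ∀ k ≤ M, ∀ i, 1 ≤ i → i ≤ N → ¬ p i → h k i ≤ J

/-- Smaller bound for the distance. -/
theorem StIn.monoT {m J : ℕ} {F : Fam m J} {C B : CDat F} {T : TDat F} {p : ℕ → Prop}
    [DecidablePred p] {e : ℕ → Fin m} {N K w₀ z M U : ℕ} {g h : ℕ → ℕ → ℕ} {σ : ℕ → ℝ}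
    {C₁ C₁' S Q ε L T₀ T₁ : ℝ} {c c' : ℕ} {A : F.Ω → Prop}
    (H : StIn C B T p e N K w₀ z M U g h σ C₁ C₁' S Q ε L T₀ c c' A) (hT : T₁ ≤ T₀) :
    StIn C B T p e N K w₀ z M U g h σ C₁ C₁' S Q ε L T₁ c c' A :=
  ⟨H.hyp, hT.trans H.hS, H.hSQ, H.hε, H.hQε, H.hC, H.hL, H.num, H.nearC, H.nearB, H.gJ, H.hJ⟩

/-- **The constants are good**: a new label of the drop-out system on a large event. -/
def FamR (N K A : ℕ) (p : ℕ → Prop) [DecidablePred p] (σ : ℕ → ℝ) (C₁' C₂ ρ a : ℝ)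
    (Kd c c' : ℕ) (T₀ : ℝ) (s : StaC) : Prop :=
  ∀ κ₂ : ℝ, 0 < κ₂ → ∃ z₀ : ℕ,
    ∀ {m J : ℕ} {F : Fam m J} (C B : CDat F) (T : TDat F) (e : ℕ → Fin m) (w₀ z : ℕ)
      (g h : ℕ → ℕ → ℕ) (C₁ S Q ε L e₀ ε' : ℝ) (A₀ B₀ : F.Ω → Prop), z₀ ≤ z →
    StIn C B T p e N K w₀ z s.M s.U g h σ C₁ C₁' S Q ε L T₀ c c' A₀ → (∀ ω, B₀ ω → A₀ ω) →
    0 < Pe F.p B₀ → 0 ≤ ε' →
    e₀ + ε' + (N + 1 : ℕ) * Real.log (11 + 2 * L) ≤ s.κ * z →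
    (∀ E : F.Ω → Prop, (∀ ω, E ω → B₀ ω) → Real.exp (-(κ₂ * z)) * Pe F.p B₀ ≤ Pe F.p E →
      EntR F e N w₀ z s.M h e₀ ε' E) →
    ((∀ i ≤ Nat.count p (N + 1), (⌈σ (Nat.nth p i)⌉₊ : ℝ) = σ (Nat.nth p i)) →
      ∀ E : F.Ω → Prop, (∀ ω, E ω → B₀ ω) → Real.exp (-(κ₂ * z)) * Pe F.p B₀ ≤ Pe F.p E →
      ∀ v, s.U ≤ v → v + 2 * s.U ≤ s.M → RowN F C e N w₀ z s.U g ρ a C₂ v E) →
    (dd C B T p (N + 1) w₀ z g).CndX (dx C p e (N + 1) w₀ z) (Nat.count p (N + 1)) Kd w₀ z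
      s.M (dg p g) C₁' A₀ ∧
    ∃ E : F.Ω → Prop, (∀ ω, E ω → B₀ ω) ∧ Real.exp (-(κ₂ * z)) * Pe F.p B₀ ≤ Pe F.p E ∧
      ((dd C B T p (N + 1) w₀ z g).ndX (dx C p e (N + 1) w₀ z) (Nat.count p (N + 1)) w₀ z s.M
        (dg p g)).Ok0 (Nat.count p (N + 1)) Kd J w₀ z s.M (fun i => σ (Nat.nth p i)) s.κ C₁'
        (Pool.Agent.H49.Ent.cond F.p E True) ∧
      ∃ v v' i, v ≤ v' ∧ v' ≤ s.M ∧ 1 ≤ i ∧ i ≤ Nat.count p (N + 1) ∧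
        ((dd C B T p (N + 1) w₀ z g).ndX (dx C p e (N + 1) w₀ z) (Nat.count p (N + 1)) w₀ z
          s.M (dg p g)).NewLab0 J w₀ z i v v' A s.K' s.C₆ s.η'
          (Pool.Agent.H49.Ent.cond F.p E True)

/-- Larger bounds for the distance are good. -/
theorem FamR.monoT {N K A : ℕ} {p : ℕ → Prop} [DecidablePred p] {σ : ℕ → ℝ} {C₁' C₂ ρ a : ℝ}
    {Kd c c' : ℕ} {T₀ T₁ : ℝ} {s : StaC} (H : FamR N K A p σ C₁' C₂ ρ a Kd c c' T₀ s)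
    (hT : T₀ ≤ T₁) : FamR N K A p σ C₁' C₂ ρ a Kd c c' T₁ s := by
  intro κ₂ hκ₂
  obtain ⟨z₀, h⟩ := H κ₂ hκ₂
  exact ⟨z₀, fun C B T e w₀ z g h' C₁ S Q ε L e₀ ε' A₀ B₀ hz HI =>
    h C B T e w₀ z g h' C₁ S Q ε L e₀ ε' A₀ B₀ hz (HI.monoT hT)⟩

/-- **The static theorem for the drop-out system of a family.** -/
theorem fam_staR (N K A : ℕ) (p : ℕ → Prop) [DecidablePred p] (hp : Stc p (N + 1)) (σ : ℕ → ℝ)
    (C₁' C₂ ρ a : ℝ) (hσ0 : σ 0 = 1) (hσ : ∀ i, 1 ≤ σ i) (hC₁ : 1 ≤ C₁') (hC₂ : 0 ≤ C₂)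
    (hρ : 0 < ρ) (hρ1 : ρ ≤ 1) (ha : 0 < a) (ha1 : a ≤ 1) :
    ∃ (Kd c c' : ℕ) (T₀ : ℝ) (s : StaC), 2 ≤ T₀ ∧
      FamR N K A p σ C₁' C₂ ρ a Kd c c' T₀ s := by
  obtain ⟨Kd, c₁, c', T₁, hT₁, h1⟩ := ok1 N K
  obtain ⟨c₂, C₃, T₂, hC₃, hT₂, h2⟩ := rat_dd N K Kd p C₁' C₂ ρ a (by linarith) hC₂ hρ1
  have hn : 1 ≤ Nat.count p (N + 1) := hp.ix_pos (Nat.succ_pos N)
  obtain ⟨s, hs⟩ := sta_rat (Nat.count p (N + 1)) Kd A (fun i => σ (Nat.nth p i)) C₁' C₃ ρ a hn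
    (by show σ (Nat.nth p 0) = 1; rw [hp.st_zero, hσ0]) (fun i => hσ _) hC₁ hC₃ hρ hρ1 ha ha1
  obtain ⟨κ₃, hκ₃, z₃, h3⟩ := h2 s.U s.U_pos
  refine ⟨Kd, c₁ + c₂, c', T₁ + T₂, ⟨s.U, s.M, s.K', s.C₆, s.η', min s.κ κ₃, s.U_pos,
    s.C₆_nonneg, s.η'_pos, lt_min s.κ_pos hκ₃⟩, by linarith, fun κ₂ hκ₂ => ?_⟩
  obtain ⟨z₄, h4⟩ := hs κ₂ hκ₂
  refine ⟨max z₃ z₄, ?_⟩
  intro m J F C B T e w₀ z g h C₁ S Q ε L e₀ ε' A₀ B₀ hz H hBA hB₀ hε' hκ hE hR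
  simp only at H hκ hE hR ⊢
  have hz0 : (0 : ℝ) ≤ z := Nat.cast_nonneg z
  have hS2 : 2 ≤ S := by linarith [H.hS]
  have hQ1 : 1 ≤ Q := by linarith [H.hSQ]
  have hε0 := H.hε
  have hp2 : (1 : ℝ) / 2 ^ (s.U * z) ≤ 1 := by
    rw [div_le_one (by positivity)]
    exact one_le_pow₀ (by norm_num)
  have hε1 : Q ^ (c₁ + c₂) * ε ≤ 1 := H.hQε.trans hp2
  have hε1' : Q ^ c₁ * ε ≤ 1 :=
    (mul_le_mul_of_nonneg_right (pow_up hQ1 (by omega)) hε0).trans hε1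
  have hε2 : Q ^ c₂ * ε ≤ 1 / 2 ^ (s.U * z) :=
    (mul_le_mul_of_nonneg_right (pow_up hQ1 (by omega)) hε0).trans H.hQε
  obtain ⟨hc, hok⟩ := h1 C B T p e w₀ z s.M g h C₁ C₁' S Q ε σ A₀ L H.hyp
    (by linarith [H.hS]) H.hSQ hε0 hε1' (by linarith) H.hC H.hL H.num H.nearC H.nearB H.gJ H.hJ
  have hok' : ∀ κ : ℝ, min s.κ κ₃ ≤ κ → ∀ E : F.Ω → Prop, (∀ ω, E ω → B₀ ω) →
      Real.exp (-(κ₂ * z)) * Pe F.p B₀ ≤ Pe F.p E →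
      ((dd C B T p (N + 1) w₀ z g).ndX (dx C p e (N + 1) w₀ z) (Nat.count p (N + 1)) w₀ z s.M
        (dg p g)).Ok0 (Nat.count p (N + 1)) Kd J w₀ z s.M (fun i => σ (Nat.nth p i)) κ C₁'
        (Pool.Agent.H49.Ent.cond F.p E True) := by
    intro κ hκ' E hEB hP
    obtain ⟨e1, e2, e3⟩ := hE E hEB hP
    exact hok E e1 (fun ω hω => hBA ω (hEB ω hω)) κ e₀ ε' e2 e3 hε'
      (hκ.trans (mul_le_mul_of_nonneg_right hκ' hz0))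
  refine ⟨hc, ?_⟩
  obtain ⟨E, hEB, hP, hnew⟩ := h4 J w₀ z ((dd C B T p (N + 1) w₀ z g).ndX
    (dx C p e (N + 1) w₀ z) (Nat.count p (N + 1)) w₀ z s.M (dg p g)) F.p B₀
    ((le_max_right _ _).trans hz) F.isLaw hB₀
    (fun E hEB hP => hok' s.κ (min_le_left _ _) E hEB hP)
    (fun hint E hEB hP k hk => h3 C B T e w₀ z s.M g h C₁ S Q ε A₀ E
      (fun i => σ (Nat.nth p i)) (k + s.U) ((le_max_left _ _).trans hz) (by omega) H.hyp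
      (by linarith) (by linarith [H.hS, H.hSQ]) hε0 hε2 (hE E hEB hP).pos
      (fun ω hω => hBA ω (hEB ω hω)) (hok' κ₃ (min_le_right _ _) E hEB hP)
      (hR hint E hEB hP (k + s.U) (by omega) (by omega)))
  exact ⟨E, hEB, hP, hok' _ le_rfl E hEB hP, hnew⟩

end Pool.STAT.DPP
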