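import Pool.Agent.H75.STAT.StaR
import Pool.Agent.H74.STAT.NDp
import Pool.Agent.H87.GEN.StaE

/-!
# The static theorem in a class, one cell with dynamic coordinates

`DpC`: a new label of a drop-out system is a chain; `dp_cst`: one constant for all coordinates.
`Ctx.noR`: there is no new label of the drop-out systems in the class.
`LabR`: the class input: the fat chain, the balls, the polynomials of the dynamic coordinates and
the rows of the last coordinate over the fat chain.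
`cell_falseR`: there is no cell with this input.
-/

set_option autoImplicit false

namespace Pool.STA

open Finset MvPolynomial
open Pool.Agent.H49.Ent Pool.Agent.H32.Dense Pool.STK Pool.KS3 Pool.KA Pool.KSAT Pool.K2S Pool.PB
open Pool.GEN Pool.S6C Pool.STAT
open Pool.STAT.DPP (Stc Hyp TDat dd dx dg StIn RowN FamR EntR)
open Pool.STAT.NL (LipC)
open Pool.FLF (Fam.sub)
open Pool.LBT (ThrOf)

/-- **A new label of the drop-out system is a chain of two-sided labels.** -/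
def DpC (p : ℕ → Prop) [DecidablePred p] (n K Kd K' i K'' c₀ c : ℕ) (T₀ : ℝ) : Prop :=
  ∀ {m J : ℕ} {F : Fam m J} (C B : CDat F) (T : TDat F) (e : ℕ → Fin m)
    (w₀ z M v v' A' P e₀ e₁ r : ℕ) (g h : ℕ → ℕ → ℕ) (C₁ C₁' S Q ε κ C₆ η' : ℝ) (σ : ℕ → ℝ)
    (A E : F.Ω → Prop) (q : F.Ω → ℝ),
    Hyp C B T p e n K w₀ z M g h C₁ S Q ε A → 0 ≤ S → T₀ ≤ Q → Q ≤ 2 ^ r →
    (dd C B T p n w₀ z g).CndX (dx C p e n w₀ z) (Nat.count p n) Kd w₀ z M (dg p g) C₁' A →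
    LipC F C w₀ z v (Nat.nth p i) e₀ g A → Sub E A →
    (∀ j j', 1 ≤ j → j ≤ n → 1 ≤ j' → j' ≤ n → e j = e j' → j = j') →
    (∀ ω, q ω = Pool.Agent.H49.Ent.cond F.p E True ω) →
    ((dd C B T p n w₀ z g).ndX (dx C p e n w₀ z) (Nat.count p n) w₀ z M (dg p g)).Ok0
      (Nat.count p n) Kd J w₀ z M σ κ C₁' q →
    v ≤ v' → v' ≤ M → 0 ≤ C₆ →
    ((dd C B T p n w₀ z g).ndX (dx C p e n w₀ z) (Nat.count p n) w₀ z M (dg p g)).NewLab0
      J w₀ z i v v' A' K' C₆ η' q →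
    P + c₀ ≤ g v (Nat.nth p i) + A' * z →
    e₀ + A' * z + ⌈2 * (C₆ * z)⌉₊ + c * r + c₀ ≤ e₁ →
    ∃ E' : F.Ω → Prop, Sub E' E ∧ η' / 2 * Pe F.p E ≤ Pe F.p E' ∧
      ChN F (fun l => e (l + 1)) (Nat.nth p i) (fun _ => K'') (w₀ + v * z) (w₀ + v * z) e₁
        (fun l => if l = Nat.nth p i - 1 then P else g v (l + 1)) E'

/-- One constant for all the coordinates. -/
theorem dp_cst (p : ℕ → Prop) [DecidablePred p] (n K Kd K' : ℕ) (hp : Stc p n) :
    ∃ (c : ℕ) (T₀ : ℝ), 2 ≤ T₀ ∧ ∀ i, 1 ≤ i → i ≤ Nat.count p n →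
      ∃ K'' c₀ : ℕ, DpC p n K Kd K' i K'' c₀ c T₀ := by
  classical
  have h0 : ∀ i : ℕ, ∃ (c : ℕ) (T₀ : ℝ), 2 ≤ T₀ ∧ (1 ≤ i → i ≤ Nat.count p n →
      ∃ K'' c₀ : ℕ, DpC p n K Kd K' i K'' c₀ c T₀) := by
    intro i
    by_cases hi : 1 ≤ i ∧ i ≤ Nat.count p n
    · obtain ⟨K'', c₀, c, T₀, hT₀, h⟩ := NL.dp_chn p n K Kd K' i hp hi.1 hi.2
      exact ⟨c, T₀, hT₀, fun _ _ => ⟨K'', c₀, h⟩⟩
    · exact ⟨0, 2, le_rfl, fun h1 h2 => absurd ⟨h1, h2⟩ hi⟩
  choose c T₀ hT₀ h using h0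
  obtain ⟨cm, hcm⟩ : ∃ cm : ℕ, ∀ i ≤ Nat.count p n, c i ≤ cm :=
    ⟨∑ i ∈ range (Nat.count p n + 1), c i, fun i hi =>
      Finset.single_le_sum (f := c) (fun _ _ => Nat.zero_le _) (mem_range.2 (by omega))⟩
  obtain ⟨Tm, hTm⟩ : ∃ Tm : ℝ, ∀ i ≤ Nat.count p n, T₀ i ≤ Tm :=
    ⟨∑ i ∈ range (Nat.count p n + 1), T₀ i, fun i hi =>
      Finset.single_le_sum (f := T₀) (fun i _ => by linarith only [hT₀, hT₀ i])
        (mem_range.2 (by omega))⟩
  refine ⟨cm, Tm, (hT₀ 0).trans (hTm 0 (Nat.zero_le _)), fun i hi1 hi2 => ?_⟩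
  obtain ⟨K'', c₀, hD⟩ := h i hi1 hi2
  refine ⟨K'', c₀, ?_⟩
  intro m J F C B T e w₀ z M v v' A' P e₀ e₁ r g h C₁ C₁' S Q ε κ C₆ η' σ A E q k1 k2 k3 k4 k5
    k6 k7 k8 k9 k10 k11 k12 k13 k14 k15 k16
  refine hD C B T e w₀ z M v v' A' P e₀ e₁ r g h C₁ C₁' S Q ε κ C₆ η' σ A E q k1 k2
    ((hTm i hi2).trans k3) k4 k5 k6 k7 k8 k9 k10 k11 k12 k13 k14 k15 ?_
  have := Nat.mul_le_mul_right r (hcm i hi2)
  omega

/-- Larger bounds are good. -/
theorem DpC.mono {p : ℕ → Prop} [DecidablePred p] {n K Kd K' i K'' c₀ c : ℕ} {T₀ T₁ : ℝ}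
    (H : DpC p n K Kd K' i K'' c₀ c T₀) (hT : T₀ ≤ T₁) : DpC p n K Kd K' i K'' c₀ c T₁ := by
  intro m J F C B T e w₀ z M v v' A' P e₀ e₁ r g h C₁ C₁' S Q ε κ C₆ η' σ A E q k1 k2 k3 k4 k5
    k6 k7 k8 k9 k10 k11 k12 k13 k14 k15 k16
  exact H C B T e w₀ z M v v' A' P e₀ e₁ r g h C₁ C₁' S Q ε κ C₆ η' σ A E q k1 k2
    (hT.trans k3) k4 k5 k6 k7 k8 k9 k10 k11 k12 k13 k14 k15 k16

/-- **The constants of the static theorem with dynamic coordinates**: before the cell. -/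
theorem cst_staR (n K : ℕ) (p : ℕ → Prop) [DecidablePred p] (hp : Stc p (n + 1)) (σ : ℕ → ℝ)
    (C₁' C₂ ρ a : ℝ) (hσ0 : σ 0 = 1) (hσ : ∀ i, 1 ≤ σ i) (hC₁ : 1 ≤ C₁') (hC₂ : 0 ≤ C₂)
    (hρ : 0 < ρ) (hρ1 : ρ ≤ 1) (ha : 0 < a) (ha1 : a ≤ 1) :
    ∃ (Kd c c' cX : ℕ) (T₀ : ℝ) (s : StaC), 2 ≤ T₀ ∧
      FamR n K 1 p σ C₁' C₂ ρ a Kd c c' T₀ s ∧
      ∀ i, 1 ≤ i → i ≤ Nat.count p (n + 1) →
        ∃ K'' c₀ : ℕ, DpC p (n + 1) K Kd s.K' i K'' c₀ cX T₀ := by
  obtain ⟨Kd, c, c', T₁, s, hT₁, h1⟩ :=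
    DPP.fam_staR n K 1 p hp σ C₁' C₂ ρ a hσ0 hσ hC₁ hC₂ hρ hρ1 ha ha1
  obtain ⟨cX, T₂, hT₂, h2⟩ := dp_cst p (n + 1) K Kd s.K' hp
  refine ⟨Kd, c, c', cX, T₁ + T₂, s, by linarith only [hT₁, hT₂],
    h1.monoT (by linarith only [hT₂]), fun i h3 h4 => ?_⟩
  obtain ⟨K'', c₀, h5⟩ := h2 i h3 h4
  exact ⟨K'', c₀, h5.mono (by linarith only [hT₁])⟩

/-- **No new label of a drop-out system** at the level `v` on the event `E`. -/
def NoL {m J : ℕ} (F : Fam m J) (E : F.Ω → Prop) (e : ℕ → Fin m) (p : ℕ → Prop)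
    [DecidablePred p]
    (n K Kd K' M v i : ℕ) (T₀ C₆ η' : ℝ) (cX c₀ : ℕ) (a ε₁ Ls : ℝ) : Prop :=
  ∀ (C B : CDat F) (T : TDat F) (w₀ z v' e₀ r : ℕ) (g h' : ℕ → ℕ → ℕ)
    (C₁ C₁' S' Q ε κ : ℝ) (σ : ℕ → ℝ) (A₀ : F.Ω → Prop), Sub E A₀ →
    Hyp C B T p e (n + 1) K w₀ z M g h' C₁ S' Q ε A₀ → 0 ≤ S' → T₀ ≤ Q → Q ≤ 2 ^ r →
    (dd C B T p (n + 1) w₀ z g).CndX (dx C p e (n + 1) w₀ z) (Nat.count p (n + 1)) Kd w₀ z M
      (dg p g) C₁' A₀ →
    LipC F C w₀ z v n e₀ g A₀ → (∃ e₁ : ℕ, LipC F C w₀ z v (n + 1) e₁ g A₀) →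
    ((dd C B T p (n + 1) w₀ z g).ndX (dx C p e (n + 1) w₀ z) (Nat.count p (n + 1)) w₀ z M
      (dg p g)).Ok0 (Nat.count p (n + 1)) Kd J w₀ z M σ κ C₁'
      (Pool.Agent.H49.Ent.cond F.p E True) →
    v ≤ v' → v' ≤ M → (∀ i, 1 ≤ i → i ≤ n + 1 → g v i ≤ J) → w₀ + v * z ≤ ⌊a * J⌋₊ →
    e₀ + 1 * z + ⌈2 * (C₆ * z)⌉₊ + cX * r + c₀ ≤ ⌊ε₁ * J⌋₊ →
    ⌊Ls * J⌋₊ + c₀ ≤ g v (Nat.nth p i) + 1 * z →
    ¬ ((dd C B T p (n + 1) w₀ z g).ndX (dx C p e (n + 1) w₀ z) (Nat.count p (n + 1)) w₀ z M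
      (dg p g)).NewLab0 J w₀ z i v v' 1 K' C₆ η' (Pool.Agent.H49.Ent.cond F.p E True)

/-- **The labels of a cell with dynamic coordinates**, and the rows of the last coordinate over
the fat chain: the class input. The balls have the numbers `BK.g L σ b ζ δ J`, all coordinates. -/
def LabR {m J : ℕ} (F : Fam m J) (A : F.Ω → Prop) (L : ℕ → ℝ → ℝ → ℝ) (p : ℕ → Prop)
    [DecidablePred p] (e : ℕ → Fin m) (n K M U : ℕ) (σ : ℕ → ℝ) (b ζ δ : ℝ) (C₁' C₂ ρ a Lc T₀ : ℝ)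
    (c c' : ℕ) (K₁ q ε₀ τ : ℝ) : Prop :=
  ∃ (C B : CDat F) (T : TDat F) (A' : F.Ω → Prop) (g : ℕ → ℕ → ℕ) (C₁ Sr Q ε : ℝ),
    Sub A' A ∧ Pe F.p A ≤ K₁ * Pe F.p A' ∧
    StIn C B T p e n K ⌊b * J⌋₊ ⌊ζ * J⌋₊ M U g (BK.g L σ b ζ δ J) σ C₁ C₁' Sr Q ε Lc T₀ c c'
      A' ∧ Q ≤ 2 ^ ⌊q * J⌋₊ ∧ (∀ k ≤ M, g k (n + 1) = BK.g L σ b ζ δ J k (n + 1)) ∧
    (∀ k ≤ M, ∀ i, 1 ≤ i → i ≤ n + 1 → g k i ≤ J) ∧
    (∀ v ≤ M, LipC F C ⌊b * J⌋₊ ⌊ζ * J⌋₊ v n ⌊ε₀ * J⌋₊ g A' ∧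
      ∃ e₁ : ℕ, LipC F C ⌊b * J⌋₊ ⌊ζ * J⌋₊ v (n + 1) e₁ g A') ∧
    ∀ E : F.Ω → Prop, (∀ ω, E ω → A' ω) → Real.exp (-(τ * J)) * Pe F.p A ≤ Pe F.p E →
      ∀ v, U ≤ v → v + 2 * U ≤ M → RowN F C e n ⌊b * J⌋₊ ⌊ζ * J⌋₊ U g ρ a C₂ v E

section

variable {m n : ℕ} {S : PCl m} {e : ℕ → Fin m} {L : ℕ → ℝ → ℝ → ℝ} {θ : ℝ}
  {P' : List (Fin m) × Fin m → ℝ → ℝ → ℝ} {ρ : ℝ → ℝ}

/-- **No new label of a drop-out system**, on every event of the class. -/
theorem Ctx.noR (H : Ctx S e n L θ P' ρ) {p : ℕ → Prop} [DecidablePred p] (hp : Stc p (n + 1))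
    {K Kd K' i K'' c₀ cX : ℕ} (M v : ℕ) {T₀ : ℝ}
    (hD : DpC p (n + 1) K Kd K' i K'' c₀ cX T₀)
    (hi : 1 ≤ i) (hin : i ≤ Nat.count p (n + 1)) {C₆ η' : ℝ} (hC₆ : 0 ≤ C₆) (hη : 0 < η')
    (a : ℚ) {h ε₁ : ℝ} (ha0 : 0 ≤ a) (ha : a ≤ 1) (hε : ε₁ < θ * a) (hh : 0 < h)
    (hL : L (Nat.nth p i) a a + h ≤ 1) : Bas S (fun _ F A =>
      NoL F A e p n K Kd K' M v i T₀ C₆ η' cX c₀ a ε₁ (L (Nat.nth p i) a a + h)) := by
  have hs1 : 1 ≤ Nat.nth p i := hp.st_pos hi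
  have hsn : Nat.nth p i ≤ n + 1 := hp.st_le hin
  rcases Nat.lt_or_ge n (Nat.nth p i) with h2 | h2
  · -- the last coordinate
    have hs : Nat.nth p i = n + 1 := by omega
    rw [hs] at hL
    have hno := H.tgs.no () K'' a a h ha0 le_rfl ha hh hL
    refine Bas.mono 0 (NL.Bas.frac hno (c := η' / 2) (by positivity)) ?_
    intro J _ F A hA C B T w₀ z v' e₀ r g h' C₁ C₁' S' Q ε κ σ A₀ k0 k1 k2 k3 k4 k5 _ ⟨e₁, k7⟩
      k8 k9 k10 k11 k12 _ k14 hNL
    rw [hs] at k14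
    obtain ⟨E', hE'A, hPE', hch⟩ := hD C B T e w₀ z M v v' 1 ⌊(L (n + 1) a a + h) * J⌋₊ e₁
      (e₁ + 1 * z + ⌈2 * (C₆ * z)⌉₊ + cX * r + c₀) r g h' C₁ C₁' S' Q ε κ C₆ η' σ A₀ A _ k1 k2
      k3 k4 k5 (by rw [hs]; exact k7) k0 H.inj (fun _ => rfl) k8 k9 k10 hC₆ hNL
      (by rw [hs]; exact k14) le_rfl
    rw [hs] at hch
    exact hA E' hE'A hPE' (NL.tgs_of_chn (g := g v) (Nat.succ_pos n) H.inj rfl k12
      (Pool.LBT.fl_le' hL J) k11 hch)
  · -- a coordinate of the base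
    have hbet := H.low (Nat.nth p i) hs1 h2
    rw [hbet] at hL
    have hno := Pool.CHT.no_unif H.cht (fun l => e (l + 1)) (Nat.nth p i - 1) (fun _ => K'') a a
      ε₁ h ha0 le_rfl ha hε hh hL
    refine Bas.mono 0 (NL.Bas.frac hno (c := η' / 2) (by positivity)) ?_
    intro J _ F A hA C B T w₀ z v' e₀ r g h' C₁ C₁' S' Q ε κ σ A₀ k0 k1 k2 k3 k4 k5 k6 _ k8
      k9 k10 k11 k12 k13 k14 hNL
    rw [hbet] at k14
    obtain ⟨E', hE'A, hPE', hch⟩ := hD C B T e w₀ z M v v' 1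
      ⌊(Pool.CHT.bet P' (fun l => e (l + 1)) (Nat.nth p i - 1) a a + h) * J⌋₊ e₀ ⌊ε₁ * J⌋₊ r g h'
      C₁ C₁' S' Q ε κ C₆ η' σ A₀ A _ k1 k2 k3 k4 k5
      (fun ω hω j hj1 hj2 => k6 ω hω j hj1 (hj2.trans h2)) k0 H.inj (fun _ => rfl) k8
      k9 k10 hC₆ hNL k14 k13
    have e1 : Nat.nth p i - 1 + 1 = Nat.nth p i := by omega
    refine hA E' hE'A hPE' (w₀ + v * z) (w₀ + v * z) ⌊ε₁ * J⌋₊ _ le_rfl k12 k12 le_rfl
      (fun l hl => ?_) ?_ (by rw [e1]; exact hch)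
    · split_ifs with h1
      · exact Pool.LBT.fl_le' hL J
      · exact k11 (l + 1) (by omega) (by omega)
    · simp only [if_true]
      exact Nat.add_le_add_left k12 _

/-- **No cell with dynamic coordinates and labels** below a row which is not full. -/
theorem cell_falseR (H : Ctx S e n L θ P' ρ) {σ : ℕ → ℝ} {W : Set ℝ} (hE : ExIn S e n L W)
    {p : ℕ → Prop} [DecidablePred p] (hp : Stc p (n + 1)) {K Kd c₁ c₂ cX : ℕ} {T₀ : ℝ}
    {s : StaC} {C₁' C₂ ρ' a : ℝ} (hG : FamR n K 1 p σ C₁' C₂ ρ' a Kd c₁ c₂ T₀ s)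
    (hD : ∀ i, 1 ≤ i → i ≤ Nat.count p (n + 1) →
      ∃ K'' c₀ : ℕ, DpC p (n + 1) K Kd s.K' i K'' c₀ cX T₀) (hT₀ : 0 ≤ T₀)
    (hσ : ∀ i, 1 ≤ σ i) {B : ℝ} (hB : ∀ i ≤ n + 1, σ i ≤ B)
    {b ζ δ η εr : ℝ} (hb : 0 < b) (hζ : 0 < ζ) (hb1 : b + (s.M + 2) * ζ ≤ 1)
    (hdg : ∀ i ≤ n + 1, ∀ a', b ≤ a' → a' ≤ b + (s.M + 2) * ζ →
      |L i a' a' - L i b b - σ i * (a' - b)| ≤ εr)
    (hεr : 0 ≤ εr) (hW : ∀ k ≤ s.M, b + k * ζ ∈ W) (hδ : 0 < δ)
    (n1 : εr ≤ ζ / 8) (n2 : (n + 1) * εr ≤ min s.κ 1 * ζ / 16) (n3 : δ ≤ ζ / 8)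
    (n4 : (n + 1) * δ ≤ min s.κ 1 * ζ / 16) (hη : 0 < η)
    (top : ∀ i ≤ n + 1, L i b b + B * ((s.M + 2) * ζ) + ζ + η ≤ 1) {ε₀ ε₁ q : ℝ}
    (hε₀ : 0 < ε₀) (hq : 0 ≤ q)
    (g1 : ε₀ + (1 + 2 * s.C₆) * ζ + cX * q + η ≤ ε₁) (g2 : ε₁ < θ * b)
    {K₁ Lc τr : ℝ} (hK₁ : 0 < K₁) (hLc : 0 ≤ Lc) (hτr : 0 < τr)
    (lab : Bas S (fun _ F A =>
      LabR F A L p e n K s.M s.U σ b ζ δ C₁' C₂ ρ' a Lc T₀ c₁ c₂ K₁ q ε₀ τr)) :
    False := by
  classical
  obtain ⟨C₀, hC₀, hT⟩ := H.tm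
  obtain ⟨κm, hκm⟩ : ∃ κm, κm = min s.κ 1 := ⟨_, rfl⟩
  rw [← hκm] at n2 n4
  have hκ0 : 0 < κm := by rw [hκm]; exact lt_min s.κ_pos one_pos
  have hκ1 : κm ≤ 1 := by rw [hκm]; exact min_le_right _ _
  have hκs : κm ≤ s.κ := by rw [hκm]; exact min_le_left _ _
  have hM0 : (0 : ℝ) ≤ s.M := Nat.cast_nonneg _
  have hn0 : (0 : ℝ) ≤ n := Nat.cast_nonneg _
  have hB1 : 1 ≤ B := (hσ 0).trans (hB 0 (Nat.zero_le _))
  -- the levels
  have hlev : ∀ k : ℕ, k ≤ s.M → (k : ℝ) * ζ + ζ ≤ (s.M + 2) * ζ := by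
    intro k hk
    have h1 : (k : ℝ) ≤ s.M := by exact_mod_cast hk
    have h2 := mul_le_mul_of_nonneg_right h1 hζ.le
    linarith only [hδ, n3, h2]
  have hLb : ∀ i, b ≤ L i b b := fun i => H.ge i hb.le le_rfl (by
    have : 0 ≤ ((s.M : ℝ) + 2) * ζ := by positivity
    linarith only [hb1, this])
  have hBζ : 0 ≤ B * (((s.M : ℝ) + 2) * ζ) := by positivity
  -- the rational windows
  have hav : ∀ v : ℕ, ∃ a : ℚ, b + v * ζ < a ∧ (a : ℝ) < b + v * ζ + ζ / (8 * B) := fun v =>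
    exists_rat_btwn (by
      have : 0 < ζ / (8 * B) := by positivity
      linarith only [this])
  choose av hav1 hav2 using hav
  have hζB : ζ / (8 * B) ≤ ζ := by
    rw [div_le_iff₀ (by positivity)]
    nlinarith only [hδ, n4, hζ, hκ1, hB1]
  have hBζB : B * (ζ / (8 * B)) = ζ / 8 := by
    field_simp
  exact by
   have havL : ∀ v ≤ s.M, ∀ i ≤ n + 1, L i (av v) (av v) ≤
       L i b b + σ i * (v * ζ) + ζ / 8 + εr := by
     intro v hv i hi
     have h1 := hlev v hv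
     have h2 := hav1 v
     have h3 := hav2 v
     have h0 : (0 : ℝ) ≤ v * ζ := by positivity
     have h4 := hdg i hi (av v) (by linarith only [h2, h0]) (by linarith only [hζB, h1, h3])
     have h5 := (abs_le.1 h4).2
     have h6 : σ i * (av v - b) ≤ σ i * (v * ζ) + ζ / 8 := by
       have a1 : (av v : ℝ) - b ≤ v * ζ + ζ / (8 * B) := by linarith only [h3]
       have a2 := mul_le_mul_of_nonneg_left a1 (zero_le_one.trans (hσ i))
       have a3 := mul_le_mul_of_nonneg_right (hB i hi) (by positivity : 0 ≤ ζ / (8 * B))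
       have a4 : σ i * (v * ζ + ζ / (8 * B)) = σ i * (v * ζ) + σ i * (ζ / (8 * B)) := by ring
       linarith only [hBζB, a2, a3]
     linarith only [h5, h6]
   have hσB : ∀ v ≤ s.M, ∀ i ≤ n + 1, σ i * (v * ζ) ≤ B * (((s.M : ℝ) + 2) * ζ) := by
     intro v hv i hi
     have h1 : (v : ℝ) ≤ s.M := by exact_mod_cast hv
     refine mul_le_mul (hB i hi) (mul_le_mul_of_nonneg_right (by linarith only [h1]) hζ.le) (by positivity)
       (by linarith only [hB1])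
   -- no new labels
   have hD' : ∀ i : ℕ, ∃ K'' c₀ : ℕ, 1 ≤ i → i ≤ Nat.count p (n + 1) →
       DpC p (n + 1) K Kd s.K' i K'' c₀ cX T₀ := by
     intro i
     by_cases hi : 1 ≤ i ∧ i ≤ Nat.count p (n + 1)
     · obtain ⟨K'', c₀, h⟩ := hD i hi.1 hi.2
       exact ⟨K'', c₀, fun _ _ => h⟩
     · exact ⟨0, 0, fun h1 h2 => absurd ⟨h1, h2⟩ hi⟩
   choose K2 c₀ hD' using hD'
   exact by
    obtain ⟨N', hN'⟩ : ∃ N', N' = Nat.count p (n + 1) := ⟨_, rfl⟩
    rw [← hN'] at hD'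
    have hno : ∀ v ≤ s.M, ∀ i, 1 ≤ i → i ≤ N' → Bas S (fun J F A =>
        NoL F A e p n K Kd s.K' s.M v i T₀ s.C₆ s.η' cX (c₀ i) (av v) ε₁
          (L (Nat.nth p i) (av v) (av v) + ζ / 8)) := by
      intro v hv i hi hin
      have h1 := hlev v hv
      have h0 : (0 : ℝ) ≤ v * ζ := by positivity
      have h2 := hav1 v
      have h3 := hav2 v
      have hsn : Nat.nth p i ≤ n + 1 := hp.st_le (hN' ▸ hin)
      exact H.noR hp s.M v (hD' i hi hin) hi (hN' ▸ hin) s.C₆_nonneg s.η'_pos (av v)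
        (by
          have : (0 : ℝ) ≤ av v := by linarith only [hb, h0, h2]
          exact_mod_cast this)
        (by
          have : (av v : ℝ) ≤ 1 := by linarith only [hb1, hζB, h1, h3]
          exact_mod_cast this)
        (g2.trans_le (mul_le_mul_of_nonneg_left (by linarith only [h0, h2]) H.θ_pos.le)) (by linarith only [hδ, n3])
        (by
          have a1 := havL v hv _ hsn
          have a2 := hσB v hv _ hsn
          have a3 := top _ hsn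
          linarith only [hδ, n1, n3, hη, a1, a2, a3])
    obtain ⟨c₃, hc₃⟩ : ∃ c₃ : ℕ, ∀ i ≤ N', c₀ i ≤ c₃ :=
      ⟨∑ i ∈ range (N' + 1), c₀ i, fun i hi =>
        Finset.single_le_sum (f := c₀) (fun _ _ => Nat.zero_le _) (mem_range.2 (by omega))⟩
    obtain ⟨τ₃, hτ₃, hno'⟩ := Bas.her (Bas.all (s.M + 1) (Φ := fun v J F A => ∀ i < N' + 1, 1 ≤ i →
        NoL F A e p n K Kd s.K' s.M v i T₀ s.C₆ s.η' cX (c₀ i) (av v) ε₁
          (L (Nat.nth p i) (av v) (av v) + ζ / 8)) fun v hv => Bas.all (N' + 1) fun i hi => by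
        rcases Nat.eq_zero_or_pos i with h0 | h0
        · exact ⟨1, one_pos, 0, fun _ _ _ _ _ h1 => absurd h1 (by omega)⟩
        · exact Bas.mono 0 (hno v (by omega) i h0 (by omega)) fun _ _ _ _ h1 _ => h1)
    -- exactness
    exact by
     obtain ⟨ρ₁, hρ₁⟩ : ∃ ρ₁, ρ₁ = κm * ζ / 8 := ⟨_, rfl⟩
     have hρ₁0 : 0 < ρ₁ := by rw [hρ₁]; positivity
     have hbk : ∀ k : ℕ, k ≤ s.M → 0 < b + k * ζ ∧ b + k * ζ < 1 := by
       intro k hk
       have h1 := hlev k hk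
       have h0 : (0 : ℝ) ≤ k * ζ := by positivity
       exact ⟨by linarith only [hb, h0], by linarith only [hb1, hδ, n3, h1]⟩
     obtain ⟨τ₁, hτ₁, J₁, hex⟩ := bas_ex (S := S) (M := s.M) (wk := fun k => b + k * ζ)
       (E := fun k J => ((∑ j : Fin n, (1 - L (j + 1) (b + k * ζ) (b + k * ζ))) - ρ₁) *
         Real.log 2 * J) (eps := fun j : Fin n => e (j + 1))
       fun k hk => hE _ (hW k hk) (hbk k hk).1 (hbk k hk).2 ρ₁ hρ₁0
     -- the defect of the events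
     obtain ⟨τ, hτ⟩ : ∃ τ, τ = min (min τ₁ τr) (min τ₃ (κm * ζ / (32 * (C₀ + 1)))) := ⟨_, rfl⟩
     have hτ0 : 0 < τ := by
       rw [hτ]
       exact lt_min (lt_min hτ₁ hτr) (lt_min hτ₃ (by positivity))
     have t1 : τ ≤ τ₁ := by rw [hτ]; exact (min_le_left _ _).trans (min_le_left _ _)
     have t2 : τ ≤ τr := by rw [hτ]; exact (min_le_left _ _).trans (min_le_right _ _)
     have t3 : τ ≤ τ₃ := by rw [hτ]; exact (min_le_right _ _).trans (min_le_left _ _)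
     have t4 : τ ≤ κm * ζ / (32 * (C₀ + 1)) := by
       rw [hτ]; exact (min_le_right _ _).trans (min_le_right _ _)
     obtain ⟨z₀, hsta⟩ := hG (τ / (2 * ζ)) (by positivity)
     obtain ⟨τ₄, hτ₄, J₄, hall⟩ := lab.and hno'
     obtain ⟨τ', hτ'⟩ : ∃ τ', τ' = min (min τ₄ τ₁) (κm * ζ / (32 * (C₀ + 1))) := ⟨_, rfl⟩
     have hτ'0 : 0 < τ' := by
       rw [hτ']
       exact lt_min (lt_min hτ₄ hτ₁) (by positivity)
     have t5 : τ' ≤ τ₄ := by rw [hτ']; exact (min_le_left _ _).trans (min_le_left _ _)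
     have t6 : τ' ≤ τ₁ := by rw [hτ']; exact (min_le_left _ _).trans (min_le_right _ _)
     have t7 : τ' ≤ κm * ζ / (32 * (C₀ + 1)) := by rw [hτ']; exact min_le_right _ _
     exact by
      have tC : C₀ * (τ' + τ) ≤ κm * ζ / 16 := by
        have a1 : τ' + τ ≤ κm * ζ / (16 * (C₀ + 1)) := by
          have : κm * ζ / (16 * (C₀ + 1)) = κm * ζ / (32 * (C₀ + 1)) + κm * ζ / (32 * (C₀ + 1)) := by
            field_simp
            norm_num
          linarith only [t4, t7, this]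
        rw [le_div_iff₀ (by positivity)] at a1
        have a2 : 0 ≤ τ' + τ := by linarith only [hτ0, hτ'0]
        nlinarith only [hτ0, hτ'0, a1]
      -- the resolution
      obtain ⟨η₁, hη₁⟩ : ∃ η₁, η₁ = min (κm * ζ / 16) (min η (τ / 2)) := ⟨_, rfl⟩
      have hη₁0 : 0 < η₁ := by
        rw [hη₁]
        exact lt_min (by positivity) (lt_min hη (by positivity))
      have e1 : η₁ ≤ κm * ζ / 16 := by rw [hη₁]; exact min_le_left _ _
      have e2 : η₁ ≤ η := by rw [hη₁]; exact (min_le_right _ _).trans (min_le_left _ _)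
      have e3 : η₁ ≤ τ / 2 := by rw [hη₁]; exact (min_le_right _ _).trans (min_le_right _ _)
      have hl11 : 0 ≤ Real.log (11 + 2 * Lc) := Real.log_nonneg (by linarith only [hLc])
      obtain ⟨D, hDD⟩ : ∃ D : ℝ, D = n + (n + 1) * Real.log (11 + 2 * Lc) +
          c₃ + z₀ + |Real.log K₁| + s.M + 20 := ⟨_, rfl⟩
      obtain ⟨J₀, hJ₀⟩ := lin D hη₁0
      obtain ⟨J, hJ, F, A, hA⟩ := H.ne τ' hτ'0 (max J₀ (max J₁ J₄))
      have hJD := hJ₀ J ((le_max_left _ _).trans hJ)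
      have hJ1 : J₁ ≤ J := (le_max_left _ _).trans ((le_max_right _ _).trans hJ)
      have hJ4 : J₄ ≤ J := (le_max_right _ _).trans ((le_max_right _ _).trans hJ)
      have hJr : (0 : ℝ) ≤ J := Nat.cast_nonneg J
      -- the inequalities for the resolution
      have d0 : 0 ≤ ((n : ℝ) + 1) * Real.log (11 + 2 * Lc) := by positivity
      have dc : (0 : ℝ) ≤ c₃ := Nat.cast_nonneg _
      have dz : (0 : ℝ) ≤ z₀ := Nat.cast_nonneg _
      exact by
       have dK : 0 ≤ |Real.log K₁| := abs_nonneg _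
       have hκζJ : D ≤ κm * ζ / 16 * J := hJD.trans (mul_le_mul_of_nonneg_right e1 hJr)
       have hηJ : D ≤ η * J := hJD.trans (mul_le_mul_of_nonneg_right e2 hJr)
       have hτJ : D ≤ τ / 2 * J := hJD.trans (mul_le_mul_of_nonneg_right e3 hJr)
       have hζJ : κm * ζ / 16 * J ≤ ζ / 16 * J := by
         refine mul_le_mul_of_nonneg_right ?_ hJr
         have := mul_le_mul_of_nonneg_right hκ1 hζ.le
         linarith only [this]
       have hζJ' : D ≤ ζ / 16 * J := hκζJ.trans hζJ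
       have hζJ0 : 0 ≤ ζ * J := by positivity
       -- the window and the step
       obtain ⟨⟨C, BB, T, A', g, C₁, Sr, Q, ε, hA'A, hPA', hSt, hQq, hglast, hgJ, hLip, hRow⟩, hno''⟩ :=
         hall J hJ4 F A (S.mono t5 hA)
       obtain ⟨w₀, hw₀⟩ : ∃ w₀, w₀ = ⌊b * (J : ℝ)⌋₊ := ⟨_, rfl⟩
       obtain ⟨z, hz⟩ : ∃ z, z = ⌊ζ * (J : ℝ)⌋₊ := ⟨_, rfl⟩
       obtain ⟨h, hh⟩ : ∃ h, h = BK.g L σ b ζ δ J := ⟨_, rfl⟩
       rw [← hw₀, ← hz, ← hh] at hSt
       rw [← hw₀, ← hz] at hLip hRow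
       rw [← hh] at hglast
       have w1 : (w₀ : ℝ) ≤ b * J := by rw [hw₀]; exact Nat.floor_le (by positivity)
       have z1 : (z : ℝ) ≤ ζ * J := by rw [hz]; exact Nat.floor_le hζJ0
       have z2 : ζ * J - 1 < z := by
         rw [hz]
         have := Nat.lt_floor_add_one (ζ * (J : ℝ))
         linarith only [this]
       have hσn : ∀ i, 0 ≤ σ i := fun i => zero_le_one.trans (hσ i)
       have hA0 : 0 < Pe F.p A := (hT τ' J F A hτ'0 hA).1
       have hA'0 : 0 < Pe F.p A' := by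
         by_contra hcon
         push Not at hcon
         have := mul_le_mul_of_nonneg_left hcon hK₁.le
         linarith only [hPA', hA0, this]
       -- large events
       exact by
        have hlarge : ∀ B' : F.Ω → Prop, Real.exp (-(τ / (2 * ζ) * z)) * Pe F.p A' ≤ Pe F.p B' →
            Real.exp (-(τ * J)) * Pe F.p A ≤ Pe F.p B' := fun B' hB' =>
          FAM.large_of (exp_lr hK₁ hτ0 hζ z1 (by linarith only [hDD, d0, hτJ])) hA'0.le hPA' hB'
        have hmor : ∀ {t : ℝ} {B' : F.Ω → Prop}, τ ≤ t →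
            Real.exp (-(τ * J)) * Pe F.p A ≤ Pe F.p B' →
            Real.exp (-(t * J)) * Pe F.p A ≤ Pe F.p B' := by
          intro t B' ht hB'
          refine le_trans (mul_le_mul_of_nonneg_right (Real.exp_le_exp.2 ?_) hA0.le) hB'
          have := mul_le_mul_of_nonneg_right ht hJr
          linarith only [this]
        obtain ⟨e₀, he₀⟩ : ∃ e₀, e₀ = C₀ * (τ' + τ) * J := ⟨_, rfl⟩
        obtain ⟨ε', hε'⟩ : ∃ ε', ε' = (n * ((εr + B * 0 + δ) * J + 1) + ρ₁ * J) * Real.log 2 :=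
          ⟨_, rfl⟩
        have hl2 : 0 ≤ Real.log 2 := Real.log_nonneg (by norm_num)
        have hl21 : Real.log 2 ≤ 1 := by
          have := Real.log_two_lt_d9
          linarith only [this]
        have he₀0 : 0 ≤ e₀ := by rw [he₀]; positivity
        have hε'0 : 0 ≤ ε' := by
          rw [hε']
          have : 0 ≤ εr + B * 0 + δ := by linarith only [hεr, hδ]
          positivity
        have hEnt : ∀ B' : F.Ω → Prop, (∀ ω, B' ω → A' ω) →
            Real.exp (-(τ / (2 * ζ) * z)) * Pe F.p A' ≤ Pe F.p B' →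
            EntR F e n w₀ z s.M h e₀ ε' B' := by
          intro B' hB'B hB'P
          have hP := hlarge B' hB'P
          have hB'A : Sub B' A := fun ω hω => hA'A ω (hB'B ω hω)
          have hB'0 : 0 < Pe F.p B' := lt_of_lt_of_le (mul_pos (Real.exp_pos _) hA0) hP
          refine ⟨hB'0, ?_, fun k hk => ?_⟩
          · rw [he₀]
            exact hT.sub hτ'0 hτ0.le hA hB'A hP hB'0
          · have hk0 := hbk k hk
            have h1 := hex J hJ1 F A (S.mono t6 hA) B' hB'A (hmor t1 hP) k hk (w₀ + k * z) ?_ ?_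
            · rw [hε']
              refine h1.num fun j => ?_
              have h2 : (j : ℕ) + 1 ≤ n + 1 := by
                have := j.2
                omega
              have h3 := hlev k hk
              have h0 : (0 : ℝ) ≤ k * ζ := by positivity
              rw [hh]
              exact BK.ex_le (hσn _) (hdg _ h2 (b + k * ζ) (by linarith only [h0]) (by linarith only [hδ, n3, h3]))
                (by linarith only) (hB _ h2) le_rfl
            · refine Nat.le_floor ?_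
              push_cast
              have a1 := mul_le_mul_of_nonneg_left z1 (Nat.cast_nonneg (α := ℝ) k)
              have e6 : (b + k * ζ) * (J : ℝ) = b * J + k * (ζ * J) := by ring
              rw [e6]
              linarith only [w1, a1]
            · refine Nat.floor_le_of_le ?_
              have := mul_le_mul_of_nonneg_right hk0.2.le hJr
              linarith only [this]
        exact by
         have hκz : κm * (ζ * J - 1) ≤ κm * z := mul_le_mul_of_nonneg_left z2.le hκ0.le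
         have hε'J : ε' ≤ κm * ζ / 4 * J + n := by
           have a1 : 0 ≤ n * ((εr + B * 0 + δ) * J + 1) + ρ₁ * J := by
             have : 0 ≤ εr + B * 0 + δ := by linarith only [hεr, hδ]
             positivity
           have a2 : ε' ≤ n * ((εr + B * 0 + δ) * J + 1) + ρ₁ * J := by
             rw [hε']
             exact mul_le_of_le_one_right a1 hl21
           have a3 : n * ((εr + B * 0 + δ) * J + 1) = (n * εr + n * δ) * J + n := by ring
           have a4 : (n : ℝ) * εr + n * δ ≤ κm * ζ / 8 := by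
             have b1 : (n : ℝ) * εr ≤ (n + 1) * εr :=
               mul_le_mul_of_nonneg_right (by linarith only) hεr
             have b2 : (n : ℝ) * δ ≤ (n + 1) * δ := mul_le_mul_of_nonneg_right (by linarith only) hδ.le
             linarith only [hεr, hδ, n4, n2]
           have a5 := mul_le_mul_of_nonneg_right a4 hJr
           have a6 : ρ₁ * J = κm * ζ / 8 * J := by rw [hρ₁]
           have a7 : κm * ζ / 4 * J = κm * ζ / 8 * J + κm * ζ / 8 * J := by ring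
           linarith only [a2, a5, a6]
         have he₀J : e₀ ≤ κm * ζ / 16 * J := by
           rw [he₀]
           exact mul_le_mul_of_nonneg_right tC hJr
         have hκJ : e₀ + ε' + (n + 1 : ℕ) * Real.log (11 + 2 * Lc) ≤ s.κ * z := by
           refine le_trans ?_ (mul_le_mul_of_nonneg_right hκs (Nat.cast_nonneg z))
           push_cast
           have a1 : κm * (ζ * J - 1) = κm * ζ / 16 * J * 16 - κm := by ring
           have a2 : κm * ζ / 4 * J = κm * ζ / 16 * J * 4 := by ring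
           linarith only [hκ1, hDD, d0, dK, hκζJ, hκz, hε'J, he₀J]
         -- the static theorem
         obtain ⟨hcnd, B₁, hB₁B, hB₁P, hOk, v, v', i, hvv, hvM, hi1, hin, hNL⟩ := hsta C BB T e w₀ z g h
           C₁ Sr Q ε Lc e₀ ε' A' A' (by
             have a1 : (z₀ : ℝ) ≤ z := by
               have a2 : ζ * J = ζ / 16 * J * 16 := by ring
               linarith only [hDD, d0, dK, hκζJ, hζJ, z2]
             exact_mod_cast a1) hSt (fun _ h => h) hA'0 hε'0 hκJ hEnt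
           (fun _ B' hB'B hB'P v hv1 hv2 => hRow B' hB'B (hmor t2 (hlarge B' hB'P)) v hv1 hv2)
         -- there is no new label
         exact by
          have hP := hlarge B₁ hB₁P
          have hB₁A : Sub B₁ A := fun ω hω => hA'A ω (hB₁B ω hω)
          have hvM' : v ≤ s.M := hvv.trans hvM
          have hv0 : (0 : ℝ) ≤ v := Nat.cast_nonneg v
          have hS0 : 0 ≤ Sr := hT₀.trans hSt.hS
          have hs1 : 1 ≤ Nat.nth p i := hp.st_pos hi1
          have hsn : Nat.nth p i ≤ n + 1 := hp.st_le hin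
          have hgs : g v (Nat.nth p i) = h v (Nat.nth p i) := by
            rcases Nat.lt_or_ge (Nat.nth p i) (n + 1) with h2 | h2
            · exact (hSt.hyp.hg v hvM' _ hs1 h2 (hp.mem i)).symm
            · have h3 : Nat.nth p i = n + 1 := le_antisymm hsn h2
              rw [h3]
              exact hglast v hvM'
          refine hno'' B₁ hB₁A (hmor t3 hP) v (by omega) i (by omega) hi1 C BB T w₀ z v' ⌊ε₀ * J⌋₊
            ⌊q * J⌋₊ g h C₁ C₁' Sr Q ε s.κ (fun i => σ (Nat.nth p i)) A' hB₁B hSt.hyp hS0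
            (hSt.hS.trans hSt.hSQ) hQq hcnd (hLip v hvM').1 (hLip v hvM').2 hOk hvv hvM
            (fun j h1 h2 => hgJ v hvM' j h1 h2) ?_ ?_ ?_ hNL
          · refine Nat.le_floor ?_
            push_cast
            have a1 := mul_le_mul_of_nonneg_left z1 hv0
            have a2 := mul_le_mul_of_nonneg_right (hav1 v).le hJr
            have e6 : (b + v * ζ) * (J : ℝ) = b * J + v * (ζ * J) := by ring
            rw [e6] at a2
            linarith only [w1, a1, a2]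
          · refine Nat.le_floor ?_
            push_cast
            have a1 : (⌊ε₀ * (J : ℝ)⌋₊ : ℝ) ≤ ε₀ * J := Nat.floor_le (by positivity)
            have a1' : (⌊q * (J : ℝ)⌋₊ : ℝ) ≤ q * J := Nat.floor_le (by positivity)
            have a1'' := mul_le_mul_of_nonneg_left a1' (Nat.cast_nonneg (α := ℝ) cX)
            have hC₆z : 0 ≤ 2 * (s.C₆ * z) :=
              mul_nonneg (by norm_num) (mul_nonneg s.C₆_nonneg (Nat.cast_nonneg z))
            have a2 := (Nat.ceil_lt_add_one hC₆z).le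
            have a3 : 2 * (s.C₆ * z) ≤ 2 * (s.C₆ * (ζ * J)) :=
              mul_le_mul_of_nonneg_left (mul_le_mul_of_nonneg_left z1 s.C₆_nonneg) (by norm_num)
            have a4 : (c₀ i : ℝ) ≤ c₃ := by exact_mod_cast hc₃ i (by omega)
            have a5 := mul_le_mul_of_nonneg_right g1 hJr
            have a6 : (ε₀ + (1 + 2 * s.C₆) * ζ + cX * q + η) * J =
              ε₀ * J + ζ * J + 2 * (s.C₆ * (ζ * J)) + cX * (q * J) + η * J := by ring
            linarith only [hDD, d0, dK, hηJ, z1, a1, a1'', a2, a3, a4, a5]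
          · have a1 := havL v hvM' _ hsn
            have hbv := hav1 v
            have hvz : (0 : ℝ) ≤ v * ζ := by positivity
            have a2 : ((⌊(L (Nat.nth p i) (av v) (av v) + ζ / 8) * (J : ℝ)⌋₊ : ℕ) : ℝ) ≤
                (L (Nat.nth p i) (av v) (av v) + ζ / 8) * J := by
              refine Nat.floor_le (mul_nonneg ?_ hJr)
              have b1 := H.ge (Nat.nth p i) (a := av v) (w := av v) (by linarith only [hb, hbv, hvz]) le_rfl (by
                have b2 := hav2 v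
                have b3 := hlev v hvM'
                linarith only [hb1, hζB, b2, b3])
              linarith only [hb, hδ, n3, hbv, hvz, b1]
            have a3 := BK.g_lb (L := L) (σ := σ) (b := b) (ζ := ζ) (δ := δ) (J := J) (k := v)
              (i := Nat.nth p i)
            rw [← hh] at a3
            rw [hgs]
            have a4 : (c₀ i : ℝ) ≤ c₃ := by exact_mod_cast hc₃ i (by omega)
            have a5 := mul_le_mul_of_nonneg_right
              (by linarith only [n1, n3, a1] : L (Nat.nth p i) (av v) (av v) + ζ / 8 ≤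
                L (Nat.nth p i) b b + σ (Nat.nth p i) * (v * ζ) - δ + ζ / 2) hJr
            have a6 : (L (Nat.nth p i) b b + σ (Nat.nth p i) * (v * ζ) - δ + ζ / 2) * (J : ℝ) =
              (L (Nat.nth p i) b b + σ (Nat.nth p i) * (v * ζ) - δ) * J + ζ / 16 * J * 8 := by ring
            have a7 : ζ * J = ζ / 16 * J * 16 := by ring
            have a8 : ((⌊(L (Nat.nth p i) (av v) (av v) + ζ / 8) * (J : ℝ)⌋₊ + c₀ i : ℕ) : ℝ) ≤
                ((h v (Nat.nth p i) + 1 * z : ℕ) : ℝ) := by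
              push_cast
              linarith only [hDD, d0, dK, hκζJ, hζJ, z2, a2, a3, a4, a5]
            exact_mod_cast a8

end

end Pool.STA
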