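import Pool.Agent.H75.STAT.Drop
import Pool.Agent.H31.STAT.Trc
import Pool.Agent.H6.STAT.Tf

/-!
# Thin charts: the dynamic coordinates are polynomials of the static ones

Charts `Φ 0` (the fattest), .., `Φ r` (the thinnest) of the same radius, with sides `exp (-g j i)`.
The static coordinates keep their sides (up to `exp A`), the dynamic ones (`i ∈ U`, at most `r` of
them) gain `exp (-γ)` at each step. On the thinnest box the heights of the dynamic coordinates over
the fattest chart are polynomials of the static heights, up to `exp (C (A + 1) - γ)`.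
-/

set_option autoImplicit false

namespace Pool.STAT

open Finset MvPolynomial
open Pool.BFL (Pl CB)
open Pool.TRC31 (BxE nue nue_eq nue_deg nue_vars nue_box eval_bind' d1 weight_deg)

namespace Thin

theorem sub_vars {F G : PN} {s : Finset ℕ} (hF : F.vars ⊆ s) (hG : G.vars ⊆ s) :
    (F - G).vars ⊆ s := by
  classical
  intro x hx
  rcases Finset.mem_union.1 (vars_sub_subset F hx) with h | h
  · exact hF h
  · exact hG h

/-- The natural coordinates (heights) of the point `b` over the chart `Φ`. -/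
noncomputable def zt (g : ℕ → ℝ) (Φ : ℕ → PN) (b : ℕ → ℝ) (i : ℕ) : ℝ :=
  Real.exp (g i) * (b i - eval b (Φ i))

theorem nue_zt {g : ℕ → ℝ} {Φ : ℕ → PN} (hΦ : TriN Φ) (b : ℕ → ℝ) (i : ℕ) :
    eval (zt g Φ b) (nue g Φ i) = b i := by
  induction i using Nat.strong_induction_on with
  | _ i ih =>
    rw [nue_eq hΦ, map_add, eval_bind', map_mul, eval_C, eval_X]
    have h1 : eval (fun j => eval (zt g Φ b) (nue g Φ j)) (Φ i) = eval b (Φ i) :=
      eval₂Hom_congr' rfl (fun j hj _ => ih j (mem_range.1 (hΦ i hj))) rfl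
    rw [h1, zt, ← mul_assoc, ← Real.exp_add, neg_add_cancel, Real.exp_zero, one_mul]
    ring

/-- The transition from the chart `j + 1` to the chart `j`. -/
noncomputable def tr (g : ℕ → ℕ → ℝ) (Φ : ℕ → ℕ → PN) (j i : ℕ) : PN :=
  C (Real.exp (g j i)) * bind₁ (nue (g (j + 1)) (Φ (j + 1))) (Φ (j + 1) i - Φ j i)

/-- **The charts.** -/
structure Ths (n K r : ℕ) (Φ : ℕ → ℕ → PN) (g : ℕ → ℕ → ℝ) (U : Finset ℕ) (A γ : ℝ) :
    Prop where
  A_nn : 0 ≤ A
  γ_nn : 0 ≤ γ
  card : U.card ≤ r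
  tri : ∀ j ≤ r, TriN (Φ j)
  deg : ∀ j ≤ r, ∀ i < n, (Φ j i).totalDegree ≤ K
  lo : ∀ j < r, ∀ i < n, i ∉ U → g j i - A ≤ g (j + 1) i
  hi : ∀ j < r, ∀ i < n, i ∉ U → g (j + 1) i ≤ g j i + A
  dyn : ∀ j < r, ∀ i < n, i ∈ U → g j i + γ ≤ g (j + 1) i
  uni : ∀ j < r, ∀ i < n, ∀ b, BxE (g (j + 1)) (Φ (j + 1)) n b →
    |eval b (Φ (j + 1) i - Φ j i)| ≤ Real.exp (A - g j i)

variable {n K r : ℕ} {Φ : ℕ → ℕ → PN} {g : ℕ → ℕ → ℝ} {U : Finset ℕ} {A γ : ℝ}

theorem Ths.rel (H : Ths n K r Φ g U A γ) {j : ℕ} (hj : j < r) (b : ℕ → ℝ) (i : ℕ) :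
    zt (g j) (Φ j) b i = Real.exp (g j i - g (j + 1) i) * zt (g (j + 1)) (Φ (j + 1)) b i +
      eval (zt (g (j + 1)) (Φ (j + 1)) b) (tr g Φ j i) := by
  have h1 : eval (zt (g (j + 1)) (Φ (j + 1)) b) (tr g Φ j i) =
      Real.exp (g j i) * (eval b (Φ (j + 1) i) - eval b (Φ j i)) := by
    unfold tr
    rw [map_mul, eval_C, eval_bind']
    have h2 : (fun k => eval (zt (g (j + 1)) (Φ (j + 1)) b) (nue (g (j + 1)) (Φ (j + 1)) k)) =
        b := funext fun k => nue_zt (g := g (j + 1)) (Φ := Φ (j + 1)) (H.tri (j + 1) hj) b k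
    rw [h2, map_sub]
  rw [h1]
  unfold zt
  rw [← mul_assoc, ← Real.exp_add, sub_add_cancel]
  ring

theorem Ths.tr_vars (H : Ths n K r Φ g U A γ) {j : ℕ} (hj : j < r) (i : ℕ) :
    (tr g Φ j i).vars ⊆ range i := by
  classical
  unfold tr
  refine (vars_mul _ _).trans (Finset.union_subset ?_ ?_)
  · rw [vars_C]
    exact empty_subset _
  · refine SYS35.vars_bind ?_ fun l _ => nue_vars (H.tri (j + 1) hj) l
    exact sub_vars (H.tri (j + 1) hj i) (H.tri j hj.le i)

theorem Ths.tr_deg (H : Ths n K r Φ g U A γ) {j : ℕ} (hj : j < r) {i : ℕ} (hi : i < n) :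
    (tr g Φ j i).totalDegree ≤ K * (K + 1) ^ n := by
  unfold tr
  refine (totalDegree_mul _ _).trans ?_
  rw [totalDegree_C, zero_add]
  have h1 : (Φ (j + 1) i - Φ j i).vars ⊆ range i :=
    sub_vars (H.tri (j + 1) hj i) (H.tri j hj.le i)
  have h2 : (Φ (j + 1) i - Φ j i).totalDegree ≤ K :=
    (totalDegree_sub _ _).trans (max_le (H.deg (j + 1) hj i hi) (H.deg j hj.le i hi))
  exact SYS35.totalDegree_bind h1 h2 fun l hl =>
    (nue_deg (H.tri (j + 1) hj) (fun i hi => H.deg (j + 1) hj i hi) l (by omega)).trans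
      (Nat.pow_le_pow_right (by omega) (by omega))

theorem Ths.tr_sup (H : Ths n K r Φ g U A γ) {j : ℕ} (hj : j < r) {i : ℕ} (hi : i < n)
    (η : ℕ → ℝ) (hη : ∀ l < n, |η l| ≤ 1) : |eval η (tr g Φ j i)| ≤ Real.exp A := by
  unfold tr
  rw [map_mul, eval_C, eval_bind', abs_mul, abs_of_pos (Real.exp_pos _)]
  have h1 := H.uni j hj i hi _ (nue_box (g := g (j + 1)) (H.tri (j + 1) hj) η hη)
  refine (mul_le_mul_of_nonneg_left h1 (Real.exp_pos _).le).trans (le_of_eq ?_)
  rw [← Real.exp_add]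
  congr 1
  ring

/-- The constants of the growth of the natural coordinates. -/
def Es (D : ℕ) : ℕ → ℕ
  | 0 => 1
  | s + 1 => 1 + (D + 1) * Es D s

theorem Es_pos (D s : ℕ) : 1 ≤ Es D s := by
  cases s with
  | zero => exact le_rfl
  | succ s => exact Nat.le_add_right _ _

theorem Es_mono (D : ℕ) : Monotone (Es D) := by
  refine monotone_nat_of_le_succ fun s => ?_
  show Es D s ≤ 1 + (D + 1) * Es D s
  nlinarith only

/-- The norm of the transitions. -/
theorem tr_nrm (n K : ℕ) : ∃ Cq : ℝ, 1 ≤ Cq ∧ ∀ (r : ℕ) (Φ : ℕ → ℕ → PN) (g : ℕ → ℕ → ℝ)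
    (U : Finset ℕ) (A γ : ℝ), Ths n K r Φ g U A γ → ∀ j < r, ∀ i < n,
      nrm d1 1 (tr g Φ j i) ≤ Cq * Real.exp A := by
  obtain ⟨Cq, hC1, hC⟩ := SYS35.nrm_of_sup n (K * (K + 1) ^ n)
  refine ⟨Cq, hC1, fun r Φ g U A γ H j hj i hi => ?_⟩
  refine hC d1 1 _ _ one_pos ((H.tr_vars hj i).trans (range_mono hi.le)) (H.tr_deg hj hi)
    fun η hη => H.tr_sup hj hi η fun l hl => ?_
  have := hη l hl
  rwa [one_pow] at this

/-- The points of the thinnest box have bounded natural coordinates over all the charts. -/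
theorem box_all (n K : ℕ) : ∃ Cq : ℝ, 1 ≤ Cq ∧ ∀ (r : ℕ) (Φ : ℕ → ℕ → PN) (g : ℕ → ℕ → ℝ)
    (U : Finset ℕ) (A γ : ℝ), Ths n K r Φ g U A γ → ∀ b, BxE (g r) (Φ r) n b →
      ∀ s j, j + s = r → ∀ i < n,
        |zt (g j) (Φ j) b i| ≤ (Cq * Real.exp A) ^ Es (K * (K + 1) ^ n) s := by
  obtain ⟨Cq, hC1, hC⟩ := tr_nrm n K
  refine ⟨2 * Cq, by linarith only [hC1], fun r Φ g U A γ H b hb s => ?_⟩
  obtain ⟨D, hD⟩ : ∃ D, D = K * (K + 1) ^ n := ⟨_, rfl⟩
  rw [← hD]
  have hA1 : 1 ≤ Real.exp A := Real.one_le_exp H.A_nn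
  have hB1 : 1 ≤ 2 * Cq * Real.exp A := by nlinarith only [hC1, hA1]
  induction s with
  | zero =>
    intro j hj i hi
    have hj' : j = r := by omega
    subst hj'
    show _ ≤ (2 * Cq * Real.exp A) ^ 1
    rw [pow_one]
    have h1 := hb i hi
    unfold zt
    rw [abs_mul, abs_of_pos (Real.exp_pos _)]
    refine le_trans ?_ hB1
    refine (mul_le_mul_of_nonneg_left h1 (Real.exp_pos _).le).trans (le_of_eq ?_)
    rw [← Real.exp_add, add_neg_cancel, Real.exp_zero]
  | succ s ih =>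
    intro j hj i hi
    have hjr : j < r := by omega
    have h1 := ih (j + 1) (by omega)
    obtain ⟨R', hR'⟩ : ∃ R', R' = (2 * Cq * Real.exp A) ^ Es D s := ⟨_, rfl⟩
    rw [← hR'] at h1
    have hR1 : 1 ≤ R' := by rw [hR']; exact one_le_pow₀ hB1
    rw [H.rel hjr b i]
    have h2 : Real.exp (g j i - g (j + 1) i) ≤ Real.exp A := by
      refine Real.exp_le_exp.2 ?_
      by_cases hiU : i ∈ U
      · have := H.dyn j hjr i hi hiU
        have := H.γ_nn
        have := H.A_nn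
        linarith
      · have := H.lo j hjr i hi hiU
        linarith only [this]
    have h3 : |eval (zt (g (j + 1)) (Φ (j + 1)) b) (tr g Φ j i)| ≤
        R' ^ D * (Cq * Real.exp A) := by
      have h4 : |eval (zt (g (j + 1)) (Φ (j + 1)) b) (tr g Φ j i)| ≤
          nrm d1 R' (tr g Φ j i) := by
        refine NRM.abs_eval_le d1 _ _ fun l hl => ?_
        have hl' : l < i := mem_range.1 (H.tr_vars hjr i hl)
        show _ ≤ R' ^ 1
        rw [pow_one]
        exact h1 l (by omega)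
      have h5 : nrm d1 (R' * 1) (tr g Φ j i) ≤ R' ^ D * nrm d1 1 (tr g Φ j i) := by
        refine SYS35.nrm_scale (fun k hk => ?_) hR1 zero_le_one
        rw [weight_deg]
        exact (le_totalDegree hk).trans (hD ▸ H.tr_deg hjr hi)
      rw [mul_one] at h5
      exact h4.trans (h5.trans (mul_le_mul_of_nonneg_left (hC r Φ g U A γ H j hjr i hi)
        (by positivity)))
    have h6 : |Real.exp (g j i - g (j + 1) i) * zt (g (j + 1)) (Φ (j + 1)) b i +
        eval (zt (g (j + 1)) (Φ (j + 1)) b) (tr g Φ j i)| ≤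
        Real.exp A * R' + R' ^ D * (Cq * Real.exp A) := by
      refine (abs_add_le _ _).trans (add_le_add ?_ h3)
      rw [abs_mul, abs_of_pos (Real.exp_pos _)]
      exact mul_le_mul h2 (h1 i hi) (abs_nonneg _) (Real.exp_pos _).le
    refine h6.trans ?_
    show _ ≤ (2 * Cq * Real.exp A) ^ (1 + (D + 1) * Es D s)
    rw [pow_add, pow_one, Nat.mul_comm, pow_mul, ← hR']
    have h7 : R' ≤ R' ^ (D + 1) := le_self_pow₀ hR1 (Nat.succ_ne_zero D)
    have h8 : R' ^ D ≤ R' ^ (D + 1) := pow_le_pow_right₀ hR1 (Nat.le_succ D)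
    have h9 : Real.exp A * R' ≤ Cq * Real.exp A * R' ^ (D + 1) := by
      have : Real.exp A ≤ Cq * Real.exp A := by nlinarith only [hC1, hA1]
      exact mul_le_mul this h7 (by positivity) (by positivity)
    have h10 : R' ^ D * (Cq * Real.exp A) ≤ Cq * Real.exp A * R' ^ (D + 1) := by
      rw [mul_comm]
      exact mul_le_mul_of_nonneg_left h8 (by positivity)
    linarith only [h9, h10]

/-! ### The first variables -/

theorem toF_deg {F : PN} (h : F.vars ⊆ range n) : (toF n F).totalDegree ≤ F.totalDegree := by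
  rw [totalDegree]
  refine Finset.sup_le fun e he => ?_
  have h1 : F.coeff (e.mapDomain Fin.val) ≠ 0 := by
    rw [← T6.toF_coeff h]
    exact mem_support_iff.1 he
  have h2 := le_totalDegree (mem_support_iff.2 h1)
  refine le_trans (le_of_eq ?_) h2
  rw [Finsupp.sum_mapDomain_index (fun _ => rfl) (fun _ _ _ => rfl)]

theorem toF_vars {F : PN} (h : F.vars ⊆ range n) {l : Fin n} (hl : l ∈ (toF n F).vars) :
    (l : ℕ) ∈ F.vars := by
  obtain ⟨e, he, hle⟩ := (mem_vars_iff_mem_support l).1 hl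
  refine (mem_vars_iff_mem_support _).2 ⟨e.mapDomain Fin.val, ?_, ?_⟩
  · rw [mem_support_iff, ← T6.toF_coeff h]
    exact mem_support_iff.1 he
  · rw [Finsupp.mem_support_iff, Finsupp.mapDomain_apply Fin.val_injective]
    exact Finsupp.mem_support_iff.1 hle

/-- The number of monomials. -/
theorem nrm_of_cb (n D : ℕ) : ∃ N : ℕ, ∀ (P : Pl n) (c : ℝ), 0 ≤ c → P.totalDegree ≤ D →
    CB P c → nrm d1 1 (rename (Fin.val : Fin n → ℕ) P) ≤ N * c := by
  classical
  refine ⟨((Finset.univ : Finset (Fin n)).finsuppAntidiag 0 ∪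
    (Finset.range (D + 1)).biUnion fun s => (Finset.univ : Finset (Fin n)).finsuppAntidiag s).card,
    fun P c hc hd hP => ?_⟩
  unfold nrm
  have hs : (rename (Fin.val : Fin n → ℕ) P).support =
      P.support.image (Finsupp.mapDomain Fin.val) :=
    support_rename_of_injective Fin.val_injective
  rw [hs, Finset.sum_image fun x _ y _ h => Finsupp.mapDomain_injective Fin.val_injective h]
  have h1 : ∀ e ∈ P.support, |coeff (Finsupp.mapDomain Fin.val e)
      (rename (Fin.val : Fin n → ℕ) P)| * (1 : ℝ) ^ Finsupp.weight d1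
        (Finsupp.mapDomain (Fin.val : Fin n → ℕ) e) ≤ c := fun e _ => by
    rw [one_pow, mul_one, coeff_rename_mapDomain _ Fin.val_injective]
    exact hP e
  refine (Finset.sum_le_sum h1).trans ?_
  rw [Finset.sum_const, nsmul_eq_mul]
  refine mul_le_mul_of_nonneg_right ?_ hc
  exact_mod_cast Finset.card_le_card fun e he => Finset.mem_union_right _ (by
    rw [Finset.mem_biUnion]
    have h2 := le_totalDegree he
    refine ⟨e.sum fun _ k => k, Finset.mem_range.2 (by omega), ?_⟩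
    rw [Finset.mem_finsuppAntidiag]
    refine ⟨?_, fun x _ => Finset.mem_univ x⟩
    rw [Finsupp.sum_fintype _ _ fun _ => rfl])

end Thin

open Thin Drop

/-- **Thin charts.** -/
theorem thin (n K r : ℕ) : ∃ (C : ℝ) (D : ℕ), 1 ≤ C ∧ ∀ (Φ : ℕ → ℕ → PN) (g : ℕ → ℕ → ℝ)
    (U : Finset ℕ) (A γ : ℝ), Ths n K r Φ g U A γ → ∃ Θ : ℕ → PN,
      (∀ i, i ∉ U → Θ i = X i) ∧ (∀ i ∈ U, ∀ l ∈ (Θ i).vars, l < i ∧ l ∉ U) ∧
      (∀ i, (Θ i).totalDegree ≤ D) ∧ (∀ i, nrm d1 1 (Θ i) ≤ Real.exp (C * (A + 1))) ∧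
      ∀ b, BxE (g r) (Φ r) n b → ∀ i < n,
        |zt (g 0) (Φ 0) b i - eval (zt (g 0) (Φ 0) b) (Θ i)| ≤ Real.exp (C * (A + 1) - γ) := by
  classical
  obtain ⟨C₁, hC₁, hbox⟩ := box_all n K
  obtain ⟨C₂, hC₂, htr⟩ := tr_nrm n K
  obtain ⟨D₁, hD₁⟩ : ∃ D₁, D₁ = K * (K + 1) ^ n + 1 := ⟨_, rfl⟩
  obtain ⟨Cq, hCq⟩ : ∃ Cq, Cq = max C₁ C₂ := ⟨_, rfl⟩
  have hCq1 : 1 ≤ Cq := by rw [hCq]; exact hC₁.trans (le_max_left _ _)
  have hC1q : C₁ ≤ Cq := by rw [hCq]; exact le_max_left _ _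
  obtain ⟨E, hE⟩ : ∃ E, E = Es (K * (K + 1) ^ n) r := ⟨_, rfl⟩
  have hE1 : 1 ≤ E := by rw [hE]; exact Es_pos _ _
  -- the number of the dynamic coordinates enters only through `r`
  have hdrop : ∀ S : Finset (Fin n), ∃ K₀ : ℕ, Sᶜ.card ≤ r → ∀ (R ρ : ℝ) (δ : ℕ → Fin n → ℝ)
      (G : ℕ → Fin n → Pl n), Chart D₁ r S R ρ δ G → ∃ Θ : Fin n → Pl n, (∀ i ∈ S, Θ i = X i) ∧
        (∀ i, ∀ l ∈ (Θ i).vars, l ∈ S ∧ l ≤ i) ∧ (∀ i, PB K₀ R (Θ i)) ∧
        ∀ ξ : ℕ → Fin n → ℝ, Pt r R ρ δ G ξ →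
          ∀ i, |ξ 0 i - eval (ξ 0) (Θ i)| ≤ K₀ * R ^ K₀ * ρ := by
    intro S
    by_cases hS : Sᶜ.card ≤ r
    · obtain ⟨K₀, h⟩ := drop_elim n D₁ 0 r S hS
      refine ⟨K₀, fun _ R ρ δ G hG => ?_⟩
      obtain ⟨Θ, h1, h2, h3, _, h5⟩ := h R ρ δ G hG
      exact ⟨Θ, h1, h2, h3, fun ξ hξ => (h5 ξ hξ).1⟩
    · exact ⟨0, fun h => absurd h hS⟩
  choose K₁ hK₁ using hdrop
  obtain ⟨K₀, hK₀⟩ : ∃ K₀, K₀ = (Finset.univ : Finset (Finset (Fin n))).sup K₁ := ⟨_, rfl⟩
  have hK₀S : ∀ S, K₁ S ≤ K₀ := fun S => by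
    rw [hK₀]
    exact Finset.le_sup (Finset.mem_univ S)
  obtain ⟨N, hN⟩ := nrm_of_cb n K₀
  -- the constant
  obtain ⟨B, hB⟩ : ∃ B : ℝ, B = (N + 1) * (K₀ + 1) * Cq := ⟨_, rfl⟩
  exact by
   have hN0 : (0 : ℝ) ≤ N := Nat.cast_nonneg _
   have hK0 : (0 : ℝ) ≤ K₀ := Nat.cast_nonneg _
   obtain ⟨C, hC1, hCB, hCE⟩ : ∃ C : ℝ, 1 ≤ C ∧
       Real.log ((N + 1) * (K₀ + 1)) + (E * K₀ : ℕ) * Real.log Cq ≤ C ∧ ((E * K₀ : ℕ) : ℝ) ≤ C :=
     ⟨max 1 (max (Real.log ((N + 1) * (K₀ + 1)) + (E * K₀ : ℕ) * Real.log Cq) (E * K₀ : ℕ)),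
       le_max_left _ _, (le_max_left _ _).trans (le_max_right _ _),
       (le_max_right _ _).trans (le_max_right _ _)⟩
   refine ⟨C, K₀ + 1, hC1, fun Φ g U A γ H => ?_⟩
   have hA := H.A_nn
   have hA1 : 1 ≤ Real.exp A := Real.one_le_exp hA
   obtain ⟨R, hR⟩ : ∃ R, R = (Cq * Real.exp A) ^ E := ⟨_, rfl⟩
   have hb1 : 1 ≤ Cq * Real.exp A := by nlinarith only [hCq1, hA1]
   have hRb : Cq * Real.exp A ≤ R := by
     rw [hR]
     exact le_self_pow₀ hb1 (by omega)
   have hR1 : 1 ≤ R := hb1.trans hRb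
   have hRA : Real.exp A ≤ R := le_trans (by nlinarith only [hCq1, hA1]) hRb
   -- the size of the constants
   have hbig : ∀ c : ℝ, 0 ≤ c → c ≤ (N + 1) * (K₀ + 1) → c * R ^ K₀ ≤
       Real.exp (C * (A + 1)) := by
     intro c hc hcN
     have h0 : (0 : ℝ) < (N + 1) * (K₀ + 1) := by positivity
     have h1 : R ^ K₀ = Real.exp ((E * K₀ : ℕ) * Real.log Cq + (E * K₀ : ℕ) * A) := by
       have hl : Real.exp ((E * K₀ : ℕ) * Real.log Cq) = Cq ^ (E * K₀) := by
         rw [Real.exp_nat_mul, Real.exp_log (by linarith only [hCq1])]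
       have ha : Real.exp ((E * K₀ : ℕ) * A) = Real.exp A ^ (E * K₀) := Real.exp_nat_mul A _
       rw [hR, ← pow_mul, mul_pow, Real.exp_add, hl, ha]
     calc c * R ^ K₀ ≤ (N + 1) * (K₀ + 1) * R ^ K₀ :=
           mul_le_mul_of_nonneg_right hcN (by positivity)
       _ = Real.exp (Real.log ((N + 1) * (K₀ + 1)) + ((E * K₀ : ℕ) * Real.log Cq +
             (E * K₀ : ℕ) * A)) := by
           rw [h1, Real.exp_add (Real.log _), Real.exp_log h0]
       _ ≤ Real.exp (C * (A + 1)) := by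
           refine Real.exp_le_exp.2 ?_
           have : ((E * K₀ : ℕ) : ℝ) * A ≤ C * A := mul_le_mul_of_nonneg_right hCE hA
           linarith only [hCB, this]
   -- the charts
   exact by
    obtain ⟨S, hS⟩ : ∃ S : Finset (Fin n), S = Finset.univ.filter fun i : Fin n => (i : ℕ) ∉ U :=
      ⟨_, rfl⟩
    have hmS : ∀ i : Fin n, i ∈ S ↔ (i : ℕ) ∉ U := fun i => by
      rw [hS, Finset.mem_filter]
      exact ⟨fun h => h.2, fun h => ⟨Finset.mem_univ i, h⟩⟩
    have hcard : Sᶜ.card ≤ r := by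
      refine le_trans ?_ H.card
      rw [← Finset.card_map Fin.valEmbedding]
      refine Finset.card_le_card fun x hx => ?_
      obtain ⟨i, hi, rfl⟩ := Finset.mem_map.1 hx
      rw [Finset.mem_compl, hmS, not_not] at hi
      exact hi
    have hch : Chart D₁ r S R (Real.exp (-γ)) (fun j i => Real.exp (g j i - g (j + 1) i))
        (fun j i => toF n (tr g Φ j i)) := by
      refine ⟨hR1, (Real.exp_pos _).le, fun j hj i l hl => ?_, fun j hj i => ⟨?_, ?_⟩,
        fun j hj i hi => ⟨(Real.exp_pos _).ne', ?_⟩, fun j hj i hi => ?_⟩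
      · have h1 := toF_vars ((H.tr_vars hj i).trans (range_mono i.2.le)) hl
        exact Fin.lt_def.2 (mem_range.1 (H.tr_vars hj i h1))
      · refine (toF_deg ((H.tr_vars hj i).trans (range_mono i.2.le))).trans ?_
        have := H.tr_deg hj i.2
        omega
      · refine T6.toF_cb ((H.tr_vars hj i).trans (range_mono i.2.le)) fun e => ?_
        have h1 := (T6.coeff_le_nrm d1 (tr g Φ j i) e).trans (htr r Φ g U A γ H j hj i i.2)
        have h2 : C₂ * Real.exp A ≤ Cq * Real.exp A :=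
          mul_le_mul_of_nonneg_right (by rw [hCq]; exact le_max_right _ _) (Real.exp_pos _).le
        have h3 : R ≤ D₁ * R ^ D₁ := by
          have h4 : R ≤ R ^ D₁ := le_self_pow₀ hR1 (by omega)
          have h5 : (1 : ℝ) ≤ D₁ := by
            have : 1 ≤ D₁ := by omega
            exact_mod_cast this
          have h6 : 0 ≤ R ^ D₁ := by positivity
          nlinarith only [h5, h4, hb1, hRb]
        linarith only [hRb, h1, h2, h3]
      · rw [← Real.exp_neg, abs_of_pos (Real.exp_pos _)]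
        refine le_trans (Real.exp_le_exp.2 ?_) hRA
        have := H.hi j hj i i.2 ((hmS i).1 hi)
        linarith only [this]
      · rw [abs_of_pos (Real.exp_pos _)]
        refine Real.exp_le_exp.2 ?_
        have hiU : (i : ℕ) ∈ U := by
          by_contra h
          exact hi ((hmS i).2 h)
        have := H.dyn j hj i i.2 hiU
        linarith only [this]
    exact by
     obtain ⟨Θ, hΘ1, hΘ2, hΘ3, hΘ4⟩ := hK₁ S hcard R _ _ _ hch
     refine ⟨fun i => if i ∈ U then (if h : i < n then rename (Fin.val : Fin n → ℕ) (Θ ⟨i, h⟩)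
       else 0) else X i, fun i hi => if_neg hi, fun i hi l hl => ?_, fun i => ?_, fun i => ?_,
       fun b hb i hi => ?_⟩
     · dsimp only at hl
       rw [if_pos hi] at hl
       split_ifs at hl with h
       · obtain ⟨l', hl', rfl⟩ := mem_vars_rename _ _ hl
         have h1 := hΘ2 ⟨i, h⟩ l' hl'
         have h2 : (l' : ℕ) ∉ U := (hmS l').1 h1.1
         have h3 : (l' : ℕ) ≤ i := Fin.le_def.1 h1.2
         exact ⟨lt_of_le_of_ne h3 fun h4 => h2 (h4 ▸ hi), h2⟩
       · rw [vars_0] at hl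
         exact absurd hl (Finset.notMem_empty l)
     · dsimp only
       split_ifs with h1 h2
       · exact (totalDegree_rename_le _ _).trans ((hΘ3 _).1.trans (by have := hK₀S S; omega))
       · rw [totalDegree_zero]
         exact Nat.zero_le _
       · rw [totalDegree_X]
         omega
     · dsimp only
       have hexp1 : 1 ≤ Real.exp (C * (A + 1)) := Real.one_le_exp (by positivity)
       split_ifs with h1 h2
       · have h3 : CB (Θ ⟨i, h2⟩) ((K₀ : ℝ) * R ^ K₀) := cb_mono (hΘ3 _).2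
           (kr_mono (hK₀S S) hR1)
         refine (hN _ _ (by positivity) ((hΘ3 _).1.trans (hK₀S S)) h3).trans ?_
         rw [← mul_assoc]
         exact hbig _ (by positivity) (by nlinarith only)
       · rw [NRM.nrm_zero]
         exact (Real.exp_pos _).le
       · rw [NRM.nrm_X]
         rw [one_pow]
         exact hexp1
     · -- the point
       have hpt : Pt r R (Real.exp (-γ)) (fun j (i : Fin n) => Real.exp (g j i - g (j + 1) i))
           (fun j (i : Fin n) => toF n (tr g Φ j i)) (fun j i => zt (g j) (Φ j) b i) := by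
         refine ⟨fun j hj i => ?_, fun j hj i => ?_⟩
         · refine (hbox r Φ g U A γ H b hb (r - j) j (by omega) i i.2).trans ?_
           rw [hR]
           refine (pow_le_pow_left₀ (by positivity) (mul_le_mul_of_nonneg_right hC1q
             (Real.exp_pos _).le) _).trans ?_
           refine pow_le_pow_right₀ hb1 ?_
           rw [hE]
           exact Es_mono _ (Nat.sub_le r j)
         · have h1 := H.rel hj b i
           have h2 : eval (fun l : Fin n => zt (g (j + 1)) (Φ (j + 1)) b l) (toF n (tr g Φ j i)) =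
               eval (zt (g (j + 1)) (Φ (j + 1)) b) (tr g Φ j i) :=
             T6.toF_eval ((H.tr_vars hj i).trans (range_mono i.2.le)) _
           rw [h2, ← h1, sub_self, abs_zero]
           exact (Real.exp_pos _).le
       dsimp only
       split_ifs with h1
       · have h2 := hΘ4 _ hpt ⟨i, hi⟩
         have h3 : eval (zt (g 0) (Φ 0) b) (rename (Fin.val : Fin n → ℕ) (Θ ⟨i, hi⟩)) =
             eval (fun l : Fin n => zt (g 0) (Φ 0) b l) (Θ ⟨i, hi⟩) := by
           rw [eval_rename]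
           rfl
         rw [h3]
         refine h2.trans ?_
         have h4 : (K₁ S : ℝ) * R ^ K₁ S ≤ K₀ * R ^ K₀ := kr_mono (hK₀S S) hR1
         have h5 : (K₀ : ℝ) * R ^ K₀ ≤ Real.exp (C * (A + 1)) := hbig _ (by positivity)
           (by nlinarith only)
         rw [sub_eq_add_neg, Real.exp_add]
         exact mul_le_mul_of_nonneg_right (h4.trans h5) (Real.exp_pos _).le
       · rw [eval_X, sub_self, abs_zero]
         exact (Real.exp_pos _).le

end Pool.STAT
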